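import Pool.Agent.WFC.GStb
import Pool.Agent.TInc.Riem

/-!
# Ramification
-/

set_option autoImplicit false

noncomputable section

namespace Pool.Agent.WFC

open Pool.Agent.EFC
open Pool.Agent.ZCyc

variable {k L : Type} [Field k] [IsAlgClosed k] [CharZero k] [Field L] [Algebra k L]
  (G : Subgroup (L ≃ₐ[k] L)) [Finite G]

/-- the order at a point of `C'` is a multiple of the order at the point below -/
private theorem gord_mul (hL : IsCurve k L) (c : Place k L) : ∃ e : ℤ, 0 < e ∧
    ∀ f : IntermediateField.fixedField G, f ≠ 0 →
      TInc.ord c (f : L) = e * TInc.ord (below G c) f := by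
  have hK := fix_curve G hL
  obtain ⟨w, hw⟩ := Dess.exists_unif hK (below G c)
  have hw0 : (w : L) ≠ 0 := fun h => hw.1 (by exact_mod_cast h)
  have h1 : TInc.ord (below G c) w = 1 := TInc.ord_unif hK hw
  have h2 : (w⁻¹ : IntermediateField.fixedField G) ∉ (below G c).ring := by
    intro h
    rw [TInc.mem_iff_ord hK (inv_ne_zero hw.1), TInc.ord_inv hK, h1] at h
    omega
  refine ⟨TInc.ord c (w : L), ?_, ?_⟩
  · rw [mem_below] at h2
    have h3 : ((w⁻¹ : IntermediateField.fixedField G) : L) = (w : L)⁻¹ := by push_cast; rfl
    rw [h3, TInc.mem_iff_ord hL (inv_ne_zero hw0), TInc.ord_inv hL] at h2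
    omega
  · intro f hf
    obtain ⟨h3, h4⟩ := TInc.ord_unit hK hw hf
    set n := TInc.ord (below G c) f with hn
    have hf0 : (f : L) ≠ 0 := fun h => hf (by exact_mod_cast h)
    have hu0 : ((f / w ^ n : IntermediateField.fixedField G) : L) ≠ 0 := by
      intro h
      have h5 : (f / w ^ n : IntermediateField.fixedField G) = 0 := by exact_mod_cast h
      exact div_ne_zero hf (zpow_ne_zero n hw.1) h5
    rw [mem_below] at h3 h4
    have h5 : TInc.ord c ((f / w ^ n : IntermediateField.fixedField G) : L) = 0 := by
      rw [TInc.ord_eq_zero_iff hL hu0]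
      refine ⟨h3, ?_⟩
      have h6 : ((f / w ^ n : IntermediateField.fixedField G) : L)⁻¹ =
          (((f / w ^ n)⁻¹ : IntermediateField.fixedField G) : L) := by push_cast; rfl
      rw [h6]
      exact h4
    have h6 : (f : L) = ((f / w ^ n : IntermediateField.fixedField G) : L) * (w : L) ^ n := by
      have h7 : f = f / w ^ n * w ^ n := by
        rw [div_mul_cancel₀]
        exact zpow_ne_zero n hw.1
      calc (f : L) = ((f / w ^ n * w ^ n : IntermediateField.fixedField G) : L) := by rw [← h7]
        _ = _ := by push_cast; rfl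
    rw [h6, TInc.ord_mul hL c hu0 (zpow_ne_zero n hw0), h5, TInc.ord_zpow hL]
    ring

/-- a function on `C` whose only pole is the given point -/
private theorem gord_pole {K : Type} [Field K] [Algebra k K] (hK : IsCurve k K)
    (q : Place k K) : ∃ φ : K, Transcendental k φ ∧ ∀ v : Place k K, v = q ↔ φ ∉ v.ring := by
  obtain ⟨g, hg⟩ := TInc.exists_genus hK
  obtain ⟨h1, h2⟩ := hg (Finsupp.single q ((g : ℤ) + 1))
  have h3 : TInc.deg (Finsupp.single q ((g : ℤ) + 1)) = g + 1 := by
    unfold TInc.deg
    rw [Finsupp.sum_single_index rfl]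
  rw [h3] at h2
  have h4 : 1 < Module.finrank k (TInc.LD hK (Finsupp.single q ((g : ℤ) + 1))) := by omega
  have h5 : ∃ φ ∈ TInc.LD hK (Finsupp.single q ((g : ℤ) + 1)),
      ∀ a : k, φ ≠ algebraMap k K a := by
    by_contra hcon
    push Not at hcon
    have h6 : TInc.LD hK (Finsupp.single q ((g : ℤ) + 1)) ≤
        LinearMap.range (Algebra.linearMap k K) := by
      intro f hf
      obtain ⟨a, ha⟩ := hcon f hf
      exact ⟨a, ha.symm⟩
    have h7 : Module.finrank k (LinearMap.range (Algebra.linearMap k K)) = 1 := by
      rw [LinearMap.finrank_range_of_inj (algebraMap k K).injective, Module.finrank_self]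
    have h9 : FiniteDimensional k (LinearMap.range (Algebra.linearMap k K)) :=
      Module.finite_of_finrank_pos (by rw [h7]; exact one_pos)
    have h8 := Submodule.finrank_mono h6
    omega
  obtain ⟨φ, hφ, hc⟩ := h5
  rw [TInc.mem_LD] at hφ
  have hφ0 : φ ≠ 0 := by
    intro h
    apply hc 0
    rw [h, map_zero]
  have h6 : ∀ v : Place k K, v ≠ q → φ ∈ v.ring := by
    intro v hv
    rw [TInc.mem_iff_ord hK hφ0]
    have := hφ hφ0 v
    classical
    rw [Finsupp.single_apply, if_neg (Ne.symm hv)] at this
    omega
  refine ⟨φ, TInc.transc_of_ne hK hc, fun v => ⟨?_, ?_⟩⟩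
  · rintro rfl h
    obtain ⟨a, ha⟩ := TInc.const_of_regular hK (f := φ) (fun v' => by
      by_cases hv : v' = v
      · rw [hv]; exact h
      · exact h6 v' hv)
    exact hc a ha
  · intro h
    by_contra hv
    exact h (h6 v hv)

/-- the degree over a subfield generated by an invariant function -/
private theorem gord_deg (φ : IntermediateField.fixedField G) :
    Module.finrank (IntermediateField.adjoin k {(φ : L)}) L =
      Module.finrank (IntermediateField.adjoin k {φ}) (IntermediateField.fixedField G) *
        Nat.card G := by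
  have h1 : (IntermediateField.adjoin k {φ}).map (IntermediateField.fixedField G).val =
      IntermediateField.adjoin k {(φ : L)} := by
    rw [IntermediateField.adjoin_map, Set.image_singleton]
    rfl
  have h2 : (⊤ : IntermediateField k (IntermediateField.fixedField G)).map
      (IntermediateField.fixedField G).val = IntermediateField.fixedField G := by
    rw [← AlgHom.fieldRange_eq_map, IntermediateField.fieldRange_val]
  have h3 : IntermediateField.relfinrank (IntermediateField.adjoin k {(φ : L)})
      (IntermediateField.fixedField G) = Module.finrank (IntermediateField.adjoin k {φ})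
        (IntermediateField.fixedField G) := by
    have h4 := IntermediateField.relfinrank_map_map (IntermediateField.adjoin k {φ}) ⊤
      (IntermediateField.fixedField G).val
    rw [h1, h2, IntermediateField.relfinrank_top_right] at h4
    exact h4
  have h5 : IntermediateField.adjoin k {(φ : L)} ≤ IntermediateField.fixedField G := by
    rw [IntermediateField.adjoin_le_iff, Set.singleton_subset_iff]
    exact φ.2
  rw [← IntermediateField.relfinrank_mul_finrank_top h5, h3, fix_finrank]

/-- The order of a function on `C` at a point of `C'`. Proof. Let `q = below c`, `w` a uniformizer of `K` at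
`q`, `e = ord_c w ≥ 1`. Then `ord_c f = e ord_q f` for all `f ∈ K` (`f = w ^ n u`, `u` a unit at `q`). By
`exists_map_eq` and `ord_map` the number `e` is the same for all places above `q`. Choose a nonconstant
`φ ∈ K` whose only pole is `q`: `TInc.exists_genus` for `K` gives Riemann's inequality, so the space
`L(N q)` has dimension at least two for large `N`. By `TInc.deg_poles'` for `L` and for `K`,
`[L : k(φ)] = ∑ c' (above q), e (-ord_q φ)` and `[K : k(φ)] = -ord_q φ`, so `e` times the number of the
places above `q` is `[L : K] = |G|` (`fix_finrank`, multiplicativity of degrees for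
`k(φ) ⊆ K ⊆ L`; the field `k(φ)` in `K` and in `L` has to be compared, for example by
`IntermediateField.map` or with the tower of modules over `IntermediateField.adjoin k {φ}`).
Now `card_above`. -/
theorem ord_below (hL : IsCurve k L) (c : Place k L) {f : IntermediateField.fixedField G}
    (hf : f ≠ 0) : TInc.ord c (f : L) = stb G c * TInc.ord (below G c) f := by
  classical
  have hK := fix_curve G hL
  obtain ⟨e, he, hef⟩ := gord_mul G hL c
  obtain ⟨φ, hφt, hφ⟩ := gord_pole hK (below G c)
  have hφ0 : φ ≠ 0 := by
    rintro rfl
    exact hφt isAlgebraic_zero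
  have hφL : Transcendental k (φ : L) := by
    intro h
    apply hφt
    exact (isAlgebraic_algebraMap_iff (R := k) (A := L)
      (algebraMap (IntermediateField.fixedField G) L).injective).1 h
  -- the poles of `φ` on `C'`
  have hfin : {c' : Place k L | below G c' = below G c}.Finite := by
    apply (TInc.finite_ord hL (φ : L)).subset
    intro c' hc' h0
    rw [Set.mem_ofPred_eq] at hc'
    have h1 : φ ∉ (below G c').ring := (hφ _).1 hc'
    rw [mem_below] at h1
    have hφL0 : (φ : L) ≠ 0 := fun h => hφ0 (by exact_mod_cast h)
    rw [TInc.mem_iff_ord hL hφL0, h0] at h1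
    exact h1 le_rfl
  have hS : ∀ v, v ∈ hfin.toFinset ↔ (φ : L) ∉ v.ring := by
    intro v
    rw [Set.Finite.mem_toFinset, Set.mem_ofPred_eq, hφ, mem_below]
  have h1 := TInc.deg_poles' hL hφL hfin.toFinset hS
  have h2 := TInc.deg_poles' hK hφt {below G c} (fun v => by rw [Finset.mem_singleton, hφ])
  rw [Finset.sum_singleton] at h2
  have h3 : ∀ v ∈ hfin.toFinset, -TInc.ord v (φ : L) = e * -TInc.ord (below G c) φ := by
    intro v hv
    rw [Set.Finite.mem_toFinset, Set.mem_ofPred_eq] at hv
    obtain ⟨g, rfl⟩ := exists_map_eq G hL hv.symm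
    have h4 : g.1 (φ : L) = φ := (mem_fix_iff G _).1 φ.2 g
    have h5 := ord_map hL c g.1 (φ : L)
    rw [h4] at h5
    rw [h5, hef φ hφ0]
    ring
  rw [Finset.sum_congr rfl h3, Finset.sum_const, nsmul_eq_mul, h2, gord_deg G φ] at h1
  have h4 : Nat.card {c' : Place k L // below G c' = below G c} = hfin.toFinset.card :=
    Nat.card_eq_card_finite_toFinset hfin
  have h5 := card_above G hL c
  rw [h4] at h5
  have hpos : 0 < Module.finrank (IntermediateField.adjoin k {φ})
      (IntermediateField.fixedField G) := by
    have h6 : ¬ 0 ≤ TInc.ord (below G c) φ := by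
      rw [← TInc.mem_iff_ord hK hφ0]
      exact (hφ _).1 rfl
    omega
  have hG : 0 < Nat.card G := Nat.card_pos
  have hcard : 0 < hfin.toFinset.card := by
    rw [← h5] at hG
    exact Nat.pos_of_mul_pos_right hG
  have h6 : (e : ℤ) = stb G c := by
    have h7 : (hfin.toFinset.card : ℤ) * e * (Module.finrank (IntermediateField.adjoin k {φ})
      (IntermediateField.fixedField G)) = (hfin.toFinset.card : ℤ) * (stb G c) *
      (Module.finrank (IntermediateField.adjoin k {φ}) (IntermediateField.fixedField G)) := by
      have h8 : ((hfin.toFinset.card * stb G c : ℕ) : ℤ) = Nat.card G := by rw [h5]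
      push_cast at h8 h1
      rw [h8]
      linear_combination h1
    have h9 := mul_right_cancel₀ (by exact_mod_cast hpos.ne') h7
    exact mul_left_cancel₀ (by exact_mod_cast hcard.ne') h9
  rw [hef f hf, h6]

end Pool.Agent.WFC
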