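import Pool.Agent.WFC.Value

/-!
# The action of the group on the points

Everything in this file is elementary. `c.map g` is the image of the place `c` under the automorphism `g`
(`Pool.Agent.ZCyc.Place.map`, the ring is `c.ring.comap g.symm`), see `Place.at_map`.
-/

set_option autoImplicit false

noncomputable section

namespace Pool.Agent.WFC

open Pool.Agent.EFC
open Pool.Agent.ZCyc
open Pool.Agent.VFP (Om tt)

section places

variable {k L : Type} [Field k] [Field L] [Algebra k L]

theorem mem_map_iff (c : Place k L) (g : L ≃ₐ[k] L) (f : L) :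
    g f ∈ (c.map g).ring ↔ f ∈ c.ring := by
  rw [Place.mem_map, AlgEquiv.symm_apply_apply]

theorem pmap_one (c : Place k L) : c.map (1 : L ≃ₐ[k] L) = c := Place.map_one c

theorem pmap_mul (c : Place k L) (g h : L ≃ₐ[k] L) : (c.map h).map g = c.map (g * h) :=
  Place.map_map c h g

theorem at_map_iff (c : Place k L) (g : L ≃ₐ[k] L) (f : L) (a : k) :
    (c.map g).At (g f) a ↔ c.At f a := by
  rw [Place.at_map, AlgEquiv.symm_apply_apply]

open Classical in
private def pick (P : k → Prop) : k := if h : ∃ a : k, P a then h.choose else 0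

private theorem val_eq_pick (c : Place k L) (f : L) :
    val c f = pick fun a : k => c.Vanishes (f - algebraMap k L a) := rfl

theorem val_map (c : Place k L) (g : L ≃ₐ[k] L) (f : L) : val (c.map g) (g f) = val c f := by
  rw [val_eq_pick, val_eq_pick]
  congr 1
  funext a
  exact propext (at_map_iff c g f a)

theorem isUnif_map {c : Place k L} {π : L} (h : IsUnif c π) (g : L ≃ₐ[k] L) :
    IsUnif (c.map g) (g π) := by
  obtain ⟨h1, h2, h3⟩ := h
  refine ⟨(map_ne_zero g).2 h1, ?_, fun f hf => ?_⟩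
  · rw [Place.vanishes_map, AlgEquiv.symm_apply_apply]
    exact h2
  · rw [Place.vanishes_map] at hf
    have h4 := h3 _ hf
    rw [Place.mem_map, map_div₀, AlgEquiv.symm_apply_apply]
    exact h4

theorem ord_map [IsAlgClosed k] [CharZero k] (hL : IsCurve k L) (c : Place k L) (g : L ≃ₐ[k] L)
    (f : L) : TInc.ord (c.map g) (g f) = TInc.ord c f := by
  by_cases hf : f = 0
  · rw [hf, map_zero, TInc.ord_zero, TInc.ord_zero]
  · apply TInc.ord_eq hL.dess ((map_ne_zero g).2 hf)
    obtain ⟨π, h1, h2, h3⟩ := TInc.ord_hasOrd hL.dess c hf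
    refine ⟨g π, isUnif_map h1 g, ?_, ?_⟩
    · rw [← map_zpow₀, ← map_div₀, mem_map_iff]
      exact h2
    · rw [← map_zpow₀, ← map_div₀, ← map_inv₀, mem_map_iff]
      exact h3

end places

variable {k : Type} [Field k] [IsAlgClosed k] [CharZero k] {X : WC k}

/-- the quotient of two uniformizers is a unit: its value is not zero -/
theorem kap_ne (g : X.G) (c : Place k X.L) : X.kap g c ≠ 0 := by
  have h1 := isUnif_map (unif_spec X.curve c) g.1
  have h2 := unif_spec X.curve (c.map g.1)
  have h3 : unif (c.map g.1) / g.1 (unif c) ∈ (c.map g.1).ring := h1.2.2 _ h2.2.1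
  have h4 : g.1 (unif c) / unif (c.map g.1) ∈ (c.map g.1).ring := h2.2.2 _ h1.2.1
  have h5 := (at_val X.curve h3).mul (at_val X.curve h4)
  rw [div_mul_div_cancel₀ h1.1, div_self h2.1] at h5
  intro h0
  change val (c.map g.1) (unif (c.map g.1) / g.1 (unif c)) = 0 at h0
  rw [h0, zero_mul] at h5
  have h6 := (Place.at_const (v := c.map g.1) (1 : k))
  rw [map_one] at h6
  exact one_ne_zero (h6.unique h5)

private theorem at_kap (g : X.G) (c : Place k X.L) :
    (c.map g.1).At (unif (c.map g.1) / g.1 (unif c)) (X.kap g c) := by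
  have h1 := isUnif_map (unif_spec X.curve c) g.1
  have h2 := unif_spec X.curve (c.map g.1)
  exact at_val X.curve (h1.2.2 _ h2.2.1)

omit [IsAlgClosed k] [CharZero k] in
private theorem at_zpow {L : Type} [Field L] [Algebra k L] {c : Place k L} {f : L} {a : k}
    (h : c.At f a) (ha : a ≠ 0) (n : ℤ) : c.At (f ^ n) (a ^ n) := by
  obtain ⟨l, rfl | rfl⟩ := Int.eq_nat_or_neg n
  · rw [zpow_natCast, zpow_natCast]
    exact h.pow l
  · rw [zpow_neg, zpow_neg, zpow_natCast, zpow_natCast]
    exact (h.pow l).inv (pow_ne_zero l ha)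

private theorem coef_act (g : X.G) (c : Place k X.L) {f : X.L} {n : ℤ}
    (hf : f * unif c ^ n ∈ c.ring) :
    val (c.map g.1) (g.1 f * unif (c.map g.1) ^ n) = X.kap g c ^ n * val c (f * unif c ^ n) := by
  have h1 : (c.map g.1).At (g.1 (f * unif c ^ n)) (val c (f * unif c ^ n)) := by
    rw [at_map_iff]
    exact at_val X.curve hf
  have h2 := (at_zpow (at_kap g c) (kap_ne g c) n).mul h1
  apply val_eq
  have hne : g.1 (unif c) ≠ 0 := (map_ne_zero g.1).2 (unif_ne X.curve c)
  have e : g.1 f * unif (c.map g.1) ^ n =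
      (unif (c.map g.1) / g.1 (unif c)) ^ n * g.1 (f * unif c ^ n) := by
    have hn := zpow_ne_zero n hne
    rw [map_mul, map_zpow₀, div_zpow]
    generalize g.1 (unif c) ^ n = a at hn
    generalize unif (c.map g.1) ^ n = b
    field_simp
  rw [e]
  exact h2

/-- `A_(g i) π' ^ (2 D) = g (A_i π ^ (2 D)) (π' / g π) ^ (2 D)`, where `π`, `π'` are the uniformizers at `c` and
at `g c`, and `D = D_i(c) = D_(g i)(g c)`; take the values at `g c` (`X.regA`). -/
theorem coA_act (g : X.G) (c : Place k X.L) (i : Fin X.N) :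
    X.coA (c.map g.1) (X.gal g i) = X.kap g c ^ (2 * X.D i c) * X.coA c i := by
  unfold WC.coA
  rw [← X.gal_A, X.gal_D]
  exact coef_act g c (X.regA i c)

theorem coB_act (g : X.G) (c : Place k X.L) (i : Fin X.N) :
    X.coB (c.map g.1) (X.gal g i) = X.kap g c ^ (3 * X.D i c) * X.coB c i := by
  unfold WC.coB
  rw [← X.gal_B, X.gal_D]
  exact coef_act g c (X.regB i c)

private theorem unit_sq' {K : Type*} [Field K] (e : ℤˣ) : (((e : ℤˣ) : ℤ) : K) ^ 2 = 1 := by
  rcases Int.units_eq_one_or e with h | h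
  · rw [h]; simp
  · rw [h]; simp

omit [IsAlgClosed k] [CharZero k] in
private theorem fac_act {κ : k} (hκ : κ ≠ 0) (D : ℤ) (a b x z : k) :
    fac (κ ^ (2 * D) * a) (κ ^ (3 * D) * b) (κ ^ D * x) z = κ ^ (3 * D) * fac a b x z := by
  have e2 : κ ^ (2 * D) = (κ ^ D) ^ 2 := by
    rw [mul_comm, zpow_mul]
    norm_cast
  have e3 : κ ^ (3 * D) = (κ ^ D) ^ 3 := by
    rw [mul_comm, zpow_mul]
    norm_cast
  have _ := hκ
  unfold fac
  rw [e2, e3]
  ring

omit [IsAlgClosed k] [CharZero k] in
private theorem prod_zpow' {I : Type*} (S : Finset I) {p : k} (hp : p ≠ 0) (e : I → ℤ) :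
    ∏ i ∈ S, p ^ e i = p ^ ∑ i ∈ S, e i := by
  classical
  induction S using Finset.induction_on with
  | empty => simp
  | insert a S ha ih => rw [Finset.prod_insert ha, Finset.sum_insert ha, ih, zpow_add₀ hp]

/-- `G` acts on `X'`: use `coA_act`, `coB_act` for the index `g⁻¹ i`, `gal_blk` (reindex the product by
`X.gal g`), and `X.ev`: `2 * (3 * (∑ / 2)) = 3 * ∑`. -/
theorem on_act {w : Crd X} (hw : w.On) (g : X.G) : (w.act g).On := by
  have hκ := kap_ne g w.c
  refine ⟨fun i => ?_, fun b => ?_⟩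
  · rcases hw.1 ((X.gal g)⁻¹ i) with h1 | h1
    · exact Or.inl (mul_ne_zero (zpow_ne_zero _ hκ) h1)
    · exact Or.inr h1
  · change (((X.sgb g b : ℤ) : k) * X.kap g w.c ^ (3 * ((∑ i with X.blk i = b, X.D i w.c) / 2)) *
      w.y b) ^ 2 = ∏ i with X.blk i = b, fac (X.coA (w.c.map g.1) i) (X.coB (w.c.map g.1) i)
        (X.kap g w.c ^ X.D ((X.gal g)⁻¹ i) w.c * w.x ((X.gal g)⁻¹ i)) (w.z ((X.gal g)⁻¹ i))
    have hre : ∏ i with X.blk i = b, fac (X.coA (w.c.map g.1) i) (X.coB (w.c.map g.1) i)
        (X.kap g w.c ^ X.D ((X.gal g)⁻¹ i) w.c * w.x ((X.gal g)⁻¹ i)) (w.z ((X.gal g)⁻¹ i)) =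
        ∏ j with X.blk j = b, X.kap g w.c ^ (3 * X.D j w.c) *
          fac (X.coA w.c j) (X.coB w.c j) (w.x j) (w.z j) := by
      symm
      refine Finset.prod_equiv (X.gal g) (fun j => ?_) fun j _ => ?_
      · rw [Finset.mem_filter, Finset.mem_filter, X.gal_blk]
        simp
      · have h1 : (X.gal g)⁻¹ (X.gal g j) = j := (X.gal g).symm_apply_apply j
        rw [h1, coA_act, coB_act, fac_act hκ]
    rw [hre, Finset.prod_mul_distrib, prod_zpow' _ hκ, ← hw.2 b, ← Finset.mul_sum]
    obtain ⟨n, hn⟩ := X.ev b w.c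
    rw [hn]
    have e1 : (n + n) / 2 = n := by omega
    rw [e1]
    have e2 : X.kap g w.c ^ (3 * (n + n)) = (X.kap g w.c ^ (3 * n)) ^ 2 := by
      rw [show 3 * (n + n) = 3 * n * 2 by ring, zpow_mul]
      norm_cast
    rw [e2, mul_pow, mul_pow, unit_sq', one_mul]

/-- the action commutes with the changes of signs -/
theorem sg_act (ε : Fin X.r → ℤˣ) (g : X.G) (w : Crd X) : (w.sg ε).act g = (w.act g).sg ε := by
  refine Crd.ext rfl rfl rfl ?_
  funext b
  simp only [Crd.sg, Crd.act]
  ring

/-- The action without the signs of the permutations. -/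
def Crd.acu (g : X.G) (w : Crd X) : Crd X where
  c := w.c.map g.1
  x i := X.kap g w.c ^ X.D ((X.gal g)⁻¹ i) w.c * w.x ((X.gal g)⁻¹ i)
  z i := w.z ((X.gal g)⁻¹ i)
  y b := X.kap g w.c ^ (3 * ((∑ i with X.blk i = b, X.D i w.c) / 2)) * w.y b

theorem act_eq (g : X.G) (w : Crd X) : w.act g = (w.acu g).sg (X.sgb g) := by
  refine Crd.ext rfl rfl rfl ?_
  funext b
  simp only [Crd.sg, Crd.act, Crd.acu]
  ring

theorem on_acu {w : Crd X} (hw : w.On) (g : X.G) : (w.acu g).On := by
  have h1 : w.acu g = (w.act g).sg (X.sgb g) := by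
    rw [act_eq, sg_sg]
    have h2 : X.sgb g * X.sgb g = 1 := by
      funext b
      exact Int.units_mul_self _
    rw [h2, sg_one]
  rw [h1]
  exact on_sg (on_act hw g) _

private theorem sign_blocks {N r : ℕ} (blk : Fin N → Fin r) (σ : Equiv.Perm (Fin N))
    (h : ∀ i, blk (σ i) = blk i) (S : Finset (Fin r)) :
    ∃ τ : Equiv.Perm (Fin N), (∀ i, τ i = if blk i ∈ S then σ i else i) ∧
      Equiv.Perm.sign τ = ∏ b ∈ S, Equiv.Perm.sign (σ.subtypePerm (p := fun i => blk i = b)
        fun i => by rw [h]) := by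
  induction S using Finset.induction_on with
  | empty => exact ⟨1, fun i => by simp, by simp⟩
  | insert a S ha ih =>
    obtain ⟨τ, h1, h2⟩ := ih
    refine ⟨Equiv.Perm.ofSubtype (σ.subtypePerm (p := fun i => blk i = a)
      fun i => by rw [h]) * τ, fun i => ?_, ?_⟩
    · rw [Equiv.Perm.mul_apply, h1]
      by_cases hi : blk i ∈ S
      · have hia : blk (σ i) ≠ a := by
          rw [h]
          rintro rfl
          exact ha hi
        rw [if_pos hi, if_pos (Finset.mem_insert_of_mem hi),
          Equiv.Perm.ofSubtype_apply_of_not_mem (p := fun i => blk i = a) _ hia]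
      · rw [if_neg hi]
        by_cases hia : blk i = a
        · rw [if_pos (by rw [hia]; exact Finset.mem_insert_self _ _),
            Equiv.Perm.ofSubtype_apply_of_mem (p := fun i => blk i = a) _ hia]
          rfl
        · rw [Equiv.Perm.ofSubtype_apply_of_not_mem (p := fun i => blk i = a) _ hia, if_neg]
          rw [Finset.mem_insert]
          tauto
    · rw [Finset.prod_insert ha, Equiv.Perm.sign_mul, Equiv.Perm.sign_ofSubtype, h2]

/-- The sign of a permutation which maps all blocks into themselves is the product of the signs of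
the permutations of the blocks. Proof: the permutation is conjugate to the permutation
`Equiv.Perm.sigmaCongrRight` of the type `Σ b, {i // X.blk i = b}` (`Equiv.sigmaFiberEquiv`), and
`Equiv.Perm.sign_permCongr`, `Equiv.Perm.sign_sigmaCongrRight`. -/
theorem prod_sgb (g : X.G) : ∏ b, X.sgb g b = Equiv.Perm.sign (X.gal g) := by
  obtain ⟨τ, h1, h2⟩ := sign_blocks X.blk (X.gal g) (X.gal_blk g) Finset.univ
  have h3 : τ = X.gal g := by
    ext i
    rw [h1, if_pos (Finset.mem_univ _)]
  rw [h3] at h2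
  exact h2.symm

/-- The identity of the group acts trivially: `kap 1 c = 1`. -/
theorem act_one (w : Crd X) : w.act 1 = w := by
  have hc : w.c.map ((1 : X.G) : X.L ≃ₐ[k] X.L) = w.c := pmap_one w.c
  have hk : X.kap 1 w.c = 1 := by
    unfold WC.kap kappa
    rw [hc]
    have h1 : ((1 : X.G) : X.L ≃ₐ[k] X.L) (unif w.c) = unif w.c := rfl
    rw [h1, div_self (unif_ne X.curve w.c)]
    apply val_eq
    have h6 := (Place.at_const (v := w.c) (1 : k))
    rwa [map_one] at h6
  have hs : ∀ b, X.sgb 1 b = 1 := by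
    intro b
    unfold WC.sgb blockSign
    have h2 : (X.gal 1).subtypePerm (p := fun i => X.blk i = b) (fun i => by rw [X.gal_blk]) =
        1 := by
      ext i
      simp
    rw [h2, Equiv.Perm.sign_one]
  refine Crd.ext hc ?_ ?_ ?_
  · funext i
    change X.kap 1 w.c ^ X.D ((X.gal 1)⁻¹ i) w.c * w.x ((X.gal 1)⁻¹ i) = w.x i
    rw [hk, one_zpow, one_mul, map_one]
    rfl
  · funext i
    change w.z ((X.gal 1)⁻¹ i) = w.z i
    rw [map_one]
    rfl
  · funext b
    change ((X.sgb 1 b : ℤ) : k) * X.kap 1 w.c ^ (3 * ((∑ i with X.blk i = b, X.D i w.c) / 2)) *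
      w.y b = w.y b
    rw [hk, hs, one_zpow]
    simp

end Pool.Agent.WFC
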