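import Pool.Agent.EFC.Defs

/-!
# Zero-cycles on products of curves and of quotients of fibre products of elliptic surfaces: definitions

Let `k` be an algebraically closed field of characteristic `0`. A smooth projective curve `C'` over `k`
is given by its function field `L`; its points are the places of `L` over `k`. A variety of the class
`WC` is the quotient `X' / G` of a variety `X'` by a finite group `G`, where `G` is a group of
automorphisms of a curve `C'`, and `X'` is equal to `C'`, or it is fibred over `C'` in products of
elliptic curves (or their quotients by even numbers of changes of signs), with an action of `G` which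
permutes the factors of the fibres: elliptic surfaces with section, fibre products of elliptic
surfaces over a curve, the quotients by the even changes of signs of Weil restrictions of elliptic
curves over an extension of the function field of a curve (up to a twist), ... We consider products
`X 0 × ⋯ × X (m - 1)` of such varieties, their zero-cycles, and the morphisms between such products
whose components are constant or a factor followed by fibrewise multiplications by `1`, `-1` or `0`.

The definitions concerning curves (`IsCurve`, `unif`, `val`, `deg`, `genus`) are those of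
`Pool.Agent.EFC.Defs`. The varieties `X'` are given as there; the new parts are the group `G`, the
conditions `gal_*`, `ram`, `even`, `canonical` and `mixed` of `WC`, the action `Crd.act`, the
submodule `ratEqW`, and the factors `|G|` and the genus of `C' / G` in `IsForm`.
-/

set_option autoImplicit false

noncomputable section

namespace Pool.Agent.WFC

open Pool.Agent.ZCyc
open Pool.Agent.VFP (Om tt)
open Pool.Agent.EFC (IsCurve IsUnif unif val deg sections genus fac unifO BaseValue)

universe u

section group

variable {k L : Type u} [Field k] [Field L] [Algebra k L]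

variable (k L) in
/-- The groups of automorphisms of the curve with function field `L`. -/
abbrev AutGp : Type u := Subgroup (L ≃ₐ[k] L)

/-- the elements of the group -/
abbrev El (G : AutGp k L) : Type u := G

/-- the image `g(c)` of the point `c` -/
abbrev mv {G : AutGp k L} (g : El G) (c : Place k L) : Place k L := c.map g.1

/-- the order of the group -/
abbrev order (G : AutGp k L) : ℕ := Nat.card G

/-- the order of the stabilizer of the point `c` -/
abbrev stabC (G : AutGp k L) (c : Place k L) : ℕ := Nat.card {g : G // c.map g.1 = c}

/-- the genus of the quotient `C' / G` of the curve, i.e. of the field of the invariant functions -/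
abbrev genusQ (G : AutGp k L) : ℕ := genus k (IntermediateField.fixedField G)

/-- the actions of the group on the set of the indices `i < N` -/
abbrev Rep (G : AutGp k L) (N : ℕ) : Type u := El G →* Equiv.Perm (Fin N)

variable {G : AutGp k L} {N r : ℕ}

/-- the index `g⁻¹ i` -/
abbrev invIdx (gal : Rep G N) (g : El G) (i : Fin N) : Fin N := (gal g)⁻¹ i

/-- the order of the stabilizer of the point `c` and of the index `i` -/
abbrev stabI (gal : Rep G N) (c : Place k L) (i : Fin N) : ℕ :=
  Nat.card {g : G // c.map g.1 = c ∧ gal g i = i}

/-- the sign of the permutation of the indices of the block `b` -/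
def blockSign (gal : Rep G N) (blk : Fin N → Fin r) (h : ∀ (g : G) (i : Fin N), blk (gal g i) = blk i)
    (g : El G) (b : Fin r) : ℤˣ :=
  Equiv.Perm.sign ((gal g).subtypePerm (p := fun i => blk i = b) fun i => by
    rw [h])

/-- the value at the point `g(c)` of the quotient of the uniformizer at `g(c)` and of the image of the
uniformizer at `c` -/
def kappa (g : El G) (c : Place k L) : k :=
  val (c.map g.1) (unif (c.map g.1) / g.1 (unif c))

/-- the conditions on the data of a variety of the class `WC`, see there -/
structure Conditions (gal : Rep G N) (blk : Fin N → Fin r) (D : Fin N → Place k L →₀ ℤ)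
    (A B : Fin N → L) : Prop where
  gal_blk : ∀ (g : G) (i : Fin N), blk (gal g i) = blk i
  gal_A : ∀ (g : G) (i : Fin N), g.1 (A i) = A (gal g i)
  gal_B : ∀ (g : G) (i : Fin N), g.1 (B i) = B (gal g i)
  gal_D : ∀ (g : G) (i : Fin N) (c : Place k L), D (gal g i) (c.map g.1) = D i c
  ram : ∀ (i : Fin N) (c : Place k L), (stabI gal c i : ℤ) ∣ D i c
  even : ∀ (b : Fin r) (c : Place k L), (2 * stabC G c : ℤ) ∣ ∑ i with blk i = b, D i c
  pos : ∀ b : Fin r, 0 < ∑ i with blk i = b, deg (D i)
  regA : ∀ (i : Fin N) (c : Place k L), A i * unif c ^ (2 * D i c) ∈ c.ring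
  regB : ∀ (i : Fin N) (c : Place k L), B i * unif c ^ (3 * D i c) ∈ c.ring
  disc : ∀ i, 4 * A i ^ 3 + 27 * B i ^ 2 ≠ 0
  canonical : ∀ (c : Place k L) (a b : Fin N → ℕ),
    (∀ i, A i * unif c ^ (2 * D i c - a i) ∈ c.ring ∧
      B i * unif c ^ (3 * D i c - b i) ∈ c.ring) →
    ∑ i, min (3 * a i) (2 * b i) < 12 * stabC G c
  mixed : (∀ i, A i ≠ 0 ∧ B i ≠ 0) ∨ G = ⊥

end group

/-- A variety `X = X' / G` of dimension `N + 1`. Here `G` is a finite group of automorphisms of the
smooth projective curve `C'` with function field `L`, and `X'` is a variety over `C'`. For `N = 0` it is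
the curve `C'`. In general it is given by the equations
`y_b ² = ∏ z_i (x_i ³ + A_i x_i z_i ² + B_i z_i ³)`, `b < r` (the product over the indices `i < N` of
the block `b`), where `D_i` are divisors on `C'`, and `A_i` and `B_i` are sections of the line bundles
`O(2 D_i)` and `O(3 D_i)`, i.e. elements of `L` with `div A_i + 2 D_i ≥ 0`, `div B_i + 3 D_i ≥ 0`. The
sums `∑ D_i` over the blocks have positive degree. The discriminants are not zero.

The group `G` permutes the indices of every block, such that `g(A_i) = A_(g i)`, `g(B_i) = B_(g i)` and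
`g(D_i) = D_(g i)`. The element `g` maps the point `(c, x_i, y_b)` of `X'` to the point over `g(c)` with
the coordinates `x_(g i)' = x_i` and `y_b' = ± y_b`, where `±` is the sign of the permutation of the
indices of the block `b`, see `Crd.act`. So the forms `⋀ i, dx_i / ∏ b, y_b` are invariant.

Let `G_c` be the stabilizer of the point `c`. Then `D_i(c)` is divisible by the order of the stabilizer
of `i` in `G_c`, and the sum of the `D_i(c)` over a block is divisible by `2 |G_c|`. Let `a_i` and `b_i` be
the orders of vanishing of the sections `A_i` and `B_i` at `c`; then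
`∑ i, min (3 a_i) (2 b_i) < 12 |G_c|`. (For trivial `G` this says that the singularities of `X` are
canonical, and for `N = 1` that the Weierstrass equation over `C' / G` is minimal. In general it says
that the forms `ω ∧ ⋀ i, dx_i / ∏ b, y_b` are regular on a resolution of the singularities of `X`, if
`2 div ω + ∑ D_i ≥ 0`. The group of the zero-cycles on `X` modulo rational equivalence is the same as
for this resolution if the sum is less than `12` times the order of the kernel of the action of `G_c`
on the indices, at all points `c`: then the singularities of `X` are log terminal; and also if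
`N ≤ 2`.) The coefficients `A_i` and `B_i` are not zero, or the group `G` is trivial.

In a neighbourhood of the point `c` the coordinates `x_i` are replaced by `π ^ D_i(c) x_i`, where `π` is
a uniformizer at `c`, see `WC.coA`, `WC.coB`, `WC.IsValue`. -/
structure WC (k : Type u) [Field k] : Type (u + 1) where
  /-- the function field of `C'` -/
  L : Type u
  [field : Field L]
  [algebra : Algebra k L]
  curve : IsCurve k L
  /-- the group -/
  G : AutGp k L
  finite : Finite (El G)
  /-- the number of factors of the fibres -/
  N : ℕ
  /-- the number of blocks -/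
  r : ℕ
  /-- the block of an index -/
  blk : Fin N → Fin r
  /-- the permutations of the indices -/
  gal : Rep G N
  /-- the divisors -/
  D : Fin N → Place k L →₀ ℤ
  /-- the coefficients of `x_i` -/
  A : Fin N → L
  /-- the constant coefficients -/
  B : Fin N → L
  cond : Conditions gal blk D A B

attribute [instance] WC.field WC.algebra WC.finite

variable {k : Type u} [Field k]

section access

variable (X : WC k)

theorem WC.gal_blk : ∀ (g : X.G) (i : Fin X.N), X.blk (X.gal g i) = X.blk i := X.cond.gal_blk

theorem WC.gal_A : ∀ (g : X.G) (i : Fin X.N), g.1 (X.A i) = X.A (X.gal g i) := X.cond.gal_A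

theorem WC.gal_B : ∀ (g : X.G) (i : Fin X.N), g.1 (X.B i) = X.B (X.gal g i) := X.cond.gal_B

theorem WC.gal_D : ∀ (g : X.G) (i : Fin X.N) (c : Place k X.L),
    X.D (X.gal g i) (c.map g.1) = X.D i c := X.cond.gal_D

theorem WC.ram : ∀ (i : Fin X.N) (c : Place k X.L),
    (Nat.card {g : X.G // c.map g.1 = c ∧ X.gal g i = i} : ℤ) ∣ X.D i c := X.cond.ram

theorem WC.even : ∀ (b : Fin X.r) (c : Place k X.L),
    (2 * Nat.card {g : X.G // c.map g.1 = c} : ℤ) ∣ ∑ i with X.blk i = b, X.D i c := X.cond.even

theorem WC.pos : ∀ b : Fin X.r, 0 < ∑ i with X.blk i = b, deg (X.D i) := X.cond.pos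

theorem WC.regA : ∀ (i : Fin X.N) (c : Place k X.L),
    X.A i * unif c ^ (2 * X.D i c) ∈ c.ring := X.cond.regA

theorem WC.regB : ∀ (i : Fin X.N) (c : Place k X.L),
    X.B i * unif c ^ (3 * X.D i c) ∈ c.ring := X.cond.regB

theorem WC.disc : ∀ i, 4 * X.A i ^ 3 + 27 * X.B i ^ 2 ≠ 0 := X.cond.disc

theorem WC.canonical : ∀ (c : Place k X.L) (a b : Fin X.N → ℕ),
    (∀ i, X.A i * unif c ^ (2 * X.D i c - a i) ∈ c.ring ∧
      X.B i * unif c ^ (3 * X.D i c - b i) ∈ c.ring) →
    ∑ i, min (3 * a i) (2 * b i) < 12 * Nat.card {g : X.G // c.map g.1 = c} := X.cond.canonical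

theorem WC.mixed : (∀ i, X.A i ≠ 0 ∧ X.B i ≠ 0) ∨ X.G = ⊥ := X.cond.mixed

end access

/-- The function field of the curve `C = C' / G`. -/
abbrev WC.K (X : WC k) : IntermediateField k X.L := IntermediateField.fixedField X.G

/-- The dimension of `X`. -/
def WC.dim (X : WC k) : ℕ := X.N + 1

/-- the coefficient `A_i` at the point `c` -/
def WC.coA (X : WC k) (c : Place k X.L) (i : Fin X.N) : k := val c (X.A i * unif c ^ (2 * X.D i c))

/-- the coefficient `B_i` at the point `c` -/
def WC.coB (X : WC k) (c : Place k X.L) (i : Fin X.N) : k := val c (X.B i * unif c ^ (3 * X.D i c))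

/-- A point `c` of `C'` and coordinates `(x_i : z_i)`, `y_b`. -/
@[ext]
structure Crd (X : WC k) : Type u where
  /-- the point of the curve `C'` -/
  c : Place k X.L
  /-- the coordinates `x_i` -/
  x : Fin X.N → k
  /-- the coordinates `z_i` -/
  z : Fin X.N → k
  /-- the coordinates `y_b` -/
  y : Fin X.r → k

/-- Coordinates in the field `Om k`, the algebraic closure of `k(t)`. A point of the curve `C'` over
`Om k` is either given by an embedding of `L` into `Om k` or it is a constant point. -/
@[ext]
structure CrdO (X : WC k) : Type u where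
  /-- the point of the curve `C'` -/
  s : (X.L →ₐ[k] Om k) ⊕ Place k X.L
  /-- the coordinates `x_i` -/
  x : Fin X.N → Om k
  /-- the coordinates `z_i` -/
  z : Fin X.N → Om k
  /-- the coordinates `y_b` -/
  y : Fin X.r → Om k

/-- `w` is a point of `X'`. -/
def Crd.On {X : WC k} (w : Crd X) : Prop :=
  (∀ i, w.x i ≠ 0 ∨ w.z i ≠ 0) ∧
    ∀ b, w.y b ^ 2 = ∏ i with X.blk i = b, fac (X.coA w.c i) (X.coB w.c i) (w.x i) (w.z i)

/-- the coefficients `A_i` at a point of the curve over `Om k` -/
def WC.coAO (X : WC k) (s : (X.L →ₐ[k] Om k) ⊕ Place k X.L) (i : Fin X.N) : Om k :=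
  s.elim (fun σ => σ (X.A i)) fun c => algebraMap k (Om k) (X.coA c i)

/-- the coefficients `B_i` at a point of the curve over `Om k` -/
def WC.coBO (X : WC k) (s : (X.L →ₐ[k] Om k) ⊕ Place k X.L) (i : Fin X.N) : Om k :=
  s.elim (fun σ => σ (X.B i)) fun c => algebraMap k (Om k) (X.coB c i)

/-- `w` is a point of `X'` over `Om k`. -/
def CrdO.On {X : WC k} (w : CrdO X) : Prop :=
  (∀ i, w.x i ≠ 0 ∨ w.z i ≠ 0) ∧
    ∀ b, w.y b ^ 2 = ∏ i with X.blk i = b, fac (X.coAO w.s i) (X.coBO w.s i) (w.x i) (w.z i)

/-- Multiplication by `ε b` in the block `b` of the fibre: `y_b` is replaced by `- y_b` if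
`ε b = -1`, and the coordinates `x_i`, `z_i`, `y_b` of the block are replaced by the coordinates
`1`, `0`, `0` of the zero section if `ε b = 0`. -/
def Crd.mul {X : WC k} (ε : ℕ → SignType) (w : Crd X) : Crd X where
  c := w.c
  x i := if ε (X.blk i) = 0 then 1 else w.x i
  z i := if ε (X.blk i) = 0 then 0 else w.z i
  y b := (((ε b : SignType) : ℤ) : k) * w.y b

/-- the sign of the permutation of the indices of the block `b` -/
def WC.sgb (X : WC k) (g : El X.G) (b : Fin X.r) : ℤˣ :=
  blockSign X.gal X.blk X.cond.gal_blk g b

/-- the value at the point `g(c)` of the quotient of the uniformizer at `g(c)` and of the image of the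
uniformizer at `c` -/
def WC.kap (X : WC k) (g : El X.G) (c : Place k X.L) : k := kappa g c

/-- The action of the group `G` on `X'`. (The powers of `kap` are caused by the choice of the coordinates
`π ^ D_i(c) x_i` in a neighbourhood of the point `c`.) -/
def Crd.act {X : WC k} (g : El X.G) (w : Crd X) : Crd X where
  c := mv g w.c
  x i := X.kap g w.c ^ X.D (invIdx X.gal g i) w.c * w.x (invIdx X.gal g i)
  z i := w.z (invIdx X.gal g i)
  y b := ((X.sgb g b : ℤ) : k) * X.kap g w.c ^ (3 * ((∑ i with X.blk i = b, X.D i w.c) / 2)) *
    w.y b

/-- The image of a point over `Om k` under an automorphism of `Om k`. -/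
def CrdO.map {X : WC k} (g : Om k ≃ₐ[k] Om k) (w : CrdO X) : CrdO X where
  s := w.s.map (fun σ => (g : Om k →ₐ[k] Om k).comp σ) id
  x i := g (w.x i)
  z i := g (w.z i)
  y b := g (w.y b)

/-- The point with coordinates `P` in `Om k` specialises at the place `v` to the point with coordinates
`p` in `k`: this holds for the points of the curve, and other homogeneous coordinates of `P` in a
neighbourhood of `p` are congruent to `p` modulo the maximal ideal of `v`. -/
def WC.IsValue (X : WC k) (v : Place k (Om k)) (P : CrdO X) (p : Crd X) : Prop :=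
  BaseValue v P.s p.c ∧ ∃ m : Fin X.N → Om k,
    (∀ i, v.Vanishes (m i * unifO P.s p.c ^ X.D i p.c * P.x i - algebraMap k (Om k) (p.x i))) ∧
    (∀ i, v.Vanishes (m i * P.z i - algebraMap k (Om k) (p.z i))) ∧
    ∀ b, v.Vanishes ((∏ i with X.blk i = b, m i) ^ 2 *
      unifO P.s p.c ^ (3 * ((∑ i with X.blk i = b, X.D i p.c) / 2)) * P.y b -
        algebraMap k (Om k) (p.y b))

/-- Points of all varieties of the class (over `k`). -/
abbrev Pt (k : Type u) [Field k] : Type (u + 1) := Σ X : WC k, Crd X

/-- Points of all varieties of the class (over `Om k`). -/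
abbrev PtO (k : Type u) [Field k] : Type (u + 1) := Σ X : WC k, CrdO X

/-- fibrewise multiplication -/
def Pt.mul (ε : ℕ → SignType) (w : Pt k) : Pt k := ⟨w.1, w.2.mul ε⟩

/-- The image of a point over `Om k` under an automorphism of `Om k`. -/
def PtO.map (g : Om k ≃ₐ[k] Om k) (w : PtO k) : PtO k := ⟨w.1, w.2.map g⟩

/-- `P` and `p` are points of the same variety, and `P` specialises to `p` at the place `v`. -/
def IsVal (v : Place k (Om k)) (P : PtO k) (p : Pt k) : Prop :=
  ∃ (X : WC k) (P' : CrdO X) (p' : Crd X), P = ⟨X, P'⟩ ∧ p = ⟨X, p'⟩ ∧ X.IsValue v P' p'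

/-- Points for all of the `m` factors. -/
abbrev Pts (m : ℕ) (k : Type u) [Field k] : Type (u + 1) := Fin m → Pt k

variable {m m' : ℕ}

/-- `x` is a point of the product of the varieties `X' i`. -/
def OnP (X : Fin m → WC k) (x : Pts m k) : Prop := ∀ i, (x i).1 = X i ∧ (x i).2.On

/-- `x` is a point of the product of the varieties `X' i` over `Om k`. -/
def OnPO (X : Fin m → WC k) (x : Fin m → PtO k) : Prop := ∀ i, (x i).1 = X i ∧ (x i).2.On

/-- The zero-cycles on `X' 0 × ⋯ × X' (m - 1)` (finite formal combinations of systems of homogeneous
coordinates) which are rationally equivalent to zero, with rational coefficients.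

Let `P a`, `a < n`, be a finite family of points of the product with coordinates in the algebraic
closure of `k(t)` which is stable under the Galois group of `k(t)`. This is the same as an effective
zero-cycle on the product over the field `k(t)`, or a family of effective zero-cycles parametrised
by the line, flat over the line. Its member at the point `t = c` is the sum of the specialisations
`p a` of the points of the family at any place `v` above `c`. The space of zero-cycles rationally
equivalent to zero is spanned by the differences between the members of such families at two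
points `c` and `c'` of the line (Fulton, Intersection theory, Proposition 1.6). (The constant
families show that it contains the differences of two systems of coordinates of the same point.) -/
def ratEqP (X : Fin m → WC k) : Submodule ℚ (Pts m k →₀ ℚ) :=
  Submodule.span ℚ {z | ∃ (n : ℕ) (P : Fin n → Fin m → PtO k) (c c' : k)
    (v v' : Place k (Om k)) (p p' : Fin n → Pts m k),
    (∀ a, OnPO X (P a)) ∧
    (∀ g : Om k ≃ₐ[RatFunc k] Om k, ∃ e : Equiv.Perm (Fin n), ∀ a i,
      P (e a) i = (P a i).map (g.restrictScalars k)) ∧
    v.Vanishes (tt k - algebraMap k (Om k) c) ∧ v'.Vanishes (tt k - algebraMap k (Om k) c') ∧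
    (∀ a, OnP X (p a) ∧ ∀ i, IsVal v (P a i) (p a i)) ∧
    (∀ a, OnP X (p' a) ∧ ∀ i, IsVal v' (P a i) (p' a i)) ∧
    z = ∑ a, (Finsupp.single (p a) 1 - Finsupp.single (p' a) 1)}

/-- The zero-cycles on `X 0 × ⋯ × X (m - 1)`, `X i = X' i / G i`, which are rationally equivalent to zero,
with rational coefficients. A point of `X i` is given by a point of `X' i`, and conjugate points under
the action of `G i` are the same point of `X i`. (The group of the zero-cycles modulo rational
equivalence, with rational coefficients, of the quotient of a variety by a finite group is the group of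
the coinvariants, Fulton, Intersection theory, Example 1.7.6.) -/
def ratEqW (X : Fin m → WC k) : Submodule ℚ (Pts m k →₀ ℚ) :=
  ratEqP X ⊔ Submodule.span ℚ {z | ∃ p p' : Pts m k, OnP X p ∧
    (∀ j, ∃ g : El (p j).1.G, p' j = ⟨(p j).1, (p j).2.act g⟩) ∧
    z = Finsupp.single p 1 - Finsupp.single p' 1}

/-- A morphism from `X 0 × ⋯ × X (m - 1)` to the variety `Y`: a constant (a point of `Y`), or the
factor with number `i` (if it is equal to `Y`) followed by the multiplication by `ε b` in the blocks
`b` of the fibres. -/
inductive Comp (X : Fin m → WC k) (Y : WC k) : Type (u + 1)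
  | const (w : Crd Y) (hw : w.On) : Comp X Y
  | fac (i : Fin m) (h : X i = Y) (ε : ℕ → SignType) : Comp X Y

/-- The morphisms between products with such components: projections, diagonals, permutations,
constants, changes of signs, projections to fibre products of some of the blocks and to the base
curves, zero sections, and everything composed from them. -/
abbrev Mor (X : Fin m → WC k) (Y : Fin m' → WC k) : Type (u + 1) := ∀ j, Comp X (Y j)

variable {X : Fin m → WC k} {Y : Fin m' → WC k}

/-- The value of the component at a point. -/
def Comp.app {Z : WC k} (f : Comp X Z) (x : Pts m k) : Pt k :=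
  match f with
  | .const w _ => ⟨Z, w⟩
  | .fac i _ ε => (x i).mul ε

/-- The value of the morphism at a point. -/
def Mor.app (f : Mor X Y) (x : Pts m k) : Pts m' k := fun j => (f j).app x

/-- The push-forward of zero-cycles by a combination of morphisms (a correspondence). -/
def pushM (γ : Mor X Y →₀ ℚ) : (Pts m k →₀ ℚ) →ₗ[ℚ] (Pts m' k →₀ ℚ) :=
  γ.sum fun f c => c • Finsupp.lmapDomain ℚ ℚ f.app

/-- a point of the curve `C'` -/
def WC.pt0 (X : WC k) : Place k X.L := Classical.choice X.curve.nonempty

/-- A point of `X`: the point of the zero section above `X.pt0`. -/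
def WC.oo (X : WC k) : Crd X := ⟨X.pt0, fun _ => 1, fun _ => 0, fun _ => 0⟩

/-- The projection `π_T` of the product for a set `T` of pairs `(j, none)` and `(j, b)` (`b` is a block
of `X j`): if `(j, none)` is in `T`, the coordinates in the block `b` of `X j` are replaced by the
coordinates of the zero section for all pairs `(j, b)` which are not in `T`; if `(j, none)` is not in
`T`, the point of `X j` is replaced by a constant point. -/
def proj (T : Finset (Fin m × Option ℕ)) (x : Pts m k) : Pts m k :=
  fun j => if (j, none) ∈ T then (x j).mul (fun b => if (j, some b) ∈ T then 1 else 0)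
    else ⟨(x j).1, (x j).1.oo⟩

/-- The number of the indices `i` of `X j` whose block is in `T`. -/
def cnt (X : Fin m → WC k) (T : Finset (Fin m × Option ℕ)) (j : Fin m) : ℕ :=
  (Finset.univ.filter fun i : Fin (X j).N => (j, some ((X j).blk i : ℕ)) ∈ T).card

/-- The dimension of the image of `π_T`. -/
def wt (X : Fin m → WC k) (T : Finset (Fin m × Option ℕ)) : ℕ :=
  ∑ j, if (j, none) ∈ T then cnt X T j + 1 else 0

/-- The filtration: the zero-cycles on the product whose images under all projections `π_T` with an
image of dimension less than `ν` are rationally equivalent to zero. -/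
def Fil (X : Fin m → WC k) (ν : ℕ) : Submodule ℚ (Pts m k →₀ ℚ) where
  carrier := {z | (∀ p ∈ z.support, OnP X p) ∧
    ∀ T, wt X T < ν → Finsupp.lmapDomain ℚ ℚ (proj T) z ∈ ratEqW X}
  zero_mem' := ⟨by simp, fun T _ => by simp⟩
  add_mem' := by
    classical
    rintro z w ⟨h1, h2⟩ ⟨h3, h4⟩
    refine ⟨fun p hp => ?_, fun T hT => ?_⟩
    · rcases Finset.mem_union.1 (Finsupp.support_add hp) with h | h
      · exact h1 p h
      · exact h3 p h
    · rw [map_add]
      exact Submodule.add_mem _ (h2 T hT) (h4 T hT)
  smul_mem' := by
    rintro c z ⟨h1, h2⟩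
    refine ⟨fun p hp => h1 p (Finsupp.support_smul hp), fun T hT => ?_⟩
    rw [map_smul]
    exact Submodule.smul_mem _ _ (h2 T hT)

/-- The curve `C = C' / G` over which `X` is fibred, as a variety of the class `WC`. -/
def WC.base (X : WC k) : WC k where
  L := X.L
  curve := X.curve
  G := X.G
  finite := X.finite
  N := 0
  r := 0
  blk := Fin.elim0
  gal := 1
  D := Fin.elim0
  A := Fin.elim0
  B := Fin.elim0
  cond :=
  { gal_blk := fun _ i => i.elim0
    gal_A := fun _ i => i.elim0
    gal_B := fun _ i => i.elim0
    gal_D := fun _ i => i.elim0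
    ram := fun i => i.elim0
    even := fun b => b.elim0
    pos := fun b => b.elim0
    regA := fun i => i.elim0
    regB := fun i => i.elim0
    disc := fun i => i.elim0
    canonical := fun c _ _ _ => by
      have : Nonempty {g : X.G // c.map g.1 = c} := ⟨⟨1, by
        ext x
        exact Iff.rfl⟩⟩
      have h : 0 < Nat.card {g : X.G // c.map g.1 = c} := Nat.card_pos
      simpa using h
    mixed := Or.inl fun i => i.elim0 }

/-- The image of a point of `X` in the curve `C`. -/
def Pt.base (w : Pt k) : Pt k := ⟨w.1.base, ⟨w.2.c, Fin.elim0, Fin.elim0, Fin.elim0⟩⟩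

/-- The image of a zero-cycle in the base curve of the factor `X j`. -/
def toBase (j : Fin m) : (Pts m k →₀ ℚ) →ₗ[ℚ] (Pts 1 k →₀ ℚ) :=
  Finsupp.lmapDomain ℚ ℚ fun x _ => (x j).base

/-- The number of the factor of a non-constant component. -/
def Comp.src {Z : WC k} : Comp X Z → Option (Fin m)
  | .const _ _ => none
  | .fac i _ _ => some i

/-- the set of the `b` with `(j, b) ∈ T` -/
def fib (T : Finset (Fin m × Option ℕ)) (j : Fin m) : Finset (Option ℕ) :=
  (T.filter fun p => p.1 = j).image Prod.snd

/-- The coefficient in the pull-back of the form `ω ∧ ⋀ i, dx_i / ∏ b, y_b` (for the blocks `b` with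
`some b ∈ S` and the indices `i` in these blocks). -/
def Comp.sgn {Z : WC k} (S : Finset (Option ℕ)) : Comp X Z → ℤ
  | .const _ _ => 0
  | .fac _ _ ε => ∏ b ∈ S, b.elim 1 fun b => ((ε b : SignType) : ℤ)

/-- The indices of a basis `ω_(T, a)` of the holomorphic forms on (a resolution of) the product. The
set `T` has the following property: if `(j, some b)` is in `T` then `b` is a block of `X j` and
`(j, none)` is in `T`. The form `ω_(T, a)` is the product, over all `j` with `(j, none) ∈ T` in their
order, of the forms `ω_(j, a_j)` on `X j`. If there are no blocks `b` with `(j, some b) ∈ T`, then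
`ω_(j, 0), …, ω_(j, g - 1)` is a basis of the holomorphic forms on the curve `C = C' / G`, `g` is the
genus of `C`. Otherwise let `2 n_j |G|` be the degree of `∑ D_i`, where `i` runs through the indices in
these blocks. The forms `ω_(j, a)`, `0 ≤ a < n_j + g - 1`, are the forms `ω ∧ ⋀ i, dx_i / ∏ b, y_b`, where
`ω` runs through a basis of the `G`-invariant differentials with `2 div ω + ∑ D_i ≥ 0` on `C'`. (We put
`a_j = 0` if `(j, none)` is not in `T`.) -/
def IsForm (X : Fin m → WC k) (T : Finset (Fin m × Option ℕ)) (a : Fin m → ℕ) : Prop :=
  (∀ j b, (j, some b) ∈ T → b < (X j).r ∧ (j, none) ∈ T) ∧ ∀ j,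
    if (j, none) ∉ T then a j = 0 else
      if fib T j = {none} then a j < genusQ (X j).G else
        2 * order (X j).G * ((a j : ℤ) + 2) ≤
          (∑ i with (j, some ((X j).blk i : ℕ)) ∈ T, deg ((X j).D i)) +
            2 * order (X j).G * genusQ (X j).G

open Classical in
/-- The sign `±` in `f^* ω_(T', a') = ± ω_(T, a)` which comes from the order of the factors: the
product of the signs `(-1) ^ (d_j * d_j')` for all pairs `j < j'` for which the numbers of the
factors of the components of `f` are in the inverse order, where `d_j` is the degree of the factor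
of `ω_(T', a')` on `Y j`. -/
def koszul (f : Mor X Y) (T' : Finset (Fin m' × Option ℕ)) : ℤ :=
  ∏ j, ∏ j' with j < j' ∧ fib T' j ≠ ∅ ∧ fib T' j' ≠ ∅ ∧
      ∃ i i', (f j).src = some i ∧ (f j').src = some i' ∧ i' < i,
    (-1) ^ ((cnt Y T' j + 1) * (cnt Y T' j' + 1))

open Classical in
/-- The coefficient of `ω_(T, a)` in the pull-back of `ω_(T', a')` by the morphism `f`. It is zero
if a component of `f` with number `j` with `fib T' j ≠ ∅` is constant, or if two such components
have the same factor `i` (since the product of two differentials on a curve is zero). Otherwise it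
is a product of signs if these components induce a bijection from the set of these `j` to the set of
the `i` with `fib T i ≠ ∅` which is compatible with the data, and `0` if not. -/
def pullCoef (f : Mor X Y) (T : Finset (Fin m × Option ℕ)) (a : Fin m → ℕ)
    (T' : Finset (Fin m' × Option ℕ)) (a' : Fin m' → ℕ) : ℤ :=
  if (∀ j, fib T' j ≠ ∅ → ∃ i, (f j).src = some i ∧ fib T i = fib T' j ∧ a i = a' j) ∧
      ∀ i, fib T i ≠ ∅ → ∃! j, fib T' j ≠ ∅ ∧ (f j).src = some i then
    koszul f T' * ∏ j with fib T' j ≠ ∅, (f j).sgn (fib T' j) else 0

/-- The correspondence `γ` acts as zero on the holomorphic `ν`-forms. -/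
def KillsForms (γ : Mor X Y →₀ ℚ) (ν : ℕ) : Prop :=
  ∀ (T : Finset (Fin m × Option ℕ)) (a : Fin m → ℕ) (T' : Finset (Fin m' × Option ℕ))
    (a' : Fin m' → ℕ), IsForm X T a → IsForm Y T' a' → wt X T = ν → wt Y T' = ν →
      (γ.sum fun f c => c * (pullCoef f T a T' a' : ℚ)) = 0

end Pool.Agent.WFC
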