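import Pool.Agent.EFC.CoreDef
import Pool.Agent.WFC.Defs

/-!
# Zero-cycles on products of curves and fibre products: the statement of the core theorem
-/

set_option autoImplicit false

noncomputable section

namespace Pool.Agent.WFC

open Pool.Agent.EFC
open Pool.Agent.ZCyc
open Pool.Agent.VFP (Om tt)

universe u

variable {k : Type u} [Field k] {m : ℕ}

/-- the sums over the blocks are even -/
theorem WC.ev (X : WC k) (b : Fin X.r) (c : Place k X.L) :
    Even (∑ i with X.blk i = b, X.D i c) := by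
  obtain ⟨n, hn⟩ := X.even b c
  exact ⟨Nat.card {g : X.G // c.map g.1 = c} * n, by rw [hn]; ring⟩

/-- zero-cycles on the product modulo rational equivalence -/
abbrev VP (X : Fin m → WC k) : Type (u + 1) := (Pts m k →₀ ℚ) ⧸ ratEqW X

/-- the class of a point -/
def clP (X : Fin m → WC k) (x : Pts m k) : VP X := Submodule.Quotient.mk (Finsupp.single x 1)

/-- changes of the signs of the coordinates `y_b` -/
def Crd.sg {X : WC k} (ε : Fin X.r → ℤˣ) (w : Crd X) : Crd X where
  c := w.c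
  x := w.x
  z := w.z
  y b := ((ε b : ℤ) : k) * w.y b

/-- the power `X ^ n` -/
def WC.pow (X : WC k) (n : ℕ) : Fin n → WC k := fun _ => X

/-- a point of `X ^ n` -/
def WC.tup (X : WC k) {n : ℕ} (w : Fin n → Crd X) : Pts n k := fun j => ⟨X, w j⟩

/-- `{w 0} × ⋯ × {w (n - 1)}`, where `{w}` is the alternating sum over all changes of signs -/
def WC.TN (X : WC k) {n : ℕ} (w : Fin n → Crd X) : VP (X.pow n) :=
  ∑ ε : Fin n → Fin X.r → ℤˣ, (∏ j, ∏ b, ((ε j b : ℤ) : ℚ)) •
    clP (X.pow n) (X.tup fun j => (w j).sg (ε j))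

/-- the alternating (`N` odd) or symmetric (`N` even) sum over all permutations -/
def WC.AN (X : WC k) {n : ℕ} (w : Fin n → Crd X) : VP (X.pow n) :=
  ∑ τ : Equiv.Perm (Fin n), ((Equiv.Perm.sign τ : ℤ) : ℚ) ^ X.N • X.TN (w ∘ τ)

open Classical in
/-- the symmetric sum of the classes `(w 0 - o) × ⋯ × (w (n - 1) - o)` -/
def WC.CN (X : WC k) {n : ℕ} (w : Fin n → Crd X) : VP (X.pow n) :=
  ∑ τ : Equiv.Perm (Fin n), ∑ U : Finset (Fin n), ((-1 : ℚ) ^ (n - U.card)) •
    clP (X.pow n) (X.tup fun j => if j ∈ U then w (τ j) else X.oo)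

/-- All coefficients are different from zero. -/
def WC.NonZero (X : WC k) : Prop := ∀ i, X.A i ≠ 0 ∧ X.B i ≠ 0

/-- The core theorem for varieties over curves: `2 n = deg ∑ D_i / |G| + 2 g`, where `g` is the genus of
`C = C' / G`. -/
def CoreC (k : Type u) [Field k] : Prop :=
  ∀ (X : WC k), X.NonZero → 0 < X.r → ∀ n : ℕ,
    2 * Nat.card X.G * (n : ℤ) = (∑ i, deg (X.D i)) + 2 * Nat.card X.G * genus k X.K →
    ∀ w : Fin n → Crd X, (∀ j, (w j).On) → X.AN w = 0

/-- The core theorem for curves. -/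
def CoreG (k : Type u) [Field k] : Prop :=
  ∀ (X : WC k), X.r = 0 → ∀ w : Fin (genus k X.K + 1) → Crd X, X.CN w = 0

end Pool.Agent.WFC
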