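import Pool.Agent.EFC.Bridge
import Pool.Agent.WFC.BaseVal

/-!
# Families over the line and their specialisations
-/

set_option autoImplicit false

noncomputable section

namespace Pool.Agent.WFC

open Pool.Agent.EFC
open Pool.Agent.ZCyc
open Pool.Agent.VFP (Om tt)

variable {k : Type} [Field k] {m : ℕ} {X : Fin m → WC k}

private theorem coAO_map {X : WC k} (g : Om k ≃ₐ[k] Om k) (s : (X.L →ₐ[k] Om k) ⊕ Place k X.L)
    (i : Fin X.N) : X.coAO (s.map (fun σ => (g : Om k →ₐ[k] Om k).comp σ) id) i =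
      g (X.coAO s i) := by
  rcases s with φ | c
  · rfl
  · exact (g.commutes _).symm

private theorem coBO_map {X : WC k} (g : Om k ≃ₐ[k] Om k) (s : (X.L →ₐ[k] Om k) ⊕ Place k X.L)
    (i : Fin X.N) : X.coBO (s.map (fun σ => (g : Om k →ₐ[k] Om k).comp σ) id) i =
      g (X.coBO s i) := by
  rcases s with φ | c
  · rfl
  · exact (g.commutes _).symm

theorem on_map {X : WC k} (g : Om k ≃ₐ[k] Om k) {w : CrdO X} (h : w.On) : (w.map g).On := by
  obtain ⟨h1, h2⟩ := h
  refine ⟨fun i => ?_, fun b => ?_⟩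
  · rcases h1 i with h3 | h3
    · left
      intro h0
      exact h3 ((map_eq_zero_iff g g.injective).1 h0)
    · right
      intro h0
      exact h3 ((map_eq_zero_iff g g.injective).1 h0)
  · have e : (w.map g).y b ^ 2 = g (w.y b ^ 2) := (map_pow g (w.y b) 2).symm
    rw [e, h2 b, map_prod]
    refine Finset.prod_congr rfl fun i _ => ?_
    show g (fac (X.coAO w.s i) (X.coBO w.s i) (w.x i) (w.z i)) =
      fac (X.coAO (w.s.map (fun σ => (g : Om k →ₐ[k] Om k).comp σ) id) i)
        (X.coBO (w.s.map (fun σ => (g : Om k →ₐ[k] Om k).comp σ) id) i) (g (w.x i)) (g (w.z i))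
    rw [coAO_map, coBO_map]
    simp only [fac, map_mul, map_add, map_pow]

private theorem van_map {v : Place k (Om k)} {g : Om k ≃ₐ[k] Om k} {f : Om k}
    (h : (v.map g.symm).Vanishes f) : v.Vanishes (g f) := by
  rw [Place.vanishes_map] at h
  exact h

theorem isValue_map {X : WC k} (v : Place k (Om k)) (g : Om k ≃ₐ[k] Om k) {w : CrdO X}
    {p : Crd X} (h : X.IsValue (v.map g.symm) w p) : X.IsValue v (w.map g) p := by
  obtain ⟨h0, M, h1, h2, h3⟩ := h
  refine ⟨baseValue_map g h0, fun i => g (M i), fun i => ?_, fun i => ?_, fun b => ?_⟩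
  · have h4 := van_map (h1 i)
    rw [map_sub, map_mul, map_mul, map_zpow₀, g.commutes, ← unifO_map] at h4
    exact h4
  · have h4 := van_map (h2 i)
    rw [map_sub, map_mul, g.commutes] at h4
    exact h4
  · have h4 := van_map (h3 b)
    rw [map_sub, map_mul, map_mul, map_pow, map_zpow₀, map_prod, g.commutes, ← unifO_map] at h4
    exact h4

theorem isVal_map (v : Place k (Om k)) (g : Om k ≃ₐ[k] Om k) {w : PtO k} {p : Pt k}
    (h : IsVal (v.map g.symm) w p) : IsVal v (w.map g) p := by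
  obtain ⟨Y, P, q, rfl, rfl, h1⟩ := h
  exact ⟨Y, P.map g, q, rfl, rfl, isValue_map v g h1⟩

/-- generators of the function field -/
private def gen (Y : WC k) : Finset Y.L := Y.curve.exists_fg.choose

private theorem gen_spec (Y : WC k) : IntermediateField.adjoin k (gen Y : Set Y.L) = ⊤ :=
  Y.curve.exists_fg.choose_spec

/-- the values of the generators -/
private def sgen {Y : WC k} : (Y.L →ₐ[k] Om k) ⊕ Place k Y.L → Set (Om k)
  | .inl φ => (fun a => φ a) '' (gen Y : Set Y.L)
  | .inr _ => ∅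

/-- the elements of `Om k` which determine the point -/
private def gens (w : PtO k) : Set (Om k) :=
  Set.range w.2.x ∪ (Set.range w.2.z ∪ (Set.range w.2.y ∪ sgen w.2.s))

private theorem gens_finite (w : PtO k) : (gens w).Finite := by
  refine (Set.finite_range _).union ((Set.finite_range _).union ((Set.finite_range _).union ?_))
  rcases w.2.s with φ | c
  · exact (Finset.finite_toSet _).image _
  · exact Set.finite_empty

private theorem emb_mem {N : IntermediateField (RatFunc k) (Om k)} {Y : WC k}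
    {φ : Y.L →ₐ[k] Om k} (h : ∀ a ∈ gen Y, φ a ∈ N) (a : Y.L) : φ a ∈ N := by
  have h1 : IntermediateField.adjoin k (gen Y : Set Y.L) ≤ (N.restrictScalars k).comap φ := by
    rw [IntermediateField.adjoin_le_iff]
    intro b hb
    exact h b hb
  rw [gen_spec] at h1
  exact h1 (IntermediateField.mem_top (x := a))

private theorem map_congr {N : IntermediateField (RatFunc k) (Om k)} {w : PtO k}
    (hw : gens w ⊆ (N : Set (Om k))) {f f' g : Om k ≃ₐ[k] Om k}
    (h : ∀ x ∈ N, f x = g (f' x)) : w.map f = (w.map f').map g := by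
  obtain ⟨Y, w⟩ := w
  have hx : ∀ i, w.x i ∈ N := fun i => hw (Or.inl ⟨i, rfl⟩)
  have hz : ∀ i, w.z i ∈ N := fun i => hw (Or.inr (Or.inl ⟨i, rfl⟩))
  have hy : ∀ i, w.y i ∈ N := fun i => hw (Or.inr (Or.inr (Or.inl ⟨i, rfl⟩)))
  have hs : sgen w.s ⊆ (N : Set (Om k)) :=
    fun x hx => hw (Or.inr (Or.inr (Or.inr hx)))
  have key : w.map f = (w.map f').map g := by
    refine CrdO.ext ?_ ?_ ?_ ?_
    · show w.s.map (fun σ => (f : Om k →ₐ[k] Om k).comp σ) id =
        (w.s.map (fun σ => (f' : Om k →ₐ[k] Om k).comp σ) id).map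
          (fun σ => (g : Om k →ₐ[k] Om k).comp σ) id
      rcases hsw : w.s with φ | c
      · rw [hsw] at hs
        have h1 : ∀ a, φ a ∈ N := emb_mem fun a ha => hs ⟨a, ha, rfl⟩
        show Sum.inl ((f : Om k →ₐ[k] Om k).comp φ) =
          Sum.inl ((g : Om k →ₐ[k] Om k).comp ((f' : Om k →ₐ[k] Om k).comp φ))
        congr 1
        refine AlgHom.ext fun a => ?_
        exact h _ (h1 a)
      · rfl
    · funext i
      exact h _ (hx i)
    · funext i
      exact h _ (hz i)
    · funext i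
      exact h _ (hy i)
  show (⟨Y, w.map f⟩ : PtO k) = ⟨Y, (w.map f').map g⟩
  rw [key]

private theorem bridge_at (v : Place k (Om k)) (g : Om k ≃ₐ[RatFunc k] Om k) {c : k}
    (h : v.At (tt k) c) : (v.map (g.restrictScalars k).symm).At (tt k) c := by
  rw [Place.at_map]
  have e : (g.restrictScalars k).symm.symm (tt k) = tt k := by
    show g (tt k) = _
    exact g.commutes _
  rw [e]
  exact h

/-- Families of points of the product over the line: the classes of the values at `t = c₀` and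
at `t = c₁` are equal. Adapt `Pool.Agent.TInf.bridgeN` (`TInf/GeoBridge.lean`): the set `S` of all
coordinates of the `P i j`, and for every point of a curve given by `σ : L → Om k` the elements
`σ a` for `a` in a finite set of generators of `L` (`IsCurve.exists_fg`); the normal closure of
`k(t)(S)` contains `σ L`, so the equality of `g ∘ σ` and `g' ∘ σ` follows from the equality of `g`, `g'`
on the normal closure. -/
theorem bridgeP [IsAlgClosed k] [CharZero k] {I : Type} [Fintype I] (c : I → ℚ)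
    (P : I → Fin m → PtO k) (hP : ∀ i, OnPO X (P i)) (c₀ c₁ : k) (C₀ C₁ : VP X)
    (h₀ : ∀ v : Place k (Om k), v.At (tt k) c₀ → ∃ p : I → Pts m k,
      (∀ i, OnP X (p i)) ∧ (∀ i j, IsVal v (P i j) (p i j)) ∧ ∑ i, c i • clP X (p i) = C₀)
    (h₁ : ∀ v : Place k (Om k), v.At (tt k) c₁ → ∃ p : I → Pts m k,
      (∀ i, OnP X (p i)) ∧ (∀ i j, IsVal v (P i j) (p i j)) ∧ ∑ i, c i • clP X (p i) = C₁) :
    C₀ = C₁ := by
  classical
  let S : Set (Om k) := ⋃ i : I, ⋃ j : Fin m, gens (P i j)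
  have hSf : S.Finite := Set.finite_iUnion fun i => Set.finite_iUnion fun j => gens_finite _
  let L1 : IntermediateField (RatFunc k) (Om k) := IntermediateField.adjoin (RatFunc k) S
  have hfd : FiniteDimensional (RatFunc k) L1 := by
    have : Finite S := hSf.to_subtype
    exact IntermediateField.finiteDimensional_adjoin fun z _ =>
      Algebra.IsIntegral.isIntegral z
  let L : IntermediateField (RatFunc k) (Om k) :=
    IntermediateField.normalClosure (RatFunc k) L1 (Om k)
  have hLF : L1 ≤ L := IntermediateField.le_normalClosure L1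
  have hPL : ∀ i a, gens (P i a) ⊆ (L : Set (Om k)) := fun i a x hx =>
    hLF (IntermediateField.subset_adjoin (RatFunc k) S
      (Set.mem_iUnion.2 ⟨i, Set.mem_iUnion.2 ⟨a, hx⟩⟩))
  have : Normal (RatFunc k) L := normalClosure.normal (RatFunc k) L1 (Om k)
  have : FiniteDimensional (RatFunc k) L :=
    normalClosure.is_finiteDimensional (RatFunc k) L1 (Om k)
  obtain ⟨l, ⟨e⟩⟩ := Finite.exists_equiv_fin (L ≃ₐ[RatFunc k] L)
  let σ : Fin l → (Om k ≃ₐ[RatFunc k] Om k) := fun i => (e.symm i).liftNormal (Om k)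
  have hσ : ∀ i (x : Om k) (hx : x ∈ L), σ i x = ((e.symm i ⟨x, hx⟩ : L) : Om k) :=
    fun i x hx => AlgEquiv.liftNormal_commutes (e.symm i) (Om k) ⟨x, hx⟩
  -- the family is stable
  have hstab : ∀ g : Om k ≃ₐ[RatFunc k] Om k, ∃ ρ : Equiv.Perm (Fin l), ∀ i,
      ∀ x ∈ L, σ (ρ i) x = g (σ i x) := by
    intro g
    refine ⟨(e.symm.trans (Equiv.mulLeft (AlgEquiv.restrictNormal g L))).trans e, fun i x hx => ?_⟩
    rw [hσ _ x hx, hσ _ x hx]
    have h2 : e.symm (((e.symm.trans (Equiv.mulLeft (AlgEquiv.restrictNormal g L))).trans e) i) =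
        AlgEquiv.restrictNormal g L * e.symm i := by
      simp
    rw [h2, AlgEquiv.mul_apply]
    exact AlgEquiv.restrictNormal_commutes g L _
  obtain ⟨v₀, hv₀⟩ := exists_place (Pool.Agent.VFP.tt_transc (k := k)) c₀
  obtain ⟨v₁, hv₁⟩ := exists_place (Pool.Agent.VFP.tt_transc (k := k)) c₁
  have k₀ := fun i : Fin l => h₀ _ (bridge_at v₀ (σ i) hv₀)
  have k₁ := fun i : Fin l => h₁ _ (bridge_at v₁ (σ i) hv₁)
  choose p₀ ha₀ hp₀ hC₀ using k₀
  choose p₁ ha₁ hp₁ hC₁ using k₁
  have hmem : ∀ i : I, ∑ τ : Fin l, (Finsupp.single (p₀ τ i) (1 : ℚ) -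
      Finsupp.single (p₁ τ i) 1) ∈ ratEqW X := by
    intro i
    refine Submodule.mem_sup_left (Submodule.subset_span ?_)
    refine ⟨l, fun τ a => (P i a).map ((σ τ).restrictScalars k), c₀, c₁, v₀, v₁,
      fun τ => p₀ τ i, fun τ => p₁ τ i, fun τ a => ⟨(hP i a).1, on_map _ (hP i a).2⟩,
      fun g => ?_, hv₀, hv₁,
      fun τ => ⟨ha₀ τ i, fun a => isVal_map v₀ ((σ τ).restrictScalars k) (hp₀ τ i a)⟩,
      fun τ => ⟨ha₁ τ i, fun a => isVal_map v₁ ((σ τ).restrictScalars k) (hp₁ τ i a)⟩, rfl⟩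
    obtain ⟨ρ, hρ⟩ := hstab g
    exact ⟨ρ, fun τ a => map_congr (hPL i a) (hρ τ)⟩
  have hsum : ∀ i : I, ∑ τ : Fin l, clP X (p₀ τ i) = ∑ τ : Fin l, clP X (p₁ τ i) := by
    intro i
    have h2 := (Submodule.Quotient.mk_eq_zero (ratEqW X)).2 (hmem i)
    have h3 := map_sum (ratEqW X).mkQ (fun τ : Fin l =>
      (Finsupp.single (p₀ τ i) (1 : ℚ) - Finsupp.single (p₁ τ i) 1)) Finset.univ
    rw [Submodule.mkQ_apply, h2] at h3
    rw [← sub_eq_zero, ← Finset.sum_sub_distrib]
    refine Eq.trans (Finset.sum_congr rfl fun τ _ => ?_) h3.symm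
    rw [map_sub]
    rfl
  have hn : (l : ℚ) ≠ 0 := by
    have : 0 < l := by
      rw [← Fintype.card_fin l, ← Fintype.card_congr e]
      exact Fintype.card_pos
    exact_mod_cast this.ne'
  have hfin : (l : ℚ) • C₀ = (l : ℚ) • C₁ := by
    have e₀ : ∑ τ : Fin l, ∑ i, c i • clP X (p₀ τ i) = (l : ℚ) • C₀ := by
      rw [Finset.sum_congr rfl fun τ _ => hC₀ τ, Finset.sum_const, Finset.card_univ,
        Fintype.card_fin, Nat.cast_smul_eq_nsmul]
    have e₁ : ∑ τ : Fin l, ∑ i, c i • clP X (p₁ τ i) = (l : ℚ) • C₁ := by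
      rw [Finset.sum_congr rfl fun τ _ => hC₁ τ, Finset.sum_const, Finset.card_univ,
        Fintype.card_fin, Nat.cast_smul_eq_nsmul]
    have hc : ∀ p : Fin l → I → Pts m k, ∑ τ : Fin l, ∑ i, c i • clP X (p τ i) =
        ∑ i, c i • ∑ τ : Fin l, clP X (p τ i) := by
      intro p
      rw [Finset.sum_comm]
      exact Finset.sum_congr rfl fun i _ => Finset.smul_sum.symm
    rw [← e₀, ← e₁, hc, hc]
    exact Finset.sum_congr rfl fun i _ => by rw [hsum i]
  have h2 := congrArg (fun z => (l : ℚ)⁻¹ • z) hfin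
  simpa [smul_smul, inv_mul_cancel₀ hn] using h2

end Pool.Agent.WFC
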