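import Pool.Agent.WFC.Act
import Pool.Agent.WFC.Classes

/-!
# The classes of conjugate points
-/

set_option autoImplicit false

noncomputable section

namespace Pool.Agent.WFC

open Pool.Agent.EFC
open Pool.Agent.ZCyc
open Pool.Agent.VFP (Om tt)

variable {k : Type} [Field k] [IsAlgClosed k] [CharZero k] {m n : ℕ}

omit [IsAlgClosed k] [CharZero k] in
/-- The classes of conjugate points are equal (definition of `ratEqW`). -/
theorem clP_conj {X : Fin m → WC k} {p p' : Pts m k} (hp : OnP X p)
    (h : ∀ j, ∃ g : (p j).1.G, p' j = ⟨(p j).1, (p j).2.act g⟩) : clP X p' = clP X p := by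
  have h1 : Finsupp.single p 1 - Finsupp.single p' 1 ∈ ratEqW X :=
    Submodule.mem_sup_right (Submodule.subset_span ⟨p, p', hp, h, rfl⟩)
  have h2 : clP X p = clP X p' := (Submodule.Quotient.eq _).2 h1
  exact h2.symm

variable {X : WC k}

/-- The same for tuples. -/
theorem clP_tup (w : Fin n → Crd X) (hw : ∀ j, (w j).On) (g : Fin n → X.G) :
    clP (X.pow n) (X.tup fun j => (w j).act (g j)) = clP (X.pow n) (X.tup w) := by
  exact clP_conj (onP_tup hw) fun j => ⟨g j, rfl⟩

/-- `{w}` does not change under the action: `sg_act`, `clP_tup` (changes of signs of points of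
`X'` are points of `X'`). -/
theorem TN_act (w : Fin n → Crd X) (hw : ∀ j, (w j).On) (g : Fin n → X.G) :
    X.TN (fun j => (w j).act (g j)) = X.TN w := by
  rw [TN_def, TN_def]
  refine Finset.sum_congr rfl fun ε _ => ?_
  have h1 : (fun j => ((w j).act (g j)).sg (ε j)) = fun j => ((w j).sg (ε j)).act (g j) := by
    funext j
    exact (sg_act _ _ _).symm
  rw [h1, clP_tup (fun j => (w j).sg (ε j)) (fun j => on_sg (hw j) _) g]

/-- `act_eq`, `prod_sgb`, and the lemma on `TN` and changes of signs in `WFC/Basic.lean`. -/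
theorem TN_acu (w : Fin n → Crd X) (hw : ∀ j, (w j).On) (g : Fin n → X.G) :
    X.TN (fun j => (w j).acu (g j)) =
      (∏ j, (((Equiv.Perm.sign (X.gal (g j)) : ℤˣ) : ℤ) : ℚ)) • X.TN w := by
  have h1 : X.TN (fun j => (w j).act (g j)) =
      snN (fun j => X.sgb (g j)) • X.TN (fun j => (w j).acu (g j)) := by
    rw [← TN_sg]
    congr 1
    funext j
    exact act_eq _ _
  have h2 : snN (fun j => X.sgb (g j)) =
      ∏ j, (((Equiv.Perm.sign (X.gal (g j)) : ℤˣ) : ℤ) : ℚ) := by
    unfold snN sn
    refine Finset.prod_congr rfl fun j _ => ?_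
    rw [← prod_sgb, Units.coe_prod, Int.cast_prod]
  have h3 : snN (fun j => X.sgb (g j)) * snN (fun j => X.sgb (g j)) = 1 := by
    unfold snN
    rw [← Finset.prod_mul_distrib]
    exact Finset.prod_eq_one fun j _ => sn_sq _
  rw [← h2, ← TN_act w hw g, h1, smul_smul, h3, one_smul]

theorem AN_acu (w : Fin n → Crd X) (hw : ∀ j, (w j).On) (g : Fin n → X.G) :
    X.AN (fun j => (w j).acu (g j)) =
      (∏ j, (((Equiv.Perm.sign (X.gal (g j)) : ℤˣ) : ℤ) : ℚ)) • X.AN w := by
  unfold WC.AN
  rw [Finset.smul_sum]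
  refine Finset.sum_congr rfl fun τ _ => ?_
  have h1 := TN_acu (w ∘ τ) (fun j => hw (τ j)) (g ∘ τ)
  have h2 : (∏ j, (((Equiv.Perm.sign (X.gal ((g ∘ τ) j)) : ℤˣ) : ℤ) : ℚ)) =
      ∏ j, (((Equiv.Perm.sign (X.gal (g j)) : ℤˣ) : ℤ) : ℚ) :=
    Equiv.prod_comp τ fun j => (((Equiv.Perm.sign (X.gal (g j)) : ℤˣ) : ℤ) : ℚ)
  rw [h2] at h1
  rw [smul_comm]
  exact congrArg _ h1

/-- For `X.r = 0` all points are points of `X'` (`X.N = 0` because of `X.blk`), and `X.oo` may be
replaced by a conjugate point in every factor (`act_one` for the factors with `j ∉ U`: `clP_conj` with the group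
element `1` for these `j`). -/
theorem CN_act (hr : X.r = 0) (w : Fin n → Crd X) (g : Fin n → X.G) :
    X.CN (fun j => (w j).act (g j)) = X.CN w := by
  classical
  have hN : IsEmpty (Fin X.N) := ⟨fun i => by
    have h0 := (X.blk i).2
    omega⟩
  have hR : IsEmpty (Fin X.r) := ⟨fun b => by
    have h0 := b.2
    omega⟩
  have hon : ∀ v : Crd X, v.On := fun v => ⟨fun i => isEmptyElim i, fun b => isEmptyElim b⟩
  unfold WC.CN
  refine Finset.sum_congr rfl fun τ _ => Finset.sum_congr rfl fun U _ => ?_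
  congr 1
  have h1 : (fun j => if j ∈ U then (w (τ j)).act (g (τ j)) else X.oo) =
      fun j => (if j ∈ U then w (τ j) else X.oo).act (if j ∈ U then g (τ j) else 1) := by
    funext j
    split_ifs
    · rfl
    · exact (act_one _).symm
  rw [← clP_tup (fun j => if j ∈ U then w (τ j) else X.oo) (fun j => hon _)
    (fun j => if j ∈ U then g (τ j) else 1), ← h1]

end Pool.Agent.WFC
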