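import Pool.Agent.WFC.Gal
import Pool.Agent.Dess.Galois

/-!
# The places of the quotient curve
-/

set_option autoImplicit false

noncomputable section

namespace Pool.Agent.WFC

open Pool.Agent.EFC
open Pool.Agent.ZCyc
open Pool.Agent.VFP (Om tt)

variable {k L : Type} [Field k] [IsAlgClosed k] [CharZero k] [Field L] [Algebra k L]
  (G : Subgroup (L ≃ₐ[k] L)) [Finite G]

omit [IsAlgClosed k] [CharZero k] [Finite G] in
private theorem gpl_coe_inv (f : IntermediateField.fixedField G) :
    ((f⁻¹ : IntermediateField.fixedField G) : L) = (f : L)⁻¹ := rfl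

omit [IsAlgClosed k] [CharZero k] in
/-- a valuation ring of `L` which contains the fixed field is everything -/
private theorem gpl_top (V : ValuationSubring L)
    (h : ∀ x : IntermediateField.fixedField G, (x : L) ∈ V) : V = ⊤ := by
  have hfin := fix_finite G
  ext m
  refine ⟨fun _ => ValuationSubring.mem_top m, fun _ => ?_⟩
  have hm : IsIntegral (IntermediateField.fixedField G) m := Algebra.IsIntegral.isIntegral m
  obtain ⟨p, hp, hp0⟩ := hm
  let ι : IntermediateField.fixedField G →+* V :=
    (algebraMap (IntermediateField.fixedField G) L).codRestrict V.toSubring fun x => h x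
  have h1 : IsIntegral V m := by
    refine ⟨p.map ι, hp.map ι, ?_⟩
    rw [Polynomial.eval₂_map]
    exact hp0
  obtain ⟨y, hy⟩ := IsIntegrallyClosed.isIntegral_iff.1 h1
  rw [← hy]
  exact y.2

/-- The place below `c`: its ring is the intersection with `K`; it is not `K`, since `L` is algebraic
over `K` and `c.ring` is integrally closed. -/
theorem exists_below_fix (c : Place k L) : ∃ q : Place k (IntermediateField.fixedField G),
    ∀ f : IntermediateField.fixedField G, f ∈ q.ring ↔ (f : L) ∈ c.ring := by
  refine ⟨⟨c.ring.comap (algebraMap (IntermediateField.fixedField G) L), fun a => ?_,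
    fun htop => ?_⟩, fun f => ValuationSubring.mem_comap⟩
  · rw [ValuationSubring.mem_comap]
    exact c.const_mem a
  · apply c.ne_top
    refine gpl_top G c.ring fun x => ?_
    have h1 : x ∈ c.ring.comap (algebraMap (IntermediateField.fixedField G) L) := by
      rw [htop]
      exact ValuationSubring.mem_top x
    exact ValuationSubring.mem_comap.1 h1

/-- the image of a point of `C'` in `C` -/
def below (c : Place k L) : Place k (IntermediateField.fixedField G) := (exists_below_fix G c).choose

theorem mem_below (c : Place k L) (f : IntermediateField.fixedField G) :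
    f ∈ (below G c).ring ↔ (f : L) ∈ c.ring := (exists_below_fix G c).choose_spec f

/-- values of the functions on `C` (`Place.At` means that the difference is a nonunit of the ring) -/
theorem at_below (c : Place k L) (f : IntermediateField.fixedField G) (a : k) :
    (below G c).At f a ↔ c.At (f : L) a := by
  unfold Place.At
  have hc : ((f - algebraMap k (IntermediateField.fixedField G) a :
      IntermediateField.fixedField G) : L) = (f : L) - algebraMap k L a := rfl
  rw [Place.vanishes_iff_or, Place.vanishes_iff_or, ← hc, mem_below, gpl_coe_inv]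
  constructor
  · rintro (h | h)
    · left
      rw [h]
      rfl
    · exact Or.inr h
  · rintro (h | h)
    · left
      exact Subtype.ext h
    · exact Or.inr h

open Classical in
private def gplPick (P : k → Prop) : k := if h : ∃ a : k, P a then h.choose else 0

omit [IsAlgClosed k] [CharZero k] in
private theorem gpl_val {M : Type} [Field M] [Algebra k M] (c : Place k M) (f : M) :
    val c f = gplPick fun a : k => c.Vanishes (f - algebraMap k M a) := rfl

theorem val_below (c : Place k L) (f : IntermediateField.fixedField G) :
    val (below G c) f = val c (f : L) := by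
  rw [gpl_val, gpl_val]
  congr 1
  funext a
  exact propext (at_below G c f a)

/-- Every point of `C` is the image of a point of `C'`: extension of places
(`IsLocalRing.exists_factor_valuationRing`, compare `TInc.exists_above`). -/
theorem exists_above_fix (q : Place k (IntermediateField.fixedField G)) :
    ∃ c : Place k L, below G c = q := by
  obtain ⟨V, hV, hloc⟩ := IsLocalRing.exists_factor_valuationRing
    ((algebraMap (IntermediateField.fixedField G) L).comp q.ring.subtype)
  have h1 : ∀ f : IntermediateField.fixedField G, f ∈ q.ring → (f : L) ∈ V :=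
    fun f hf => hV ⟨f, hf⟩
  have h2 : ∀ f : IntermediateField.fixedField G, (f : L) ∈ V → f ∈ q.ring := by
    intro f hf
    by_contra hcon
    have hf0 : f ≠ 0 := by
      rintro rfl
      exact hcon q.ring.zero_mem
    have hi : f⁻¹ ∈ q.ring := by
      rcases q.ring.mem_or_inv_mem f with h | h
      · exact absurd h hcon
      · exact h
    have hu : IsUnit ((((algebraMap (IntermediateField.fixedField G) L).comp
        q.ring.subtype).codRestrict V.toSubring hV) ⟨f⁻¹, hi⟩) := by
      refine IsUnit.of_mul_eq_one ⟨(f : L), hf⟩ ?_
      apply Subtype.ext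
      change (algebraMap (IntermediateField.fixedField G) L) f⁻¹ * (f : L) = 1
      rw [map_inv₀]
      exact inv_mul_cancel₀ (by simpa using hf0)
    have hu2 := hloc.map_nonunit _ hu
    rw [isUnit_iff_exists_inv] at hu2
    obtain ⟨g, hg⟩ := hu2
    have hg' : f⁻¹ * (g : IntermediateField.fixedField G) = 1 := congrArg Subtype.val hg
    have hgf : (g : IntermediateField.fixedField G) = f := by
      field_simp at hg'
      exact hg'
    rw [← hgf] at hcon
    exact hcon g.2
  refine ⟨⟨V, fun a => h1 _ (q.const_mem a), fun htop => ?_⟩, ?_⟩
  · apply q.ne_top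
    ext f
    refine ⟨fun _ => ValuationSubring.mem_top f, fun _ => h2 f ?_⟩
    rw [htop]
    exact ValuationSubring.mem_top _
  · apply Place.ext
    ext f
    rw [mem_below]
    exact ⟨h2 f, h1 f⟩

theorem below_map (g : G) (c : Place k L) : below G (c.map g.1) = below G c := by
  apply Place.ext
  ext f
  rw [mem_below, mem_below]
  have hg : g.1 (f : L) = (f : L) := (mem_fix_iff G (f : L)).1 f.2 g
  conv_lhs => rw [← hg]
  exact mem_map_iff c g.1 (f : L)

/-- `G` acts transitively on the points above a point: `Dess.galois_trans`, `mem_of_fix`. -/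
theorem exists_map_eq (hL : IsCurve k L) {c c' : Place k L} (h : below G c = below G c') :
    ∃ g : G, c.map g.1 = c' := by
  have hfin := fix_finite G
  have hgal := fix_galois G
  obtain ⟨t, ht, htf⟩ := hL
  obtain ⟨g, hg, hgc⟩ := Dess.galois_trans ⟨t, ht, htf⟩ (IntermediateField.fixedField G) c c'
    (fun f hf => by
      rw [← mem_below G c ⟨f, hf⟩, h]
      exact mem_below G c' ⟨f, hf⟩)
  exact ⟨⟨g, mem_of_fix G hg⟩, hgc⟩

/-- Every embedding of `K` is the restriction of an embedding of `L` (`Om k` is algebraically closed,
`L` is algebraic over `K`: `IsAlgClosed.lift` or `IntermediateField.exists_algHom_of_splits`). -/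
theorem exists_ext_fix (σ : IntermediateField.fixedField G →ₐ[k] Om k) :
    ∃ σ' : L →ₐ[k] Om k, ∀ f : IntermediateField.fixedField G, σ' (f : L) = σ f := by
  have hfin := fix_finite G
  let i : Algebra (IntermediateField.fixedField G) (Om k) := σ.toRingHom.toAlgebra
  have ht : IsScalarTower k (IntermediateField.fixedField G) (Om k) :=
    IsScalarTower.of_algebraMap_eq fun a => (σ.commutes a).symm
  let τ : L →ₐ[IntermediateField.fixedField G] Om k := IsAlgClosed.lift
  exact ⟨τ.restrictScalars k, fun f => τ.commutes f⟩

/-- If the restriction of `σ'` to `K` lies over `below c` at the place `v` then `σ'` lies over a conjugate of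
`c`. Proof: the ring `v.ring.comap σ'` is the ring of a place `c'` of `L` (`TInc.exists_below`), and
`below c' = below c`. -/
theorem over_ext (hL : IsCurve k L) {v : Place k (Om k)}
    {σ : IntermediateField.fixedField G →ₐ[k] Om k} {σ' : L →ₐ[k] Om k}
    (h : ∀ f : IntermediateField.fixedField G, σ' (f : L) = σ f) {c : Place k L}
    (hv : v.ring.comap (σ : IntermediateField.fixedField G →+* Om k) = (below G c).ring) :
    ∃ g : G, v.ring.comap (σ' : L →+* Om k) = (c.map g.1).ring := by
  obtain ⟨t, ht, htf⟩ := hL
  obtain ⟨c', hc'⟩ := TInc.exists_below ⟨t, ht, htf⟩ v σ'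
  have hb : below G c = below G c' := by
    apply Place.ext
    ext f
    rw [← hv, mem_below, ← hc', ValuationSubring.mem_comap, ValuationSubring.mem_comap]
    have h1 : (σ' : L →+* Om k) (f : L) =
        (σ : IntermediateField.fixedField G →+* Om k) f := h f
    rw [h1]
  obtain ⟨g, hg⟩ := exists_map_eq G ⟨t, ht, htf⟩ hb
  exact ⟨g, by rw [hg, hc']⟩

end Pool.Agent.WFC
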