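import Pool.Agent.EFC.FDefs
import Pool.Agent.WFC.CoreDef

/-!
# Products of varieties over curves: auxiliary definitions
-/

set_option autoImplicit false

noncomputable section

namespace Pool.Agent.WFC

open Pool.Agent.EFC
open Pool.Agent.ZCyc
open Pool.Agent.VFP (Om tt)

universe u

variable {k : Type u} [Field k] {m m' : ℕ}

/-- all pairs `(j, none)` and `(j, b)` -/
def blocks (X : Fin m → WC k) : Finset (Fin m × Option ℕ) :=
  Finset.univ.biUnion fun j => insert (j, none)
    ((Finset.range (X j).r).image fun b => (j, some b))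

/-- `(j, b) ∈ T` implies `(j, none) ∈ T` -/
def Closed (T : Finset (Fin m × Option ℕ)) : Prop := ∀ j b, (j, some b) ∈ T → (j, none) ∈ T

/-- fibrewise multiplication in all factors -/
def mulP (ε : Fin m → ℕ → SignType) (x : Pts m k) : Pts m k := fun j => (x j).mul (ε j)

/-- the part of the class of the point `x` which belongs to `T` -/
def eP (X : Fin m → WC k) (T : Finset (Fin m × Option ℕ)) (x : Pts m k) : VP X :=
  ∑ U ∈ T.powerset, ((-1 : ℚ) ^ (T \ U).card) • clP X (proj U x)

/-- the span of the classes `eP T x` with `ν ≤ wt X T` -/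
def FV (X : Fin m → WC k) (ν : ℕ) : Submodule ℚ (VP X) :=
  Submodule.span ℚ {e | ∃ (T : Finset (Fin m × Option ℕ)) (x : Pts m k), OnP X x ∧
    T ⊆ blocks X ∧ Closed T ∧ ν ≤ wt X T ∧ e = eP X T x}

/-- the value of a component without the multiplications -/
def Comp.base {X : Fin m → WC k} {Z : WC k} (f : Comp X Z) (x : Pts m k) : Pt k :=
  match f with
  | .const w _ => ⟨Z, w⟩
  | .fac i _ _ => x i

/-- the value of a morphism without the multiplications -/
def Mor.base {X : Fin m → WC k} {Y : Fin m' → WC k} (f : Mor X Y) (x : Pts m k) : Pts m' k :=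
  fun j => (f j).base x

/-- the pairs `(i, b)`, where `i` is the number of the factor of `f j`, `(j, b) ∈ T'` -/
def srcT {X : Fin m → WC k} {Y : Fin m' → WC k} (f : Mor X Y)
    (T' : Finset (Fin m' × Option ℕ)) : Finset (Fin m × Option ℕ) :=
  T'.biUnion fun p => match (f p.1).src with
    | none => ∅
    | some i => {(i, p.2)}

/-- `f` induces a bijection from the factors in `T'` to the factors in `T` -/
def Bij {X : Fin m → WC k} {Y : Fin m' → WC k} (f : Mor X Y) (T : Finset (Fin m × Option ℕ))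
    (T' : Finset (Fin m' × Option ℕ)) : Prop :=
  (∀ j, fib T' j ≠ ∅ → ∃ i, (f j).src = some i ∧ fib T i = fib T' j) ∧
    ∀ i, fib T i ≠ ∅ → ∃! j, fib T' j ≠ ∅ ∧ (f j).src = some i

/-- the core theorem for the varieties with the property `Q` -/
def CoreQ (k : Type u) [Field k] (Q : WC k → Prop) : Prop :=
  ∀ (X : WC k), Q X → 0 < X.r → ∀ n : ℕ,
    2 * Nat.card X.G * (n : ℤ) = (∑ i, deg (X.D i)) + 2 * Nat.card X.G * genus k X.K →
    ∀ w : Fin n → Crd X, (∀ j, (w j).On) → X.AN w = 0

theorem mem_blocks {X : Fin m → WC k} {p : Fin m × Option ℕ} :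
    p ∈ blocks X ↔ ∀ b, p.2 = some b → b < (X p.1).r := by
  obtain ⟨j, o⟩ := p
  simp only [blocks, Finset.mem_biUnion, Finset.mem_univ, true_and, Finset.mem_insert,
    Finset.mem_image, Finset.mem_range]
  constructor
  · rintro ⟨j', h | ⟨b, hb, h⟩⟩ b' hb'
    · obtain ⟨-, rfl⟩ := Prod.mk.inj h
      exact absurd hb' (by simp)
    · obtain ⟨rfl, rfl⟩ := Prod.mk.inj h
      have : b = b' := Option.some.inj hb'
      rwa [← this]
  · intro h
    refine ⟨j, ?_⟩
    cases o with
    | none => exact Or.inl rfl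
    | some b => exact Or.inr ⟨b, h b rfl, rfl⟩

theorem none_mem_blocks (X : Fin m → WC k) (j : Fin m) : (j, none) ∈ blocks X :=
  mem_blocks.2 fun b hb => absurd hb (by simp)

theorem some_mem_blocks {X : Fin m → WC k} {j : Fin m} {b : ℕ} :
    (j, some b) ∈ blocks X ↔ b < (X j).r := by
  rw [mem_blocks]
  exact ⟨fun h => h b rfl, fun h b' hb' => (Option.some.inj hb') ▸ h⟩

theorem mem_fib {l : ℕ} {T : Finset (Fin l × Option ℕ)} {j : Fin l} {o : Option ℕ} :
    o ∈ fib T j ↔ (j, o) ∈ T := by
  simp only [fib, Finset.mem_image, Finset.mem_filter]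
  constructor
  · rintro ⟨⟨j', b'⟩, ⟨h, rfl⟩, rfl⟩
    exact h
  · intro h
    exact ⟨(j, o), ⟨h, rfl⟩, rfl⟩

theorem Closed.none_mem_fib {l : ℕ} {T : Finset (Fin l × Option ℕ)} (hT : Closed T) {j : Fin l}
    (h : fib T j ≠ ∅) : none ∈ fib T j := by
  obtain ⟨o, ho⟩ := Finset.nonempty_iff_ne_empty.2 h
  rw [mem_fib] at ho ⊢
  cases o with
  | none => exact ho
  | some b => exact hT j b ho

theorem closed_blocks (X : Fin m → WC k) : Closed (blocks X) := fun j _ _ => none_mem_blocks X j

end Pool.Agent.WFC
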