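import Pool.Agent.EFC.FMap
import Pool.Agent.WFC.FPt

/-!
# Functoriality of rational equivalence
-/

set_option autoImplicit false

noncomputable section

namespace Pool.Agent.WFC

open Pool.Agent.EFC
open Pool.Agent.ZCyc
open Pool.Agent.VFP (Om tt)

variable {k : Type} [Field k] {m m' : ℕ} {X : Fin m → WC k} {Y : Fin m' → WC k}

private theorem fmap_sign_sq {K : Type*} [Field K] {e : SignType} (h : e ≠ 0) :
    (((e : SignType) : ℤ) : K) ^ 2 = 1 := by
  cases e with
  | zero => exact absurd rfl h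
  | neg => norm_num
  | pos => norm_num

/-- multiplications over `Om k` -/
def CrdO.mul {Z : WC k} (ε : ℕ → SignType) (w : CrdO Z) : CrdO Z where
  s := w.s
  x i := if ε (Z.blk i) = 0 then 1 else w.x i
  z i := if ε (Z.blk i) = 0 then 0 else w.z i
  y b := (((ε b : SignType) : ℤ) : Om k) * w.y b

theorem onO_mul {Z : WC k} {w : CrdO Z} (hw : w.On) (ε : ℕ → SignType) : (w.mul ε).On := by
  refine ⟨fun i => ?_, fun b => ?_⟩
  · by_cases h1 : ε (Z.blk i) = 0
    · left
      show (if ε (Z.blk i) = 0 then (1 : Om k) else w.x i) ≠ 0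
      rw [if_pos h1]
      exact one_ne_zero
    · rcases hw.1 i with h2 | h2
      · left
        show (if ε (Z.blk i) = 0 then (1 : Om k) else w.x i) ≠ 0
        rw [if_neg h1]
        exact h2
      · right
        show (if ε (Z.blk i) = 0 then (0 : Om k) else w.z i) ≠ 0
        rw [if_neg h1]
        exact h2
  · show ((((ε b : SignType) : ℤ) : Om k) * w.y b) ^ 2 = ∏ i with Z.blk i = b,
      fac (Z.coAO w.s i) (Z.coBO w.s i) (if ε (Z.blk i) = 0 then (1 : Om k) else w.x i)
        (if ε (Z.blk i) = 0 then (0 : Om k) else w.z i)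
    by_cases h1 : ε b = 0
    · obtain ⟨i, hi⟩ := blk_surj Z b
      have h2 : fac (Z.coAO w.s i) (Z.coBO w.s i)
          (if ε (Z.blk i) = 0 then (1 : Om k) else w.x i)
          (if ε (Z.blk i) = 0 then (0 : Om k) else w.z i) = 0 := by
        rw [hi, if_pos h1, if_pos h1]
        unfold fac
        exact zero_mul _
      rw [Finset.prod_eq_zero (Finset.mem_filter.2 ⟨Finset.mem_univ i, hi⟩) h2, h1]
      simp
    · rw [mul_pow, fmap_sign_sq h1, one_mul, hw.2 b]
      refine Finset.prod_congr rfl fun i hi => ?_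
      rw [(Finset.mem_filter.1 hi).2, if_neg h1, if_neg h1]

theorem crdO_mul_map {Z : WC k} (g : Om k ≃ₐ[k] Om k) (ε : ℕ → SignType) (w : CrdO Z) :
    (w.mul ε).map g = (w.map g).mul ε := by
  refine CrdO.ext rfl ?_ ?_ ?_
  · funext i
    show g (if ε (Z.blk i) = 0 then (1 : Om k) else w.x i) =
      if ε (Z.blk i) = 0 then (1 : Om k) else g (w.x i)
    split_ifs
    · exact map_one g
    · rfl
  · funext i
    show g (if ε (Z.blk i) = 0 then (0 : Om k) else w.z i) =
      if ε (Z.blk i) = 0 then (0 : Om k) else g (w.z i)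
    split_ifs
    · exact map_zero g
    · rfl
  · funext b
    show g ((((ε b : SignType) : ℤ) : Om k) * w.y b) = (((ε b : SignType) : ℤ) : Om k) * g (w.y b)
    rw [map_mul, map_intCast]

theorem crd_cst_map {Z : WC k} (g : Om k ≃ₐ[k] Om k) (w : Crd Z) : w.cst.map g = w.cst := by
  refine CrdO.ext rfl ?_ ?_ ?_
  · funext i
    exact g.commutes _
  · funext i
    exact g.commutes _
  · funext b
    exact g.commutes _

/-- For the indices `i` with `ε (blk i) = 0` take `m i = unifO P.s p.c ^ (- D_i c)` (`unifO_ne`). -/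
theorem isValue_mul [IsAlgClosed k] [CharZero k] {Z : WC k} {v : Place k (Om k)} {P : CrdO Z}
    {p : Crd Z} (h : Z.IsValue v P p) (ε : ℕ → SignType) : Z.IsValue v (P.mul ε) (p.mul ε) := by
  obtain ⟨h0, m₁, h1, h2, h3⟩ := h
  have hu := unifO_ne Z.curve P.s p.c
  refine ⟨h0, fun i => if ε (Z.blk i) = 0 then unifO P.s p.c ^ (-Z.D i p.c) else m₁ i, ?_, ?_, ?_⟩
  · intro i
    show v.Vanishes ((if ε (Z.blk i) = 0 then unifO P.s p.c ^ (-Z.D i p.c) else m₁ i) *
      unifO P.s p.c ^ Z.D i p.c * (if ε (Z.blk i) = 0 then (1 : Om k) else P.x i) -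
      algebraMap k (Om k) (if ε (Z.blk i) = 0 then (1 : k) else p.x i))
    by_cases h5 : ε (Z.blk i) = 0
    · rw [if_pos h5, if_pos h5, if_pos h5, mul_one, ← zpow_add₀ hu, neg_add_cancel, zpow_zero]
      exact VFP.at_one
    · rw [if_neg h5, if_neg h5, if_neg h5]
      exact h1 i
  · intro i
    show v.Vanishes ((if ε (Z.blk i) = 0 then unifO P.s p.c ^ (-Z.D i p.c) else m₁ i) *
      (if ε (Z.blk i) = 0 then (0 : Om k) else P.z i) -
      algebraMap k (Om k) (if ε (Z.blk i) = 0 then (0 : k) else p.z i))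
    by_cases h5 : ε (Z.blk i) = 0
    · rw [if_pos h5, if_pos h5, if_pos h5, mul_zero]
      exact VFP.at_zero
    · rw [if_neg h5, if_neg h5, if_neg h5]
      exact h2 i
  · intro b
    show v.Vanishes ((∏ i with Z.blk i = b,
      (if ε (Z.blk i) = 0 then unifO P.s p.c ^ (-Z.D i p.c) else m₁ i)) ^ 2 *
      unifO P.s p.c ^ (3 * ((∑ i with Z.blk i = b, Z.D i p.c) / 2)) *
      ((((ε b : SignType) : ℤ) : Om k) * P.y b) -
        algebraMap k (Om k) ((((ε b : SignType) : ℤ) : k) * p.y b))
    by_cases h5 : ε b = 0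
    · rw [h5, SignType.coe_zero, Int.cast_zero, Int.cast_zero, zero_mul, zero_mul, mul_zero]
      exact VFP.at_zero
    · have e3 : ∏ i with Z.blk i = b,
          (if ε (Z.blk i) = 0 then unifO P.s p.c ^ (-Z.D i p.c) else m₁ i) =
          ∏ i with Z.blk i = b, m₁ i := by
        refine Finset.prod_congr rfl fun i hi => ?_
        rw [(Finset.mem_filter.1 hi).2, if_neg h5]
      rw [e3]
      have e : (∏ i with Z.blk i = b, m₁ i) ^ 2 *
          unifO P.s p.c ^ (3 * ((∑ i with Z.blk i = b, Z.D i p.c) / 2)) *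
          ((((ε b : SignType) : ℤ) : Om k) * P.y b) -
            algebraMap k (Om k) ((((ε b : SignType) : ℤ) : k) * p.y b) =
          (((ε b : SignType) : ℤ) : Om k) * ((∏ i with Z.blk i = b, m₁ i) ^ 2 *
          unifO P.s p.c ^ (3 * ((∑ i with Z.blk i = b, Z.D i p.c) / 2)) * P.y b -
            algebraMap k (Om k) (p.y b)) := by
        rw [map_mul, map_intCast]
        ring
      rw [e]
      exact (h3 b).mul' v (intCast_mem _ _)

/-- The support of a cycle in `ratEqP X`, and its degree. -/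
theorem ratEqP_supp {z : Pts m k →₀ ℚ} (hz : z ∈ ratEqP X) :
    (∀ p ∈ z.support, OnP X p) ∧ (z.sum fun _ c => c) = 0 := by
  classical
  let N : Submodule ℚ (Pts m k →₀ ℚ) :=
    { carrier := {z | (∀ p ∈ z.support, OnP X p) ∧ (z.sum fun _ c => c) = 0}
      zero_mem' := by simp
      add_mem' := by
        rintro z z' ⟨h1, h2⟩ ⟨h3, h4⟩
        refine ⟨fun p hp => ?_, ?_⟩
        · rcases Finset.mem_union.1 (Finsupp.support_add hp) with h | h
          · exact h1 p h
          · exact h3 p h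
        · rw [Finsupp.sum_add_index' (fun _ => rfl) (fun _ _ _ => rfl), h2, h4, add_zero]
      smul_mem' := by
        rintro c z ⟨h1, h2⟩
        refine ⟨fun p hp => h1 p (Finsupp.support_smul hp), ?_⟩
        rw [Finsupp.sum_smul_index' (fun _ => rfl)]
        simp only [smul_eq_mul]
        rw [← Finsupp.mul_sum, h2, mul_zero] }
  have hsingle : ∀ p q : Pts m k, OnP X p → OnP X q →
      (Finsupp.single p (1 : ℚ) - Finsupp.single q 1) ∈ N := by
    intro p q hp hq
    refine ⟨fun r hr => ?_, ?_⟩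
    · rcases Finset.mem_union.1 (Finsupp.support_sub hr) with h | h
      · rw [Finset.mem_singleton.1 (Finsupp.support_single_subset h)]
        exact hp
      · rw [Finset.mem_singleton.1 (Finsupp.support_single_subset h)]
        exact hq
    · rw [Finsupp.sum_sub_index (fun _ _ _ => rfl), Finsupp.sum_single_index rfl,
        Finsupp.sum_single_index rfl, sub_self]
  have key : ratEqP X ≤ N := by
    unfold ratEqP
    rw [Submodule.span_le]
    rintro z ⟨n, P, c, c', v, v', p, p', hOn, hG, hv, hv', hp, hp', rfl⟩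
    exact N.sum_mem fun a _ => hsingle _ _ (hp a).1 (hp' a).1
  exact key hz

/-- a push-forward by a map which is given by a map of the families -/
private theorem fmap_push {F : Pts m k → Pts m' k} (G : (Fin m → PtO k) → Fin m' → PtO k)
    (hOn : ∀ x, OnP X x → OnP Y (F x)) (hOnO : ∀ P, OnPO X P → OnPO Y (G P))
    (hv : ∀ (v : Place k (Om k)) (P : Fin m → PtO k) (p : Pts m k), OnPO X P → OnP X p →
      (∀ i, IsVal v (P i) (p i)) → ∀ j, IsVal v (G P j) (F p j))
    (hG : ∀ (g : Om k ≃ₐ[k] Om k) (P : Fin m → PtO k), OnPO X P → ∀ j,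
      G (fun i => (P i).map g) j = (G P j).map g)
    {z : Pts m k →₀ ℚ} (hz : z ∈ ratEqP X) : z.mapDomain F ∈ ratEqP Y := by
  have key : ratEqP X ≤ (ratEqP Y).comap (Finsupp.lmapDomain ℚ ℚ F) := by
    conv_lhs => unfold ratEqP
    rw [Submodule.span_le]
    rintro z ⟨n, P, c, c', v, v', p, p', hP, hgal, hvc, hvc', hp, hp', rfl⟩
    refine Submodule.subset_span ⟨n, fun a => G (P a), c, c', v, v',
      fun a => F (p a), fun a => F (p' a), fun a => hOnO _ (hP a), fun g => ?_, hvc, hvc',
      fun a => ⟨hOn _ (hp a).1, hv v _ _ (hP a) (hp a).1 (hp a).2⟩,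
      fun a => ⟨hOn _ (hp' a).1, hv v' _ _ (hP a) (hp' a).1 (hp' a).2⟩, ?_⟩
    · obtain ⟨r, hr⟩ := hgal g
      refine ⟨r, fun a j => ?_⟩
      have h1 : P (r a) = fun i => (P a i).map (g.restrictScalars k) := funext fun i => hr a i
      rw [← hG _ _ (hP a), ← h1]
    · rw [map_sum]
      refine Finset.sum_congr rfl fun a _ => ?_
      rw [map_sub, Finsupp.lmapDomain_apply, Finsupp.lmapDomain_apply, Finsupp.mapDomain_single,
        Finsupp.mapDomain_single]
  exact key hz

/-- the component over `Om k` -/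
private def fmapApp {Z : WC k} (f : Comp X Z) (P : Fin m → PtO k) : PtO k :=
  match f with
  | .const w _ => ⟨Z, w.cst⟩
  | .fac i _ ε => ⟨(P i).1, (P i).2.mul ε⟩

/-- Push-forward by a morphism. Adapt `Pool.Agent.EFP.mapDomain_ratEqP` (`EFP/Gen.lean`): apply `f`
to the families. -/
theorem mapDomain_ratEqP [IsAlgClosed k] [CharZero k] (f : Mor X Y) {z : Pts m k →₀ ℚ}
    (hz : z ∈ ratEqP X) : z.mapDomain f.app ∈ ratEqP Y := by
  refine fmap_push (fun P j => fmapApp (f j) P) (fun x hx => f.onP hx) ?_ ?_ ?_ hz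
  · intro P hP j
    show (fmapApp (f j) P).1 = Y j ∧ (fmapApp (f j) P).2.On
    cases f j with
    | const w hw => exact ⟨rfl, on_cst hw⟩
    | fac i h ε => exact ⟨(hP i).1.trans h, onO_mul (hP i).2 ε⟩
  · intro v P p hP hp h j
    show IsVal v (fmapApp (f j) P) ((f j).app p)
    cases f j with
    | const w hw => exact ⟨Y j, w.cst, w, rfl, rfl, isValue_cst v w⟩
    | fac i hi ε =>
      obtain ⟨Z, P', p', h1, h2, h3⟩ := h i
      refine ⟨Z, P'.mul ε, p'.mul ε, ?_, ?_, isValue_mul h3 ε⟩
      · show (⟨(P i).1, (P i).2.mul ε⟩ : PtO k) = _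
        rw [h1]
      · show (p i).mul ε = _
        rw [h2]
        rfl
  · intro g P hP j
    show fmapApp (f j) (fun i => (P i).map g) = (fmapApp (f j) P).map g
    cases f j with
    | const w hw =>
      show (⟨Y j, w.cst⟩ : PtO k) = ⟨Y j, w.cst.map g⟩
      rw [crd_cst_map]
    | fac i hi ε =>
      show (⟨(P i).1, ((P i).2.map g).mul ε⟩ : PtO k) = ⟨(P i).1, ((P i).2.mul ε).map g⟩
      rw [crdO_mul_map]

/-- the projections are morphisms: the components are `.fac j rfl _` and `.const (X j).oo _` -/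
theorem proj_ratEqP [IsAlgClosed k] [CharZero k] (T : Finset (Fin m × Option ℕ))
    {z : Pts m k →₀ ℚ} (hz : z ∈ ratEqP X) : Finsupp.lmapDomain ℚ ℚ (proj T) z ∈ ratEqP X := by
  classical
  let f : Mor X X := fun j => if (j, none) ∈ T then
    .fac j rfl (fun b => if (j, some b) ∈ T then 1 else 0) else .const (X j).oo (on_oo (X j))
  have h1 : z.mapDomain f.app = z.mapDomain (proj T) := by
    refine Finsupp.mapDomain_congr fun x hx => ?_
    have h2 := (ratEqP_supp hz).1 x hx
    funext j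
    show (f j).app x = proj T x j
    by_cases h3 : (j, none) ∈ T
    · have e1 : f j = .fac j rfl (fun b => if (j, some b) ∈ T then 1 else 0) := if_pos h3
      have e2 : proj T x j = (x j).mul (fun b => if (j, some b) ∈ T then 1 else 0) := if_pos h3
      rw [e1, e2]
      rfl
    · have e1 : f j = .const (X j).oo (on_oo (X j)) := if_neg h3
      have e2 : proj T x j = ⟨(x j).1, (x j).1.oo⟩ := if_neg h3
      rw [e1, e2, (h2 j).1]
      rfl
  rw [Finsupp.lmapDomain_apply, ← h1]
  exact mapDomain_ratEqP f hz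

/-- Push-forward to the base curve of a factor. -/
theorem toBase_ratEqP (j : Fin m) {z : Pts m k →₀ ℚ} (hz : z ∈ ratEqP X) :
    toBase j z ∈ ratEqP (fun _ : Fin 1 => (X j).base) := by
  refine fmap_push (F := fun x _ => (x j).base)
    (fun P _ => ⟨(P j).1.base, ⟨(P j).2.s, Fin.elim0, Fin.elim0, Fin.elim0⟩⟩) ?_ ?_ ?_ ?_ hz
  · intro x hx i
    exact ⟨congrArg WC.base (hx j).1, fun i => i.elim0, fun b => b.elim0⟩
  · intro P hP i
    exact ⟨congrArg WC.base (hP j).1, fun i => i.elim0, fun b => b.elim0⟩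
  · intro v P p hP hp h i
    obtain ⟨Z, P', p', h1, h2, h3⟩ := h j
    refine ⟨Z.base, ⟨P'.s, Fin.elim0, Fin.elim0, Fin.elim0⟩, ⟨p'.c, Fin.elim0, Fin.elim0,
      Fin.elim0⟩, ?_, ?_, h3.1, Fin.elim0, fun i => i.elim0, fun i => i.elim0, fun b => b.elim0⟩
    · show (⟨(P j).1.base, ⟨(P j).2.s, Fin.elim0, Fin.elim0, Fin.elim0⟩⟩ : PtO k) = _
      rw [h1]
    · show (p j).base = _
      rw [h2]
      rfl
  · intro g P hP i
    show (⟨(P j).1.base, ⟨(P j).2.s.map (fun σ => (g : Om k →ₐ[k] Om k).comp σ) id,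
      Fin.elim0, Fin.elim0, Fin.elim0⟩⟩ : PtO k) = ⟨(P j).1.base,
        (⟨(P j).2.s, Fin.elim0, Fin.elim0, Fin.elim0⟩ : CrdO (P j).1.base).map g⟩
    have e : (⟨(P j).2.s.map (fun σ => (g : Om k →ₐ[k] Om k).comp σ) id,
      Fin.elim0, Fin.elim0, Fin.elim0⟩ : CrdO (P j).1.base) =
        (⟨(P j).2.s, Fin.elim0, Fin.elim0, Fin.elim0⟩ : CrdO (P j).1.base).map g :=
      CrdO.ext rfl (funext fun i => i.elim0) (funext fun i => i.elim0) (funext fun i => i.elim0)
    rw [e]

open Classical in
/-- The point of `X` whose factor `j` is the point of the zero section above `w`, all other factors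
are the base points (`Place k w.1.L` is the type of `w.2.c`; use it only if `w.1 = (X j).base`). -/
def secP (X : Fin m → WC k) (j : Fin m) (w : Pts 1 k) : Pts m k :=
  Function.update (fun i => ⟨X i, (X i).oo⟩) j
    ⟨X j, ⟨((w 0).to (X j).base).c, fun _ => 1, fun _ => 0, fun _ => 0⟩⟩

/-- the point of the zero section -/
private def zeroC (Z : WC k) (c : Place k Z.L) : Crd Z := ⟨c, fun _ => 1, fun _ => 0, fun _ => 0⟩

/-- the point of the zero section -/
private def zeroO (Z : WC k) (s : (Z.L →ₐ[k] Om k) ⊕ Place k Z.L) : CrdO Z :=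
  ⟨s, fun _ => 1, fun _ => 0, fun _ => 0⟩

private theorem on_zeroC (Z : WC k) (c : Place k Z.L) : (zeroC Z c).On := by
  refine ⟨fun i => Or.inl one_ne_zero, fun b => ?_⟩
  obtain ⟨i, hi⟩ := blk_surj Z b
  have h2 : fac (Z.coA (zeroC Z c).c i) (Z.coB (zeroC Z c).c i) ((zeroC Z c).x i)
      ((zeroC Z c).z i) = 0 := zero_mul _
  rw [Finset.prod_eq_zero (Finset.mem_filter.2 ⟨Finset.mem_univ i, hi⟩) h2]
  exact zero_pow two_ne_zero

private theorem on_zeroO (Z : WC k) (s : (Z.L →ₐ[k] Om k) ⊕ Place k Z.L) : (zeroO Z s).On := by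
  refine ⟨fun i => Or.inl one_ne_zero, fun b => ?_⟩
  obtain ⟨i, hi⟩ := blk_surj Z b
  have h2 : fac (Z.coAO (zeroO Z s).s i) (Z.coBO (zeroO Z s).s i) ((zeroO Z s).x i)
      ((zeroO Z s).z i) = 0 := zero_mul _
  rw [Finset.prod_eq_zero (Finset.mem_filter.2 ⟨Finset.mem_univ i, hi⟩) h2]
  exact zero_pow two_ne_zero

private theorem isValue_zero [IsAlgClosed k] [CharZero k] (Z : WC k) {v : Place k (Om k)}
    {s : (Z.L →ₐ[k] Om k) ⊕ Place k Z.L} {c : Place k Z.L} (h : BaseValue v s c) :
    Z.IsValue v (zeroO Z s) (zeroC Z c) := by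
  have hu := unifO_ne Z.curve s c
  refine ⟨h, fun i => unifO s c ^ (-Z.D i c), fun i => ?_, fun i => ?_, fun b => ?_⟩
  · show v.Vanishes (unifO s c ^ (-Z.D i c) * unifO s c ^ Z.D i c * 1 - algebraMap k (Om k) 1)
    rw [mul_one, ← zpow_add₀ hu, neg_add_cancel, zpow_zero]
    exact VFP.at_one
  · show v.Vanishes (unifO s c ^ (-Z.D i c) * 0 - algebraMap k (Om k) 0)
    rw [mul_zero]
    exact VFP.at_zero
  · show v.Vanishes ((∏ i with Z.blk i = b, unifO s c ^ (-Z.D i c)) ^ 2 *
      unifO s c ^ (3 * ((∑ i with Z.blk i = b, Z.D i c) / 2)) * 0 - algebraMap k (Om k) 0)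
    rw [mul_zero]
    exact VFP.at_zero

open Classical in
/-- a point of `Z` over `Om k`; the base point for points of other varieties -/
private def fmapTo (Z : WC k) (w : PtO k) : CrdO Z := if h : w.1 = Z then h ▸ w.2 else Z.oo.cst

private theorem fmapTo_mk (Z : WC k) (w : CrdO Z) : fmapTo Z ⟨Z, w⟩ = w := dif_pos rfl

private theorem fmap_to_mk (Z : WC k) (w : Crd Z) : Pt.to Z ⟨Z, w⟩ = w := dif_pos rfl

open Classical in
private def secO (X : Fin m → WC k) (j : Fin m) (w : Fin 1 → PtO k) : Fin m → PtO k :=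
  Function.update (fun i => ⟨X i, (X i).oo.cst⟩) j ⟨X j, zeroO (X j) (fmapTo (X j).base (w 0)).s⟩

/-- Push-forward by the zero section; the value of the zero section: `m i = unifO P.s c ^ (- D_i c)`
(`unifO_ne`). -/
theorem secP_ratEqP [IsAlgClosed k] [CharZero k] (j : Fin m) {z : Pts 1 k →₀ ℚ}
    (hz : z ∈ ratEqP (fun _ : Fin 1 => (X j).base)) : z.mapDomain (secP X j) ∈ ratEqP X := by
  classical
  refine fmap_push (secO X j) ?_ ?_ ?_ ?_ hz
  · intro x hx i
    unfold secP
    by_cases hi : i = j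
    · subst hi
      rw [Function.update_self]
      exact ⟨rfl, on_zeroC _ _⟩
    · rw [Function.update_of_ne hi]
      exact ⟨rfl, on_oo _⟩
  · intro P hP i
    unfold secO
    by_cases hi : i = j
    · subst hi
      rw [Function.update_self]
      exact ⟨rfl, on_zeroO _ _⟩
    · rw [Function.update_of_ne hi]
      exact ⟨rfl, on_cst (on_oo _)⟩
  · intro v P p hP hp h i
    unfold secO secP
    by_cases hi : i = j
    · subst hi
      rw [Function.update_self, Function.update_self]
      obtain ⟨Z, P', p', h1, h2, h3⟩ := h 0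
      have h4 : Z = (X i).base := by
        have h5 := (hP 0).1
        rw [h1] at h5
        exact h5
      subst h4
      rw [h1, h2, fmapTo_mk, fmap_to_mk]
      exact ⟨X i, _, _, rfl, rfl, isValue_zero (X i) h3.1⟩
    · rw [Function.update_of_ne hi, Function.update_of_ne hi]
      exact ⟨X i, _, _, rfl, rfl, isValue_cst v _⟩
  · intro g P hP i
    unfold secO
    by_cases hi : i = j
    · subst hi
      rw [Function.update_self, Function.update_self]
      obtain ⟨Z, P', h1⟩ : ∃ (Z : WC k) (P' : CrdO Z), P 0 = ⟨Z, P'⟩ := ⟨_, _, rfl⟩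
      have h4 : Z = (X i).base := by
        have h5 := (hP 0).1
        rw [h1] at h5
        exact h5
      subst h4
      have e : (P 0).map g = ⟨(X i).base, P'.map g⟩ := by
        rw [h1]
        rfl
      show (⟨X i, zeroO (X i) (fmapTo (X i).base ((P 0).map g)).s⟩ : PtO k) =
        ⟨X i, (zeroO (X i) (fmapTo (X i).base (P 0)).s).map g⟩
      rw [e, h1, fmapTo_mk, fmapTo_mk]
      have e2 : zeroO (X i) (P'.map g).s = (zeroO (X i) P'.s).map g := by
        refine CrdO.ext rfl ?_ ?_ ?_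
        · funext a
          exact (map_one g).symm
        · funext a
          exact (map_zero g).symm
        · funext a
          exact (map_zero g).symm
      rw [e2]
    · rw [Function.update_of_ne hi, Function.update_of_ne hi]
      show (⟨X i, (X i).oo.cst⟩ : PtO k) = ⟨X i, (X i).oo.cst.map g⟩
      rw [crd_cst_map]

end Pool.Agent.WFC
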