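import Pool.Agent.EFC.FMoeb
import Pool.Agent.WFC.FPt

/-!
# The classes `eP`: Möbius inversion

`eP X T x = ∑ U ⊆ T, (-1) ^ |T \ U| [π_U x]`. Adapt `Pool/Agent/EFP/EBasic.lean` (the private
theorem `moebius` there can be copied).
-/

set_option autoImplicit false

noncomputable section

namespace Pool.Agent.WFC

open Pool.Agent.EFC
open Pool.Agent.ZCyc
open Pool.Agent.VFP (Om tt)

variable {k : Type} [Field k] {m : ℕ} {X : Fin m → WC k}

/-- Möbius inversion on the set of the subsets -/
private theorem moebius {A V : Type*} [DecidableEq A] [AddCommGroup V] [Module ℚ V]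
    (f : Finset A → V) (B : Finset A) :
    f B = ∑ T ∈ B.powerset, ∑ U ∈ T.powerset, ((-1 : ℚ) ^ (T \ U).card) • f U := by
  induction B using Finset.induction_on generalizing f with
  | empty => simp
  | insert a B ha ih =>
    rw [Finset.sum_powerset_insert ha, ← ih f, ih (fun U => f (insert a U)),
      ← sub_eq_iff_eq_add', ih f, ← Finset.sum_sub_distrib]
    refine Finset.sum_congr rfl fun T hT => ?_
    have haT : a ∉ T := fun h => ha (Finset.mem_powerset.1 hT h)
    rw [Finset.sum_powerset_insert haT, ← Finset.sum_sub_distrib, ← Finset.sum_add_distrib]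
    refine Finset.sum_congr rfl fun U hU => ?_
    have haU : a ∉ U := fun h => haT (Finset.mem_powerset.1 hU h)
    have e1 : insert a T \ U = insert a (T \ U) := by
      ext b
      simp only [Finset.mem_sdiff, Finset.mem_insert]
      constructor
      · rintro ⟨rfl | h1, h2⟩
        · exact Or.inl rfl
        · exact Or.inr ⟨h1, h2⟩
      · rintro (rfl | ⟨h1, h2⟩)
        · exact ⟨Or.inl rfl, haU⟩
        · exact ⟨Or.inr h1, h2⟩
    have e2 : insert a T \ insert a U = T \ U := by
      ext b
      simp only [Finset.mem_sdiff, Finset.mem_insert, not_or]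
      constructor
      · rintro ⟨rfl | h1, h2, h3⟩
        · exact absurd rfl h2
        · exact ⟨h1, h3⟩
      · rintro ⟨h1, h2⟩
        exact ⟨Or.inr h1, fun h => haT (h ▸ h1), h2⟩
    have h3 : a ∉ T \ U := fun h => haT (Finset.mem_sdiff.1 h).1
    rw [e1, e2, Finset.card_insert_of_notMem h3, pow_succ]
    module

/-- the terms cancel in pairs -/
private theorem sum_cancel {A V : Type*} [DecidableEq A] [AddCommGroup V] [Module ℚ V]
    {f : Finset A → V} {T : Finset A} {p : A} (hp : p ∈ T)
    (h : ∀ U, U ⊆ T → p ∉ U → f (insert p U) = f U) :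
    ∑ U ∈ T.powerset, ((-1 : ℚ) ^ (T \ U).card) • f U = 0 := by
  have hT : T.powerset = (insert p (T.erase p)).powerset := by rw [Finset.insert_erase hp]
  rw [hT, Finset.sum_powerset_insert (Finset.notMem_erase p T), ← Finset.sum_add_distrib]
  refine Finset.sum_eq_zero fun U hU => ?_
  have hU' : U ⊆ T.erase p := Finset.mem_powerset.1 hU
  have hpU : p ∉ U := fun h' => Finset.notMem_erase p T (hU' h')
  have hUT : U ⊆ T := hU'.trans (Finset.erase_subset p T)
  rw [h U hUT hpU]
  have e : T \ U = insert p (T \ insert p U) := by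
    ext b
    simp only [Finset.mem_sdiff, Finset.mem_insert, not_or]
    constructor
    · rintro ⟨h1, h2⟩
      by_cases hb : b = p
      · exact Or.inl hb
      · exact Or.inr ⟨h1, hb, h2⟩
    · rintro (rfl | ⟨h1, -, h3⟩)
      · exact ⟨hp, hpU⟩
      · exact ⟨h1, h3⟩
  have h3 : p ∉ T \ insert p U := fun h' =>
    (Finset.mem_sdiff.1 h').2 (Finset.mem_insert_self p U)
  rw [e, Finset.card_insert_of_notMem h3, pow_succ]
  module

/-- the class of `π_B x` -/
theorem clP_proj_eq_sum (x : Pts m k) (B : Finset (Fin m × Option ℕ)) :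
    clP X (proj B x) = ∑ T ∈ B.powerset, eP X T x :=
  moebius (fun U => clP X (proj U x)) B

/-- If `(j, some b) ∈ T` and `(j, none) ∉ T` then the sets `U` and `U` with `(j, some b)` added cancel:
`proj` only depends on the pairs `(j, o)` for the `j` with `(j, none) ∈ U`. -/
theorem eP_not_closed {T : Finset (Fin m × Option ℕ)} (hT : ¬ Closed T) (x : Pts m k) :
    eP X T x = 0 := by
  simp only [Closed, not_forall] at hT
  obtain ⟨j, b, hjb, hj⟩ := hT
  refine sum_cancel (f := fun U => clP X (proj U x)) hjb fun U hU _ => ?_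
  refine congrArg (clP X) (funext fun i => ?_)
  have hnone : (i, (none : Option ℕ)) ∈ insert (j, some b) U ↔ (i, none) ∈ U := by
    rw [Finset.mem_insert]
    constructor
    · rintro (h | h)
      · exact absurd (Prod.mk.inj h).2 (by simp)
      · exact h
    · exact Or.inr
  by_cases hi : (i, (none : Option ℕ)) ∈ U
  · have hij : i ≠ j := by
      rintro rfl
      exact hj (hU hi)
    have hsome : ∀ c : ℕ, (i, some c) ∈ insert (j, some b) U ↔ (i, some c) ∈ U := by
      intro c
      rw [Finset.mem_insert]
      constructor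
      · rintro (h | h)
        · exact absurd (Prod.mk.inj h).1 hij
        · exact h
      · exact Or.inr
    simp only [proj, hnone, hi, if_true, hsome]
  · simp only [proj, hnone, hi, if_false]

open Classical in
/-- the decomposition of the class of a point, from `proj_blocks` and `clP_proj_eq_sum` -/
theorem clP_eq_sum {x : Pts m k} (hx : OnP X x) :
    clP X x = ∑ T ∈ (blocks X).powerset with Closed T, eP X T x := by
  rw [Finset.sum_filter_of_ne]
  · rw [← clP_proj_eq_sum, proj_blocks hx]
  · intro T _ hne
    by_contra hc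
    exact hne (eP_not_closed hc x)

/-- If `p ∈ T`, `p ∉ U` then the sets `V` and `insert p V` cancel (`proj_proj`). -/
theorem eP_proj (T U : Finset (Fin m × Option ℕ)) (x : Pts m k) :
    eP X T (proj U x) = if T ⊆ U then eP X T x else 0 := by
  split_ifs with h
  · refine Finset.sum_congr rfl fun V hV => ?_
    rw [proj_proj, Finset.inter_eq_left.2 ((Finset.mem_powerset.1 hV).trans h)]
  · obtain ⟨p, hpT, hpU⟩ := Finset.not_subset.1 h
    refine sum_cancel (f := fun V => clP X (proj V (proj U x))) hpT fun V _ _ => ?_
    simp only [proj_proj, Finset.insert_inter_of_notMem hpU]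

/-- `eP X T x` depends only on the factors `x j` with `(j, none) ∈ T`, up to the types of the
points. -/
theorem eP_congr {T : Finset (Fin m × Option ℕ)} {x y : Pts m k} (hx : OnP X x)
    (hy : OnP X y) (h : ∀ j, (j, none) ∈ T → x j = y j) : eP X T x = eP X T y := by
  refine Finset.sum_congr rfl fun U hU => ?_
  have hUT := Finset.mem_powerset.1 hU
  have e : proj U x = proj U y := by
    funext j
    simp only [proj]
    split_ifs with hj
    · rw [h j (hUT hj)]
    · rw [(hx j).1, (hy j).1]
  rw [e]

end Pool.Agent.WFC
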