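import Pool.Agent.WFC.FMap
import Pool.Agent.WFC.ActCl

/-!
# Functoriality of rational equivalence for the quotients
-/

set_option autoImplicit false

noncomputable section

namespace Pool.Agent.WFC

open Pool.Agent.EFC
open Pool.Agent.ZCyc
open Pool.Agent.VFP (Om tt)

variable {k : Type} [Field k] {m m' : ℕ} {X : Fin m → WC k} {Y : Fin m' → WC k}

/-- `p'` is conjugate to `p` up to a change of the homogeneous coordinates. -/
def Cj (p p' : Pts m k) : Prop := ∀ j, ∃ (g : (p j).1.G) (s : Fin (p j).1.N → k),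
  (∀ i, s i ≠ 0) ∧ p' j = ⟨(p j).1, ((p j).2.act g).scale s⟩

/-- conjugates of points of the product are points of the product -/
private theorem fmapw_act [IsAlgClosed k] [CharZero k] {p p' : Pts m k} (hp : OnP X p)
    (h : ∀ j, ∃ g : (p j).1.G, p' j = ⟨(p j).1, (p j).2.act g⟩) : OnP X p' := by
  intro j
  obtain ⟨g, hg⟩ := h j
  rw [hg]
  exact ⟨(hp j).1, on_act (hp j).2 g⟩

/-- the points of the same variety -/
private theorem fmapw_mk {Z : WC k} {w w' : Crd Z} (h : w = w') :
    (⟨Z, w⟩ : Pt k) = ⟨Z, w'⟩ := by rw [h]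

/-- the trivial change of the homogeneous coordinates -/
private theorem fmapw_scale_one {Z : WC k} (w : Crd Z) : w.scale (fun _ => 1) = w := by
  refine Crd.ext rfl (funext fun i => one_mul _) (funext fun i => one_mul _) (funext fun b => ?_)
  change (∏ i with Z.blk i = b, (1 : k)) ^ 2 * w.y b = w.y b
  rw [Finset.prod_const_one, one_pow, one_mul]

/-- The support of a cycle in `ratEqW X`, and its degree: `ratEqP_supp`, `on_act`. -/
theorem ratEqW_supp [IsAlgClosed k] [CharZero k] {z : Pts m k →₀ ℚ} (hz : z ∈ ratEqW X) :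
    (∀ p ∈ z.support, OnP X p) ∧ (z.sum fun _ c => c) = 0 := by
  classical
  let N : Submodule ℚ (Pts m k →₀ ℚ) :=
    { carrier := {z | (∀ p ∈ z.support, OnP X p) ∧ (z.sum fun _ c => c) = 0}
      zero_mem' := by simp
      add_mem' := by
        rintro z z' ⟨h1, h2⟩ ⟨h3, h4⟩
        refine ⟨fun p hp => ?_, ?_⟩
        · rcases Finset.mem_union.1 (Finsupp.support_add hp) with h | h
          · exact h1 p h
          · exact h3 p h
        · rw [Finsupp.sum_add_index' (fun _ => rfl) (fun _ _ _ => rfl), h2, h4, add_zero]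
      smul_mem' := by
        rintro c z ⟨h1, h2⟩
        refine ⟨fun p hp => h1 p (Finsupp.support_smul hp), ?_⟩
        rw [Finsupp.sum_smul_index' (fun _ => rfl)]
        simp only [smul_eq_mul]
        rw [← Finsupp.mul_sum, h2, mul_zero] }
  have hsingle : ∀ p q : Pts m k, OnP X p → OnP X q →
      (Finsupp.single p (1 : ℚ) - Finsupp.single q 1) ∈ N := by
    intro p q hp hq
    refine ⟨fun r hr => ?_, ?_⟩
    · rcases Finset.mem_union.1 (Finsupp.support_sub hr) with h | h
      · rw [Finset.mem_singleton.1 (Finsupp.support_single_subset h)]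
        exact hp
      · rw [Finset.mem_singleton.1 (Finsupp.support_single_subset h)]
        exact hq
    · rw [Finsupp.sum_sub_index (fun _ _ _ => rfl), Finsupp.sum_single_index rfl,
        Finsupp.sum_single_index rfl, sub_self]
  have key : ratEqW X ≤ N := by
    unfold ratEqW
    refine sup_le (fun z hz => ratEqP_supp hz) ?_
    rw [Submodule.span_le]
    rintro z ⟨p, p', hp, h, rfl⟩
    exact hsingle _ _ hp (fmapw_act hp h)
  exact key hz

/-- Conjugate points are rationally equivalent on the quotient (definition), and a change of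
the homogeneous coordinates does not matter: constant families (`isValue_cst`, `isValue_scale`), as
in
the proof of `clP_scale` (`WFC/Classes.lean`), for arbitrary `X`. -/
theorem single_mem_ratEqW [IsAlgClosed k] [CharZero k] {p p' : Pts m k} (hp : OnP X p)
    (h : Cj p p') : (Finsupp.single p (1 : ℚ) - Finsupp.single p' 1) ∈ ratEqW X := by
  choose g s hs hp' using h
  obtain ⟨q, hq⟩ : ∃ q : Pts m k, ∀ j, q j = ⟨(p j).1, (p j).2.act (g j)⟩ :=
    ⟨fun j => ⟨(p j).1, (p j).2.act (g j)⟩, fun _ => rfl⟩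
  have h1 : (Finsupp.single p (1 : ℚ) - Finsupp.single q 1) ∈ ratEqW X :=
    Submodule.mem_sup_right (Submodule.subset_span ⟨p, q, hp, fun j => ⟨g j, hq j⟩, rfl⟩)
  have hOq : OnP X q := fmapw_act hp fun j => ⟨g j, hq j⟩
  have h2 : clP X q = clP X p' := by
    refine bridgeP (X := X) (I := Unit) (fun _ => 1)
      (fun _ j => ⟨(p j).1, ((p j).2.act (g j)).cst⟩)
      (fun _ j => ⟨(hp j).1, on_cst (on_act (hp j).2 (g j))⟩) 0 0 _ _ ?_ ?_
    · intro v _
      refine ⟨fun _ => q, fun _ => hOq, fun _ j => ?_, by simp⟩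
      exact ⟨(p j).1, ((p j).2.act (g j)).cst, (p j).2.act (g j), rfl, hq j, isValue_cst v _⟩
    · intro v _
      refine ⟨fun _ => p', fun _ j => ?_, fun _ j => ?_, by simp⟩
      · show (p' j).1 = X j ∧ (p' j).2.On
        rw [hp' j]
        exact ⟨(hp j).1, on_scale (hs j) (on_act (hp j).2 (g j))⟩
      · exact ⟨(p j).1, ((p j).2.act (g j)).cst, ((p j).2.act (g j)).scale (s j), rfl, hp' j,
          isValue_scale (hs j) (isValue_cst v _)⟩
  have h3 : (Finsupp.single q (1 : ℚ) - Finsupp.single p' 1) ∈ ratEqW X :=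
    (Submodule.Quotient.eq _).1 h2
  have h4 := Submodule.add_mem _ h1 h3
  rwa [sub_add_sub_cancel] at h4

/-- The push-forward by a map which respects `ratEqP` and maps conjugate points to conjugate points
(up to
changes of homogeneous coordinates). -/
theorem mapDomain_ratEqW_of [IsAlgClosed k] [CharZero k] {F : Pts m k → Pts m' k}
    (h1 : ∀ z ∈ ratEqP X, z.mapDomain F ∈ ratEqP Y) (hOn : ∀ p, OnP X p → OnP Y (F p))
    (h2 : ∀ p p' : Pts m k, OnP X p →
      (∀ j, ∃ g : (p j).1.G, p' j = ⟨(p j).1, (p j).2.act g⟩) → Cj (F p) (F p'))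
    {z : Pts m k →₀ ℚ} (hz : z ∈ ratEqW X) : z.mapDomain F ∈ ratEqW Y := by
  have key : ratEqW X ≤ (ratEqW Y).comap (Finsupp.lmapDomain ℚ ℚ F) := by
    conv_lhs => unfold ratEqW
    refine sup_le (fun z hz => ?_) ?_
    · rw [Submodule.mem_comap, Finsupp.lmapDomain_apply]
      exact Submodule.mem_sup_left (h1 z hz)
    · rw [Submodule.span_le]
      rintro z ⟨p, p', hp, h, rfl⟩
      show Finsupp.lmapDomain ℚ ℚ F (Finsupp.single p 1 - Finsupp.single p' 1) ∈ ratEqW Y
      rw [map_sub, Finsupp.lmapDomain_apply, Finsupp.lmapDomain_apply, Finsupp.mapDomain_single,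
        Finsupp.mapDomain_single]
      exact single_mem_ratEqW (hOn p hp) (h2 p p' hp h)
  exact key hz

/-- The multiplications commute with the action, up to a change of the homogeneous coordinates in
the
blocks with `ε b = 0` (there `(1, 0, 0)` becomes `(kap ^ D, 0, 0)`). -/
theorem mul_act [IsAlgClosed k] [CharZero k] {Z : WC k} (ε : ℕ → SignType) (g : Z.G) (w : Crd Z) :
    ∃ s : Fin Z.N → k, (∀ i, s i ≠ 0) ∧ (w.act g).mul ε = ((w.mul ε).act g).scale s := by
  have hk : ∀ i, Z.kap g w.c ^ Z.D ((Z.gal g)⁻¹ i) w.c ≠ 0 := fun i =>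
    zpow_ne_zero _ (kap_ne g w.c)
  have hb : ∀ i, Z.blk ((Z.gal g)⁻¹ i) = Z.blk i := by
    intro i
    have h := Z.gal_blk g ((Z.gal g)⁻¹ i)
    have h' : Z.gal g ((Z.gal g)⁻¹ i) = i := Equiv.apply_symm_apply _ _
    rw [h'] at h
    exact h.symm
  refine ⟨fun i => if ε (Z.blk i) = 0 then (Z.kap g w.c ^ Z.D ((Z.gal g)⁻¹ i) w.c)⁻¹ else 1,
    fun i => ?_, ?_⟩
  · beta_reduce
    split_ifs
    · exact inv_ne_zero (hk i)
    · exact one_ne_zero
  · refine Crd.ext rfl (funext fun i => ?_) (funext fun i => ?_) (funext fun b => ?_)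
    · change (if ε (Z.blk i) = 0 then (1 : k) else
          Z.kap g w.c ^ Z.D ((Z.gal g)⁻¹ i) w.c * w.x ((Z.gal g)⁻¹ i)) =
        (if ε (Z.blk i) = 0 then (Z.kap g w.c ^ Z.D ((Z.gal g)⁻¹ i) w.c)⁻¹ else 1) *
        (Z.kap g w.c ^ Z.D ((Z.gal g)⁻¹ i) w.c *
          (if ε (Z.blk ((Z.gal g)⁻¹ i)) = 0 then (1 : k) else w.x ((Z.gal g)⁻¹ i)))
      rw [hb i]
      by_cases h : ε (Z.blk i) = 0
      · rw [if_pos h, if_pos h, if_pos h, mul_one, inv_mul_cancel₀ (hk i)]
      · rw [if_neg h, if_neg h, if_neg h, one_mul]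
    · change (if ε (Z.blk i) = 0 then (0 : k) else w.z ((Z.gal g)⁻¹ i)) =
        (if ε (Z.blk i) = 0 then (Z.kap g w.c ^ Z.D ((Z.gal g)⁻¹ i) w.c)⁻¹ else 1) *
          (if ε (Z.blk ((Z.gal g)⁻¹ i)) = 0 then (0 : k) else w.z ((Z.gal g)⁻¹ i))
      rw [hb i]
      by_cases h : ε (Z.blk i) = 0
      · rw [if_pos h, if_pos h, mul_zero]
      · rw [if_neg h, if_neg h, one_mul]
    · change (((ε b : SignType) : ℤ) : k) * (((Z.sgb g b : ℤ) : k) *
          Z.kap g w.c ^ (3 * ((∑ i with Z.blk i = b, Z.D i w.c) / 2)) * w.y b) =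
        (∏ i with Z.blk i = b, if ε (Z.blk i) = 0 then
          (Z.kap g w.c ^ Z.D ((Z.gal g)⁻¹ i) w.c)⁻¹ else 1) ^ 2 * (((Z.sgb g b : ℤ) : k) *
          Z.kap g w.c ^ (3 * ((∑ i with Z.blk i = b, Z.D i w.c) / 2)) *
          ((((ε b : SignType) : ℤ) : k) * w.y b))
      by_cases h : ε b = 0
      · rw [h]
        simp
      · have h1 : (∏ i with Z.blk i = b, if ε (Z.blk i) = 0 then
            (Z.kap g w.c ^ Z.D ((Z.gal g)⁻¹ i) w.c)⁻¹ else (1 : k)) = 1 := by
          refine Finset.prod_eq_one fun i hi => ?_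
          rw [(Finset.mem_filter.1 hi).2, if_neg h]
        rw [h1]
        ring

/-- Push-forward by a morphism. For a constant component use the group element `1` (`act_one`), for
`.fac i h ε` the lemma `mul_act`. -/
theorem mapDomain_ratEqW [IsAlgClosed k] [CharZero k] (f : Mor X Y) {z : Pts m k →₀ ℚ}
    (hz : z ∈ ratEqW X) : z.mapDomain f.app ∈ ratEqW Y := by
  refine mapDomain_ratEqW_of (fun z hz => mapDomain_ratEqP f hz) (fun p hp => f.onP hp) ?_ hz
  intro p p' _ h j
  show ∃ (g : ((f j).app p).1.G) (s : Fin ((f j).app p).1.N → k), (∀ i, s i ≠ 0) ∧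
    (f j).app p' = ⟨((f j).app p).1, (((f j).app p).2.act g).scale s⟩
  cases f j with
  | const w hw =>
    refine ⟨(1 : (Y j).G), fun _ => 1, fun _ => one_ne_zero, ?_⟩
    show (⟨Y j, w⟩ : Pt k) = ⟨Y j, (w.act 1).scale fun _ => 1⟩
    rw [fmapw_scale_one, act_one]
  | fac i hi ε =>
    obtain ⟨g, hg⟩ := h i
    obtain ⟨s, hs, hs'⟩ := mul_act ε g (p i).2
    refine ⟨g, s, hs, ?_⟩
    show (p' i).mul ε = ⟨(p i).1, (((p i).2.mul ε).act g).scale s⟩
    rw [hg]
    exact fmapw_mk hs'

/-- the projections are morphisms, see `proj_ratEqP` -/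
theorem proj_ratEqW [IsAlgClosed k] [CharZero k] (T : Finset (Fin m × Option ℕ))
    {z : Pts m k →₀ ℚ} (hz : z ∈ ratEqW X) : Finsupp.lmapDomain ℚ ℚ (proj T) z ∈ ratEqW X := by
  classical
  let f : Mor X X := fun j => if (j, none) ∈ T then
    .fac j rfl (fun b => if (j, some b) ∈ T then 1 else 0) else .const (X j).oo (on_oo (X j))
  have h1 : z.mapDomain f.app = z.mapDomain (proj T) := by
    refine Finsupp.mapDomain_congr fun x hx => ?_
    have h2 := (ratEqW_supp hz).1 x hx
    funext j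
    show (f j).app x = proj T x j
    by_cases h3 : (j, none) ∈ T
    · have e1 : f j = .fac j rfl (fun b => if (j, some b) ∈ T then 1 else 0) := if_pos h3
      have e2 : proj T x j = (x j).mul (fun b => if (j, some b) ∈ T then 1 else 0) := if_pos h3
      rw [e1, e2]
      rfl
    · have e1 : f j = .const (X j).oo (on_oo (X j)) := if_neg h3
      have e2 : proj T x j = ⟨(x j).1, (x j).1.oo⟩ := if_neg h3
      rw [e1, e2, (h2 j).1]
      rfl
  rw [Finsupp.lmapDomain_apply, ← h1]
  exact mapDomain_ratEqW f hz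

/-- Push-forward to the base curve of a factor: conjugate points have conjugate images. -/
theorem toBase_ratEqW [IsAlgClosed k] [CharZero k] (j : Fin m) {z : Pts m k →₀ ℚ}
    (hz : z ∈ ratEqW X) : toBase j z ∈ ratEqW (fun _ : Fin 1 => (X j).base) := by
  refine mapDomain_ratEqW_of (F := fun x _ => (x j).base) (fun z hz => toBase_ratEqP j hz)
    (fun p hp i => ⟨congrArg WC.base (hp j).1, fun i => i.elim0, fun b => b.elim0⟩) ?_ hz
  intro p p' _ h i
  obtain ⟨g, hg⟩ := h j
  refine ⟨g, fun _ => 1, fun _ => one_ne_zero, ?_⟩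
  show (p' j).base = ⟨(p j).1.base, _⟩
  rw [fmapw_scale_one, hg]
  refine fmapw_mk (Crd.ext rfl (funext fun i => i.elim0) (funext fun i => i.elim0)
    (funext fun b => b.elim0))

/-- Push-forward by the zero section. -/
theorem secP_ratEqW [IsAlgClosed k] [CharZero k] (j : Fin m) {z : Pts 1 k →₀ ℚ}
    (hz : z ∈ ratEqW (fun _ : Fin 1 => (X j).base)) : z.mapDomain (secP X j) ∈ ratEqW X := by
  classical
  have hz0 : ∀ c, (⟨c, fun _ => 1, fun _ => 0, fun _ => 0⟩ : Crd (X j)).On := by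
    intro c
    refine ⟨fun i => Or.inl one_ne_zero, fun b => ?_⟩
    obtain ⟨i, hi⟩ := blk_surj (X j) b
    have h2 : fac ((X j).coA c i) ((X j).coB c i) 1 0 = 0 := zero_mul _
    have h3 : ∏ i with (X j).blk i = b, fac ((X j).coA c i) ((X j).coB c i) 1 0 = 0 :=
      Finset.prod_eq_zero (Finset.mem_filter.2 ⟨Finset.mem_univ i, hi⟩) h2
    show (0 : k) ^ 2 = ∏ i with (X j).blk i = b, fac ((X j).coA c i) ((X j).coB c i) 1 0
    rw [h3]
    exact zero_pow two_ne_zero
  refine mapDomain_ratEqW_of (F := secP X j) (fun z hz => secP_ratEqP j hz) ?_ ?_ hz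
  · intro x hx i
    unfold secP
    by_cases hi : i = j
    · subst hi
      rw [Function.update_self]
      exact ⟨rfl, hz0 _⟩
    · rw [Function.update_of_ne hi]
      exact ⟨rfl, on_oo _⟩
  · intro p p' hp h i
    by_cases hi : i = j
    · subst hi
      obtain ⟨g, hg⟩ := h 0
      obtain ⟨Z, w, h1⟩ : ∃ (Z : WC k) (w : Crd Z), p 0 = ⟨Z, w⟩ := ⟨_, _, rfl⟩
      have h4 : Z = (X i).base := by
        have h5 := (hp 0).1
        rw [h1] at h5
        exact h5
      subst h4
      have h' : ∀ q : Pt k, q = ⟨(X i).base, w⟩ → ∀ g : q.1.G, p' 0 = ⟨q.1, q.2.act g⟩ →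
          ∃ g' : (X i).G, p' 0 = ⟨(X i).base, Crd.act (X := (X i).base) g' w⟩ := by
        rintro q rfl g hg
        exact ⟨g, hg⟩
      obtain ⟨g', hg'⟩ := h' (p 0) h1 g hg
      have hto : ∀ w : Crd (X i).base, Pt.to (X i).base ⟨(X i).base, w⟩ = w :=
        fun w => dif_pos rfl
      have e1 : secP X i p i = ⟨X i, ⟨w.c, fun _ => 1, fun _ => 0, fun _ => 0⟩⟩ := by
        unfold secP
        rw [Function.update_self, h1, hto]
      have e2 : secP X i p' i =
          ⟨X i, ⟨w.c.map g'.1, fun _ => 1, fun _ => 0, fun _ => 0⟩⟩ := by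
        unfold secP
        rw [Function.update_self, hg', hto]
        rfl
      show ∃ (g : (secP X i p i).1.G) (s : Fin (secP X i p i).1.N → k), (∀ i, s i ≠ 0) ∧
        secP X i p' i = ⟨(secP X i p i).1, ((secP X i p i).2.act g).scale s⟩
      rw [e1, e2]
      have hk : ∀ a, (X i).kap g' w.c ^ (X i).D (((X i).gal g')⁻¹ a) w.c ≠ 0 := fun a =>
        zpow_ne_zero _ (kap_ne g' w.c)
      refine ⟨g', fun a => ((X i).kap g' w.c ^ (X i).D (((X i).gal g')⁻¹ a) w.c)⁻¹,
        fun a => inv_ne_zero (hk a), ?_⟩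
      refine fmapw_mk (Crd.ext rfl (funext fun a => ?_) (funext fun a => ?_)
        (funext fun b => ?_))
      · change (1 : k) = ((X i).kap g' w.c ^ (X i).D (((X i).gal g')⁻¹ a) w.c)⁻¹ *
          ((X i).kap g' w.c ^ (X i).D (((X i).gal g')⁻¹ a) w.c * 1)
        rw [mul_one, inv_mul_cancel₀ (hk a)]
      · exact (mul_zero _).symm
      · change (0 : k) = _ ^ 2 * (_ * _ * 0)
        rw [mul_zero, mul_zero]
    · have e1 : ∀ x, secP X j x i = ⟨X i, (X i).oo⟩ := fun x => by
        unfold secP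
        rw [Function.update_of_ne hi]
      rw [e1, e1]
      refine ⟨(1 : (X i).G), fun _ => 1, fun _ => one_ne_zero, ?_⟩
      rw [fmapw_scale_one, act_one]

end Pool.Agent.WFC
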