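import Pool.Agent.EFC.FIns
import Pool.Agent.WFC.FMapW

/-!
# Insertion of points of the fibre product of some of the blocks

Adapt `Pool/Agent/EFP/Sub.lean`.
-/

set_option autoImplicit false

noncomputable section

namespace Pool.Agent.WFC

open Pool.Agent.EFC
open Pool.Agent.ZCyc
open Pool.Agent.VFP (Om tt)

variable {k : Type} [Field k] {m n : ℕ} {X : Fin m → WC k} {Z : WC k} {S : Finset ℕ}

/-! ### The coordinates of the lift -/

private theorem dite_at {α β M : Type*} {g : α → β} (hg : Function.Injective g) (f : α → M)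
    (d : M) (a : α) [Decidable (∃ b, g b = g a)] :
    (if h : ∃ b, g b = g a then f h.choose else d) = f a := by
  have h : ∃ b, g b = g a := ⟨a, rfl⟩
  rw [dif_pos h, hg h.choose_spec]

private theorem lift_x (w : Crd (Z.sub S)) (a : Fin (subI Z S).card) :
    (liftS w).x (ιS Z S a) = w.x a := by
  classical
  unfold liftS
  exact dite_at (ιS Z S).injective w.x 1 a

private theorem lift_z (w : Crd (Z.sub S)) (a : Fin (subI Z S).card) :
    (liftS w).z (ιS Z S a) = w.z a := by
  classical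
  unfold liftS
  exact dite_at (ιS Z S).injective w.z 0 a

private theorem lift_y (w : Crd (Z.sub S)) (a : Fin (subK Z S).card) :
    (liftS w).y (κS Z S a) = w.y a := by
  classical
  unfold liftS
  exact dite_at (κS Z S).injective w.y 0 a

private theorem lift_x_of (w : Crd (Z.sub S)) {i : Fin Z.N} (hi : (Z.blk i : ℕ) ∉ S) :
    (liftS w).x i = 1 := by
  classical
  unfold liftS
  exact dif_neg fun h => hi ((ιS_range Z S i).1 h)

private theorem lift_z_of (w : Crd (Z.sub S)) {i : Fin Z.N} (hi : (Z.blk i : ℕ) ∉ S) :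
    (liftS w).z i = 0 := by
  classical
  unfold liftS
  exact dif_neg fun h => hi ((ιS_range Z S i).1 h)

private theorem lift_y_of (w : Crd (Z.sub S)) {b : Fin Z.r} (hb : (b : ℕ) ∉ S) :
    (liftS w).y b = 0 := by
  classical
  unfold liftS
  exact dif_neg fun h => hb ((κS_range Z S b).1 h)

private theorem liftO_x (w : CrdO (Z.sub S)) (a : Fin (subI Z S).card) :
    (liftSO w).x (ιS Z S a) = w.x a := by
  classical
  unfold liftSO
  exact dite_at (ιS Z S).injective w.x 1 a

private theorem liftO_z (w : CrdO (Z.sub S)) (a : Fin (subI Z S).card) :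
    (liftSO w).z (ιS Z S a) = w.z a := by
  classical
  unfold liftSO
  exact dite_at (ιS Z S).injective w.z 0 a

private theorem liftO_y (w : CrdO (Z.sub S)) (a : Fin (subK Z S).card) :
    (liftSO w).y (κS Z S a) = w.y a := by
  classical
  unfold liftSO
  exact dite_at (κS Z S).injective w.y 0 a

private theorem liftO_x_of (w : CrdO (Z.sub S)) {i : Fin Z.N} (hi : (Z.blk i : ℕ) ∉ S) :
    (liftSO w).x i = 1 := by
  classical
  unfold liftSO
  exact dif_neg fun h => hi ((ιS_range Z S i).1 h)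

private theorem liftO_z_of (w : CrdO (Z.sub S)) {i : Fin Z.N} (hi : (Z.blk i : ℕ) ∉ S) :
    (liftSO w).z i = 0 := by
  classical
  unfold liftSO
  exact dif_neg fun h => hi ((ιS_range Z S i).1 h)

private theorem liftO_y_of (w : CrdO (Z.sub S)) {b : Fin Z.r} (hb : (b : ℕ) ∉ S) :
    (liftSO w).y b = 0 := by
  classical
  unfold liftSO
  exact dif_neg fun h => hb ((κS_range Z S b).1 h)

private theorem prod_blkS (Z : WC k) (S : Finset ℕ) {M : Type*} [CommMonoid M]
    (g : Fin Z.N → M) (a : Fin (subK Z S).card) :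
    ∏ i with blkS Z S i = a, g (ιS Z S i) = ∏ i with Z.blk i = κS Z S a, g i := by
  have h := sum_blkS Z S (M := Additive M) (fun i => Additive.ofMul (g i)) a
  exact congrArg Additive.toMul h

private theorem fac_zero {K : Type*} [Field K] (a b x : K) : fac a b x 0 = 0 := by
  unfold fac
  rw [zero_mul]

theorem lift_on {w : Crd (Z.sub S)} (hw : w.On) : (liftS w).On := by
  refine ⟨fun i => ?_, fun b => ?_⟩
  · by_cases hi : (Z.blk i : ℕ) ∈ S
    · obtain ⟨a, rfl⟩ := (ιS_range Z S i).2 hi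
      rw [lift_x, lift_z]
      exact hw.1 a
    · left
      rw [lift_x_of w hi]
      exact one_ne_zero
  · by_cases hb : (b : ℕ) ∈ S
    · obtain ⟨a, rfl⟩ := (κS_range Z S b).2 hb
      rw [lift_y, ← prod_blkS]
      refine (hw.2 a).trans (Finset.prod_congr rfl fun i _ => ?_)
      have e1 : (liftS w).x (ιS Z S i) = w.x i := lift_x w i
      have e2 : (liftS w).z (ιS Z S i) = w.z i := lift_z w i
      rw [e1, e2]
      rfl
    · rw [lift_y_of w hb]
      obtain ⟨i, hi⟩ := blk_surj Z b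
      rw [Finset.prod_eq_zero (i := i) (Finset.mem_filter.2 ⟨Finset.mem_univ _, hi⟩)]
      · exact zero_pow two_ne_zero
      · rw [lift_z_of w (by rw [hi]; exact hb), fac_zero]

theorem liftO_on {w : CrdO (Z.sub S)} (hw : w.On) : (liftSO w).On := by
  refine ⟨fun i => ?_, fun b => ?_⟩
  · by_cases hi : (Z.blk i : ℕ) ∈ S
    · obtain ⟨a, rfl⟩ := (ιS_range Z S i).2 hi
      rw [liftO_x, liftO_z]
      exact hw.1 a
    · left
      rw [liftO_x_of w hi]
      exact one_ne_zero
  · by_cases hb : (b : ℕ) ∈ S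
    · obtain ⟨a, rfl⟩ := (κS_range Z S b).2 hb
      rw [liftO_y, ← prod_blkS]
      refine (hw.2 a).trans (Finset.prod_congr rfl fun i _ => ?_)
      have e1 : (liftSO w).x (ιS Z S i) = w.x i := liftO_x w i
      have e2 : (liftSO w).z (ιS Z S i) = w.z i := liftO_z w i
      rw [e1, e2]
      rfl
    · rw [liftO_y_of w hb]
      obtain ⟨i, hi⟩ := blk_surj Z b
      rw [Finset.prod_eq_zero (i := i) (Finset.mem_filter.2 ⟨Finset.mem_univ _, hi⟩)]
      · exact zero_pow two_ne_zero
      · rw [liftO_z_of w (by rw [hi]; exact hb), fac_zero]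

theorem rest_on {w : Crd Z} (hw : w.On) : (restS S w).On := by
  refine ⟨fun a => hw.1 (ιS Z S a), fun a => ?_⟩
  refine (hw.2 (κS Z S a)).trans ?_
  exact (prod_blkS Z S (fun i => fac (Z.coA w.c i) (Z.coB w.c i) (w.x i) (w.z i)) a).symm

/-- `liftS (restS w)` is `w` projected to the blocks in `S` -/
theorem lift_rest (w : Crd Z) :
    liftS (restS S w) = w.mul fun b => if b ∈ S then 1 else 0 := by
  refine Crd.ext rfl ?_ ?_ ?_
  · funext i
    show (liftS (restS S w)).x i = if (if (Z.blk i : ℕ) ∈ S then (1 : SignType) else 0) = 0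
      then 1 else w.x i
    by_cases h : (Z.blk i : ℕ) ∈ S
    · obtain ⟨a, rfl⟩ := (ιS_range Z S i).2 h
      rw [lift_x, if_pos h, if_neg one_ne_zero]
      rfl
    · rw [lift_x_of _ h, if_neg h, if_pos rfl]
  · funext i
    show (liftS (restS S w)).z i = if (if (Z.blk i : ℕ) ∈ S then (1 : SignType) else 0) = 0
      then 0 else w.z i
    by_cases h : (Z.blk i : ℕ) ∈ S
    · obtain ⟨a, rfl⟩ := (ιS_range Z S i).2 h
      rw [lift_z, if_pos h, if_neg one_ne_zero]
      rfl
    · rw [lift_z_of _ h, if_neg h, if_pos rfl]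
  · funext b
    show (liftS (restS S w)).y b =
      (((if (b : ℕ) ∈ S then (1 : SignType) else 0 : SignType) : ℤ) : k) * w.y b
    by_cases h : (b : ℕ) ∈ S
    · obtain ⟨a, rfl⟩ := (κS_range Z S b).2 h
      rw [if_pos h, lift_y]
      simp
      rfl
    · rw [lift_y_of _ h, if_neg h]
      simp

theorem lift_oo : liftS (Z.sub S).oo = Z.oo := by
  classical
  refine Crd.ext rfl ?_ ?_ ?_
  · funext i
    show (if h : ∃ a, ιS Z S a = i then (1 : k) else 1) = 1
    split_ifs <;> rfl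
  · funext i
    show (if h : ∃ a, ιS Z S a = i then (0 : k) else 0) = 0
    split_ifs <;> rfl
  · funext b
    show (if h : ∃ a, κS Z S a = b then (0 : k) else 0) = 0
    split_ifs <;> rfl

theorem liftO_map (g : Om k ≃ₐ[k] Om k) (w : CrdO (Z.sub S)) :
    liftSO (w.map g) = (liftSO w).map g := by
  classical
  refine CrdO.ext rfl ?_ ?_ ?_
  · funext i
    show (if h : ∃ a, ιS Z S a = i then g (w.x h.choose) else 1) =
      g (if h : ∃ a, ιS Z S a = i then w.x h.choose else 1)
    split_ifs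
    · rfl
    · exact (map_one g).symm
  · funext i
    show (if h : ∃ a, ιS Z S a = i then g (w.z h.choose) else 0) =
      g (if h : ∃ a, ιS Z S a = i then w.z h.choose else 0)
    split_ifs
    · rfl
    · exact (map_zero g).symm
  · funext b
    show (if h : ∃ a, κS Z S a = b then g (w.y h.choose) else 0) =
      g (if h : ∃ a, κS Z S a = b then w.y h.choose else 0)
    split_ifs
    · rfl
    · exact (map_zero g).symm

/-- for the indices which are not in `Z.sub S` take `m i = unifO P.s p.c ^ (- D_i c)` (`unifO_ne`) -/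
theorem lift_value [IsAlgClosed k] [CharZero k] {v : Place k (Om k)} {P : CrdO (Z.sub S)}
    {p : Crd (Z.sub S)} (h : (Z.sub S).IsValue v P p) : Z.IsValue v (liftSO P) (liftS p) := by
  classical
  obtain ⟨hb, m, h1, h2, h3⟩ := h
  have hu : unifO P.s p.c ≠ 0 := unifO_ne Z.curve P.s p.c
  set m' : Fin Z.N → Om k := fun i =>
    if h : ∃ a, ιS Z S a = i then m h.choose else (unifO P.s p.c ^ Z.D i p.c)⁻¹ with hm'
  have hm1 : ∀ a, m' (ιS Z S a) = m a := fun a =>
    dite_at (ιS Z S).injective m ((unifO P.s p.c ^ Z.D (ιS Z S a) p.c)⁻¹) a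
  have hm2 : ∀ i, (Z.blk i : ℕ) ∉ S → m' i = (unifO P.s p.c ^ Z.D i p.c)⁻¹ := fun i hi =>
    dif_neg fun h => hi ((ιS_range Z S i).1 h)
  refine ⟨hb, m', fun i => ?_, fun i => ?_, fun b => ?_⟩
  · show v.Vanishes (m' i * unifO P.s p.c ^ Z.D i p.c * (liftSO P).x i -
      algebraMap k (Om k) ((liftS p).x i))
    by_cases hi : (Z.blk i : ℕ) ∈ S
    · obtain ⟨a, rfl⟩ := (ιS_range Z S i).2 hi
      rw [lift_x, liftO_x, hm1]
      exact h1 a
    · rw [lift_x_of _ hi, liftO_x_of _ hi, hm2 i hi, inv_mul_cancel₀ (zpow_ne_zero _ hu), map_one,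
        mul_one, sub_self]
      exact v.vanishes_zero
  · by_cases hi : (Z.blk i : ℕ) ∈ S
    · obtain ⟨a, rfl⟩ := (ιS_range Z S i).2 hi
      rw [lift_z, liftO_z, hm1]
      exact h2 a
    · rw [lift_z_of _ hi, liftO_z_of _ hi, mul_zero, map_zero, sub_zero]
      exact v.vanishes_zero
  · show v.Vanishes ((∏ i with Z.blk i = b, m' i) ^ 2 *
      unifO P.s p.c ^ (3 * ((∑ i with Z.blk i = b, Z.D i p.c) / 2)) * (liftSO P).y b -
        algebraMap k (Om k) ((liftS p).y b))
    by_cases hbS : (b : ℕ) ∈ S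
    · obtain ⟨a, rfl⟩ := (κS_range Z S b).2 hbS
      rw [lift_y, liftO_y, ← prod_blkS Z S m' a, ← sum_blkS Z S (fun i => Z.D i p.c) a,
        Finset.prod_congr rfl fun i _ => hm1 i]
      exact h3 a
    · rw [lift_y_of _ hbS, liftO_y_of _ hbS, mul_zero, map_zero, sub_zero]
      exact v.vanishes_zero

theorem to_mk (w : Crd Z) : Pt.to Z ⟨Z, w⟩ = w := by
  classical
  unfold Pt.to
  rw [dif_pos rfl]

private theorem on_to {Y : WC k} {w : Pt k} (h : w.1 = Y) (hw : w.2.On) : (w.to Y).On := by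
  obtain ⟨Y', w⟩ := w
  have h' : Y' = Y := h
  subst h'
  rw [to_mk]
  exact hw

theorem onP_insP (c : Fin n ↪ Fin m) (hc : ∀ a, X (c a) = Z) {x : Pts m k} (hx : OnP X x)
    {w : Pts n k} (hw : OnP ((Z.sub S).pow n) w) : OnP X (insP (Z := Z) (S := S) c x w) := by
  classical
  intro j
  unfold insP
  by_cases h : ∃ a, c a = j
  · rw [dif_pos h]
    have h1 := hw h.choose
    refine ⟨?_, ?_⟩
    · show Z = X j
      rw [← h.choose_spec, hc]
    · exact lift_on (on_to h1.1 h1.2)
  · rw [dif_neg h]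
    exact hx j

open Classical in
/-- a point of `Y` over `Om k` -/
private def toO (Y : WC k) (w : PtO k) : CrdO Y :=
  if h : w.1 = Y then h ▸ w.2 else Y.oo.cst

private theorem toO_mk {Y : WC k} (w : CrdO Y) : toO Y ⟨Y, w⟩ = w := by
  classical
  unfold toO
  rw [dif_pos rfl]

private theorem on_toO {Y : WC k} {w : PtO k} (h : w.1 = Y) (hw : w.2.On) : (toO Y w).On := by
  obtain ⟨Y', w⟩ := w
  have h' : Y' = Y := h
  subst h'
  rw [toO_mk]
  exact hw

private theorem toO_map {Y : WC k} {w : PtO k} (h : w.1 = Y) (g : Om k ≃ₐ[k] Om k) :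
    toO Y (w.map g) = (toO Y w).map g := by
  obtain ⟨Y', w⟩ := w
  have h' : Y' = Y := h
  subst h'
  rw [toO_mk]
  exact toO_mk (w.map g)

private theorem value_to {Y : WC k} {v : Place k (Om k)} {P : PtO k} {p : Pt k} (h : P.1 = Y)
    (hv : IsVal v P p) : Y.IsValue v (toO Y P) (p.to Y) := by
  obtain ⟨Y', P', p', rfl, rfl, hv⟩ := hv
  have h' : Y' = Y := h
  subst h'
  rw [toO_mk, to_mk]
  exact hv

/-- Insertion maps cycles equivalent to zero to cycles equivalent to zero. (Over `Om k` use the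
analogue of `Pt.to`.) -/
theorem insP_ratEqP [IsAlgClosed k] [CharZero k] (c : Fin n ↪ Fin m) (hc : ∀ a, X (c a) = Z)
    {x : Pts m k} (hx : OnP X x) {z : Pts n k →₀ ℚ} (hz : z ∈ ratEqP ((Z.sub S).pow n)) :
    Finsupp.lmapDomain ℚ ℚ (insP (Z := Z) (S := S) c x) z ∈ ratEqP X := by
  classical
  have hX : ∀ {j : Fin m}, (∃ a, c a = j) → X j = Z := by
    rintro j ⟨a, rfl⟩
    exact hc a
  have key : ratEqP ((Z.sub S).pow n) ≤ (ratEqP X).comap (Finsupp.lmapDomain ℚ ℚ
      (insP (Z := Z) (S := S) c x)) := by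
    conv_lhs => unfold ratEqP
    rw [Submodule.span_le]
    rintro z ⟨l, P, a, b, v, w, p, q, hOn, hG, hv, hw, hp, hq, rfl⟩
    refine Submodule.subset_span ⟨l,
      fun t j => if h : ∃ a, c a = j then ⟨Z, liftSO (toO (Z.sub S) (P t h.choose))⟩
        else ⟨(x j).1, (x j).2.cst⟩, a, b, v, w,
      fun t => insP (Z := Z) (S := S) c x (p t), fun t => insP (Z := Z) (S := S) c x (q t),
      fun t j => ?_, fun g => ?_, hv, hw,
      fun t => ⟨onP_insP c hc hx (hp t).1, fun j => ?_⟩,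
      fun t => ⟨onP_insP c hc hx (hq t).1, fun j => ?_⟩, ?_⟩
    · beta_reduce
      by_cases h : ∃ a, c a = j
      · rw [dif_pos h]
        exact ⟨(hX h).symm, liftO_on (on_toO (hOn t _).1 (hOn t _).2)⟩
      · rw [dif_neg h]
        exact ⟨(hx j).1, on_cst (hx j).2⟩
    · obtain ⟨e, he⟩ := hG g
      refine ⟨e, fun t j => ?_⟩
      beta_reduce
      by_cases h : ∃ a, c a = j
      · have h1 : (P t h.choose).1 = Z.sub S := (hOn t _).1
        rw [dif_pos h, dif_pos h, he t, toO_map h1, liftO_map]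
        rfl
      · rw [dif_neg h, dif_neg h]
        show (⟨(x j).1, (x j).2.cst⟩ : PtO k) = ⟨(x j).1, (x j).2.cst.map _⟩
        rw [crd_cst_map]
    · unfold insP
      beta_reduce
      by_cases h : ∃ a, c a = j
      · rw [dif_pos h, dif_pos h]
        exact ⟨Z, _, _, rfl, rfl, lift_value (value_to (hOn t _).1 ((hp t).2 _))⟩
      · rw [dif_neg h, dif_neg h]
        exact ⟨(x j).1, (x j).2.cst, (x j).2, rfl, rfl, isValue_cst v _⟩
    · unfold insP
      beta_reduce
      by_cases h : ∃ a, c a = j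
      · rw [dif_pos h, dif_pos h]
        exact ⟨Z, _, _, rfl, rfl, lift_value (value_to (hOn t _).1 ((hq t).2 _))⟩
      · rw [dif_neg h, dif_neg h]
        exact ⟨(x j).1, (x j).2.cst, (x j).2, rfl, rfl, isValue_cst w _⟩
    · rw [map_sum]
      refine Finset.sum_congr rfl fun t _ => ?_
      rw [map_sub, Finsupp.lmapDomain_apply, Finsupp.lmapDomain_apply, Finsupp.mapDomain_single,
        Finsupp.mapDomain_single]
  exact key hz

/-- The sign of the permutation of a block. The permutations `(Z.sub S).gal g = galH Z S g` of the block `b`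
and `Z.gal g` of the block `κS Z S b` are conjugate by `ιS` (`ιS_galS`, `blkS_iff`). -/
theorem sgb_sub (g : Z.G) (b : Fin (Z.sub S).r) :
    (Z.sub S).sgb g b = Z.sgb g (κS Z S b) := by
  classical
  have hinj : Function.Injective (ιS Z S) := (ιS Z S).injective
  let f : {i // (Z.sub S).blk i = b} → {i // Z.blk i = κS Z S b} :=
    fun i => ⟨ιS Z S i.1, (blkS_iff Z S i.1 b).1 i.2⟩
  have hf : Function.Bijective f := by
    refine ⟨fun i j h => Subtype.ext (hinj ?_), ?_⟩
    · have h1 : (f i).1 = (f j).1 := congrArg Subtype.val h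
      exact h1
    rintro ⟨i, hi⟩
    have h1 : (Z.blk i : ℕ) ∈ S := by
      rw [hi]
      exact (κS_range Z S _).1 ⟨b, rfl⟩
    obtain ⟨a, rfl⟩ := (ιS_range Z S i).2 h1
    exact ⟨⟨a, (blkS_iff Z S a b).2 hi⟩, rfl⟩
  unfold WC.sgb
  refine Equiv.Perm.sign_eq_sign_of_equiv _ _ (Equiv.ofBijective f hf) ?_
  rintro ⟨i, hi⟩
  exact Subtype.ext (ιS_galS Z S g i)

/-- `liftS` commutes with the action, up to a change of the homogeneous coordinates in the blocks which
are not in `S`: there `(1, 0, 0)` becomes `(kap ^ D, 0, 0)`. (`sgb_sub`, `ιS_galS`, `sum_blkS`.) -/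
theorem lift_act [IsAlgClosed k] [CharZero k] (g : Z.G) (w : Crd (Z.sub S)) :
    ∃ s : Fin Z.N → k, (∀ i, s i ≠ 0) ∧
      liftS (w.act (X := Z.sub S) g) = ((liftS w).act g).scale s := by
  classical
  have hk : Z.kap g w.c ≠ 0 := kap_ne g w.c
  obtain ⟨s, hs⟩ : ∃ s : Fin Z.N → k, s = fun i => if (Z.blk i : ℕ) ∈ S then 1 else
      (Z.kap g w.c ^ Z.D ((Z.gal g)⁻¹ i) w.c)⁻¹ := ⟨_, rfl⟩
  have hs1 : ∀ i, (Z.blk i : ℕ) ∈ S → s i = 1 := fun i hi => by rw [hs]; exact if_pos hi
  have hs2 : ∀ i, (Z.blk i : ℕ) ∉ S → s i = (Z.kap g w.c ^ Z.D ((Z.gal g)⁻¹ i) w.c)⁻¹ :=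
    fun i hi => by rw [hs]; exact if_neg hi
  have hinv : ∀ a, (Z.gal g)⁻¹ (ιS Z S a) = ιS Z S (((Z.sub S).gal g)⁻¹ a) := by
    intro a
    rw [Equiv.Perm.inv_eq_iff_eq]
    have h1 := ιS_galS Z S g (((Z.sub S).gal g)⁻¹ a)
    have h2 : galS Z S g (((Z.sub S).gal g)⁻¹ a) = a :=
      Equiv.apply_symm_apply ((Z.sub S).gal g) a
    rw [h2] at h1
    exact h1
  have hblk : ∀ i, Z.blk ((Z.gal g)⁻¹ i) = Z.blk i := by
    intro i
    rw [← Z.gal_blk g ((Z.gal g)⁻¹ i)]
    exact congrArg Z.blk (Equiv.apply_symm_apply (Z.gal g) i)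
  refine ⟨s, fun i => ?_, Crd.ext rfl ?_ ?_ ?_⟩
  · by_cases hi : (Z.blk i : ℕ) ∈ S
    · rw [hs1 i hi]
      exact one_ne_zero
    · rw [hs2 i hi]
      exact inv_ne_zero (zpow_ne_zero _ hk)
  · funext i
    show (liftS (w.act (X := Z.sub S) g)).x i =
      s i * (Z.kap g w.c ^ Z.D ((Z.gal g)⁻¹ i) w.c * (liftS w).x ((Z.gal g)⁻¹ i))
    by_cases hi : (Z.blk i : ℕ) ∈ S
    · obtain ⟨a, rfl⟩ := (ιS_range Z S i).2 hi
      rw [lift_x, hs1 _ hi, one_mul, hinv, lift_x]
      rfl
    · rw [lift_x_of _ hi, hs2 i hi, lift_x_of _ (by rw [hblk]; exact hi), mul_one,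
        inv_mul_cancel₀ (zpow_ne_zero _ hk)]
  · funext i
    show (liftS (w.act (X := Z.sub S) g)).z i = s i * (liftS w).z ((Z.gal g)⁻¹ i)
    by_cases hi : (Z.blk i : ℕ) ∈ S
    · obtain ⟨a, rfl⟩ := (ιS_range Z S i).2 hi
      rw [lift_z, hs1 _ hi, one_mul, hinv, lift_z]
      rfl
    · rw [lift_z_of _ hi, lift_z_of _ (by rw [hblk]; exact hi), mul_zero]
  · funext b
    show (liftS (w.act (X := Z.sub S) g)).y b = (∏ i with Z.blk i = b, s i) ^ 2 *
      (((Z.sgb g b : ℤ) : k) * Z.kap g w.c ^ (3 * ((∑ i with Z.blk i = b, Z.D i w.c) / 2)) *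
        (liftS w).y b)
    by_cases hb : (b : ℕ) ∈ S
    · obtain ⟨a, rfl⟩ := (κS_range Z S b).2 hb
      have h1 : ∏ i with Z.blk i = κS Z S a, s i = 1 := by
        refine Finset.prod_eq_one fun i hi => hs1 i ?_
        rw [(Finset.mem_filter.1 hi).2]
        exact hb
      rw [lift_y, lift_y, h1, one_pow, one_mul, ← sgb_sub,
        ← sum_blkS Z S (fun i => Z.D i w.c) a]
      rfl
    · rw [lift_y_of _ hb, lift_y_of _ hb, mul_zero, mul_zero]

private theorem to_conj [IsAlgClosed k] [CharZero k] {u u' : Pt k} (h : u.1 = Z.sub S)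
    (hg : ∃ g : u.1.G, u' = ⟨u.1, u.2.act g⟩) : ∃ (g : Z.G) (s : Fin Z.N → k),
      (∀ i, s i ≠ 0) ∧
        liftS (u'.to (Z.sub S)) = ((liftS (u.to (Z.sub S))).act g).scale s := by
  obtain ⟨Y, w⟩ := u
  have h' : Y = Z.sub S := h
  subst h'
  obtain ⟨g, rfl⟩ := hg
  obtain ⟨s, h1, h2⟩ := lift_act (Z := Z) (S := S) g w
  refine ⟨g, s, h1, ?_⟩
  rw [to_mk, to_mk]
  exact h2

private theorem cj_refl [IsAlgClosed k] [CharZero k] (u : Pt k) :
    ∃ (g : u.1.G) (s : Fin u.1.N → k), (∀ i, s i ≠ 0) ∧ u = ⟨u.1, (u.2.act g).scale s⟩ := by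
  refine ⟨1, fun _ => 1, fun _ => one_ne_zero, ?_⟩
  rw [act_one]
  have h1 : u.2.scale (fun _ => 1) = u.2 := by
    refine Crd.ext rfl ?_ ?_ ?_
    · funext i
      exact one_mul _
    · funext i
      exact one_mul _
    · funext b
      show (∏ i with u.1.blk i = b, (1 : k)) ^ 2 * u.2.y b = u.2.y b
      rw [Finset.prod_const_one, one_pow, one_mul]
  rw [h1]

/-- Insertion maps cycles equivalent to zero on the quotient to cycles equivalent to zero:
`mapDomain_ratEqW_of`, `insP_ratEqP`; for conjugate points use `lift_act` at the positions `c a`, and the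
group element `1` for the other factors. -/
theorem insP_ratEqW [IsAlgClosed k] [CharZero k] (c : Fin n ↪ Fin m) (hc : ∀ a, X (c a) = Z)
    {x : Pts m k} (hx : OnP X x) {z : Pts n k →₀ ℚ} (hz : z ∈ ratEqW ((Z.sub S).pow n)) :
    Finsupp.lmapDomain ℚ ℚ (insP (Z := Z) (S := S) c x) z ∈ ratEqW X := by
  classical
  refine mapDomain_ratEqW_of (fun z hz => insP_ratEqP c hc hx hz)
    (fun p hp => onP_insP c hc hx hp) (fun p p' hp h j => ?_) hz
  by_cases hj : ∃ a, c a = j
  · have e : ∀ q : Pts n k, insP (Z := Z) (S := S) c x q j =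
        ⟨Z, liftS ((q hj.choose).to (Z.sub S))⟩ := fun q => by
      unfold insP
      exact dif_pos hj
    obtain ⟨g, s, h1, h2⟩ := to_conj (Z := Z) (S := S) (hp hj.choose).1 (h hj.choose)
    rw [e p, e p']
    exact ⟨g, s, h1, congrArg _ h2⟩
  · have e : ∀ q : Pts n k, insP (Z := Z) (S := S) c x q j = x j := fun q => by
      unfold insP
      exact dif_neg hj
    rw [e p, e p']
    exact cj_refl (x j)

/-- the insertion on the level of classes -/
def insV [IsAlgClosed k] [CharZero k] (S : Finset ℕ) (c : Fin n ↪ Fin m)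
    (hc : ∀ a, X (c a) = Z) {x : Pts m k} (hx : OnP X x) :
    VP ((Z.sub S).pow n) →ₗ[ℚ] VP X :=
  (ratEqW ((Z.sub S).pow n)).mapQ (ratEqW X)
    (Finsupp.lmapDomain ℚ ℚ (insP (Z := Z) (S := S) c x)) fun _ hz => insP_ratEqW c hc hx hz

theorem insV_clP [IsAlgClosed k] [CharZero k] (c : Fin n ↪ Fin m) (hc : ∀ a, X (c a) = Z)
    {x : Pts m k} (hx : OnP X x) (w : Fin n → Crd (Z.sub S)) :
    insV S c hc hx (clP _ ((Z.sub S).tup w)) =
      clP X (insP (Z := Z) (S := S) c x ((Z.sub S).tup w)) := by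
  unfold insV clP
  rw [Submodule.mapQ_apply, Finsupp.lmapDomain_apply, Finsupp.mapDomain_single]

/-- the value of `insP` at the positions `c a` -/
theorem insP_at (c : Fin n ↪ Fin m) (x : Pts m k) (w : Fin n → Crd (Z.sub S)) (a : Fin n) :
    insP (Z := Z) (S := S) c x ((Z.sub S).tup w) (c a) = ⟨Z, liftS (w a)⟩ := by
  classical
  unfold insP
  have h : ∃ b, c b = c a := ⟨a, rfl⟩
  rw [dif_pos h, c.injective h.choose_spec]
  congr 2
  exact to_mk (w a)

theorem insP_not (c : Fin n ↪ Fin m) (x : Pts m k) (w : Pts n k) {j : Fin m}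
    (h : ∀ a, c a ≠ j) : insP (Z := Z) (S := S) c x w j = x j := by
  classical
  unfold insP
  exact dif_neg fun ⟨a, ha⟩ => h a ha

/-- `insV` depends only on the factors `x j` which are not replaced -/
theorem insV_congr [IsAlgClosed k] [CharZero k] (c : Fin n ↪ Fin m) (hc : ∀ a, X (c a) = Z)
    {x y : Pts m k} (hx : OnP X x) (hy : OnP X y) (h : ∀ j, (¬ ∃ a, c a = j) → x j = y j) :
    insV S c hc hx = insV S c hc hy := by
  classical
  have e : insP (Z := Z) (S := S) c x = insP (Z := Z) (S := S) c y := by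
    funext w j
    unfold insP
    by_cases hj : ∃ a, c a = j
    · rw [dif_pos hj, dif_pos hj]
    · rw [dif_neg hj, dif_neg hj]
      exact h j hj
  refine Submodule.linearMap_qext _ (LinearMap.ext fun z => ?_)
  show Submodule.Quotient.mk (Finsupp.lmapDomain ℚ ℚ (insP (Z := Z) (S := S) c x) z) =
    Submodule.Quotient.mk (Finsupp.lmapDomain ℚ ℚ (insP (Z := Z) (S := S) c y) z)
  rw [e]

end Pool.Agent.WFC
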