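import Pool.Agent.EFC.FAlt
import Pool.Agent.WFC.FAltB
import Pool.Agent.WFC.FAltC
import Pool.Agent.ZIso.SFT

/-!
# The relation between the classes `eP`

Adapt `Pool/Agent/EFP/Alt.lean`.
-/

set_option autoImplicit false

noncomputable section

namespace Pool.Agent.WFC

open Pool.Agent.EFC
open Pool.Agent.ZCyc Pool.Agent.ZIso
open Pool.Agent.VFP (Om tt)

variable {k : Type} [Field k] [IsAlgClosed k] [CharZero k] {m : ℕ} {X : Fin m → WC k}
  {Q : WC k → Prop}

private theorem sum_fixing {M : Type*} [AddCommMonoid M] {J : Finset (Fin m)} {n : ℕ}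
    (hJ : J.card = n) (g : Equiv.Perm (Fin m) → M) :
    ∑ π ∈ fixing J, g π = ∑ τ : Equiv.Perm (Fin n),
      g (τ.extendDomain (J.orderIsoOfFin hJ).toEquiv) := by
  classical
  symm
  refine Finset.sum_bij (fun τ _ => τ.extendDomain (J.orderIsoOfFin hJ).toEquiv) ?_ ?_ ?_ ?_
  · intro τ _
    unfold fixing
    rw [Finset.mem_filter]
    refine ⟨Finset.mem_univ _, fun i hi => ?_⟩
    exact Equiv.Perm.extendDomain_apply_not_subtype τ _ hi
  · intro τ _ τ' _ h
    exact Equiv.Perm.extendDomainHom_injective (J.orderIsoOfFin hJ).toEquiv h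
  · intro π hπ
    unfold fixing at hπ
    rw [Finset.mem_filter] at hπ
    have hmem : ∀ i, π i ∈ J ↔ i ∈ J := by
      intro i
      constructor
      · intro h
        by_contra hn
        rw [hπ.2 i hn] at h
        exact hn h
      · intro h
        by_contra hn
        have h2 := hπ.2 _ hn
        have h3 := π.injective h2
        rw [h3] at hn
        exact hn h
    refine ⟨(J.orderIsoOfFin hJ).toEquiv.permCongr.symm (π.subtypePerm hmem),
      Finset.mem_univ _, ?_⟩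
    refine Equiv.ext fun i => ?_
    by_cases hi : i ∈ J
    · obtain ⟨a, ha⟩ := (J.orderIsoOfFin hJ).toEquiv.surjective ⟨i, hi⟩
      have h1 : i = ((J.orderIsoOfFin hJ).toEquiv a : Fin m) := by rw [ha]
      conv_lhs => rw [h1]
      rw [Equiv.Perm.extendDomain_apply_image]
      simp [Equiv.permCongr, Equiv.equivCongr, ha]
    · rw [Equiv.Perm.extendDomain_apply_not_subtype _ _ hi, hπ.2 i hi]
  · intro τ _
    rfl

/-- the increasing enumeration of `J` -/
private def enJ {J : Finset (Fin m)} {n : ℕ} (hJ : J.card = n) : Fin n ↪ Fin m :=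
  ⟨fun a => ((J.orderIsoOfFin hJ).toEquiv a : Fin m),
    fun _ _ h => (J.orderIsoOfFin hJ).toEquiv.injective (Subtype.ext h)⟩

private theorem enJ_mem {J : Finset (Fin m)} {n : ℕ} (hJ : J.card = n) (a : Fin n) :
    enJ hJ a ∈ J := ((J.orderIsoOfFin hJ).toEquiv a).2

private theorem enJ_surj {J : Finset (Fin m)} {n : ℕ} (hJ : J.card = n) {j : Fin m}
    (h : ¬ ∃ a, enJ hJ a = j) : j ∉ J := by
  intro hj
  obtain ⟨a, ha⟩ := (J.orderIsoOfFin hJ).toEquiv.surjective ⟨j, hj⟩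
  exact h ⟨a, by show (((J.orderIsoOfFin hJ).toEquiv a : Fin m)) = j; rw [ha]⟩

private theorem enJ_ext {J : Finset (Fin m)} {n : ℕ} (hJ : J.card = n)
    (τ : Equiv.Perm (Fin n)) (a : Fin n) :
    τ.extendDomain (J.orderIsoOfFin hJ).toEquiv (enJ hJ a) = enJ hJ (τ a) :=
  Equiv.Perm.extendDomain_apply_image _ _ _

omit [IsAlgClosed k] [CharZero k] in
/-- the points `x ∘ π` -/
private theorem alt_on {x : Pts m k} (hx : OnP X x) {J : Finset (Fin m)} {Z : WC k}
    (hX : ∀ j ∈ J, X j = Z) {n : ℕ} (hJ : J.card = n) (τ : Equiv.Perm (Fin n)) :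
    OnP X (x ∘ ⇑(τ.extendDomain (J.orderIsoOfFin hJ).toEquiv)) := by
  intro j
  have h1 : X (τ.extendDomain (J.orderIsoOfFin hJ).toEquiv j) = X j := by
    by_cases hj : ∃ a, enJ hJ a = j
    · obtain ⟨a, rfl⟩ := hj
      rw [enJ_ext, hX _ (enJ_mem hJ _), hX _ (enJ_mem hJ _)]
    · rw [Equiv.Perm.extendDomain_apply_not_subtype τ _ (enJ_surj hJ hj)]
  exact ⟨(hx _).1.trans h1, (hx _).2⟩

omit [IsAlgClosed k] [CharZero k] in
private theorem to_on {Z : WC k} {w : Pt k} (h : w.1 = Z) (hw : w.2.On) : (w.to Z).On := by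
  obtain ⟨Y, w⟩ := w
  obtain rfl : Y = Z := h
  rw [to_mk]
  exact hw

/-- the insertion maps for the points `x ∘ π` and `x` agree -/
private theorem alt_insV {x : Pts m k} (hx : OnP X x) {J : Finset (Fin m)} {Z : WC k}
    (hX : ∀ j ∈ J, X j = Z) {n : ℕ} (hJ : J.card = n) (hc : ∀ a, X (enJ hJ a) = Z)
    (S : Finset ℕ) (τ : Equiv.Perm (Fin n)) (U : Finset (Fin m × Option ℕ)) :
    insV S (enJ hJ) hc (onP_proj (alt_on hx hX hJ τ) U) = insV S (enJ hJ) hc (onP_proj hx U) := by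
  refine insV_congr (enJ hJ) hc _ _ fun j hj => ?_
  have h1 : (x ∘ ⇑(τ.extendDomain (J.orderIsoOfFin hJ).toEquiv)) j = x j := by
    rw [Function.comp_apply, Equiv.Perm.extendDomain_apply_not_subtype τ _ (enJ_surj hJ hj)]
  unfold proj
  rw [h1]

/-- Blocks. From `eP_eq_insV` and `hcore` for `Z.sub S` (let `c` be the increasing enumeration of `J`; the
permutations in `fixing J` correspond to the permutations of `Fin n`, with the same signs, see the
private lemma `sum_fixing` in `EFP/Alt.lean`; the other factors do not change, `insV_congr`).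
`(Z.sub S).N` is the number of the indices with block in `S`. -/
theorem eP_altB (hcore : CoreQ k Q) {T : Finset (Fin m × Option ℕ)} (hT : T ⊆ blocks X)
    {x : Pts m k} (hx : OnP X x) {J : Finset (Fin m)} {Z : WC k} {S : Finset ℕ} (hS : S ≠ ∅)
    (hr : ∀ b ∈ S, b < Z.r) (hQ : Q (Z.sub S)) (hX : ∀ j ∈ J, X j = Z)
    (hF : ∀ j ∈ J, fib T j = insert none (S.image some)) {n : ℕ} (hJ : J.card = n)
    (hn : 2 * Nat.card Z.G * (n : ℤ) =
      (∑ i with (Z.blk i : ℕ) ∈ S, deg (Z.D i)) + 2 * Nat.card Z.G * genus k Z.K) :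
    ∑ π ∈ fixing J, (((Equiv.Perm.sign π : ℤ) : ℚ) ^
      (Finset.univ.filter fun i : Fin Z.N => (Z.blk i : ℕ) ∈ S).card) • eP X T (x ∘ π) = 0 := by
  classical
  have hc : ∀ a, X (enJ hJ a) = Z := fun a => hX _ (enJ_mem hJ a)
  have hcF : ∀ a, fib T (enJ hJ a) = insert none (S.image some) := fun a => hF _ (enJ_mem hJ a)
  have hcard : (Finset.univ.filter fun i : Fin Z.N => (Z.blk i : ℕ) ∈ S).card = (Z.sub S).N := rfl
  rw [sum_fixing hJ, hcard]
  have key : ((2 : ℚ) ^ (n * (Z.sub S).r)) • ∑ τ : Equiv.Perm (Fin n),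
      (((Equiv.Perm.sign (τ.extendDomain (J.orderIsoOfFin hJ).toEquiv) : ℤ) : ℚ) ^ (Z.sub S).N) •
        eP X T (x ∘ ⇑(τ.extendDomain (J.orderIsoOfFin hJ).toEquiv)) = 0 := by
    rw [Finset.smul_sum]
    have h1 : ∀ τ : Equiv.Perm (Fin n), ((2 : ℚ) ^ (n * (Z.sub S).r)) •
        ((((Equiv.Perm.sign (τ.extendDomain (J.orderIsoOfFin hJ).toEquiv) : ℤ) : ℚ) ^
          (Z.sub S).N) • eP X T (x ∘ ⇑(τ.extendDomain (J.orderIsoOfFin hJ).toEquiv))) =
        ∑ U ∈ (T.filter fun p => ∀ a, enJ hJ a ≠ p.1).powerset,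
          ((-1 : ℚ) ^ ((T.filter fun p => ∀ a, enJ hJ a ≠ p.1) \ U).card) •
            insV S (enJ hJ) hc (onP_proj hx U)
              ((((Equiv.Perm.sign τ : ℤ) : ℚ) ^ (Z.sub S).N) •
                (Z.sub S).TN ((fun a => restS S ((x (enJ hJ a)).to Z)) ∘ ⇑τ)) := by
      intro τ
      rw [smul_comm, eP_eq_insV hT hS hr (enJ hJ) hc hcF (alt_on hx hX hJ τ), Finset.smul_sum,
        Equiv.Perm.sign_extendDomain]
      refine Finset.sum_congr rfl fun U _ => ?_
      rw [smul_comm, map_smul, alt_insV hx hX hJ hc S τ U]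
      congr 4
      funext a
      rw [Function.comp_apply, enJ_ext]
      rfl
    rw [Finset.sum_congr rfl fun τ _ => h1 τ, Finset.sum_comm]
    refine Finset.sum_eq_zero fun U _ => ?_
    rw [← Finset.smul_sum, ← map_sum]
    have hr0 : 0 < (Z.sub S).r := by
      obtain ⟨b, hb⟩ := Finset.nonempty_iff_ne_empty.2 hS
      show 0 < (subK Z S).card
      rw [Finset.card_pos]
      exact ⟨⟨b, hr b hb⟩, Finset.mem_filter.2 ⟨Finset.mem_univ _, hb⟩⟩
    have hdeg : 2 * Nat.card (Z.sub S).G * (n : ℤ) =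
        (∑ i, deg ((Z.sub S).D i)) + 2 * Nat.card (Z.sub S).G * genus k (Z.sub S).K := by
      refine hn.trans ?_
      congr 1
      exact (sum_allS Z S fun i => deg (Z.D i)).symm
    have h3 := hcore (Z.sub S) hQ hr0 n hdeg (fun a => restS S ((x (enJ hJ a)).to Z))
      fun a => rest_on (to_on ((hx _).1.trans (hc a)) (hx _).2)
    unfold WC.AN at h3
    rw [h3, map_zero, smul_zero]
  have h2 : ((2 : ℚ) ^ (n * (Z.sub S).r)) ≠ 0 := by positivity
  exact (smul_eq_zero.1 key).resolve_left h2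

/-- Curves. From `eP_eq_insC` and `CoreG` for `Z.sub ∅`, in the same way (`CN` is the sum over the
permutations). -/
theorem eP_altC (hcore : CoreG k) {T : Finset (Fin m × Option ℕ)} {x : Pts m k}
    (hx : OnP X x) {J : Finset (Fin m)} {Z : WC k} (hX : ∀ j ∈ J, X j = Z)
    (hF : ∀ j ∈ J, fib T j = {none}) (hJ : J.card = genus k Z.K + 1) :
    ∑ π ∈ fixing J, eP X T (x ∘ π) = 0 := by
  classical
  have hc : ∀ a, X (enJ hJ a) = Z := fun a => hX _ (enJ_mem hJ a)
  have hcF : ∀ a, fib T (enJ hJ a) = {none} := fun a => hF _ (enJ_mem hJ a)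
  rw [sum_fixing hJ]
  have h1 : ∀ τ : Equiv.Perm (Fin (genus k Z.K + 1)),
      eP X T (x ∘ ⇑(τ.extendDomain (J.orderIsoOfFin hJ).toEquiv)) =
      ∑ U ∈ (T.filter fun p => ∀ a, enJ hJ a ≠ p.1).powerset,
        ((-1 : ℚ) ^ ((T.filter fun p => ∀ a, enJ hJ a ≠ p.1) \ U).card) •
          insV ∅ (enJ hJ) hc (onP_proj hx U) (∑ V : Finset (Fin (genus k Z.K + 1)),
            ((-1 : ℚ) ^ (genus k Z.K + 1 - V.card)) •
            clP ((Z.sub ∅).pow (genus k Z.K + 1)) ((Z.sub ∅).tup fun j =>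
              if j ∈ V then restS ∅ ((x (enJ hJ (τ j))).to Z) else (Z.sub ∅).oo)) := by
    intro τ
    rw [eP_eq_insC (enJ hJ) hc hcF (alt_on hx hX hJ τ)]
    refine Finset.sum_congr (by congr) fun U _ => ?_
    rw [alt_insV hx hX hJ hc ∅ τ U]
    simp only [Function.comp_apply, enJ_ext]
  rw [Finset.sum_congr rfl fun τ _ => h1 τ, Finset.sum_comm]
  refine Finset.sum_eq_zero fun U _ => ?_
  rw [← Finset.smul_sum, ← map_sum]
  have hr0 : (Z.sub ∅).r = 0 := by
    show (subK Z ∅).card = 0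
    rw [Finset.card_eq_zero]
    unfold subK
    simp
  have h3 := hcore (Z.sub ∅) hr0 fun a => restS ∅ ((x (enJ hJ a)).to Z)
  unfold WC.CN at h3
  have h4 : (∑ τ : Equiv.Perm (Fin (genus k Z.K + 1)), ∑ V : Finset (Fin (genus k Z.K + 1)),
            ((-1 : ℚ) ^ (genus k Z.K + 1 - V.card)) •
            clP ((Z.sub ∅).pow (genus k Z.K + 1)) ((Z.sub ∅).tup fun j =>
              if j ∈ V then restS ∅ ((x (enJ hJ (τ j))).to Z) else (Z.sub ∅).oo)) = 0 := by
    exact h3
  rw [h4, map_zero, smul_zero]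

end Pool.Agent.WFC
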