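import Pool.Agent.EFC.FWeight
import Pool.Agent.WFC.FDefs

/-!
# The weights of `T'` and of `srcT f T'` (pure combinatorics)

Adapt `Pool/Agent/EFP/Weight.lean` (here it is simpler: the weight of a factor `j` is `0` if
`(j, none) ∉ T` and `cnt X T j + 1` otherwise).
-/

set_option autoImplicit false

noncomputable section

namespace Pool.Agent.WFC

open Pool.Agent.EFC
open Pool.Agent.ZCyc
open Pool.Agent.VFP (Om tt)

universe u

variable {k : Type u} [Field k] {m m' : ℕ} {X : Fin m → WC k} {Y : Fin m' → WC k}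

theorem mem_srcT {f : Mor X Y} {T' : Finset (Fin m' × Option ℕ)} {p : Fin m × Option ℕ} :
    p ∈ srcT f T' ↔ ∃ j, (j, p.2) ∈ T' ∧ (f j).src = some p.1 := by
  unfold srcT
  rw [Finset.mem_biUnion]
  constructor
  · rintro ⟨q, hq, h⟩
    cases hs : (f q.1).src with
    | none =>
      rw [hs] at h
      simp at h
    | some i =>
      rw [hs] at h
      simp only [Finset.mem_singleton] at h
      subst h
      exact ⟨q.1, hq, hs⟩
  · rintro ⟨j, hj, hs⟩
    refine ⟨(j, p.2), hj, ?_⟩
    simp only [hs, Finset.mem_singleton]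

theorem src_eq {f : Mor X Y} {j : Fin m'} {i : Fin m} (h : (f j).src = some i) :
    X i = Y j := by
  cases hf : f j with
  | const w hw =>
    rw [hf] at h
    exact absurd h (by simp [Comp.src])
  | fac i' h' ε =>
    rw [hf] at h
    have h1 : i' = i := by simpa [Comp.src] using h
    rw [← h1]
    exact h'

theorem srcT_subset {f : Mor X Y} {T' : Finset (Fin m' × Option ℕ)} (hT' : T' ⊆ blocks Y) :
    srcT f T' ⊆ blocks X := by
  intro p hp
  rw [mem_srcT] at hp
  obtain ⟨j, hj, hs⟩ := hp
  rw [mem_blocks, src_eq hs]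
  exact mem_blocks.1 (hT' hj)

theorem srcT_closed {f : Mor X Y} {T' : Finset (Fin m' × Option ℕ)} (hT' : Closed T') :
    Closed (srcT f T') := by
  intro i b h
  rw [mem_srcT] at h ⊢
  obtain ⟨j, hj, hs⟩ := h
  exact ⟨j, hT' j b hj, hs⟩

theorem wt_mono {T T' : Finset (Fin m × Option ℕ)} (h : T ⊆ T') : wt X T ≤ wt X T' := by
  unfold wt
  refine Finset.sum_le_sum fun j _ => ?_
  have h1 : cnt X T j ≤ cnt X T' j := by
    unfold cnt
    refine Finset.card_le_card fun a ha => ?_
    rw [Finset.mem_filter] at ha ⊢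
    exact ⟨ha.1, h ha.2⟩
  by_cases hj : (j, none) ∈ T
  · rw [if_pos hj, if_pos (h hj)]
    omega
  · rw [if_neg hj]
    exact Nat.zero_le _

/-- the number of the indices over a set of blocks -/
private def cz (Z : WC k) (S : Finset (Option ℕ)) : ℕ :=
  (Finset.univ.filter fun a : Fin Z.N => some (Z.blk a : ℕ) ∈ S).card

private def wz (Z : WC k) (S : Finset (Option ℕ)) : ℕ := if none ∈ S then cz Z S + 1 else 0

private theorem cnt_cz {l : ℕ} (X : Fin l → WC k) (T : Finset (Fin l × Option ℕ)) (j : Fin l) :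
    cnt X T j = cz (X j) (fib T j) := by
  unfold cnt cz
  congr 1
  ext a
  simp only [Finset.mem_filter, Finset.mem_univ, true_and, mem_fib]

private theorem wt_wz {l : ℕ} (X : Fin l → WC k) (T : Finset (Fin l × Option ℕ)) :
    wt X T = ∑ j, wz (X j) (fib T j) := by
  unfold wt wz
  refine Finset.sum_congr rfl fun j _ => ?_
  rw [cnt_cz]
  simp only [mem_fib]

private theorem wz_empty (Z : WC k) : wz Z ∅ = 0 := by
  unfold wz
  rw [if_neg (Finset.notMem_empty _)]

private theorem wz_eq_zero {l : ℕ} {T : Finset (Fin l × Option ℕ)} (hT : Closed T) (Z : WC k)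
    (j : Fin l) : wz Z (fib T j) = 0 ↔ fib T j = ∅ := by
  constructor
  · intro h
    by_contra hne
    unfold wz at h
    rw [if_pos (hT.none_mem_fib hne)] at h
    omega
  · intro h
    rw [h]
    exact wz_empty Z

private theorem wz_eq {l : ℕ} {T : Finset (Fin l × Option ℕ)} (hT : Closed T) (Z : WC k)
    (j : Fin l) : wz Z (fib T j) = cz Z (fib T j) + if fib T j = ∅ then 0 else 1 := by
  by_cases h : fib T j = ∅
  · rw [if_pos h, h, wz_empty]
    unfold cz
    simp
  · rw [if_neg h]
    unfold wz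
    rw [if_pos (hT.none_mem_fib h)]

open Classical in
/-- the components with the factor `i` -/
private def JJ (f : Mor X Y) (i : Fin m) : Finset (Fin m') :=
  Finset.univ.filter fun j => (f j).src = some i

private theorem mem_JJ {f : Mor X Y} {i : Fin m} {j : Fin m'} :
    j ∈ JJ f i ↔ (f j).src = some i := by
  unfold JJ
  rw [Finset.mem_filter]
  exact ⟨fun h => h.2, fun h => ⟨Finset.mem_univ _, h⟩⟩

private theorem mem_fib_srcT {f : Mor X Y} {T' : Finset (Fin m' × Option ℕ)} {i : Fin m}
    {b : Option ℕ} : b ∈ fib (srcT f T') i ↔ ∃ j ∈ JJ f i, b ∈ fib T' j := by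
  rw [mem_fib, mem_srcT]
  constructor
  · rintro ⟨j, h1, h2⟩
    exact ⟨j, mem_JJ.2 h2, mem_fib.2 h1⟩
  · rintro ⟨j, h1, h2⟩
    exact ⟨j, mem_fib.1 h2, mem_JJ.1 h1⟩

private theorem cz_le (f : Mor X Y) (T' : Finset (Fin m' × Option ℕ)) (i : Fin m) :
    cz (X i) (fib (srcT f T') i) ≤ ∑ j ∈ JJ f i, cz (Y j) (fib T' j) := by
  classical
  have h1 : (Finset.univ.filter fun a : Fin (X i).N => some ((X i).blk a : ℕ) ∈
      fib (srcT f T') i) ⊆ (JJ f i).biUnion fun j => Finset.univ.filter fun a : Fin (X i).N =>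
      some ((X i).blk a : ℕ) ∈ fib T' j := by
    intro a ha
    rw [Finset.mem_filter, mem_fib_srcT] at ha
    obtain ⟨_, j, hj, hb⟩ := ha
    rw [Finset.mem_biUnion]
    exact ⟨j, hj, Finset.mem_filter.2 ⟨Finset.mem_univ _, hb⟩⟩
  unfold cz
  refine (Finset.card_le_card h1).trans (Finset.card_biUnion_le.trans ?_)
  refine Finset.sum_le_sum fun j hj => ?_
  have h2 := src_eq (mem_JJ.1 hj)
  rw [h2]

open Classical in
private theorem sum_wz (f : Mor X Y) {T' : Finset (Fin m' × Option ℕ)} (hc : Closed T')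
    (i : Fin m) :
    ∑ j ∈ JJ f i, wz (Y j) (fib T' j) = ∑ j ∈ JJ f i, cz (Y j) (fib T' j) +
      ((JJ f i).filter fun j => fib T' j ≠ ∅).card := by
  rw [Finset.sum_congr rfl fun j _ => wz_eq hc (Y j) j, Finset.sum_add_distrib,
    Finset.card_filter]
  congr 1
  refine Finset.sum_congr rfl fun j _ => ?_
  by_cases h : fib T' j = ∅
  · rw [if_pos h, if_neg (by simpa using h)]
  · rw [if_neg h, if_pos h]

private theorem wz_le (f : Mor X Y) {T' : Finset (Fin m' × Option ℕ)} (hc : Closed T')
    (i : Fin m) :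
    wz (X i) (fib (srcT f T') i) ≤ ∑ j ∈ JJ f i, wz (Y j) (fib T' j) := by
  classical
  have h1 := cz_le f T' i
  rw [sum_wz f hc, wz_eq (srcT_closed hc)]
  split_ifs with h
  · omega
  · obtain ⟨o, ho⟩ := Finset.nonempty_iff_ne_empty.2 h
    rw [mem_fib_srcT] at ho
    obtain ⟨j, hj, hj'⟩ := ho
    have h3 : 0 < ((JJ f i).filter fun j => fib T' j ≠ ∅).card :=
      Finset.card_pos.2 ⟨j, Finset.mem_filter.2 ⟨hj, Finset.ne_empty_of_mem hj'⟩⟩
    omega

/-- two components with the same factor -/
private theorem wz_lt (f : Mor X Y) {T' : Finset (Fin m' × Option ℕ)} (hc : Closed T')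
    (i : Fin m) {j j' : Fin m'} (hj : j ∈ JJ f i) (hj' : j' ∈ JJ f i) (hne : j ≠ j')
    (h : fib T' j ≠ ∅) (h' : fib T' j' ≠ ∅) :
    wz (X i) (fib (srcT f T') i) < ∑ j ∈ JJ f i, wz (Y j) (fib T' j) := by
  classical
  have h1 := cz_le f T' i
  rw [sum_wz f hc, wz_eq (srcT_closed hc)]
  have h2 : ({j, j'} : Finset (Fin m')) ⊆ (JJ f i).filter fun j => fib T' j ≠ ∅ := by
    intro a ha
    rw [Finset.mem_insert, Finset.mem_singleton] at ha
    rcases ha with rfl | rfl
    · exact Finset.mem_filter.2 ⟨hj, h⟩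
    · exact Finset.mem_filter.2 ⟨hj', h'⟩
  have h3 := Finset.card_le_card h2
  rw [Finset.card_pair hne] at h3
  split_ifs <;> omega

open Classical in
/-- the sum of the weights over the components with a factor -/
private theorem sum_JJ (f : Mor X Y) (w : Fin m' → ℕ) :
    ∑ i, ∑ j ∈ JJ f i, w j = ∑ j, if (f j).src = none then 0 else w j := by
  have h1 : ∀ i, ∑ j ∈ JJ f i, w j = ∑ j, if (f j).src = some i then w j else 0 := by
    intro i
    unfold JJ
    rw [Finset.sum_filter]
  rw [Finset.sum_congr rfl fun i _ => h1 i, Finset.sum_comm]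
  refine Finset.sum_congr rfl fun j _ => ?_
  cases hs : (f j).src with
  | none => simp
  | some i =>
    rw [if_neg (by simp), Finset.sum_eq_single i]
    · rw [if_pos rfl]
    · intro i' _ hi'
      rw [if_neg]
      intro h
      exact hi' (Option.some.inj h).symm
    · intro h
      exact absurd (Finset.mem_univ _) h

theorem wt_srcT_le (f : Mor X Y) {T' : Finset (Fin m' × Option ℕ)} (hT' : T' ⊆ blocks Y)
    (hc : Closed T') : wt X (srcT f T') ≤ wt Y T' := by
  classical
  rw [wt_wz, wt_wz]
  refine (Finset.sum_le_sum fun i _ => wz_le f hc i).trans ?_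
  rw [sum_JJ]
  refine Finset.sum_le_sum fun j _ => ?_
  split_ifs
  · exact Nat.zero_le _
  · exact le_refl _

/-- If the weights are equal then no constant component and no two components with the same factor
occur in `T'`: each of these would increase the weight of `T'` (by the pairs `(j, none)`). -/
theorem bij_iff (f : Mor X Y) {T : Finset (Fin m × Option ℕ)}
    {T' : Finset (Fin m' × Option ℕ)} (hT : T ⊆ blocks X) (hT' : T' ⊆ blocks Y)
    (hc : Closed T) (hc' : Closed T') :
    Bij f T T' ↔ srcT f T' = T ∧ wt X T = wt Y T' := by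
  classical
  have hwz : ∀ j, wz (Y j) (fib T' j) = 0 ↔ fib T' j = ∅ := fun j => wz_eq_zero hc' _ j
  constructor
  · rintro ⟨h1, h2⟩
    constructor
    · ext p
      rw [mem_srcT]
      constructor
      · rintro ⟨j, hj, hs⟩
        obtain ⟨i, hi, hfib⟩ := h1 j (Finset.ne_empty_of_mem (mem_fib.2 hj))
        rw [hs] at hi
        have hi' : p.1 = i := Option.some.inj hi
        have h3 : p.2 ∈ fib T p.1 := by
          rw [hi', hfib]
          exact mem_fib.2 hj
        exact mem_fib.1 h3
      · intro hp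
        have h3 : p.2 ∈ fib T p.1 := mem_fib.2 hp
        obtain ⟨j, ⟨hj1, hj2⟩, _⟩ := h2 p.1 (Finset.ne_empty_of_mem h3)
        obtain ⟨i, hi, hfib⟩ := h1 j hj1
        rw [hj2] at hi
        have hi' : p.1 = i := Option.some.inj hi
        refine ⟨j, ?_, hj2⟩
        rw [← mem_fib, ← hfib, ← hi']
        exact h3
    · rw [wt_wz, wt_wz]
      have h3 : ∀ j, (if (f j).src = none then 0 else wz (Y j) (fib T' j)) =
          wz (Y j) (fib T' j) := by
        intro j
        split_ifs with h
        · symm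
          rw [hwz]
          by_contra hne
          obtain ⟨i, hi, _⟩ := h1 j hne
          rw [h] at hi
          exact absurd hi (by simp)
        · rfl
      rw [← Finset.sum_congr rfl fun j _ => h3 j, ← sum_JJ]
      refine Finset.sum_congr rfl fun i _ => ?_
      by_cases hi : fib T i = ∅
      · rw [hi, wz_empty]
        symm
        refine Finset.sum_eq_zero fun j hj => ?_
        rw [hwz]
        by_contra hne
        obtain ⟨i', hi', hfib⟩ := h1 j hne
        rw [mem_JJ.1 hj] at hi'
        have h5 : i = i' := Option.some.inj hi'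
        rw [← h5, hi] at hfib
        exact hne hfib.symm
      · obtain ⟨j, ⟨hj1, hj2⟩, huniq⟩ := h2 i hi
        rw [Finset.sum_eq_single j]
        · obtain ⟨i', hi', hfib⟩ := h1 j hj1
          rw [hj2] at hi'
          have h5 : i = i' := Option.some.inj hi'
          rw [← h5] at hfib
          rw [hfib, src_eq hj2]
        · intro j' hj' hne
          rw [hwz]
          by_contra h6
          exact hne (huniq j' ⟨h6, mem_JJ.1 hj'⟩)
        · intro h6
          exact absurd (mem_JJ.2 hj2) h6
  · rintro ⟨rfl, hw⟩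
    rw [wt_wz, wt_wz] at hw
    have e1 : ∀ i ∈ Finset.univ, wz (X i) (fib (srcT f T') i) ≤
        ∑ j ∈ JJ f i, wz (Y j) (fib T' j) := fun i _ => wz_le f hc' i
    have e2 : ∀ j ∈ Finset.univ, (if (f j).src = none then 0 else wz (Y j) (fib T' j)) ≤
        wz (Y j) (fib T' j) := by
      intro j _
      split_ifs
      · exact Nat.zero_le _
      · exact le_refl _
    have e3 := Finset.sum_le_sum e1
    have e4 := Finset.sum_le_sum e2
    rw [sum_JJ] at e3
    have e5 : ∑ i, wz (X i) (fib (srcT f T') i) = ∑ i, ∑ j ∈ JJ f i, wz (Y j) (fib T' j) := by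
      rw [sum_JJ]
      omega
    have e6 : ∑ j, (if (f j).src = none then 0 else wz (Y j) (fib T' j)) =
        ∑ j, wz (Y j) (fib T' j) := by omega
    have g1 := (Finset.sum_eq_sum_iff_of_le e1).1 e5
    have g2 := (Finset.sum_eq_sum_iff_of_le e2).1 e6
    have g3 : ∀ j, fib T' j ≠ ∅ → ∃ i, (f j).src = some i := by
      intro j hj
      cases hs : (f j).src with
      | none =>
        have h := g2 j (Finset.mem_univ _)
        rw [if_pos hs] at h
        exact absurd ((hwz j).1 h.symm) hj
      | some i => exact ⟨i, rfl⟩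
    have g4 : ∀ i j j', fib T' j ≠ ∅ → fib T' j' ≠ ∅ → (f j).src = some i →
        (f j').src = some i → j = j' := by
      intro i j j' hj hj' hs hs'
      by_contra hne
      have h := wz_lt f hc' i (mem_JJ.2 hs) (mem_JJ.2 hs') hne hj hj'
      rw [g1 i (Finset.mem_univ _)] at h
      exact lt_irrefl _ h
    refine ⟨?_, ?_⟩
    · intro j hj
      obtain ⟨i, hi⟩ := g3 j hj
      refine ⟨i, hi, ?_⟩
      ext b
      rw [mem_fib_srcT]
      constructor
      · rintro ⟨j', hj', hb⟩
        rw [g4 i j j' hj (Finset.ne_empty_of_mem hb) hi (mem_JJ.1 hj')]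
        exact hb
      · intro hb
        exact ⟨j, mem_JJ.2 hi, hb⟩
    · intro i hi
      obtain ⟨b, hb⟩ := Finset.nonempty_iff_ne_empty.2 hi
      rw [mem_fib_srcT] at hb
      obtain ⟨j, hj, hb⟩ := hb
      refine ⟨j, ⟨Finset.ne_empty_of_mem hb, mem_JJ.1 hj⟩, ?_⟩
      rintro j' ⟨h5, h6⟩
      exact g4 i j' j h5 (Finset.ne_empty_of_mem hb) h6 (mem_JJ.1 hj)

end Pool.Agent.WFC
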