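import Pool.Agent.EFC.Degrees
import Pool.Agent.WFC.PtMap
import Pool.Agent.WFC.Classes

/-!
# Degrees, and finiteness of the exceptional sets
-/

set_option autoImplicit false

noncomputable section

namespace Pool.Agent.WFC

open Pool.Agent.EFC
open Pool.Agent.ZCyc Pool.Agent.TInf
open Pool.Agent.VFP (Om tt)

variable {k : Type} [Field k] [IsAlgClosed k] [CharZero k] {X : WC k} {n : ℕ}

/-- the degrees -/
def WC.dd (X : WC k) (i : Fin X.N) : ℕ := (deg (X.D i)).toNat

omit [IsAlgClosed k] [CharZero k] in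
private theorem dg_add {L : Type} [Field L] [Algebra k L] (E F : Place k L →₀ ℤ) :
    deg (E + F) = deg E + deg F := by
  unfold deg
  exact Finsupp.sum_add_index' (fun _ => rfl) fun _ _ _ => rfl

omit [IsAlgClosed k] [CharZero k] in
private theorem dg_smul {L : Type} [Field L] [Algebra k L] (n : ℤ) (E : Place k L →₀ ℤ) :
    deg (n • E) = n * deg E := by
  unfold deg
  rw [Finsupp.sum_smul_index fun _ => rfl, Finsupp.mul_sum]

omit [IsAlgClosed k] [CharZero k] in
private theorem dg_nonneg {L : Type} [Field L] [Algebra k L] {E : Place k L →₀ ℤ}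
    (h : ∀ v, 0 ≤ E v) : 0 ≤ deg E :=
  Finset.sum_nonneg fun v _ => h v

/-- the degree of an effective divisor `div f + n D` -/
private theorem dg_le {L : Type} [Field L] [Algebra k L] (hL : IsCurve k L) (f : L) (n : ℕ)
    (D : Place k L →₀ ℤ) : deg (TInc.dv hL.dess f + (n : ℤ) • D) = n * deg D := by
  rw [dg_add, dg_smul, deg_eq_deg, TInc.deg_dv, zero_add]

private theorem dg_A (X : WC k) (h : X.NonZero) (i : Fin X.N) (c : Place k X.L) :
    0 ≤ TInc.ord c (X.A i) + 2 * X.D i c :=
  (mem_unif_iff X.curve c (X.A i) _).1 (X.regA i c) (h i).1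

private theorem dg_B (X : WC k) (h : X.NonZero) (i : Fin X.N) (c : Place k X.L) :
    0 ≤ TInc.ord c (X.B i) + 3 * X.D i c :=
  (mem_unif_iff X.curve c (X.B i) _).1 (X.regB i c) (h i).2

private theorem dg_deg (X : WC k) (h : X.NonZero) (i : Fin X.N) : 0 ≤ deg (X.D i) := by
  have h1 : 0 ≤ deg (TInc.dv X.curve.dess (X.A i) + ((2 : ℕ) : ℤ) • X.D i) := by
    refine dg_nonneg fun v => ?_
    rw [Finsupp.add_apply, Finsupp.smul_apply, TInc.dv_apply, smul_eq_mul]
    exact dg_A X h i v
  rw [dg_le X.curve] at h1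
  push_cast at h1
  omega

omit [IsAlgClosed k] in
private theorem dg_three {L : Type} [Field L] [Algebra k L] : (algebraMap k L (-3⁻¹)) ≠ 0 := by
  rw [Ne, map_eq_zero, neg_eq_zero, inv_eq_zero]
  exact three_ne_zero

omit [IsAlgClosed k] in
private theorem dg_cub (X : WC k) (i : Fin X.N) : X.cub.B i ^ 2 - 4 * X.cub.α i ^ 3 =
    algebraMap k X.L (27⁻¹) * (4 * X.A i ^ 3 + 27 * X.B i ^ 2) := by
  change X.B i ^ 2 - 4 * (algebraMap k X.L (-3⁻¹) * X.A i) ^ 3 = _
  have h1 : algebraMap k X.L (-3⁻¹) ^ 3 = -algebraMap k X.L (27⁻¹) := by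
    rw [← map_pow, ← map_neg]
    congr 1
    norm_num
  have h2 : algebraMap k X.L (27⁻¹) * 27 = 1 := by
    have h3 : (27 : X.L) = algebraMap k X.L 27 := (map_ofNat _ 27).symm
    rw [h3, ← map_mul, inv_mul_cancel₀ (by norm_num), map_one]
  linear_combination (-4 * X.A i ^ 3) * h1 - X.B i ^ 2 * h2

/-- The cubics of `X` satisfy the assumptions of `TInc`. `deg (X.D i) ≥ 0`: the degree of the
effective divisor `div A_i + 2 D_i` is `2 deg D_i` (`TInc.deg_dv`). -/
theorem cub_ok (h : X.NonZero) : X.cub.Ok X.dd where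
  α_ne i := mul_ne_zero dg_three (h i).1
  B_ne i := (h i).2
  disc i := by
    rw [dg_cub]
    refine mul_ne_zero ?_ (X.disc i)
    rw [Ne, map_eq_zero, inv_eq_zero]
    norm_num
  α_mem i v := by
    change 0 ≤ TInc.ord v (algebraMap k X.L (-3⁻¹) * X.A i) + 2 * X.D i v
    rw [TInc.ord_mul X.curve.dess v dg_three (h i).1, TInc.ord_const X.curve.dess, zero_add]
    exact dg_A X h i v
  B_mem i v := dg_B X h i v
  deg i := by
    rw [← deg_eq_deg]
    exact (Int.toNat_of_nonneg (dg_deg X h i)).symm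

/-- the numbers `n₀`, `n = n₀ + g`; the blocks have positive degree -/
theorem exists_n0 (hr : 0 < X.r)
    (hn : 2 * Nat.card X.G * (n : ℤ) =
      (∑ i, deg (X.D i)) + 2 * Nat.card X.G * genus k X.K) :
    ∃ n₀ : ℕ, 0 < n₀ ∧ n₀ + genus k X.K = n ∧
      ∑ i, deg (X.D i) = Nat.card X.G * ((2 * n₀ : ℕ) : ℤ) := by
  have h1 : 0 < ∑ i, deg (X.D i) := by
    rw [← Finset.sum_fiberwise Finset.univ X.blk]
    exact Finset.sum_pos (fun b _ => X.pos b) ⟨⟨0, hr⟩, Finset.mem_univ _⟩
  have h2 : (0 : ℤ) < Nat.card X.G := by exact_mod_cast Nat.card_pos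
  have h3 : (genus k X.K : ℤ) < n := by
    by_contra hcon
    have h4 : 2 * (Nat.card X.G : ℤ) * n ≤ 2 * Nat.card X.G * genus k X.K :=
      mul_le_mul_of_nonneg_left (not_lt.1 hcon) (by positivity)
    omega
  refine ⟨n - genus k X.K, by omega, by omega, ?_⟩
  have h5 : ((n - genus k X.K : ℕ) : ℤ) = n - genus k X.K := by omega
  rw [Nat.cast_mul, h5]
  push_cast
  linear_combination -hn

/-- some discriminant has a zero: `4 A_i ³ + 27 B_i ²` is a section of `6 D_i`, for an index with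
`deg D_i > 0`; the effective divisor `div (4 A_i ³ + 27 B_i ²) + 6 D_i` has positive degree -/
theorem exists_Z (h : X.NonZero) (hr : 0 < X.r) : ∃ (i : Fin X.N) (δ : Place k X.L),
    δ ∈ X.Z i ∧ δ ∉ X.U := by
  obtain ⟨i, -, hi⟩ : ∃ i ∈ Finset.univ.filter fun i => X.blk i = ⟨0, hr⟩, 0 < deg (X.D i) := by
    by_contra! hcon
    have h1 := X.pos ⟨0, hr⟩
    have h2 := Finset.sum_nonpos hcon
    omega
  have h1 : 0 < deg (TInc.dv X.curve.dess (4 * X.A i ^ 3 + 27 * X.B i ^ 2) +
      ((6 : ℕ) : ℤ) • X.D i) := by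
    rw [dg_le X.curve]
    push_cast
    omega
  obtain ⟨c, hc⟩ : ∃ c, 0 < (TInc.dv X.curve.dess (4 * X.A i ^ 3 + 27 * X.B i ^ 2) +
      ((6 : ℕ) : ℤ) • X.D i) c := by
    by_contra! hcon
    have h2 : deg (TInc.dv X.curve.dess (4 * X.A i ^ 3 + 27 * X.B i ^ 2) +
      ((6 : ℕ) : ℤ) • X.D i) ≤ 0 := Finset.sum_nonpos fun v _ => hcon v
    omega
  rw [Finsupp.add_apply, Finsupp.smul_apply, TInc.dv_apply, smul_eq_mul] at hc
  push_cast at hc
  refine ⟨i, c, ?_, fun hU => ?_⟩
  · have hA : c.At (X.A i * unif c ^ (2 * X.D i c)) (X.coA c i) := at_val X.curve (X.regA i c)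
    have hB : c.At (X.B i * unif c ^ (3 * X.D i c)) (X.coB c i) := at_val X.curve (X.regB i c)
    have h27 : c.At (27 : X.L) (27 : k) := by
      have := Place.at_const (v := c) (27 : k)
      rwa [map_ofNat] at this
    have h4 : c.At (4 : X.L) (4 : k) := by
      have := Place.at_const (v := c) (4 : k)
      rwa [map_ofNat] at this
    have h5 := (h4.mul (hA.pow 3)).add (h27.mul (hB.pow 2))
    have hu := unif_ne X.curve c
    have h6 : 4 * (X.A i * unif c ^ (2 * X.D i c)) ^ 3 + 27 * (X.B i * unif c ^ (3 * X.D i c)) ^ 2 =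
        (4 * X.A i ^ 3 + 27 * X.B i ^ 2) * unif c ^ (6 * X.D i c) := by
      have e1 : (unif c ^ (2 * X.D i c)) ^ 3 = unif c ^ (6 * X.D i c) := by
        rw [← zpow_natCast, ← zpow_mul]
        congr 1
        push_cast
        ring
      have e2 : (unif c ^ (3 * X.D i c)) ^ 2 = unif c ^ (6 * X.D i c) := by
        rw [← zpow_natCast, ← zpow_mul]
        congr 1
        push_cast
        ring
      rw [mul_pow, mul_pow, e1, e2]
      ring
    rw [h6] at h5
    have h7 : c.Vanishes ((4 * X.A i ^ 3 + 27 * X.B i ^ 2) * unif c ^ (6 * X.D i c)) := by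
      rw [TInc.vanishes_iff_ord X.curve.dess (mul_ne_zero (X.disc i) (zpow_ne_zero _ hu)),
        TInc.ord_mul X.curve.dess c (X.disc i) (zpow_ne_zero _ hu),
        TInc.ord_zpow X.curve.dess, ord_unif' X.curve, mul_one]
      exact hc
    exact h5.unique (Place.at_zero_iff.2 h7)
  · have h2 := (hU i).2.2.1
    have h3 := (hU i).2.2.2
    have hD : X.D i c = 0 := h3
    rw [hD, mul_zero, add_zero] at hc
    have hne : X.cub.B i ^ 2 - 4 * X.cub.α i ^ 3 ≠ 0 := (cub_ok h).disc i
    rw [TInc.mem_iff_ord X.curve.dess (inv_ne_zero hne), TInc.ord_inv X.curve.dess, dg_cub,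
      TInc.ord_mul X.curve.dess c _ (X.disc i), TInc.ord_const X.curve.dess] at h2
    · omega
    · rw [Ne, map_eq_zero, inv_eq_zero]
      norm_num

/-- the complement of `U` is finite -/
theorem finite_U (h : X.NonZero) : (X.Uᶜ).Finite := by
  have hok := cub_ok h
  have hfin : (⋃ i : Fin X.N, ({v : Place k X.L | TInc.ord v (X.cub.α i) ≠ 0} ∪
      {v : Place k X.L | TInc.ord v (X.cub.B i) ≠ 0} ∪
      {v : Place k X.L | TInc.ord v (X.cub.B i ^ 2 - 4 * X.cub.α i ^ 3) ≠ 0} ∪
      {v : Place k X.L | X.cub.D i v ≠ 0})).Finite := by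
    refine Set.finite_iUnion fun i => ?_
    refine (((TInc.finite_ord X.curve.dess _).union (TInc.finite_ord X.curve.dess _)).union
      (TInc.finite_ord X.curve.dess _)).union ?_
    exact (X.cub.D i).hasFiniteSupport
  refine hfin.subset fun c hc => ?_
  by_contra hcon
  apply hc
  intro i
  have h1 : ¬ (TInc.ord c (X.cub.α i) ≠ 0 ∨ TInc.ord c (X.cub.B i) ≠ 0 ∨
      TInc.ord c (X.cub.B i ^ 2 - 4 * X.cub.α i ^ 3) ≠ 0 ∨ X.cub.D i c ≠ 0) := by
    intro h2
    apply hcon
    rw [Set.mem_iUnion]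
    refine ⟨i, ?_⟩
    rcases h2 with h2 | h2 | h2 | h2
    · exact Or.inl (Or.inl (Or.inl h2))
    · exact Or.inl (Or.inl (Or.inr h2))
    · exact Or.inl (Or.inr h2)
    · exact Or.inr h2
  push Not at h1
  obtain ⟨h2, h3, h4, h5⟩ := h1
  exact ⟨(TInc.ord_eq_zero_iff X.curve.dess (hok.α_ne i)).1 h2,
    (TInc.ord_eq_zero_iff X.curve.dess (hok.B_ne i)).1 h3,
    ((TInc.ord_eq_zero_iff X.curve.dess (hok.disc i)).1 h4).2, h5⟩

/-- the ratio `B ² / α ³` -/
def WC.rat (X : WC k) (i : Fin X.N) : X.L := X.cub.B i ^ 2 / X.cub.α i ^ 3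

/-- two different functions have the same values at finitely many places only -/
theorem finite_val_eq {L : Type} [Field L] [Algebra k L] (hL : IsCurve k L) {f g : L}
    (h : f ≠ g) : {c : Place k L | val c f = val c g}.Finite := by
  have hfin : ({v : Place k L | TInc.ord v f ≠ 0} ∪ {v : Place k L | TInc.ord v g ≠ 0} ∪
      {v : Place k L | TInc.ord v (f - g) ≠ 0}).Finite :=
    ((TInc.finite_ord hL.dess _).union (TInc.finite_ord hL.dess _)).union
      (TInc.finite_ord hL.dess _)
  refine hfin.subset fun c hc => ?_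
  have hpole : ∀ φ : L, φ ∉ c.ring → TInc.ord c φ ≠ 0 := by
    intro φ h1
    have h0 : φ ≠ 0 := by
      rintro rfl
      exact h1 c.ring.zero_mem
    rw [TInc.mem_iff_ord hL.dess h0, not_le] at h1
    exact h1.ne
  by_cases h1 : f ∈ c.ring
  · by_cases h2 : g ∈ c.ring
    · right
      have h3 : c.At f (val c g) := by
        rw [← (show val c f = val c g from hc)]
        exact at_val hL h1
      have h4 : c.At g (val c g) := at_val hL h2
      have h5 : c.Vanishes (f - g) := by
        have h6 := h3.sub h4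
        rw [sub_self] at h6
        exact Place.at_zero_iff.1 h6
      rw [TInc.vanishes_iff_ord hL.dess (sub_ne_zero.2 h)] at h5
      exact h5.ne'
    · exact Or.inl (Or.inr (hpole g h2))
  · exact Or.inl (Or.inl (hpole f h1))

/-- Different ratios have different values at almost all places. -/
theorem finite_rat (X : WC k) : {c : Place k X.L | ∃ i i' : Fin X.N, X.rat i ≠ X.rat i' ∧
    val c (X.rat i) = val c (X.rat i')}.Finite := by
  have hfin : (⋃ i : Fin X.N, ⋃ i' : Fin X.N, {c : Place k X.L | X.rat i ≠ X.rat i' ∧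
      val c (X.rat i) = val c (X.rat i')}).Finite := by
    refine Set.finite_iUnion fun i => Set.finite_iUnion fun i' => ?_
    by_cases h : X.rat i = X.rat i'
    · refine Set.finite_empty.subset fun c hc => absurd h hc.1
    · exact (finite_val_eq X.curve h).subset fun c hc => hc.2
  refine hfin.subset ?_
  rintro c ⟨i, i', h⟩
  exact Set.mem_iUnion.2 ⟨i, Set.mem_iUnion.2 ⟨i', h⟩⟩

/-- The ratios which are not constant have almost everywhere values which are different from all values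
at the place `c₀`, and almost all places are not conjugate to `c₀`. -/
theorem finite_pairW (X : WC k) (c₀ : Place k X.L) : {c : Place k X.L | (∃ g : X.G, c = c₀.map g.1) ∨
    ∃ i i' : Fin X.N, (¬ ∃ a : k, X.rat i = algebraMap k X.L a) ∧
      val c (X.rat i) = val c₀ (X.rat i')}.Finite := by
  have hfin : (Set.range (fun g : X.G => c₀.map g.1) ∪ ⋃ i : Fin X.N, ⋃ i' : Fin X.N,
      {c : Place k X.L | (¬ ∃ a : k, X.rat i = algebraMap k X.L a) ∧
        val c (X.rat i) = val c₀ (X.rat i')}).Finite := by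
    refine (Set.finite_range _).union (Set.finite_iUnion fun i => Set.finite_iUnion fun i' => ?_)
    by_cases h : ∃ a : k, X.rat i = algebraMap k X.L a
    · exact Set.finite_empty.subset fun c hc => absurd h hc.1
    · have h1 : X.rat i ≠ algebraMap k X.L (val c₀ (X.rat i')) := fun h2 => h ⟨_, h2⟩
      refine (finite_val_eq X.curve h1).subset fun c hc => ?_
      change val c (X.rat i) = val c (algebraMap k X.L (val c₀ (X.rat i')))
      rw [hc.2, val_eq (Place.at_const _)]
  refine hfin.subset ?_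
  rintro c (⟨g, h⟩ | ⟨i, i', h⟩)
  · exact Or.inl ⟨g, h.symm⟩
  · exact Or.inr (Set.mem_iUnion.2 ⟨i, Set.mem_iUnion.2 ⟨i', h⟩⟩)

end Pool.Agent.WFC
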