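import Pool.Agent.WFC.GStb

/-!
# Divisors on the quotient curve
-/

set_option autoImplicit false

noncomputable section

namespace Pool.Agent.WFC

open Pool.Agent.EFC
open Pool.Agent.ZCyc

variable {k L : Type} [Field k] [IsAlgClosed k] [CharZero k] [Field L] [Algebra k L]
  (G : Subgroup (L ≃ₐ[k] L)) [Finite G]

/-- Invariant divisors whose multiplicities are divisible by the orders of the stabilizers come from
divisors on `C`: `E (below c) = D c / |G_c|` (well defined by `exists_map_eq`, finite support), and the
degrees: `card_above`. -/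
theorem exists_down (hL : IsCurve k L) (D : Place k L →₀ ℤ) (h : ∀ (g : G) c, D (c.map g.1) = D c)
    (hd : ∀ c, (stb G c : ℤ) ∣ D c) :
    ∃ E : Place k (IntermediateField.fixedField G) →₀ ℤ,
      (∀ c, D c = stb G c * E (below G c)) ∧ deg D = Nat.card G * deg E := by
  classical
  choose ab hab using exists_above_fix (k := k) G
  let T : Finset (Place k (IntermediateField.fixedField G)) := D.support.image (below G)
  let E : Place k (IntermediateField.fixedField G) →₀ ℤ :=
    Finsupp.onFinset T (fun q => D (ab q) / stb G (ab q)) (by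
      intro q hq
      refine Finset.mem_image.2 ⟨ab q, Finsupp.mem_support_iff.2 fun h0 => hq ?_, hab q⟩
      simp only [h0, Int.zero_ediv])
  have hE : ∀ q, E q = D (ab q) / stb G (ab q) := fun q => rfl
  have hst : ∀ c c' : Place k L, below G c = below G c' → D c' = D c ∧ stb G c' = stb G c := by
    intro c c' hcc
    obtain ⟨g, rfl⟩ := exists_map_eq G hL hcc
    exact ⟨h g c, stb_map G g c⟩
  have hDE : ∀ c, D c = stb G c * E (below G c) := by
    intro c
    obtain ⟨h1, h2⟩ := hst (ab (below G c)) c (hab _)
    rw [hE, h1, h2, Int.mul_ediv_cancel' (hd _)]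
  refine ⟨E, hDE, ?_⟩
  have hdE : deg E = ∑ q ∈ T, E q := by
    unfold deg
    exact Finsupp.sum_of_support_subset E Finsupp.support_onFinset_subset (fun _ n => n)
      fun _ _ => rfl
  have hdD : deg D = ∑ q ∈ T, ∑ c ∈ D.support with below G c = q, D c := by
    unfold deg Finsupp.sum
    exact (Finset.sum_fiberwise_of_maps_to (fun c hc => Finset.mem_image_of_mem (below G) hc)
      fun c => D c).symm
  rw [hdE, hdD, Finset.mul_sum]
  refine Finset.sum_congr rfl fun q hq => ?_
  obtain ⟨c0, hc0, rfl⟩ := Finset.mem_image.1 hq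
  have h1 : ∀ c ∈ D.support.filter (fun c => below G c = below G c0),
      D c = stb G c0 * E (below G c0) := by
    intro c hc
    have h2 := (Finset.mem_filter.1 hc).2
    rw [hDE c, h2, (hst c0 c h2.symm).2]
  have h2 : Nat.card {c' : Place k L // below G c' = below G c0} =
      (D.support.filter (fun c => below G c = below G c0)).card := by
    refine Nat.subtype_card _ fun c => ?_
    rw [Finset.mem_filter]
    refine ⟨fun h3 => h3.2, fun h3 => ⟨?_, h3⟩⟩
    rw [Finsupp.mem_support_iff] at hc0 ⊢
    rw [(hst c0 c h3.symm).1]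
    exact hc0
  rw [Finset.sum_congr rfl h1, Finset.sum_const, ← h2, nsmul_eq_mul, ← mul_assoc, ← Nat.cast_mul,
    card_above G hL c0]

end Pool.Agent.WFC
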