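import Pool.Agent.TInc.Points
import Pool.Agent.TInc.Lin
import Pool.Agent.TInc.Nm

/-!
# Norms of functions in a pencil

(Copied from `Pool/Agent/TInc/Fam.lean`, where these statements are private.)
-/

set_option autoImplicit false

noncomputable section

namespace Pool.Agent.WFC

open Pool.Agent.ZCyc Pool.Agent.Dess Pool.Agent.KFam Pool.Agent.TInc Module Polynomial
open Pool.Agent.VFP (Om tt)
open scoped Classical

variable {k L : Type} [Field k] [IsAlgClosed k] [CharZero k] [Field L] [Algebra k L] {n r : ℕ}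

omit [IsAlgClosed k] [CharZero k] in
theorem fam_deg_add (A B : Place k L →₀ ℤ) : deg (A + B) = deg A + deg B := by
  unfold deg
  exact Finsupp.sum_add_index' (fun _ => rfl) (fun _ _ _ => rfl)

omit [IsAlgClosed k] [CharZero k] in
theorem fam_deg_smul (w : ℤ) (A : Place k L →₀ ℤ) : deg (w • A) = w * deg A := by
  unfold deg
  rw [Finsupp.sum_smul_index (fun _ => rfl)]
  simp only [Finsupp.sum, Finset.mul_sum]

/-- the divisor of `f` plus `w D` -/
def famE (hL : IsCurve k L) (f : L) (w : ℕ) (D : Place k L →₀ ℤ) : Place k L →₀ ℤ :=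
  dv hL f + (w : ℤ) • D

theorem famE_apply (hL : IsCurve k L) (f : L) (w : ℕ) (D : Place k L →₀ ℤ)
    (q : Place k L) : famE hL f w D q = ord q f + w * D q := by
  unfold famE
  rw [Finsupp.add_apply, dv_apply, Finsupp.smul_apply, smul_eq_mul]

/-- the support of the divisor, it is empty for `f = 0` -/
def famT (hL : IsCurve k L) (f : L) (w : ℕ) (D : Place k L →₀ ℤ) : Finset (Place k L) :=
  if f = 0 then ∅ else (famE hL f w D).support

/-- the norm of `f` -/
def famN (hL : IsCurve k L) {ρ : ℕ} (φ : Fin ρ → L) (c : Fin n → Place k L) (f : L)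
    (w : ℕ) (D : Place k L →₀ ℤ) : MvPolynomial (Fin ρ) k[X] :=
  nmP (famT hL f w D) (fun q m => val q (φ m)) (fun q => (ord q f + w * D q).toNat)
    (∏ j, val (c j) f)

theorem famN_deg (hL : IsCurve k L) {ρ : ℕ} (φ : Fin ρ → L) (c : Fin n → Place k L)
    (f : L) (w : ℕ) (D : Place k L →₀ ℤ) {d : ℕ} (hd : deg D = d)
    (h : f ≠ 0 → ∀ q, 0 ≤ ord q f + w * D q) (z : Fin ρ →₀ ℕ) :
    ((famN hL φ c f w D).coeff z).natDegree ≤ w * d := by
  by_cases hf : f = 0
  · refine (nmP_natDegree _ _ _ _ z).trans ?_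
    unfold famT
    rw [if_pos hf, Finset.sum_empty]
    exact Nat.zero_le _
  refine (nmP_natDegree _ _ _ _ z).trans (le_of_eq ?_)
  unfold famT
  rw [if_neg hf]
  have h1 : ((∑ q ∈ (famE hL f w D).support, (ord q f + w * D q).toNat : ℕ) : ℤ) =
      deg (famE hL f w D) := by
    unfold deg Finsupp.sum
    rw [Nat.cast_sum]
    refine Finset.sum_congr rfl fun q _ => ?_
    rw [Int.toNat_of_nonneg (h hf q), famE_apply]
  have h2 : deg (famE hL f w D) = w * d := by
    unfold famE
    rw [fam_deg_add, deg_dv, fam_deg_smul, hd, zero_add]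
  rw [h2] at h1
  exact_mod_cast h1

/-- the value of `∑ z m * φ m` -/
theorem fam_at_sum {ρ : ℕ} (hL : IsCurve k L) (φ : Fin ρ → L) (z : Fin ρ → k)
    {q : Place k L} (hq : ∀ m, φ m ∈ q.ring) :
    q.At (∑ m, algebraMap k L (z m) * φ m) (∑ m, z m * val q (φ m)) :=
  Place.At.sum fun m _ => (Place.at_const _).mul (at_val hL (hq m))

theorem fam_ord_sum {ρ : ℕ} (hL : IsCurve k L) (φ : Fin ρ → L) (z : Fin ρ → k)
    {q : Place k L} (hq : ∀ m, φ m ≠ 0 → -1 ≤ ord q (φ m)) (t : Finset (Fin ρ)) :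
    ∑ m ∈ t, algebraMap k L (z m) * φ m ≠ 0 →
      -1 ≤ ord q (∑ m ∈ t, algebraMap k L (z m) * φ m) := by
  induction t using Finset.induction_on with
  | empty =>
    intro h
    exact absurd Finset.sum_empty h
  | insert a t ha ih =>
    rw [Finset.sum_insert ha]
    intro h
    refine le_ord_add hL h (fun h1 => ?_) ih
    have h2 := left_ne_zero_of_mul h1
    have h3 := right_ne_zero_of_mul h1
    rw [ord_mul hL q h2 h3, ord_const hL, zero_add]
    exact hq a h3

omit [IsAlgClosed k] [CharZero k] in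
theorem fam_ne {τ : Om k} (hτ : Transcendental k τ) (a : k) :
    1 + τ * algebraMap k (Om k) a ≠ 0 := by
  intro h
  by_cases ha : a = 0
  · rw [ha, map_zero, mul_zero, add_zero] at h
    exact one_ne_zero h
  · apply hτ
    have ha' : algebraMap k (Om k) a ≠ 0 := (_root_.map_ne_zero _).2 ha
    have h1 : τ = algebraMap k (Om k) (-a⁻¹) := by
      rw [map_neg, map_inv₀]
      field_simp
      linear_combination h
    rw [h1]
    exact isAlgebraic_algebraMap _

omit [IsAlgClosed k] [CharZero k] in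
theorem fam_scl_one {K : Type} [Field K] (l : Place k L → Kˣ) (h : ∀ q, l q = 1)
    (D : Place k L →₀ ℤ) : scl l D = 1 := by
  unfold scl Finsupp.prod
  refine Finset.prod_eq_one fun q _ => ?_
  show ((l q ^ D q : Kˣ) : K) = 1
  rw [h, one_zpow, Units.val_one]

/-- the conditions for a function `f` of weight `w` -/
structure FamOk (c : Fin n → Place k L) (f : L) (w : ℕ) (D : Place k L →₀ ℤ) :
    Prop where
  unit : ∀ j, ord (c j) f = 0
  eff : f ≠ 0 → ∀ q, 0 ≤ ord q f + w * D q

theorem famN_aeval (hL : IsCurve k L) {ρ : ℕ} (φ : Fin ρ → L) (z : Fin ρ → k)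
    {U : Set (Place k L)} (c : Fin n → U)
    (hreg : ∀ m v, (∀ j, (c j).1 ≠ v) → φ m ∈ v.ring) {f : L} {w : ℕ} {D : Place k L →₀ ℤ}
    (hf : FamOk (k := k) (fun j => (c j).1) f w D) (hD : ∀ j, D (c j).1 = 0) (T : Finset (Place k L))
    (hT : ∀ q, D q ≠ 0 → q ∈ T) {τ : Om k} (S : Fin n → (L →ₐ[k] Om k) ⊕ U) (j₀ : Fin n)
    (h1 : ∀ (w : ℕ) (D : Place k L →₀ ℤ) (f : L), f ≠ 0 → (∀ j, ord (c j).1 f = 0) →
        (∀ q, 0 ≤ ord q f + w * D q) → (∀ q, D q ≠ 0 → q ∈ T) → ∀ T' : Finset (Place k L),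
        (∀ q, ord q f + w * D q ≠ 0 → q ∈ T') → (∀ j, (c j).1 ∉ T') →
        (∏ q ∈ T, (1 + τ * algebraMap k (Om k)
          (val q (∑ m, algebraMap k L (z m) * φ m))) ^ (D q)) ^ w * ∏ j, evO (S j) f =
          algebraMap k (Om k) (∏ j, val (c j).1 f) *
            ∏ q ∈ T', (1 + τ * algebraMap k (Om k)
              (val q (∑ m, algebraMap k L (z m) * φ m))) ^ (ord q f + w * D q).toNat) :
    (∏ q ∈ T, (1 + τ * algebraMap k (Om k)
      (val q (∑ m, algebraMap k L (z m) * φ m))) ^ (D q)) ^ w * ∏ j, evO (S j) f =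
      aeval τ ((famN hL φ (fun j => (c j).1) f w D).eval fun m => C (z m)) := by
  by_cases hf0 : f = 0
  · have e1 : evO (S j₀) f = 0 := by
      rw [hf0]
      rcases S j₀ with σ | q
      · exact map_zero σ
      · show algebraMap k (Om k) (val q.1 (0 : L)) = 0
        have e2 : val q.1 (0 : L) = (0 : k) := val_eq (by
          have h := Place.at_const (v := q.1) (0 : k)
          rwa [map_zero] at h)
        rw [e2, map_zero]
    have e3 : val (c j₀).1 f = 0 := by
      rw [hf0]
      exact val_eq (by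
        have h := Place.at_const (v := (c j₀).1) (0 : k)
        rwa [map_zero] at h)
    unfold famN
    rw [nmP_aeval, Finset.prod_eq_zero (Finset.mem_univ j₀) e1,
      Finset.prod_eq_zero (Finset.mem_univ j₀) e3, map_zero, zero_mul, mul_zero]
  have hc : ∀ j, (c j).1 ∉ (famE hL f w D).support := by
    intro j
    rw [Finsupp.notMem_support_iff, famE_apply, hD, mul_zero, add_zero]
    exact hf.unit j
  rw [h1 w D f hf0 hf.unit (hf.eff hf0) hT (famE hL f w D).support (fun q hq => by
    rw [Finsupp.mem_support_iff, famE_apply]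
    exact hq) hc]
  unfold famN famT
  rw [if_neg hf0, nmP_aeval]
  congr 1
  refine Finset.prod_congr rfl fun q hq => ?_
  rw [val_eq (fam_at_sum hL φ z fun m => hreg m q fun j hj => hc j (hj ▸ hq))]

end Pool.Agent.WFC
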