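import Pool.Agent.WFC.SBase
import Pool.Agent.WFC.GOrd
import Pool.Agent.WFC.GDown
import Pool.Agent.WFC.Degrees
import Pool.Agent.WFC.SFamN

/-!
# The invariant functions and divisors of a variety of the class `WC`
-/

set_option autoImplicit false

noncomputable section

namespace Pool.Agent.WFC

open Pool.Agent.EFC
open Pool.Agent.ZCyc Pool.Agent.TInf
open Pool.Agent.VFP (Om tt)

variable {k : Type} [Field k] [IsAlgClosed k] [CharZero k] {X : WC k} {n : ℕ}

omit [IsAlgClosed k] [CharZero k] in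
private theorem sf_add {L : Type} [Field L] [Algebra k L] (E F : Place k L →₀ ℤ) :
    deg (E + F) = deg E + deg F := by
  unfold deg
  exact Finsupp.sum_add_index' (fun _ => rfl) fun _ _ _ => rfl

omit [IsAlgClosed k] [CharZero k] in
private theorem sf_sum {L : Type} [Field L] [Algebra k L] {ι : Type*} (s : Finset ι)
    (E : ι → Place k L →₀ ℤ) : deg (∑ i ∈ s, E i) = ∑ i ∈ s, deg (E i) := by
  classical
  induction s using Finset.induction_on with
  | empty =>
    rw [Finset.sum_empty, Finset.sum_empty]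
    unfold deg
    exact Finsupp.sum_zero_index
  | insert a t ha ih => rw [Finset.sum_insert ha, Finset.sum_insert ha, sf_add, ih]

omit [IsAlgClosed k] [CharZero k] in
private theorem sf_even {L : Type} [Field L] [Algebra k L] (E : Place k L →₀ ℤ)
    (h : ∀ q, Even (E q)) : (2 : ℤ) ∣ deg E := by
  unfold deg Finsupp.sum
  exact Finset.dvd_sum fun q _ => (h q).two_dvd

/-- The divisors `E b` on `C` with `|G_c| E b (q) = ∑ i in b, D_i(c)` for `q = below c`:
`exists_down` for the divisor `∑ i in b, D_i`, which is invariant (`gal_D`, `gal_blk`), `X.even`;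
`|G_c|` divides it by `X.even`. -/
theorem exists_E (X : WC k) : ∃ E : Fin X.r → Place k X.K →₀ ℤ,
    (∀ b c, ∑ i with X.blk i = b, X.D i c = stb X.G c * E b (below X.G c)) ∧
      ∀ b, deg (∑ i with X.blk i = b, X.D i) = Nat.card X.G * deg (E b) := by
  have key : ∀ b : Fin X.r, ∃ E : Place k X.K →₀ ℤ,
      (∀ c, ∑ i with X.blk i = b, X.D i c = stb X.G c * E (below X.G c)) ∧
        deg (∑ i with X.blk i = b, X.D i) = Nat.card X.G * deg E := by
    intro b
    obtain ⟨E, h1, h2⟩ := exists_down X.G X.curve (∑ i with X.blk i = b, X.D i) (by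
      intro g c
      rw [Finsupp.finsetSum_apply, Finsupp.finsetSum_apply]
      refine (Finset.sum_equiv (X.gal g) (fun i => ?_) fun i _ => ?_).symm
      · simp only [Finset.mem_filter, Finset.mem_univ, true_and]
        rw [X.gal_blk]
      · exact (X.gal_D g i c).symm) (by
      intro c
      rw [Finsupp.finsetSum_apply]
      exact (Dvd.intro_left 2 rfl).trans (X.even b c))
    refine ⟨E, fun c => ?_, h2⟩
    rw [← h1, Finsupp.finsetSum_apply]
  choose E h1 h2 using key
  exact ⟨E, h1, h2⟩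

/-- the divisors `E b` -/
def WC.E (X : WC k) : Fin X.r → Place k X.K →₀ ℤ := (exists_E X).choose

theorem E_spec (b : Fin X.r) (c : Place k X.L) :
    ∑ i with X.blk i = b, X.D i c = stb X.G c * X.E b (below X.G c) :=
  (exists_E X).choose_spec.1 b c

private theorem sf_E_deg (b : Fin X.r) :
    deg (∑ i with X.blk i = b, X.D i) = Nat.card X.G * deg (X.E b) :=
  (exists_E X).choose_spec.2 b

/-- `X.even`, `stb_pos`, `exists_above_fix` -/
theorem E_even (b : Fin X.r) (q : Place k X.K) : Even (X.E b q) := by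
  obtain ⟨c, rfl⟩ := exists_above_fix X.G q
  have h1 : (2 * (stb X.G c : ℤ)) ∣ ∑ i with X.blk i = b, X.D i c := X.even b c
  rw [E_spec, mul_comm] at h1
  have h2 : (stb X.G c : ℤ) ≠ 0 := by exact_mod_cast (stb_pos X.G c).ne'
  exact (even_iff_two_dvd).2 (Int.dvd_of_mul_dvd_mul_left h2 h1)

/-- `∑ b ∑ i in b = ∑ i`, and degrees of sums -/
theorem E_deg {d : ℕ} (hd : ∑ i, deg (X.D i) = Nat.card X.G * (d : ℤ)) :
    deg (∑ b, X.E b) = d := by
  have h0 : (Nat.card X.G : ℤ) ≠ 0 := by exact_mod_cast Nat.card_pos.ne'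
  apply mul_left_cancel₀ h0
  rw [← hd, sf_sum, Finset.mul_sum, ← Finset.sum_fiberwise Finset.univ X.blk]
  refine Finset.sum_congr rfl fun b _ => ?_
  rw [← sf_E_deg, sf_sum]

theorem E_sum (c : Place k X.L) :
    ∑ i, X.D i c = stb X.G c * (∑ b, X.E b) (below X.G c) := by
  rw [Finsupp.finsetSum_apply, Finset.mul_sum, ← Finset.sum_fiberwise Finset.univ X.blk]
  exact Finset.sum_congr rfl fun b _ => E_spec b c

/-- The degree of a block is divisible by `2 |G|`: `exists_E`, `E_even` and the degree of a sum of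
divisors (a sum of even numbers is even). -/
theorem deg_dvd (X : WC k) (b : Fin X.r) :
    (2 * Nat.card X.G : ℤ) ∣ ∑ i with X.blk i = b, deg (X.D i) := by
  rw [← sf_sum, sf_E_deg, mul_comm]
  exact mul_dvd_mul_left _ (sf_even _ (E_even b))

/-- the product of the `α_i`, a function on `C` (`gal_α`, `mem_fix_iff`) -/
def WC.Fα (X : WC k) : X.K := ⟨∏ i, X.cub.α i, by
  rw [mem_fix_iff]
  intro g
  rw [map_prod]
  simp only [gal_α]
  exact Equiv.prod_comp (X.gal g) X.cub.α⟩

/-- the product of the `-B_i / 2` -/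
def WC.Fb (X : WC k) : X.K := ⟨∏ i, (-X.cub.B i / 2), by
  rw [mem_fix_iff]
  intro g
  rw [map_prod]
  have h : ∀ i, g.1 (-X.cub.B i / 2) = -X.cub.B (X.gal g i) / 2 := fun i => by
    rw [map_div₀, map_neg, map_ofNat]
    congr 2
    exact X.gal_B g i
  simp only [h]
  exact Equiv.prod_comp (X.gal g) fun i => -X.cub.B i / 2⟩

/-- the product of the `b_i ² - θ (b_i ² - α_i ³)` -/
def WC.Fθ (X : WC k) (θ : k) : X.K := ⟨∏ i, ((-X.cub.B i / 2) ^ 2 - algebraMap k X.L θ *
    ((-X.cub.B i / 2) ^ 2 - X.cub.α i ^ 3)), by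
  rw [mem_fix_iff]
  intro g
  rw [map_prod]
  have h : ∀ i, g.1 ((-X.cub.B i / 2) ^ 2 - algebraMap k X.L θ *
      ((-X.cub.B i / 2) ^ 2 - X.cub.α i ^ 3)) =
      (-X.cub.B (X.gal g i) / 2) ^ 2 - algebraMap k X.L θ *
        ((-X.cub.B (X.gal g i) / 2) ^ 2 - X.cub.α (X.gal g i) ^ 3) := fun i => by
    have h1 : g.1 (X.cub.B i) = X.cub.B (X.gal g i) := X.gal_B g i
    rw [map_sub, map_mul, map_sub, map_pow, map_pow, map_div₀, map_neg, map_ofNat, gal_α, h1,
      AlgEquiv.commutes]
  simp only [h]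
  exact Equiv.prod_comp (X.gal g) fun i => (-X.cub.B i / 2) ^ 2 - algebraMap k X.L θ *
        ((-X.cub.B i / 2) ^ 2 - X.cub.α i ^ 3)⟩

private theorem sf_ok {w : ℕ} (F : Fin X.N → X.L) (f : X.K) (hf : (f : X.L) = ∏ i, F i)
    (c : Fin n → X.U) (h1 : ∀ i j, TInc.ord (c j).1 (F i) = 0)
    (h2 : ∀ i, F i ≠ 0 → ∀ q : Place k X.L, 0 ≤ TInc.ord q (F i) + w * X.D i q) :
    FamOk (k := k) (fun j => below X.G (c j).1) f w (∑ b, X.E b) := by
  have hne : f ≠ 0 → ∀ i, F i ≠ 0 := by
    intro h0 i hi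
    apply h0
    have : (f : X.L) = 0 := by
      rw [hf]
      exact Finset.prod_eq_zero (Finset.mem_univ i) hi
    exact Subtype.ext this
  have hord : f ≠ 0 → ∀ c : Place k X.L,
      stb X.G c * TInc.ord (below X.G c) f = ∑ i, TInc.ord c (F i) := by
    intro h0 c
    rw [← ord_below X.G X.curve c h0, hf, TInc.ord_prod X.curve.dess c _ _ fun i _ => hne h0 i]
  refine ⟨fun j => ?_, fun h0 q => ?_⟩
  · by_cases h0 : f = 0
    · rw [h0, TInc.ord_zero]
    · have h3 := hord h0 (c j).1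
      rw [Finset.sum_eq_zero fun i _ => h1 i j] at h3
      have h4 : (stb X.G (c j).1 : ℤ) ≠ 0 := by exact_mod_cast (stb_pos X.G (c j).1).ne'
      exact (mul_eq_zero.1 h3).resolve_left h4
  · obtain ⟨c, rfl⟩ := exists_above_fix X.G q
    have h4 : (0 : ℤ) < stb X.G c := by exact_mod_cast stb_pos X.G c
    have h5 : 0 ≤ (stb X.G c : ℤ) *
        (TInc.ord (below X.G c) f + w * (∑ b, X.E b) (below X.G c)) := by
      have h6 : (stb X.G c : ℤ) * (TInc.ord (below X.G c) f + w * (∑ b, X.E b) (below X.G c)) =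
          ∑ i, (TInc.ord c (F i) + w * X.D i c) := by
        rw [Finset.sum_add_distrib, ← Finset.mul_sum, E_sum, ← hord h0 c]
        ring
      rw [h6]
      exact Finset.sum_nonneg fun i _ => h2 i (hne h0 i) c
    exact nonneg_of_mul_nonneg_right h5 h4

omit [IsAlgClosed k] [CharZero k] in
private theorem sf_two {L : Type} [Field L] [Algebra k L] (q : Place k L) :
    q.At (2 : L) (2 : k) := by
  have h := Place.at_const (v := q) (2 : k)
  rwa [map_ofNat] at h

private theorem sf_bat {q : Place k X.L} (hq : X.cub.Good q) (i : Fin X.N) :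
    q.At (-X.cub.B i / 2) (-TInc.val q (X.cub.B i) / 2) :=
  (TInc.at_val X.curve.dess (hq i).2.1.1).neg.div (sf_two q) two_ne_zero

private theorem sf_θat {q : Place k X.L} (hq : X.cub.Good q) (i : Fin X.N) (θ : k) :
    q.At ((-X.cub.B i / 2) ^ 2 - algebraMap k X.L θ * ((-X.cub.B i / 2) ^ 2 - X.cub.α i ^ 3))
      ((-TInc.val q (X.cub.B i) / 2) ^ 2 -
        θ * ((-TInc.val q (X.cub.B i) / 2) ^ 2 - TInc.val q (X.cub.α i) ^ 3)) :=
  ((sf_bat hq i).pow 2).sub ((Place.at_const θ).mul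
    (((sf_bat hq i).pow 2).sub ((TInc.at_val X.curve.dess (hq i).1.1).pow 3)))

private theorem sf_bord (h : X.NonZero) (i : Fin X.N) (q : Place k X.L) :
    TInc.ord q (-X.cub.B i / 2) = TInc.ord q (X.cub.B i) := by
  have hB : X.cub.B i ≠ 0 := (h i).2
  have h1 : -X.cub.B i / 2 = algebraMap k X.L (-1 / 2) * X.cub.B i := by
    rw [map_div₀, map_neg, map_one, map_ofNat]
    ring
  have h3 : algebraMap k X.L (-1 / 2) ≠ 0 := (_root_.map_ne_zero _).2 (by norm_num)
  rw [h1, TInc.ord_mul X.curve.dess q h3 hB, TInc.ord_const X.curve.dess, zero_add]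

/-- The function has the weight `w`, and it is a unit at the points `c j`. `ord_below`, `(cub_ok
h).α_mem`, `E_sum`, `stb_pos`, `exists_above_fix`; at the places of `U` the coefficients are
units. -/
theorem okα (h : X.NonZero) (c : Fin n → X.U) :
    FamOk (k := k) (fun j => below X.G (c j).1) X.Fα 2 (∑ b, X.E b) := by
  refine sf_ok (fun i => X.cub.α i) X.Fα rfl c (fun i j => ?_) fun i _ q => ?_
  · exact (TInc.ord_eq_zero_iff X.curve.dess ((cub_ok h).α_ne i)).2 ((c j).2 i).1
  · have := (cub_ok h).α_mem i q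
    push_cast
    exact this

theorem okb (h : X.NonZero) (c : Fin n → X.U) :
    FamOk (k := k) (fun j => below X.G (c j).1) X.Fb 3 (∑ b, X.E b) := by
  refine sf_ok (fun i => -X.cub.B i / 2) X.Fb rfl c (fun i j => ?_) fun i _ q => ?_
  · rw [sf_bord h]
    exact (TInc.ord_eq_zero_iff X.curve.dess ((cub_ok h).B_ne i)).2 ((c j).2 i).2.1
  · rw [sf_bord h]
    have := (cub_ok h).B_mem i q
    push_cast
    exact this

/-- See the proof of `okθ` in `TInc.exists_familyZ`. -/
theorem okθ (h : X.NonZero) (c : Fin n → X.U) {θ : k}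
    (hθ : ∀ i j, (-TInc.val (c j).1 (X.cub.B i) / 2) ^ 2 -
      θ * ((-TInc.val (c j).1 (X.cub.B i) / 2) ^ 2 - TInc.val (c j).1 (X.cub.α i) ^ 3) ≠ 0) :
    FamOk (k := k) (fun j => below X.G (c j).1) (X.Fθ θ) 6 (∑ b, X.E b) := by
  refine sf_ok (fun i => (-X.cub.B i / 2) ^ 2 - algebraMap k X.L θ *
    ((-X.cub.B i / 2) ^ 2 - X.cub.α i ^ 3)) (X.Fθ θ) rfl c (fun i j => ?_) fun i h0 q => ?_
  · exact TInc.ord_of_at X.curve.dess (sf_θat (c j).2 i θ) (hθ i j)
  · have e1 : (-X.cub.B i / 2) ^ 2 - algebraMap k X.L θ * ((-X.cub.B i / 2) ^ 2 -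
        X.cub.α i ^ 3) =
        algebraMap k X.L (1 - θ) * (-X.cub.B i / 2) ^ 2 + algebraMap k X.L θ * X.cub.α i ^ 3 := by
      rw [map_sub, map_one]
      ring
    have h3 : -(6 * X.D i q) ≤ TInc.ord q (algebraMap k X.L (1 - θ) * (-X.cub.B i / 2) ^ 2 +
        algebraMap k X.L θ * X.cub.α i ^ 3) := by
      refine TInc.le_ord_add X.curve.dess (e1 ▸ h0) (fun h => ?_) (fun h => ?_)
      · rw [TInc.ord_mul X.curve.dess q (left_ne_zero_of_mul h) (right_ne_zero_of_mul h),
          TInc.ord_const X.curve.dess, zero_add, TInc.ord_pow X.curve.dess, sf_bord ‹_›]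
        have := (cub_ok ‹X.NonZero›).B_mem i q
        have e2 : X.cub.D i q = X.D i q := rfl
        rw [e2] at this
        push_cast
        omega
      · rw [TInc.ord_mul X.curve.dess q (left_ne_zero_of_mul h) (right_ne_zero_of_mul h),
          TInc.ord_const X.curve.dess, zero_add, TInc.ord_pow X.curve.dess]
        have := (cub_ok ‹X.NonZero›).α_mem i q
        have e2 : X.cub.D i q = X.D i q := rfl
        rw [e2] at this
        push_cast
        omega
    have h6 : ((6 : ℕ) : ℤ) = 6 := rfl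
    rw [e1, h6]
    omega

private theorem sf_disc (h : X.NonZero) {q : Place k X.L} (hq : X.cub.Good q) (i : Fin X.N) :
    (-TInc.val q (X.cub.B i) / 2) ^ 2 - TInc.val q (X.cub.α i) ^ 3 ≠ 0 := by
  have h4k : (4 : k) ≠ 0 := by norm_num
  have h4L : (4 : X.L) ≠ 0 := by
    have h := (_root_.map_ne_zero (algebraMap k X.L)).2 h4k
    rwa [map_ofNat] at h
  have h2L : (2 : X.L) ≠ 0 := by
    have h := (_root_.map_ne_zero (algebraMap k X.L)).2 (two_ne_zero (α := k))
    rwa [map_ofNat] at h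
  intro h0
  have h1 : q.At ((-X.cub.B i / 2) ^ 2 - X.cub.α i ^ 3)
      ((-TInc.val q (X.cub.B i) / 2) ^ 2 - TInc.val q (X.cub.α i) ^ 3) :=
    ((sf_bat hq i).pow 2).sub ((TInc.at_val X.curve.dess (hq i).1.1).pow 3)
  rw [h0] at h1
  have h2 : q.At (4 : X.L) (4 : k) := by
    have h := Place.at_const (v := q) (4 : k)
    rwa [map_ofNat] at h
  have h3 : q.At (X.cub.B i ^ 2 - 4 * X.cub.α i ^ 3) (4 * 0 : k) := by
    have h4 := h2.mul h1
    convert h4 using 1
    field_simp
    ring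
  have h4 := h3.mul (TInc.at_val X.curve.dess (hq i).2.2.1)
  rw [mul_inv_cancel₀ ((cub_ok h).disc i), mul_zero, zero_mul] at h4
  have h5 : q.At (1 : X.L) (1 : k) := by
    have h := Place.at_const (v := q) (1 : k)
    rwa [map_one] at h
  exact one_ne_zero (h5.unique h4)

/-- infinitely many numbers `θ` satisfy the condition in `okθ` -/
theorem exists_theta (h : X.NonZero) (c : Fin n → X.U) (m : ℕ) :
    ∃ θ : Fin m → k, Function.Injective θ ∧ (∀ x, θ x ≠ 0) ∧
      ∀ x i j, (-TInc.val (c j).1 (X.cub.B i) / 2) ^ 2 -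
        θ x * ((-TInc.val (c j).1 (X.cub.B i) / 2) ^ 2 - TInc.val (c j).1 (X.cub.α i) ^ 3) ≠ 0 := by
  let Bd : Set k := insert 0 (Set.range fun x : Fin X.N × Fin n =>
    (-TInc.val (c x.2).1 (X.cub.B x.1) / 2) ^ 2 / ((-TInc.val (c x.2).1 (X.cub.B x.1) / 2) ^ 2 -
      TInc.val (c x.2).1 (X.cub.α x.1) ^ 3))
  have hBd : Bd.Finite := (Set.finite_range _).insert 0
  have hinf : Bdᶜ.Infinite := hBd.infinite_compl
  let e := hinf.natEmbedding
  refine ⟨fun j => (e j).1, fun i j h => ?_, fun j h => ?_, fun j i l h' => ?_⟩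
  · exact Fin.ext (e.injective (Subtype.ext h))
  · apply (e j).2
    have h' : (e j).1 = 0 := h
    rw [h']
    exact Set.mem_insert _ _
  · apply (e j).2
    right
    refine ⟨(i, l), ?_⟩
    have h1 := sf_disc h (c l).2 i
    simp only
    rw [div_eq_iff h1]
    linear_combination h'

end Pool.Agent.WFC
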