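import Pool.Agent.EFC.FGraded
import Pool.Agent.WFC.FAlt
import Pool.Agent.WFC.FWeight
import Pool.Agent.WFC.SFamF
import Pool.Agent.EFP.Kos
import Pool.Agent.EFP.SFT

/-!
# Correspondences which are zero on the holomorphic forms

Adapt `Pool/Agent/EFP/Graded.lean`.
-/

set_option autoImplicit false

noncomputable section

namespace Pool.Agent.WFC

open Pool.Agent.EFC
open Pool.Agent.ZCyc Pool.Agent.ZIso
open Pool.Agent.VFP (Om tt)
open Pool.Agent.EFP (kos kos_sq kos_mul second_fundamental_col)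

variable {k : Type} [Field k] [IsAlgClosed k] [CharZero k] {m m' : ℕ} {X : Fin m → WC k}
  {Y : Fin m' → WC k} {Q : WC k → Prop}

omit [IsAlgClosed k] [CharZero k] in
private theorem gr_src {Z : WC k} {f : Comp X Z} {i : Fin m} (h : f.src = some i) :
    X i = Z ∧ ∀ x : Pts m k, f.base x = x i := by
  cases f with
  | const w hw => simp [Comp.src] at h
  | fac i' h' ε =>
    simp only [Comp.src, Option.some.injEq] at h
    subst h
    exact ⟨h', fun x => rfl⟩

omit [IsAlgClosed k] [CharZero k] in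
private theorem gr_base {f : Mor X Y} {x : Pts m k} (hx : OnP X x) : OnP Y (f.base x) := by
  intro j
  show ((f j).base x).1 = Y j ∧ ((f j).base x).2.On
  cases h : f j with
  | const w hw => exact ⟨rfl, hw⟩
  | fac i h' ε =>
    show (x i).1 = Y j ∧ (x i).2.On
    rw [← h']
    exact hx i

/-- the sum of the degrees of some blocks is divisible by `2 |G|` and positive -/
private theorem gr_deg (Z : WC k) {S : Finset ℕ} (hS : S ≠ ∅) (hr : ∀ b ∈ S, b < Z.r) :
    ∃ n : ℕ, 0 < n ∧
      (∑ i with (Z.blk i : ℕ) ∈ S, deg (Z.D i)) = 2 * Nat.card Z.G * (n : ℤ) := by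
  classical
  have h1 : ∑ i with (Z.blk i : ℕ) ∈ S, deg (Z.D i) =
      ∑ b ∈ Finset.univ.filter (fun b : Fin Z.r => (b : ℕ) ∈ S),
        ∑ i with Z.blk i = b, deg (Z.D i) := by
    rw [← Finset.sum_fiberwise_of_maps_to (s := Finset.univ.filter fun i : Fin Z.N =>
      (Z.blk i : ℕ) ∈ S) (t := Finset.univ.filter (fun b : Fin Z.r => (b : ℕ) ∈ S))
      (g := Z.blk) (f := fun i => deg (Z.D i))]
    · refine Finset.sum_congr rfl fun b hb => ?_
      refine Finset.sum_congr ?_ fun _ _ => rfl
      ext i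
      simp only [Finset.mem_filter, Finset.mem_univ, true_and] at hb ⊢
      constructor
      · rintro ⟨-, h⟩
        exact h
      · rintro rfl
        exact ⟨hb, rfl⟩
    · intro i hi
      simpa using hi
  obtain ⟨b, hb⟩ := Finset.nonempty_iff_ne_empty.2 hS
  have h2 : (2 * Nat.card Z.G : ℤ) ∣ ∑ i with (Z.blk i : ℕ) ∈ S, deg (Z.D i) := by
    rw [h1]
    exact Finset.dvd_sum fun b _ => deg_dvd Z b
  have h3 : 0 < ∑ i with (Z.blk i : ℕ) ∈ S, deg (Z.D i) := by
    rw [h1]
    refine Finset.sum_pos (fun b _ => Z.pos b) ⟨⟨b, hr b hb⟩, ?_⟩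
    simpa using hb
  obtain ⟨n, hn⟩ := h2
  have h4 : (0 : ℤ) < 2 * Nat.card Z.G := by
    have : 0 < Nat.card Z.G := Nat.card_pos
    omega
  have h5 : 0 < n := by
    rw [hn] at h3
    exact pos_of_mul_pos_right h3 h4.le
  refine ⟨n.toNat, by omega, ?_⟩
  rw [hn, Int.toNat_of_nonneg h5.le]

private theorem gr_fixing_mem {r : ℕ} {J : Finset (Fin r)} {π : Equiv.Perm (Fin r)} :
    π ∈ fixing J ↔ ∀ i ∉ J, π i = i := by
  simp [fixing]

/-- a permutation which fixes the complement of `J` maps `J` to itself -/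
private theorem gr_fixing_map {r : ℕ} {J : Finset (Fin r)} {π : Equiv.Perm (Fin r)}
    (h : π ∈ fixing J) {i : Fin r} (hi : i ∈ J) : π i ∈ J := by
  by_contra hcon
  have h1 := gr_fixing_mem.1 h _ hcon
  have h2 : π i = i := π.injective h1
  rw [h2] at hcon
  exact hcon hi

/-- transport of sums over `fixing J` along an embedding -/
private theorem gr_fixing_sum {r l : ℕ} {W : Type*} [AddCommMonoid W] (o : Fin l ↪ Fin r)
    (J : Finset (Fin l)) (F : Equiv.Perm (Fin l) → W) (G : Equiv.Perm (Fin r) → W)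
    (h : ∀ π ∈ fixing J, F π = G (π.viaEmbedding o)) :
    ∑ π ∈ fixing J, F π = ∑ π ∈ fixing (J.map o), G π := by
  classical
  refine Finset.sum_nbij (fun π => π.viaEmbedding o) ?_ ?_ ?_ h
  · intro π hπ
    rw [gr_fixing_mem] at hπ ⊢
    intro i hi
    by_cases hr : i ∈ Set.range o
    · obtain ⟨a, rfl⟩ := hr
      rw [Equiv.Perm.viaEmbedding_apply]
      rw [hπ a fun ha => hi (Finset.mem_map_of_mem _ ha)]
    · exact Equiv.Perm.viaEmbedding_apply_of_notMem _ _ _ hr
  · intro π _ π' _ hππ
    ext a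
    have h1 := congrArg (fun e : Equiv.Perm (Fin r) => e (o a)) hππ
    simp only [Equiv.Perm.viaEmbedding_apply] at h1
    exact congrArg Fin.val (o.injective h1)
  · intro π hπ
    rw [Finset.mem_coe] at hπ
    have h1 : ∀ a : Fin l, ∃ b, o b = π (o a) := by
      intro a
      by_cases ha : a ∈ J
      · have h2 := gr_fixing_map hπ (Finset.mem_map_of_mem o ha)
        obtain ⟨b, -, hb⟩ := Finset.mem_map.1 h2
        exact ⟨b, hb⟩
      · refine ⟨a, ?_⟩
        rw [gr_fixing_mem.1 hπ (o a)]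
        intro h3
        obtain ⟨b, hb, hba⟩ := Finset.mem_map.1 h3
        exact ha (o.injective hba ▸ hb)
    choose t ht using h1
    have hti : Function.Injective t := by
      intro a b hab
      have h2 : π (o a) = π (o b) := by rw [← ht, ← ht, hab]
      exact o.injective (π.injective h2)
    let σ : Equiv.Perm (Fin l) := Equiv.ofBijective t (Finite.injective_iff_bijective.1 hti)
    have hσ : ∀ a, o (σ a) = π (o a) := ht
    refine ⟨σ, ?_, ?_⟩
    · rw [Finset.mem_coe, gr_fixing_mem]
      intro a ha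
      apply o.injective
      rw [hσ, gr_fixing_mem.1 hπ (o a)]
      intro h3
      obtain ⟨b, hb, hba⟩ := Finset.mem_map.1 h3
      exact ha (o.injective hba ▸ hb)
    · apply Equiv.ext
      intro i
      by_cases hr : i ∈ Set.range o
      · obtain ⟨a, rfl⟩ := hr
        rw [Equiv.Perm.viaEmbedding_apply, hσ]
      · rw [Equiv.Perm.viaEmbedding_apply_of_notMem _ _ _ hr, gr_fixing_mem.1 hπ i]
        intro h3
        obtain ⟨b, -, hb⟩ := Finset.mem_map.1 h3
        exact hr ⟨b, hb⟩

private theorem gr_sign {r l : ℕ} (o : Fin l ↪ Fin r) (π : Equiv.Perm (Fin l)) :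
    Equiv.Perm.sign (π.viaEmbedding o) = Equiv.Perm.sign π := by
  unfold Equiv.Perm.viaEmbedding
  exact @Equiv.Perm.sign_extendDomain _ _ _ _ _ _ π _ (fun a => Classical.propDecidable _) _

omit [IsAlgClosed k] [CharZero k] in
/-- the permutation given by a morphism -/
private theorem gr_per {l : ℕ} {T : Finset (Fin m × Option ℕ)} {T' : Finset (Fin m' × Option ℕ)}
    {oI : Fin l → Fin m} {oJ : Fin l → Fin m'} (hoJ : Function.Injective oJ)
    (hI : ∀ i, fib T i ≠ ∅ → ∃ a, oI a = i) (hJ : ∀ a, fib T' (oJ a) ≠ ∅) {f : Mor X Y}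
    (hf : Bij f T T') : ∃ τ : Equiv.Perm (Fin l), ∀ a, (f (oJ a)).src = some (oI (τ a)) := by
  have h1 : ∀ a, ∃ b, (f (oJ a)).src = some (oI b) := by
    intro a
    obtain ⟨i, h2, h3⟩ := hf.1 (oJ a) (hJ a)
    obtain ⟨b, rfl⟩ := hI i (h3 ▸ hJ a)
    exact ⟨b, h2⟩
  choose t ht using h1
  have hti : Function.Injective t := by
    intro a b hab
    obtain ⟨i, h2, h3⟩ := hf.1 (oJ a) (hJ a)
    obtain ⟨j, -, hj⟩ := hf.2 i (h3 ▸ hJ a)
    apply hoJ
    rw [hj (oJ a) ⟨hJ a, h2⟩, hj (oJ b) ⟨hJ b, ?_⟩]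
    rw [ht b, ← hab, ← ht a, h2]
  exact ⟨Equiv.ofBijective t (Finite.injective_iff_bijective.1 hti), ht⟩

omit [IsAlgClosed k] [CharZero k] in
open Classical in
private theorem gr_koszul {l : ℕ} {T' : Finset (Fin m' × Option ℕ)}
    {oI : Fin l → Fin m} (hoI : StrictMono oI) {oJ : Fin l → Fin m'} (hoJ : StrictMono oJ)
    (hJ' : ∀ j, fib T' j ≠ ∅ → ∃ a, oJ a = j) (hJ : ∀ a, fib T' (oJ a) ≠ ∅) {f : Mor X Y}
    {τ : Equiv.Perm (Fin l)} (hτ : ∀ a, (f (oJ a)).src = some (oI (τ a))) :
    koszul f T' = kos (fun a => cnt Y T' (oJ a) + 1) τ := by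
  unfold koszul kos
  symm
  refine Fintype.prod_of_injective oJ hoJ.injective _ _ ?_ ?_
  · intro j hj
    apply Finset.prod_eq_one
    intro j' hj'
    exfalso
    simp only [Finset.mem_filter, Finset.mem_univ, true_and] at hj'
    exact hj (hJ' j hj'.2.1)
  · intro a
    rw [Finset.prod_filter, Finset.prod_filter]
    refine Fintype.prod_of_injective oJ hoJ.injective _ _ ?_ ?_
    · intro j' hj'
      rw [if_neg]
      rintro ⟨-, -, h, -⟩
      exact hj' (hJ' j' h)
    · intro b
      have hc : (a < b ∧ τ b < τ a) ↔ (oJ a < oJ b ∧ fib T' (oJ a) ≠ ∅ ∧ fib T' (oJ b) ≠ ∅ ∧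
          ∃ i i', (f (oJ a)).src = some i ∧ (f (oJ b)).src = some i' ∧ i' < i) := by
        constructor
        · rintro ⟨h1, h2⟩
          exact ⟨hoJ h1, hJ a, hJ b, _, _, hτ a, hτ b, hoI h2⟩
        · rintro ⟨h1, -, -, i, i', h2, h3, h4⟩
          rw [hτ a, Option.some.injEq] at h2
          rw [hτ b, Option.some.injEq] at h3
          subst h2 h3
          exact ⟨hoJ.lt_iff_lt.1 h1, hoI.lt_iff_lt.1 h4⟩
      exact if_congr hc rfl rfl

/-- the number of the forms on a factor -/
private def gr_dim (p : WC k × Finset (Option ℕ)) : ℕ :=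
  if p.2 = {none} then genus k p.1.K else
    ((∑ i with some (p.1.blk i : ℕ) ∈ p.2, deg (p.1.D i)) +
      2 * Nat.card p.1.G * (genus k p.1.K : ℤ)).toNat / (2 * Nat.card p.1.G) - 1

/-- the case of blocks -/
private theorem gr_dim_spec {Z : WC k} {F : Finset (Option ℕ)} (h0 : none ∈ F) (h1 : F ≠ {none})
    (hr : ∀ b, some b ∈ F → b < Z.r) : ∃ n : ℕ, gr_dim (Z, F) + 1 = n ∧
      2 * Nat.card Z.G * (n : ℤ) = (∑ i with some (Z.blk i : ℕ) ∈ F, deg (Z.D i)) +
        2 * Nat.card Z.G * genus k Z.K := by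
  classical
  have hS : F.eraseNone ≠ ∅ := by
    intro h
    apply h1
    refine Finset.eq_singleton_iff_unique_mem.2 ⟨h0, fun o ho => ?_⟩
    cases o with
    | none => rfl
    | some b =>
      have h2 : b ∈ F.eraseNone := Finset.mem_eraseNone.2 ho
      rw [h] at h2
      exact absurd h2 (Finset.notMem_empty _)
  obtain ⟨n, hn0, hn⟩ := gr_deg Z hS fun b hb => hr b (Finset.mem_eraseNone.1 hb)
  simp only [Finset.mem_eraseNone] at hn
  have hG : 0 < Nat.card Z.G := Nat.card_pos
  refine ⟨n + genus k Z.K, ?_, ?_⟩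
  · unfold gr_dim
    simp only
    rw [if_neg h1, hn]
    have e : 2 * (Nat.card Z.G : ℤ) * n + 2 * Nat.card Z.G * (genus k Z.K : ℤ) =
        ((2 * Nat.card Z.G * (n + genus k Z.K) : ℕ) : ℤ) := by
      push_cast
      ring
    rw [e, Int.toNat_natCast, Nat.mul_div_cancel_left _ (by omega)]
    omega
  · rw [hn]
    push_cast
    ring

/-- the relation for the antisymmetrisers -/
private theorem gr_alt (hcore : CoreQ k Q) (hG : CoreG k) {T : Finset (Fin m × Option ℕ)}
    (hT : T ⊆ blocks X) {x : Pts m k} (hx : OnP X x) {J : Finset (Fin m)} {Z : WC k}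
    {F : Finset (Option ℕ)} (h0 : none ∈ F) (hne : J.Nonempty)
    (hQ : ∀ j ∈ J, ∀ S : Finset ℕ, Q ((X j).sub S)) (hX : ∀ j ∈ J, X j = Z)
    (hF : ∀ j ∈ J, fib T j = F) (hJ : J.card = gr_dim (Z, F) + 1) :
    ∑ π ∈ fixing J, (((Equiv.Perm.sign π : ℤ) : ℚ) ^
      (Finset.univ.filter fun i : Fin Z.N => some (Z.blk i : ℕ) ∈ F).card) •
        eP X T (x ∘ π) = 0 := by
  classical
  by_cases h1 : F = {none}
  · subst h1
    have h2 : (Finset.univ.filter fun i : Fin Z.N =>
        some (Z.blk i : ℕ) ∈ ({none} : Finset (Option ℕ))).card = 0 := by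
      rw [Finset.card_eq_zero, Finset.filter_eq_empty_iff]
      intro i _
      simp
    rw [h2]
    simp only [pow_zero, one_smul]
    refine eP_altC hG hx hX hF ?_
    rw [hJ]
    unfold gr_dim
    simp
  · obtain ⟨j₀, hj₀⟩ := hne
    have hr : ∀ b, some b ∈ F → b < Z.r := by
      intro b hb
      rw [← hF j₀ hj₀, mem_fib] at hb
      have h2 := some_mem_blocks.1 (hT hb)
      rwa [hX j₀ hj₀] at h2
    obtain ⟨n, hn1, hn2⟩ := gr_dim_spec h0 h1 hr
    have hFS : F = insert none (F.eraseNone.image some) := by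
      ext o
      cases o with
      | none => simp [h0]
      | some b => simp
    have hS : F.eraseNone ≠ ∅ := by
      intro h
      apply h1
      rw [hFS, h]
      simp
    have hfil : (Finset.univ.filter fun i : Fin Z.N => some (Z.blk i : ℕ) ∈ F) =
        Finset.univ.filter fun i : Fin Z.N => (Z.blk i : ℕ) ∈ F.eraseNone := by
      ext i
      simp
    rw [hfil] at hn2 ⊢
    refine eP_altB (n := n) hcore hT hx hS (fun b hb => hr b (Finset.mem_eraseNone.1 hb)) ?_ hX
      (fun j hj => (hF j hj).trans hFS) (by rw [hJ, hn1]) hn2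
    have := hQ j₀ hj₀ F.eraseNone
    rwa [hX j₀ hj₀] at this

open Classical in
/-- Adapt `Pool.Agent.EFP.graded`; `T` and `T'` are closed, so `fib T j ≠ ∅` means `none ∈ fib T j`
(`Closed.none_mem_fib`), and `fib T j` is `{none}` or `insert none (S.image some)` with `S ≠ ∅`. The
colours are `c a = (X (eI a), fib T (eI a))`, `c' a = (Y (eJ a), fib T' (eJ a))`, the dimensions
`d (Z, S)` are `genus k Z.K` for `S = {none}`, and `n - 1` otherwise, where
`2 |G| n = (∑ i with some (blk i) ∈ S, deg (D i)) + 2 |G| genus` (by `deg_dvd`, `pos`).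
The relations for the antisymmetrisers are `eP_altB` and `eP_altC` (here `n a = 1` and the sign is
`sgn π * kos n (τ π) = sgn π * sgn π * kos n τ = kos n τ`). -/
theorem graded_pair (hcore : CoreQ k Q) (hG : CoreG k)
    (hQ : ∀ (j : Fin m') (S : Finset ℕ), Q ((Y j).sub S))
    {γ : Mor X Y →₀ ℚ}
    {T : Finset (Fin m × Option ℕ)} {T' : Finset (Fin m' × Option ℕ)}
    (h : ∀ (a : Fin m → ℕ) (a' : Fin m' → ℕ), IsForm X T a → IsForm Y T' a' →
      (γ.sum fun f c => c * (pullCoef f T a T' a' : ℚ)) = 0) (hT : T ⊆ blocks X)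
    (hT' : T' ⊆ blocks Y) (hTc : Closed T) (hTc' : Closed T') {x : Pts m k} (hx : OnP X x) :
    ∑ f ∈ γ.support.filter (fun f => Bij f T T'),
      (γ f * ((∏ j with fib T' j ≠ ∅, (f j).sgn (fib T' j) : ℤ) : ℚ)) •
        eP Y T' (f.base x) = 0 := by
  classical
  by_cases hex : ∃ f : Mor X Y, Bij f T T'
  swap
  · rw [Finset.filter_false_of_mem, Finset.sum_empty]
    intro f _ hf
    exact hex ⟨f, hf⟩
  obtain ⟨f₀, hf₀⟩ := hex
  -- the enumerations
  set I : Finset (Fin m) := Finset.univ.filter fun i => fib T i ≠ ∅ with hIdef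
  set J : Finset (Fin m') := Finset.univ.filter fun j => fib T' j ≠ ∅ with hJdef
  have hmI : ∀ i, i ∈ I ↔ fib T i ≠ ∅ := fun i => by simp [hIdef]
  have hmJ : ∀ j, j ∈ J ↔ fib T' j ≠ ∅ := fun j => by simp [hJdef]
  have hcard : J.card = I.card := by
    refine Finset.card_bij (fun j hj => (hf₀.1 j ((hmJ j).1 hj)).choose) ?_ ?_ ?_
    · intro j hj
      rw [hmI, (hf₀.1 j ((hmJ j).1 hj)).choose_spec.2]
      exact (hmJ j).1 hj
    · intro j hj j' hj' hjj
      have e1 := (hf₀.1 j ((hmJ j).1 hj)).choose_spec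
      have e2 := (hf₀.1 j' ((hmJ j').1 hj')).choose_spec
      obtain ⟨j₁, -, h3⟩ := hf₀.2 _ (e1.2 ▸ (hmJ j).1 hj)
      rw [h3 j ⟨(hmJ j).1 hj, e1.1⟩, h3 j' ⟨(hmJ j').1 hj', hjj ▸ e2.1⟩]
    · intro i hi
      obtain ⟨j, ⟨h3, h4⟩, -⟩ := hf₀.2 i ((hmI i).1 hi)
      refine ⟨j, (hmJ j).2 h3, ?_⟩
      have e1 := (hf₀.1 j h3).choose_spec.1
      exact Option.some.inj (e1.symm.trans h4)
  obtain ⟨l, hl⟩ : ∃ l, I.card = l := ⟨_, rfl⟩
  have hlJ : J.card = l := hcard.trans hl
  set oI := I.orderEmbOfFin hl with hoIdef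
  set oJ := J.orderEmbOfFin hlJ with hoJdef
  have hI1 : ∀ a, fib T (oI a) ≠ ∅ := fun a => (hmI _).1 (I.orderEmbOfFin_mem hl a)
  have hJ1 : ∀ a, fib T' (oJ a) ≠ ∅ := fun a => (hmJ _).1 (J.orderEmbOfFin_mem hlJ a)
  have hI2 : ∀ i, fib T i ≠ ∅ → ∃ a, oI a = i := by
    intro i hi
    have h3 : i ∈ Set.range oI := by
      rw [hoIdef, Finset.range_orderEmbOfFin]
      exact (hmI i).2 hi
    exact h3
  have hJ2 : ∀ j, fib T' j ≠ ∅ → ∃ a, oJ a = j := by
    intro j hj
    have h3 : j ∈ Set.range oJ := by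
      rw [hoJdef, Finset.range_orderEmbOfFin]
      exact (hmJ j).2 hj
    exact h3
  have hoI : StrictMono oI := oI.strictMono
  have hoJ : StrictMono oJ := oJ.strictMono
  -- the permutation of a morphism
  have hper0 : ∀ f : Mor X Y, ∃ τ : Equiv.Perm (Fin l), Bij f T T' →
      ∀ a, (f (oJ a)).src = some (oI (τ a)) := by
    intro f
    by_cases hf : Bij f T T'
    · obtain ⟨τ, hτ⟩ := gr_per hoJ.injective hI2 hJ1 hf
      exact ⟨τ, fun _ => hτ⟩
    · exact ⟨1, fun h => absurd h hf⟩
  choose per hper using hper0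
  -- the point with permuted factors
  set xt : Equiv.Perm (Fin l) → Pts m' k := fun τ j =>
    if h : ∃ a, oJ a = j then x (oI (τ h.choose)) else f₀.base x j with hxt
  have hxt1 : ∀ τ a, xt τ (oJ a) = x (oI (τ a)) := by
    intro τ a
    have h3 : ∃ b, oJ b = oJ a := ⟨a, rfl⟩
    rw [hxt]
    simp only
    rw [dif_pos h3, oJ.injective h3.choose_spec]
  have hxt2 : ∀ τ j, (¬ ∃ a, oJ a = j) → xt τ j = f₀.base x j := by
    intro τ j h3
    rw [hxt]
    simp only
    rw [dif_neg h3]
  set c : Fin l → WC k × Finset (Option ℕ) := fun a => (X (oI a), fib T (oI a)) with hc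
  set c' : Fin l → WC k × Finset (Option ℕ) := fun a => (Y (oJ a), fib T' (oJ a)) with hc'
  set n : Fin l → ℕ := fun a => cnt Y T' (oJ a) + 1 with hn
  have hcomp : ∀ f : Mor X Y, Bij f T T' → ∀ a, c (per f a) = c' a := by
    intro f hf a
    have h3 := hper f hf a
    obtain ⟨i, h4, h5⟩ := hf.1 (oJ a) (hJ1 a)
    rw [h3, Option.some.injEq] at h4
    subst h4
    exact Prod.ext (gr_src h3).1 h5
  have hxtP : ∀ τ : Equiv.Perm (Fin l), (∀ a, c (τ a) = c' a) → OnP Y (xt τ) := by
    intro τ hτ j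
    by_cases hj : ∃ a, oJ a = j
    · obtain ⟨a, rfl⟩ := hj
      rw [hxt1]
      have h3 : X (oI (τ a)) = Y (oJ a) := congrArg Prod.fst (hτ a)
      rw [← h3]
      exact hx _
    · rw [hxt2 τ j hj]
      exact gr_base hx j
  have hbase : ∀ f : Mor X Y, Bij f T T' → eP Y T' (f.base x) = eP Y T' (xt (per f)) := by
    intro f hf
    refine eP_congr (gr_base hx) (hxtP _ (hcomp f hf)) fun j hj => ?_
    have hj' : fib T' j ≠ ∅ := by
      intro h3
      have h4 := mem_fib.2 hj
      rw [h3] at h4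
      exact absurd h4 (Finset.notMem_empty _)
    obtain ⟨a, rfl⟩ := hJ2 j hj'
    rw [hxt1]
    exact (gr_src (hper f hf a)).2 x
  set F : Mor X Y → ℚ := fun f =>
    γ f * (((koszul f T' * ∏ j with fib T' j ≠ ∅, (f j).sgn (fib T' j) : ℤ)) : ℚ) with hF
  set β : Equiv.Perm (Fin l) → ℚ := fun τ =>
    ∑ f ∈ γ.support, if Bij f T T' ∧ per f = τ then F f else 0 with hβdef
  set g : Equiv.Perm (Fin l) → VP Y := fun τ => ((kos n τ : ℤ) : ℚ) • eP Y T' (xt τ) with hg
  have hkos : ∀ f : Mor X Y, Bij f T T' → koszul f T' = kos n (per f) := by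
    intro f hf
    exact gr_koszul hoI hoJ hJ2 hJ1 (hper f hf)
  -- the conclusion of the second fundamental theorem
  have key : ∑ τ, β τ • g τ = 0 := by
    refine second_fundamental_col c c' gr_dim ?_ ?_ ?_
    · rintro τ hτ J₀ ⟨Z, S⟩ hJ₀ hJc
      have hne : J₀.Nonempty := by
        rw [← Finset.card_pos, hJc]
        exact Nat.succ_pos _
      obtain ⟨a₀, ha₀⟩ := hne
      have hcol : ∀ a ∈ J₀, Y (oJ a) = Z ∧ fib T' (oJ a) = S := by
        intro a ha
        have h3 := hJ₀ a ha
        exact ⟨congrArg Prod.fst h3, congrArg Prod.snd h3⟩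
      have hS0 : none ∈ S := by
        rw [← (hcol a₀ ha₀).2]
        exact hTc'.none_mem_fib (hJ1 a₀)
      have hcnt : ∀ a ∈ J₀, n a =
          (Finset.univ.filter fun i : Fin Z.N => some (Z.blk i : ℕ) ∈ S).card + 1 := by
        intro a ha
        rw [hn]
        simp only
        unfold cnt
        obtain ⟨h3, h4⟩ := hcol a ha
        subst h3
        congr 2
        ext i
        rw [Finset.mem_filter, Finset.mem_filter, ← h4, mem_fib]
      have halt := gr_alt hcore hG hT' (hxtP τ hτ) (J := J₀.map oJ.toEmbedding) (Z := Z) (F := S)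
        hS0 ⟨oJ.toEmbedding a₀, Finset.mem_map_of_mem _ ha₀⟩ (fun j _ => hQ j)
        (by
          intro j hj
          obtain ⟨a, ha, rfl⟩ := Finset.mem_map.1 hj
          exact (hcol a ha).1)
        (by
          intro j hj
          obtain ⟨a, ha, rfl⟩ := Finset.mem_map.1 hj
          exact (hcol a ha).2) (by rw [Finset.card_map, hJc])
      rw [← gr_fixing_sum oJ.toEmbedding J₀ (fun π =>
        (((Equiv.Perm.sign π : ℤ) : ℚ) ^
          (Finset.univ.filter fun i : Fin Z.N => some (Z.blk i : ℕ) ∈ S).card) •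
            eP Y T' (xt (τ * π)))] at halt
      · have h3 : ∀ π ∈ fixing J₀, ((Equiv.Perm.sign π : ℤ) : ℚ) • g (τ * π) =
            ((kos n τ : ℤ) : ℚ) • ((((Equiv.Perm.sign π : ℤ) : ℚ) ^
              (Finset.univ.filter fun i : Fin Z.N => some (Z.blk i : ℕ) ∈ S).card) •
                eP Y T' (xt (τ * π))) := by
          intro π hπ
          rw [hg]
          simp only
          rw [kos_mul n τ hcnt hπ, smul_smul, smul_smul]
          congr 1
          push_cast
          have h4 : ((Equiv.Perm.sign π : ℤ) : ℚ) * ((Equiv.Perm.sign π : ℤ) : ℚ) = 1 := by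
            rw [← Int.cast_mul, ← Units.val_mul, Int.units_mul_self]
            simp
          rw [pow_succ]
          linear_combination (((Equiv.Perm.sign π : ℤ) : ℚ) ^
            (Finset.univ.filter fun i : Fin Z.N => some (Z.blk i : ℕ) ∈ S).card) *
              ((kos n τ : ℤ) : ℚ) * h4
        rw [Finset.sum_congr rfl h3, ← Finset.smul_sum, halt, smul_zero]
      · intro π _
        rw [gr_sign]
        congr 2
        funext j
        by_cases hj : ∃ a, oJ a = j
        · obtain ⟨a, rfl⟩ := hj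
          rw [hxt1]
          show _ = xt τ ((π.viaEmbedding oJ.toEmbedding) (oJ.toEmbedding a))
          rw [Equiv.Perm.viaEmbedding_apply]
          exact (hxt1 τ (π a)).symm
        · rw [hxt2 _ j hj]
          show _ = xt τ ((π.viaEmbedding oJ.toEmbedding) j)
          rw [Equiv.Perm.viaEmbedding_apply_of_notMem _ _ _ hj, hxt2 _ j hj]
    · intro τ hτ a
      rw [hβdef] at hτ
      simp only at hτ
      obtain ⟨f, -, hf⟩ := Finset.exists_ne_zero_of_sum_ne_zero hτ
      by_cases hc1 : Bij f T T' ∧ per f = τ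
      · rw [← hc1.2]
        exact hcomp f hc1.1 a
      · rw [if_neg hc1] at hf
        exact absurd rfl hf
    · intro w w' hw hw'
      set aa : Fin m → ℕ := fun i => if h : ∃ b, oI b = i then w h.choose else 0 with haa
      set bb : Fin m' → ℕ := fun j => if h : ∃ b, oJ b = j then w' h.choose else 0 with hbb
      have haa1 : ∀ b, aa (oI b) = w b := by
        intro b
        have h3 : ∃ b', oI b' = oI b := ⟨b, rfl⟩
        rw [haa]
        simp only
        rw [dif_pos h3, oI.injective h3.choose_spec]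
      have hbb1 : ∀ b, bb (oJ b) = w' b := by
        intro b
        have h3 : ∃ b', oJ b' = oJ b := ⟨b, rfl⟩
        rw [hbb]
        simp only
        rw [dif_pos h3, oJ.injective h3.choose_spec]
      have hformI : IsForm X T aa := by
        refine ⟨fun j b hb => ⟨some_mem_blocks.1 (hT hb), hTc j b hb⟩, fun j => ?_⟩
        by_cases hj : (j, none) ∈ T
        · rw [if_neg (not_not.2 hj)]
          have hj' : fib T j ≠ ∅ := fun h3 => by
            have h4 := mem_fib.2 hj
            rw [h3] at h4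
            exact absurd h4 (Finset.notMem_empty _)
          obtain ⟨b, rfl⟩ := hI2 j hj'
          rw [haa1]
          have h3 := hw b
          rw [hc] at h3
          simp only at h3
          by_cases h4 : fib T (oI b) = {none}
          · rw [if_pos h4]
            unfold gr_dim at h3
            simp only at h3
            rwa [if_pos h4] at h3
          · rw [if_neg h4]
            obtain ⟨n', hn1, hn2⟩ := gr_dim_spec (Z := X (oI b)) (mem_fib.2 hj) h4
              fun b' hb' => some_mem_blocks.1 (hT (mem_fib.1 hb'))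
            simp only [mem_fib] at hn2
            rw [← hn2]
            refine mul_le_mul_of_nonneg_left ?_ (by positivity)
            omega
        · rw [if_pos hj, haa]
          simp only
          rw [dif_neg]
          rintro ⟨b, rfl⟩
          exact hj (mem_fib.1 (hTc.none_mem_fib (hI1 b)))
      have hformJ : IsForm Y T' bb := by
        refine ⟨fun j b hb => ⟨some_mem_blocks.1 (hT' hb), hTc' j b hb⟩, fun j => ?_⟩
        by_cases hj : (j, none) ∈ T'
        · rw [if_neg (not_not.2 hj)]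
          have hj' : fib T' j ≠ ∅ := fun h3 => by
            have h4 := mem_fib.2 hj
            rw [h3] at h4
            exact absurd h4 (Finset.notMem_empty _)
          obtain ⟨b, rfl⟩ := hJ2 j hj'
          rw [hbb1]
          have h3 := hw' b
          rw [hc'] at h3
          simp only at h3
          by_cases h4 : fib T' (oJ b) = {none}
          · rw [if_pos h4]
            unfold gr_dim at h3
            simp only at h3
            rwa [if_pos h4] at h3
          · rw [if_neg h4]
            obtain ⟨n', hn1, hn2⟩ := gr_dim_spec (Z := Y (oJ b)) (mem_fib.2 hj) h4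
              fun b' hb' => some_mem_blocks.1 (hT' (mem_fib.1 hb'))
            simp only [mem_fib] at hn2
            rw [← hn2]
            refine mul_le_mul_of_nonneg_left ?_ (by positivity)
            omega
        · rw [if_pos hj, hbb]
          simp only
          rw [dif_neg]
          rintro ⟨b, rfl⟩
          exact hj (mem_fib.1 (hTc'.none_mem_fib (hJ1 b)))
      have hk := h aa bb hformI hformJ
      rw [Finsupp.sum] at hk
      rw [← hk, hβdef]
      simp only
      rw [Finset.sum_comm]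
      refine Finset.sum_congr rfl fun f _ => ?_
      have hcond : ((∀ j, fib T' j ≠ ∅ → ∃ i, (f j).src = some i ∧ fib T i = fib T' j ∧
          aa i = bb j) ∧ ∀ i, fib T i ≠ ∅ → ∃! j, fib T' j ≠ ∅ ∧ (f j).src = some i) ↔
          (Bij f T T' ∧ w ∘ ⇑(per f) = w') := by
        constructor
        · rintro ⟨h3, h4⟩
          have hB : Bij f T T' := by
            refine ⟨fun j hj => ?_, h4⟩
            obtain ⟨i, h5, h6, -⟩ := h3 j hj
            exact ⟨i, h5, h6⟩
          refine ⟨hB, ?_⟩
          funext b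
          obtain ⟨i, h5, h6, h7⟩ := h3 (oJ b) (hJ1 b)
          rw [hper f hB b, Option.some.injEq] at h5
          rw [← h5, haa1, hbb1] at h7
          exact h7
        · rintro ⟨hB, h3⟩
          refine ⟨fun j hj => ?_, hB.2⟩
          obtain ⟨i, h5, h6⟩ := hB.1 j hj
          refine ⟨i, h5, h6, ?_⟩
          obtain ⟨b, rfl⟩ := hJ2 j hj
          rw [hper f hB b, Option.some.injEq] at h5
          rw [← h5, haa1, hbb1]
          exact congrFun h3 b
      unfold pullCoef
      by_cases hB : Bij f T T' ∧ w ∘ ⇑(per f) = w'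
      · rw [if_pos (hcond.2 hB)]
        rw [Finset.sum_eq_single (per f)]
        · rw [if_pos ⟨hB.1, rfl⟩]
        · intro τ _ hτ
          rw [if_neg fun h => hτ h.2.symm]
        · intro hcon
          exfalso
          apply hcon
          simp only [Finset.mem_filter, Finset.mem_univ, true_and]
          exact hB.2
      · rw [if_neg fun h => hB (hcond.1 h), Int.cast_zero, mul_zero]
        refine Finset.sum_eq_zero fun τ hτ => ?_
        rw [if_neg]
        rintro ⟨h3, rfl⟩
        exact hB ⟨h3, by simpa using hτ⟩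
  rw [← key, hβdef]
  simp only [Finset.sum_smul]
  rw [Finset.sum_comm, Finset.sum_filter]
  refine Finset.sum_congr rfl fun f _ => ?_
  by_cases hB : Bij f T T'
  · rw [if_pos hB, Finset.sum_eq_single (per f)]
    · rw [if_pos ⟨hB, rfl⟩, hbase f hB, hg, hF]
      simp only
      rw [smul_smul, hkos f hB]
      congr 1
      have h3 : ((kos n (per f) : ℤ) : ℚ) * ((kos n (per f) : ℤ) : ℚ) = 1 := by
        rw [← Int.cast_mul, kos_sq, Int.cast_one]
      push_cast
      linear_combination -(γ f * (∏ j with fib T' j ≠ ∅, (((f j).sgn (fib T' j) : ℤ) : ℚ))) * h3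
    · intro τ _ hτ
      rw [if_neg fun h => hτ h.2.symm, zero_smul]
    · intro hcon
      exact absurd (Finset.mem_univ _) hcon
  · rw [if_neg hB]
    symm
    refine Finset.sum_eq_zero fun τ _ => ?_
    rw [if_neg fun h => hB h.1, zero_smul]

open Classical in
/-- the case of a combination which is zero on the forms of degree `ν` -/
theorem graded (hcore : CoreQ k Q) (hG : CoreG k)
    (hQ : ∀ (j : Fin m') (S : Finset ℕ), Q ((Y j).sub S))
    {γ : Mor X Y →₀ ℚ} {ν : ℕ} (h : KillsForms γ ν)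
    {T : Finset (Fin m × Option ℕ)} {T' : Finset (Fin m' × Option ℕ)} (hT : T ⊆ blocks X)
    (hT' : T' ⊆ blocks Y) (hTc : Closed T) (hTc' : Closed T') (h1 : wt X T = ν)
    (h2 : wt Y T' = ν) {x : Pts m k} (hx : OnP X x) :
    ∑ f ∈ γ.support.filter (fun f => Bij f T T'),
      (γ f * ((∏ j with fib T' j ≠ ∅, (f j).sgn (fib T' j) : ℤ) : ℚ)) •
        eP Y T' (f.base x) = 0 :=
  graded_pair hcore hG hQ (fun a a' ha ha' => h T a T' a' ha ha' h1 h2) hT hT' hTc hTc' hx

end Pool.Agent.WFC
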