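import Pool.Agent.EFC.FPush
import Pool.Agent.WFC.FE
import Pool.Agent.WFC.FWeight
import Pool.Agent.WFC.FMapW

/-!
# The push-forward of the classes `eP`

Adapt `Pool/Agent/EFP/Push.lean`.
-/

set_option autoImplicit false

noncomputable section

namespace Pool.Agent.WFC

open Pool.Agent.EFC
open Pool.Agent.ZCyc
open Pool.Agent.VFP (Om tt)

variable {k : Type} [Field k] [IsAlgClosed k] [CharZero k] {m m' : ℕ} {X : Fin m → WC k}
  {Y : Fin m' → WC k}

/-- the push-forward of classes by a morphism -/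
def pushW (f : Mor X Y) : VP X →ₗ[ℚ] VP Y :=
  (ratEqW X).mapQ (ratEqW Y) (Finsupp.lmapDomain ℚ ℚ f.app) fun _ hz => mapDomain_ratEqW f hz

theorem pushW_clP (f : Mor X Y) (y : Pts m k) : pushW f (clP X y) = clP Y (f.app y) := by
  have h : pushW f (clP X y) =
      Submodule.Quotient.mk (Finsupp.mapDomain f.app (Finsupp.single y (1 : ℚ))) := rfl
  rw [h, Finsupp.mapDomain_single]
  rfl

open Classical in
/-- the pairs of `Y` which correspond to the projection `π_U` of `X` -/
private def pairsV (f : Mor X Y) (U : Finset (Fin m × Option ℕ)) : Finset (Fin m' × Option ℕ) :=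
  (blocks Y).filter fun p => ∀ i, (f p.1).src = some i → (i, p.2) ∈ U

omit [IsAlgClosed k] [CharZero k] in
private theorem mem_pairsV {f : Mor X Y} {U : Finset (Fin m × Option ℕ)} {j : Fin m'}
    {o : Option ℕ} : (j, o) ∈ pairsV f U ↔
      (j, o) ∈ blocks Y ∧ ∀ i, (f j).src = some i → (i, o) ∈ U := by
  classical
  unfold pairsV
  rw [Finset.mem_filter]

omit [IsAlgClosed k] [CharZero k] in
private theorem pt_mul_congr {Z : WC k} {ε ε' : ℕ → SignType} (h : ∀ b, b < Z.r → ε b = ε' b)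
    (w : Pt k) (hw : w.1 = Z) : w.mul ε = w.mul ε' := by
  subst hw
  obtain ⟨Z, w⟩ := w
  show (⟨Z, w.mul ε⟩ : Pt k) = ⟨Z, w.mul ε'⟩
  rw [crd_mul_congr h]

omit [IsAlgClosed k] [CharZero k] in
private theorem pt_mul_mul (ε ε' : ℕ → SignType) (w : Pt k) :
    (w.mul ε').mul ε = w.mul fun b => ε b * ε' b := by
  obtain ⟨Z, w⟩ := w
  show (⟨Z, (w.mul ε').mul ε⟩ : Pt k) = ⟨Z, w.mul fun b => ε b * ε' b⟩
  rw [crd_mul_mul]

omit [IsAlgClosed k] [CharZero k] in
private theorem pt_mul_one (w : Pt k) : w.mul (fun _ => 1) = w := by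
  obtain ⟨Z, w⟩ := w
  show (⟨Z, w.mul fun _ => 1⟩ : Pt k) = ⟨Z, w⟩
  rw [crd_mul_one]

omit [IsAlgClosed k] [CharZero k] in
private theorem app_proj (f : Mor X Y) (U : Finset (Fin m × Option ℕ)) {x : Pts m k}
    (hx : OnP X x) : f.app (proj U x) = proj (pairsV f U) (f.app x) := by
  classical
  funext j
  show (f j).app (proj U x) = if (j, none) ∈ pairsV f U then
    ((f j).app x).mul (fun b => if (j, some b) ∈ pairsV f U then 1 else 0)
    else ⟨((f j).app x).1, ((f j).app x).1.oo⟩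
  cases hf : f j with
  | const w hw =>
    have h1 : ∀ o, (j, o) ∈ pairsV f U ↔ (j, o) ∈ blocks Y := by
      intro o
      rw [mem_pairsV, hf]
      simp [Comp.src]
    rw [if_pos ((h1 none).2 (none_mem_blocks Y j))]
    show (⟨Y j, w⟩ : Pt k) = Pt.mul _ ⟨Y j, w⟩
    rw [pt_mul_congr (Z := Y j) (ε' := fun _ => 1) _ ⟨Y j, w⟩ rfl, pt_mul_one]
    intro b hb
    rw [if_pos ((h1 _).2 (some_mem_blocks.2 hb))]
  | fac i h ε =>
    have h1 : ∀ o, (j, o) ∈ pairsV f U ↔ (j, o) ∈ blocks Y ∧ (i, o) ∈ U := by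
      intro o
      rw [mem_pairsV, hf]
      simp [Comp.src]
    have hxi : (x i).1 = Y j := (hx i).1.trans h
    show ((proj U x) i).mul ε = if (j, none) ∈ pairsV f U then
      ((x i).mul ε).mul (fun b => if (j, some b) ∈ pairsV f U then 1 else 0)
      else ⟨((x i).mul ε).1, ((x i).mul ε).1.oo⟩
    by_cases hn : (i, none) ∈ U
    · rw [if_pos ((h1 none).2 ⟨none_mem_blocks Y j, hn⟩)]
      have e : (proj U x) i = (x i).mul (fun b => if (i, some b) ∈ U then 1 else 0) := by
        show (if (i, none) ∈ U then _ else _) = _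
        rw [if_pos hn]
      rw [e, pt_mul_mul, pt_mul_mul]
      refine pt_mul_congr (Z := Y j) (fun b hb => ?_) (x i) hxi
      have h2 : (j, some b) ∈ pairsV f U ↔ (i, some b) ∈ U := by
        rw [h1]
        exact and_iff_right (some_mem_blocks.2 hb)
      simp only [h2]
      exact mul_comm _ _
    · rw [if_neg fun h2 => hn ((h1 none).1 h2).2]
      have e : (proj U x) i = ⟨(x i).1, (x i).1.oo⟩ := by
        show (if (i, none) ∈ U then _ else _) = _
        rw [if_neg hn]
      rw [e]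
      show (⟨(x i).1, ((x i).1.oo).mul ε⟩ : Pt k) = ⟨(x i).1, (x i).1.oo⟩
      rw [oo_mul]

omit [IsAlgClosed k] [CharZero k] in
private theorem subset_pairsV (f : Mor X Y) (U : Finset (Fin m × Option ℕ))
    {T' : Finset (Fin m' × Option ℕ)} (hT' : T' ⊆ blocks Y) :
    T' ⊆ pairsV f U ↔ srcT f T' ⊆ U := by
  constructor
  · intro h p hp
    obtain ⟨j, hj, hs⟩ := mem_srcT.1 hp
    exact (mem_pairsV.1 (h hj)).2 p.1 hs
  · rintro h ⟨j, o⟩ hp
    exact mem_pairsV.2 ⟨hT' hp, fun i hi => h (mem_srcT.2 ⟨j, hp, hi⟩)⟩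

omit [IsAlgClosed k] [CharZero k] in
open Classical in
/-- the class of the image of `π_U x` -/
private theorem eP_app_proj (f : Mor X Y) {T' : Finset (Fin m' × Option ℕ)} (hT' : T' ⊆ blocks Y)
    {x : Pts m k} (hx : OnP X x) (U : Finset (Fin m × Option ℕ)) :
    eP Y T' (f.app (proj U x)) = (if srcT f T' ⊆ U then (1 : ℚ) else 0) • eP Y T' (f.app x) := by
  rw [app_proj f U hx, eP_proj]
  by_cases h : srcT f T' ⊆ U
  · rw [if_pos h, if_pos ((subset_pairsV f U hT').2 h), one_smul]
  · rw [if_neg h, if_neg fun h2 => h ((subset_pairsV f U hT').1 h2), zero_smul]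

private theorem incl_excl {α : Type*} [DecidableEq α] (V T : Finset α) (hV : V ⊆ T) :
    ∑ U ∈ T.powerset, (-1 : ℚ) ^ (T \ U).card * (if V ⊆ U then (1 : ℚ) else 0) =
      if V = T then 1 else 0 := by
  have h := Finset.prod_add (fun _ : α => (1 : ℚ)) (fun p => if p ∈ V then 0 else -1) T
  have h1 : ∏ p ∈ T, ((1 : ℚ) + if p ∈ V then 0 else -1) = if V = T then 1 else 0 := by
    split_ifs with h2
    · subst h2
      refine Finset.prod_eq_one fun p hp => ?_
      rw [if_pos hp, add_zero]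
    · obtain ⟨p, hp, hp'⟩ := Finset.exists_of_ssubset (lt_of_le_of_ne hV h2)
      refine Finset.prod_eq_zero hp ?_
      rw [if_neg hp']
      norm_num
  rw [← h1, h]
  refine Finset.sum_congr rfl fun U hU => ?_
  rw [Finset.prod_const_one, one_mul]
  split_ifs with h2
  · rw [mul_one, Finset.card_eq_sum_ones, ← Finset.prod_pow_eq_pow_sum]
    refine Finset.prod_congr rfl fun p hp => ?_
    rw [if_neg, pow_one]
    intro h3
    exact (Finset.mem_sdiff.1 hp).2 (h2 h3)
  · rw [mul_zero, eq_comm]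
    rw [Finset.not_subset] at h2
    obtain ⟨p, hp, hp'⟩ := h2
    exact Finset.prod_eq_zero (Finset.mem_sdiff.2 ⟨hV hp, hp'⟩) (if_pos hp)

private theorem incl_excl' {α : Type*} [DecidableEq α] (V T : Finset α) :
    ∑ U ∈ T.powerset, (-1 : ℚ) ^ (T \ U).card * (if V ⊆ U then (1 : ℚ) else 0) =
      if V = T then 1 else 0 := by
  by_cases hV : V ⊆ T
  · exact incl_excl V T hV
  · rw [if_neg fun h => hV h.subset]
    refine Finset.sum_eq_zero fun U hU => ?_
    rw [if_neg, mul_zero]
    intro h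
    exact hV (h.trans (Finset.mem_powerset.1 hU))

open Classical in
/-- `f_* [π_U x] = ∑ T' ⊆ blocks Y, eP Y T' (f (π_U x))` by `clP_eq_sum`. By `eP_congr` and `eP_proj`
we have `eP Y T' (f (π_U x)) = eP Y T' (f x)` if `srcT f T' ⊆ U`, and `0` otherwise: `f (π_U x)` is
equal to `π_V (f x)`, where `V` is the set of the pairs `(j, o)` of `blocks Y` such that `f j` is
constant or `(f j).src = some i`, `(i, o) ∈ U` (the multiplications commute with the projections,
`oo_mul`); `T' ⊆ V` if and only if `srcT f T' ⊆ U`. Now sum over `U ⊆ T` with the signs: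
`∑ U, V ⊆ U ⊆ T, (-1) ^ |T \ U|` is `1` if `V = T` and `0` otherwise. -/
theorem pushW_eP (f : Mor X Y) {T : Finset (Fin m × Option ℕ)} {x : Pts m k}
    (hx : OnP X x) : pushW f (eP X T x) =
      ∑ T' ∈ (blocks Y).powerset with Closed T' ∧ srcT f T' = T, eP Y T' (f.app x) := by
  have h1 : ∀ U ∈ T.powerset, pushW f (((-1 : ℚ) ^ (T \ U).card) • clP X (proj U x)) =
      ∑ T' ∈ (blocks Y).powerset with Closed T', ((-1 : ℚ) ^ (T \ U).card *
        (if srcT f T' ⊆ U then (1 : ℚ) else 0)) • eP Y T' (f.app x) := by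
    intro U _
    rw [map_smul, pushW_clP, clP_eq_sum (f.onP (onP_proj hx U)), Finset.smul_sum]
    refine Finset.sum_congr rfl fun T' hT' => ?_
    rw [eP_app_proj f (Finset.mem_powerset.1 (Finset.mem_filter.1 hT').1) hx, smul_smul]
  have h2 : eP X T x = ∑ U ∈ T.powerset, ((-1 : ℚ) ^ (T \ U).card) • clP X (proj U x) := by
    unfold eP
    refine Finset.sum_congr rfl fun U _ => ?_
    congr
  have h3 : ((blocks Y).powerset.filter fun T' => Closed T' ∧ srcT f T' = T) =
      ((blocks Y).powerset.filter fun T' => Closed T').filter fun T' => srcT f T' = T := by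
    rw [Finset.filter_filter]
  rw [h2, map_sum, Finset.sum_congr rfl h1, Finset.sum_comm, h3,
    Finset.sum_filter (fun T' => srcT f T' = T) fun T' => eP Y T' (f.app x)]
  refine Finset.sum_congr rfl fun T' _ => ?_
  rw [← Finset.sum_smul, incl_excl']
  split_ifs
  · rw [one_smul]
  · rw [zero_smul]

end Pool.Agent.WFC
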