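import Pool.Agent.WFC.Act
import Pool.Agent.Dess.Dede

/-!
# The fixed field of a finite group of automorphisms

`L` is the function field of a curve, `G` a finite group of automorphisms of `L` over `k`, and
`K = IntermediateField.fixedField G`. (The underlying subfield is `FixedPoints.subfield G L`; Mathlib has
Artin's theorem for it: `FixedPoints.finrank_eq_card`, `IsGalois.of_fixed_field`,
`FixedPoints.toAlgAut_surjective`.)
-/

set_option autoImplicit false

noncomputable section

namespace Pool.Agent.WFC

open Pool.Agent.EFC
open Pool.Agent.ZCyc

variable {k L : Type} [Field k] [Field L] [Algebra k L] (G : Subgroup (L ≃ₐ[k] L)) [Finite G]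

theorem mem_fix_iff (f : L) : f ∈ IntermediateField.fixedField G ↔ ∀ g : G, g.1 f = f := by
  rw [IntermediateField.mem_fixedField_iff]
  exact ⟨fun h g => h g.1 g.2, fun h g hg => h ⟨g, hg⟩⟩

/-- Artin -/
theorem fix_finite : FiniteDimensional (IntermediateField.fixedField G) L :=
  inferInstanceAs (FiniteDimensional (FixedPoints.subfield G L) L)

/-- Artin -/
theorem fix_galois : IsGalois (IntermediateField.fixedField G) L :=
  IsGalois.of_fixed_field L G

/-- Artin -/
theorem fix_finrank : Module.finrank (IntermediateField.fixedField G) L = Nat.card G := by
  have := Fintype.ofFinite G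
  rw [Nat.card_eq_fintype_card]
  exact FixedPoints.finrank_eq_card G L

/-- the group of the automorphisms of `L` over the fixed field is `G` -/
theorem mem_of_fix {g : L ≃ₐ[k] L} (h : ∀ f ∈ IntermediateField.fixedField G, g f = f) : g ∈ G := by
  obtain ⟨g', hg'⟩ := FixedPoints.toAlgAut_surjective G L
    (AlgEquiv.ofRingEquiv (f := g.toRingEquiv) (fun r => h r.1 r.2) :
      L ≃ₐ[FixedPoints.subfield G L] L)
  have h1 : g'.1 = g := by
    ext x
    have h2 := DFunLike.congr_fun hg' x
    exact h2
  rw [← h1]
  exact g'.2

/-- The fixed field is the function field of a curve: let `t` be transcendental with `L` finite over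
`k(t)`. Some coefficient `s` of the polynomial `∏ g, (X - g t)` is transcendental over `k` (otherwise `t`
would be algebraic over `k`; here `k` is algebraically closed), and `s ∈ K`. `L` is finite over `k(s)`
(`L` has transcendence degree one: see the lemmas on `IntermediateField.adjoin k {s}` in
`Pool/Agent/Dess`, for example `Dess.fin_adjoin`, which says that `L` is finite over `k(s)` for all
transcendental `s`). So `K` is finite over `k(s)`. -/
theorem fix_curve [IsAlgClosed k] [CharZero k] (hL : IsCurve k L) :
    IsCurve k (IntermediateField.fixedField G) := by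
  obtain ⟨t, ht, htf⟩ := hL
  have hfin := fix_finite G
  obtain ⟨s, hs⟩ : ∃ s : IntermediateField.fixedField G, Transcendental k s := by
    by_contra hcon
    have h1 : Algebra.IsAlgebraic k (IntermediateField.fixedField G) := by
      refine ⟨fun x => ?_⟩
      by_contra hx
      exact hcon ⟨x, hx⟩
    have h2 : Algebra.IsAlgebraic k L :=
      Algebra.IsAlgebraic.trans k (IntermediateField.fixedField G) L
    exact ht (h2.isAlgebraic t)
  have hs' : Transcendental k (s : L) := by
    intro h
    exact hs ((isAlgebraic_algebraMap_iff
      (algebraMap (IntermediateField.fixedField G) L).injective).1 h)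
  refine ⟨s, hs, ?_⟩
  have h3 : FiniteDimensional (IntermediateField.adjoin k {(s : L)}) L :=
    Dess.fin_adjoin ⟨t, ht, htf⟩ hs'
  have h4 : IntermediateField.lift (IntermediateField.adjoin k {s}) =
      IntermediateField.adjoin k {(s : L)} := IntermediateField.lift_adjoin_simple k _ s
  rw [← h4] at h3
  have h5 : Module.Finite (IntermediateField.adjoin k {s}) L := by
    refine Module.Finite.of_equiv_equiv (A₁ := IntermediateField.lift
      (IntermediateField.adjoin k {s})) (B₁ := L)
      (IntermediateField.liftAlgEquiv (IntermediateField.adjoin k {s})).symm.toRingEquiv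
      (RingEquiv.refl L) ?_
    exact RingHom.ext fun x => rfl
  exact Module.Finite.of_injective
    ((IsScalarTower.toAlgHom (IntermediateField.adjoin k {s})
      (IntermediateField.fixedField G) L).toLinearMap)
    (algebraMap (IntermediateField.fixedField G) L).injective

end Pool.Agent.WFC
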