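import Pool.Agent.WFC.FDefs
import Pool.Agent.WFC.ActCl
import Pool.Agent.WFC.Gal
import Pool.Agent.EFC.FinI
import Pool.Agent.EFC.FSubD
import Pool.Agent.EFC.Util

/-!
# The core theorem for trivial groups
-/

set_option autoImplicit false

noncomputable section

namespace Pool.Agent.WFC

open Pool.Agent.EFC
open Pool.Agent.ZCyc Pool.Agent.TInf
open Pool.Agent.VFP (Om tt)

variable {k : Type} [Field k] [IsAlgClosed k] [CharZero k]

section genus

omit [IsAlgClosed k] [CharZero k] in
private theorem triv_curve {L L' : Type} [Field L] [Algebra k L] [Field L'] [Algebra k L']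
    (hL : IsCurve k L) (e : L ≃ₐ[k] L') : IsCurve k L' := by
  obtain ⟨t, ht, hf⟩ := hL
  refine ⟨e t, fun h => ht ((isAlgebraic_algHom_iff e.toAlgHom e.injective).1 h), ?_⟩
  have h1 : (IntermediateField.adjoin k {t}).map e.toAlgHom =
      IntermediateField.adjoin k {e t} := by
    rw [IntermediateField.adjoin_map, Set.image_singleton]
    rfl
  rw [← h1]
  exact Module.Finite.of_equiv_equiv
    (IntermediateField.intermediateFieldMap e (IntermediateField.adjoin k {t})).toRingEquiv
    e.toRingEquiv (RingHom.ext fun x => rfl)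

omit [IsAlgClosed k] [CharZero k] in
private theorem triv_unif {L L' : Type} [Field L] [Algebra k L] [Field L'] [Algebra k L']
    (e : L ≃ₐ[k] L') {c : Place k L} {π : L'} (h : IsUnif (c.map e) π) :
    IsUnif c (e.symm π) := by
  obtain ⟨h0, h1, h2⟩ := h
  refine ⟨fun h3 => h0 ?_, (Place.vanishes_map c e π).1 h1, fun f hf => ?_⟩
  · rw [← e.apply_symm_apply π, h3, map_zero]
  · have h4 : (c.map e).Vanishes (e f) := by
      rw [Place.vanishes_map, e.symm_apply_apply]
      exact hf
    have h5 := (Place.mem_map c e _).1 (h2 _ h4)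
    rwa [map_div₀, e.symm_apply_apply] at h5

/-- the choice of the uniformizer does not matter -/
private theorem triv_mem_iff {L : Type} [Field L] [Algebra k L] (hL : IsCurve k L)
    {c : Place k L} {π : L} (h : IsUnif c π) (f : L) (n : ℤ) :
    f * π ^ n ∈ c.ring ↔ f * unif c ^ n ∈ c.ring := by
  rw [mem_unif_iff hL]
  by_cases hf : f = 0
  · subst hf
    rw [zero_mul]
    exact ⟨fun _ h => absurd rfl h, fun _ => c.ring.zero_mem⟩
  · have hu := zpow_ne_zero n h.1
    rw [TInc.mem_iff_ord hL.dess (mul_ne_zero hf hu), TInc.ord_mul hL.dess c hf hu,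
      TInc.ord_zpow hL.dess, TInc.ord_unif hL.dess h, mul_one]
    exact ⟨fun h _ => h, fun h => h hf⟩

/-- the bijection of the places -/
private def trivE {L L' : Type} [Field L] [Algebra k L] [Field L'] [Algebra k L']
    (e : L ≃ₐ[k] L') : Place k L' ≃ Place k L where
  toFun c := c.map e.symm
  invFun c := c.map e
  left_inv c := by
    show (c.map e.symm).map e = c
    rw [Place.map_map, AlgEquiv.symm_trans_self]
    exact Place.map_one c
  right_inv c := by
    show (c.map e).map e.symm = c
    rw [Place.map_map, AlgEquiv.self_trans_symm]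
    exact Place.map_one c

private theorem triv_le {L L' : Type} [Field L] [Algebra k L] [Field L'] [Algebra k L']
    (hL : IsCurve k L) (e : L ≃ₐ[k] L') (g : ℕ)
    (h : ∀ D : Place k L →₀ ℤ, deg D + 1 ≤ (Module.finrank k (sections D) : ℤ) + g)
    (D' : Place k L' →₀ ℤ) :
    deg D' + 1 ≤ (Module.finrank k (sections D') : ℤ) + g := by
  have hL' := triv_curve hL e
  let D : Place k L →₀ ℤ := D'.equivMapDomain (trivE e)
  have hD : ∀ c : Place k L, D c = D' (c.map e) := fun c => rfl
  have h1 : deg D = deg D' := by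
    show (Finsupp.equivMapDomain (trivE e) D').sum (fun _ n => n) = D'.sum fun _ n => n
    rw [Finsupp.equivMapDomain_eq_mapDomain, Finsupp.sum_mapDomain_index (fun _ => rfl)
      (fun _ _ _ => rfl)]
  have h2 : Module.finrank k (sections D) = Module.finrank k (sections D') := by
    have h3 : (sections D).map (e.toLinearEquiv : L →ₗ[k] L') = sections D' := by
      ext f
      have key : f ∈ sections D' ↔ e.symm f ∈ sections D := by
        show (∀ c : Place k L', f * unif c ^ D' c ∈ c.ring) ↔
          ∀ c : Place k L, e.symm f * unif c ^ D c ∈ c.ring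
        constructor
        · intro hf c
          have h5 := (Place.mem_map c e _).1 (hf (c.map e))
          rw [map_mul, map_zpow₀] at h5
          rw [← triv_mem_iff hL (triv_unif e (unif_spec hL' (c.map e))), hD]
          exact h5
        · intro hf c
          obtain ⟨c₀, rfl⟩ : ∃ c₀ : Place k L, c₀.map e = c :=
            ⟨c.map e.symm, (trivE e).symm_apply_apply c⟩
          have h5 := hf c₀
          rw [← triv_mem_iff hL (triv_unif e (unif_spec hL' (c₀.map e))), hD] at h5
          rw [Place.mem_map, map_mul, map_zpow₀]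
          exact h5
      rw [key, Submodule.mem_map]
      constructor
      · rintro ⟨x, hx, rfl⟩
        show e.symm (e x) ∈ sections D
        rw [e.symm_apply_apply]
        exact hx
      · intro hf
        exact ⟨e.symm f, hf, e.apply_symm_apply f⟩
    rw [← h3]
    exact ((e.toLinearEquiv.submoduleMap (sections D)).finrank_eq)
  rw [← h1, ← h2]
  exact h D

end genus

/-- The genus is invariant under isomorphisms (places, uniformizers up to units, spaces `L(D)` and
degrees correspond: `Place.map`; it suffices to show `≤`, and by symmetry that every `g` with the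
property in the definition of `genus k L'` has the property for `L`. The space `sections D` is
independent of the choice of the uniformizers: `EFC.sections_eq` and `TInc.ord`). -/
theorem genus_congr {L L' : Type} [Field L] [Algebra k L] [Field L'] [Algebra k L']
    (hL : IsCurve k L) (e : L ≃ₐ[k] L') : genus k L = genus k L' := by
  unfold genus
  congr 1
  ext g
  exact ⟨fun h => triv_le hL e g h, fun h => triv_le (triv_curve hL e) e.symm g h⟩

omit [IsAlgClosed k] [CharZero k] in
private theorem triv_card (X : WC k) (h : X.G = ⊥) (c : Place k X.L) :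
    Nat.card {g : X.G // c.map g.1 = c} ≤ 1 := by
  have hs : Subsingleton X.G := by
    rw [h]
    infer_instance
  exact Finite.card_le_one_iff_subsingleton.2 inferInstance

/-- The variety `X` with trivial group as a variety of the class `EC`: `X.ev`, and the stabilizers have
one element. -/
def toEC (X : WC k) (h : X.G = ⊥) : EC k where
  L := X.L
  curve := X.curve
  N := X.N
  r := X.r
  blk := X.blk
  D := X.D
  A := X.A
  B := X.B
  even b c := X.ev b c
  pos := X.pos
  regA := X.regA
  regB := X.regB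
  disc := X.disc
  canonical c a b hab := by
    refine (X.canonical c a b hab).trans_le ?_
    have h1 := triv_card X h c
    omega

section transfer

omit [IsAlgClosed k] [CharZero k]

variable (X : WC k) (h : X.G = ⊥)

/-- the points -/
private def trivT (w : EFC.Crd (toEC X h)) : Crd X := ⟨w.c, w.x, w.z, w.y⟩

/-- the points over `Om k` -/
private def trivTO (w : EFC.CrdO (toEC X h)) : CrdO X := ⟨w.s, w.x, w.z, w.y⟩

open Classical in
private def trivToO (w : EFC.PtO k) : EFC.CrdO (toEC X h) :=
  if e : w.1 = toEC X h then e ▸ w.2 else ⟨Sum.inr X.pt0, fun _ => 1, fun _ => 0, fun _ => 0⟩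

private theorem trivToO_mk (w : EFC.CrdO (toEC X h)) :
    trivToO X h ⟨toEC X h, w⟩ = w := dif_pos rfl

private theorem trivTo_mk (w : EFC.Crd (toEC X h)) :
    EFC.Pt.to (toEC X h) ⟨toEC X h, w⟩ = w := dif_pos rfl

private def trivF {n : ℕ} (x : EFC.Pts n k) : Pts n k := fun j =>
  ⟨X, trivT X h (EFC.Pt.to (toEC X h) (x j))⟩

private def trivG {n : ℕ} (P : Fin n → EFC.PtO k) : Fin n → PtO k := fun j =>
  ⟨X, trivTO X h (trivToO X h (P j))⟩

private theorem triv_sigma {n : ℕ} {x : EFC.Pts n k} (hx : EFC.OnP ((toEC X h).pow n) x)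
    (j : Fin n) : ∃ w : EFC.Crd (toEC X h), x j = ⟨toEC X h, w⟩ ∧ w.On := by
  obtain ⟨h1, h2⟩ := hx j
  revert h1 h2
  generalize x j = y
  obtain ⟨Z, w⟩ := y
  intro h1 h2
  have h3 : Z = toEC X h := h1
  subst h3
  exact ⟨w, rfl, h2⟩

private theorem triv_sigmaO {n : ℕ} {x : Fin n → EFC.PtO k}
    (hx : EFC.OnPO ((toEC X h).pow n) x)
    (j : Fin n) : ∃ w : EFC.CrdO (toEC X h), x j = ⟨toEC X h, w⟩ ∧ w.On := by
  obtain ⟨h1, h2⟩ := hx j
  revert h1 h2
  generalize x j = y
  obtain ⟨Z, w⟩ := y
  intro h1 h2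
  have h3 : Z = toEC X h := h1
  subst h3
  exact ⟨w, rfl, h2⟩

private theorem triv_onP {n : ℕ} {x : EFC.Pts n k} (hx : EFC.OnP ((toEC X h).pow n) x) :
    OnP (X.pow n) (trivF X h x) := by
  intro j
  obtain ⟨w, h1, h2⟩ := triv_sigma X h hx j
  refine ⟨rfl, ?_⟩
  show (trivT X h (EFC.Pt.to (toEC X h) (x j))).On
  rw [h1, trivTo_mk]
  exact h2

private theorem triv_onPO {n : ℕ} {x : Fin n → EFC.PtO k}
    (hx : EFC.OnPO ((toEC X h).pow n) x) : OnPO (X.pow n) (trivG X h x) := by
  intro j
  obtain ⟨w, h1, h2⟩ := triv_sigmaO X h hx j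
  refine ⟨rfl, ?_⟩
  show (trivTO X h (trivToO X h (x j))).On
  rw [h1, trivToO_mk]
  exact h2

private theorem triv_isVal {n : ℕ} {v : Place k (Om k)} {P : Fin n → EFC.PtO k}
    {p : EFC.Pts n k} (hP : EFC.OnPO ((toEC X h).pow n) P) {j : Fin n}
    (hv : EFC.IsVal v (P j) (p j)) : IsVal v (trivG X h P j) (trivF X h p j) := by
  obtain ⟨Z, P', p', h1, h2, h3⟩ := hv
  have h4 : Z = toEC X h := by
    have h5 := (hP j).1
    rw [h1] at h5
    exact h5
  subst h4
  refine ⟨X, trivTO X h P', trivT X h p', ?_, ?_, h3⟩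
  · show (⟨X, trivTO X h (trivToO X h (P j))⟩ : PtO k) = _
    rw [h1, trivToO_mk]
  · show (⟨X, trivT X h (EFC.Pt.to (toEC X h) (p j))⟩ : Pt k) = _
    rw [h2, trivTo_mk]

private theorem triv_map {n : ℕ} (g : Om k ≃ₐ[k] Om k) {P : Fin n → EFC.PtO k}
    (hP : EFC.OnPO ((toEC X h).pow n) P) (j : Fin n) :
    trivG X h (fun i => (P i).map g) j = (trivG X h P j).map g := by
  obtain ⟨w, h1, -⟩ := triv_sigmaO X h hP j
  show (⟨X, trivTO X h (trivToO X h ((P j).map g))⟩ : PtO k) =
    ⟨X, (trivTO X h (trivToO X h (P j))).map g⟩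
  rw [h1]
  have h2 : EFC.PtO.map g ⟨toEC X h, w⟩ = ⟨toEC X h, w.map g⟩ := rfl
  rw [h2, trivToO_mk, trivToO_mk]
  rfl

private theorem triv_le_comap (n : ℕ) : EFC.ratEqP ((toEC X h).pow n) ≤
    (ratEqW (X.pow n)).comap (Finsupp.lmapDomain ℚ ℚ (trivF X h (n := n))) := by
  conv_lhs => unfold EFC.ratEqP
  rw [Submodule.span_le]
  rintro z ⟨l, P, c, c', v, v', p, p', hP, hgal, hvc, hvc', hp, hp', rfl⟩
  refine Submodule.mem_sup_left (Submodule.subset_span ⟨l, fun a => trivG X h (P a), c, c', v, v',
    fun a => trivF X h (p a), fun a => trivF X h (p' a), fun a => triv_onPO X h (hP a),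
    fun g => ?_, hvc, hvc',
    fun a => ⟨triv_onP X h (hp a).1, fun i => triv_isVal X h (hP a) ((hp a).2 i)⟩,
    fun a => ⟨triv_onP X h (hp' a).1, fun i => triv_isVal X h (hP a) ((hp' a).2 i)⟩, ?_⟩)
  · obtain ⟨r, hr⟩ := hgal g
    refine ⟨r, fun a j => ?_⟩
    have h1 : P (r a) = fun i => (P a i).map (g.restrictScalars k) := funext fun i => hr a i
    show trivG X h (P (r a)) j = _
    rw [h1]
    exact triv_map X h _ (hP a) j
  · rw [map_sum]
    refine Finset.sum_congr rfl fun a _ => ?_
    rw [map_sub, Finsupp.lmapDomain_apply, Finsupp.lmapDomain_apply, Finsupp.mapDomain_single,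
      Finsupp.mapDomain_single]

private def trivPhi (n : ℕ) : EFC.VP ((toEC X h).pow n) →ₗ[ℚ] VP (X.pow n) :=
  Submodule.mapQ _ _ (Finsupp.lmapDomain ℚ ℚ (trivF X h (n := n))) (triv_le_comap X h n)

private theorem trivPhi_cl {n : ℕ} (x : EFC.Pts n k) :
    trivPhi X h n (EFC.clP ((toEC X h).pow n) x) = clP (X.pow n) (trivF X h x) := by
  unfold trivPhi EFC.clP clP
  rw [Submodule.mapQ_apply, Finsupp.lmapDomain_apply, Finsupp.mapDomain_single]

private theorem trivPhi_TN {n : ℕ} (w : Fin n → EFC.Crd (toEC X h)) :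
    trivPhi X h n ((toEC X h).TN w) = X.TN fun j => trivT X h (w j) := by
  unfold EFC.EC.TN WC.TN
  rw [map_sum]
  refine Finset.sum_congr rfl fun ε _ => ?_
  rw [map_smul, trivPhi_cl]
  have h1 : trivF X h ((toEC X h).tup fun j => (w j).sg (ε j)) =
      X.tup fun j => (trivT X h (w j)).sg (ε j) := by
    funext j
    show (⟨X, trivT X h (EFC.Pt.to (toEC X h) ⟨toEC X h, (w j).sg (ε j)⟩)⟩ : Pt k) =
      ⟨X, (trivT X h (w j)).sg (ε j)⟩
    rw [trivTo_mk]
    rfl
  rw [h1]
  rfl

private theorem trivPhi_AN {n : ℕ} (w : Fin n → EFC.Crd (toEC X h)) :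
    trivPhi X h n ((toEC X h).AN w) = X.AN fun j => trivT X h (w j) := by
  unfold EFC.EC.AN WC.AN
  rw [map_sum]
  refine Finset.sum_congr rfl fun τ _ => ?_
  rw [map_smul, trivPhi_TN]
  rfl

end transfer

/-- The core theorem for a trivial group, from `EFC.coreI` for `Y = toEC X h`. Points of `Y` and of `X` are
the same: the map `T : EFC.Crd Y → Crd X`, `⟨c, x, z, y⟩ ↦ ⟨c, x, z, y⟩` is a bijection which respects
`On`, `sg`, and over `Om k` also `IsValue` and `map` (all by `Iff.rfl` or `rfl`). Let `F : EFC.Pts n k → Pts n k`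
be the map which is `T` on all factors for points of `Y ^ n` (a default value for all others; compare
`Pt.to` in `EFC/FSubD.lean`, `WFC/FSubD.lean`). The push-forward by `F` maps `EFC.ratEqP (Y.pow n)` into
`ratEqP (X.pow n) ≤ ratEqW (X.pow n)`: it maps generators to generators (compare `fmap_push` in
`WFC/FMap.lean`). So there is a linear map from `EFC.VP (Y.pow n)` to `VP (X.pow n)` which maps the class
of `w` to the class of `T w`, and `Y.AN w` to `X.AN (T ∘ w)`. The numbers: `Nat.card X.G = 1`, and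
`X.K = fixedField ⊥ = ⊤` is isomorphic to `X.L` (`genus_congr`, `mem_fix_iff`). -/
theorem coreTriv (hg : ∀ (L : Type) [Field L] [Algebra k L] (hL : IsCurve k L),
    ∃ g, TInc.Riemann hL.dess g) (X : WC k) (h : X.G = ⊥) (hr : 0 < X.r) (n : ℕ)
    (hn : 2 * Nat.card X.G * (n : ℤ) =
      (∑ i, deg (X.D i)) + 2 * Nat.card X.G * genus k X.K)
    (w : Fin n → Crd X) (hw : ∀ j, (w j).On) : X.AN w = 0 := by
  have hcard : Nat.card X.G = 1 := by
    rw [h]
    exact Subgroup.card_bot
  have hK : X.K = ⊤ := by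
    rw [eq_top_iff]
    intro f _
    refine (mem_fix_iff X.G f).2 fun g => ?_
    have h1 : g.1 = 1 := by
      have h2 : g.1 ∈ (⊥ : Subgroup (X.L ≃ₐ[k] X.L)) := by
        rw [← h]
        exact g.2
      exact Subgroup.mem_bot.1 h2
    rw [h1]
    rfl
  have hgen : genus k X.K = genus k X.L := by
    rw [hK]
    exact (genus_congr X.curve (IntermediateField.topEquiv (F := k) (E := X.L)).symm).symm
  rw [hcard, hgen, Nat.cast_one, mul_one] at hn
  have key := EFC.coreI hg (toEC X h) trivial hr n hn
    (fun j => ⟨(w j).c, (w j).x, (w j).z, (w j).y⟩) (fun j => hw j)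
  have h2 := trivPhi_AN X h (n := n) fun j => ⟨(w j).c, (w j).x, (w j).z, (w j).y⟩
  rw [key, map_zero] at h2
  exact h2.symm

end Pool.Agent.WFC
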