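import Pool.Agent.WFC.SFinal
import Pool.Agent.WFC.Triv

/-!
# The core theorem for all varieties of the class
-/

set_option autoImplicit false

noncomputable section

namespace Pool.Agent.WFC

open Pool.Agent.EFC
open Pool.Agent.ZCyc

variable {k : Type} [Field k] [IsAlgClosed k] [CharZero k]

theorem coreW (hg : ∀ (L : Type) [Field L] [Algebra k L] (hL : IsCurve k L),
    ∃ g, TInc.Riemann hL.dess g) : CoreQ k fun _ => True := by
  intro X _ hr n hn w hw
  rcases X.mixed with h | h
  · exact coreC hg X h hr n hn w hw
  · exact coreTriv hg X h hr n hn w hw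

end Pool.Agent.WFC
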