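import Pool.Agent.WFC.GPl

/-!
# The stabilizers of the points
-/

set_option autoImplicit false

noncomputable section

namespace Pool.Agent.WFC

open Pool.Agent.EFC
open Pool.Agent.ZCyc

variable {k L : Type} [Field k] [IsAlgClosed k] [CharZero k] [Field L] [Algebra k L]
  (G : Subgroup (L ≃ₐ[k] L)) [Finite G]

@[instance_reducible] private def pact : MulAction G (Place k L) where
  smul g c := c.map g.1
  one_smul c := pmap_one c
  mul_smul g h c := (pmap_mul c g.1 h.1).symm

/-- the order of the stabilizer -/
def stb (c : Place k L) : ℕ := Nat.card {g : G // c.map g.1 = c}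

theorem stb_pos (c : Place k L) : 0 < stb G c :=
  haveI : Nonempty {g : G // c.map g.1 = c} := ⟨⟨1, pmap_one c⟩⟩
  Nat.card_pos

theorem stb_map (g : G) (c : Place k L) : stb G (c.map g.1) = stb G c := by
  refine Nat.card_congr
    { toFun := fun h => ⟨g⁻¹ * h.1 * g, ?_⟩
      invFun := fun h => ⟨g * h.1 * g⁻¹, ?_⟩
      left_inv := fun h => Subtype.ext (by group)
      right_inv := fun h => Subtype.ext (by group) }
  · have h1 : (c.map g.1).map h.1.1 = c.map g.1 := h.2
    change c.map ((g⁻¹).1 * h.1.1 * g.1) = c
    rw [← pmap_mul, ← pmap_mul, h1, pmap_mul]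
    change c.map ((g⁻¹ * g : G)).1 = c
    rw [inv_mul_cancel]
    exact pmap_one c
  · have h1 : c.map h.1.1 = c := h.2
    change (c.map g.1).map (g.1 * h.1.1 * (g⁻¹).1) = c.map g.1
    rw [pmap_mul]
    have h2 : g.1 * h.1.1 * (g⁻¹).1 * g.1 = g.1 * h.1.1 := by
      have h3 : (g⁻¹).1 * g.1 = 1 := congrArg Subtype.val (inv_mul_cancel g)
      rw [mul_assoc, h3, mul_one]
    rw [h2, ← pmap_mul, h1]

/-- the number of the points above a point (orbit and stabilizer, `exists_map_eq`, `below_map`) -/
theorem card_above (hL : IsCurve k L) (c : Place k L) :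
    Nat.card {c' : Place k L // below G c' = below G c} * stb G c = Nat.card G := by
  let _ := pact G (k := k) (L := L)
  have h1 := Nat.card_congr (MulAction.orbitProdStabilizerEquivGroup G c)
  rw [Nat.card_prod] at h1
  have h2 : Nat.card {c' : Place k L // below G c' = below G c} =
      Nat.card (MulAction.orbit G c) := by
    refine Nat.card_congr (Equiv.subtypeEquivRight fun c' => ?_)
    constructor
    · intro h
      exact exists_map_eq G hL h.symm
    · rintro ⟨g, rfl⟩
      exact below_map G g c
  have h3 : stb G c = Nat.card (MulAction.stabilizer G c) := rfl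
  rw [h2, h3]
  exact h1

end Pool.Agent.WFC
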