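import Pool.Agent.EFC.MovePoint
import Pool.Agent.WFC.Value
import Pool.Agent.EFC.MoveField

/-!
# Curves on the variety
-/

set_option autoImplicit false

noncomputable section

namespace Pool.Agent.WFC

open Pool.Agent.EFC
open Pool.Agent.ZCyc
open Pool.Agent.VFP (Om tt)

variable {k : Type} [Field k] {X : WC k} {F : Type} [Field F] [Algebra k F]

/-- the point over `Om k` of the curve with the function field `F` given by the coordinates `f i ∈ L`
and `Y b ∈ F`, for the embedding `σ` of `F` -/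
def mvP (ι : X.L →ₐ[k] F) (f : Fin X.N → X.L) (Y : Fin X.r → F) (σ : F →ₐ[k] Om k) : CrdO X where
  s := .inl (σ.comp ι)
  x i := σ (ι (f i))
  z _ := 1
  y b := σ (Y b)

theorem on_mvP {ι : X.L →ₐ[k] F} {f : Fin X.N → X.L} {Y : Fin X.r → F}
    (hY : ∀ b, Y b ^ 2 = ι (∏ i with X.blk i = b, (f i ^ 3 + X.A i * f i + X.B i)))
    (σ : F →ₐ[k] Om k) : (mvP ι f Y σ).On := by
  refine ⟨fun i => Or.inr one_ne_zero, fun b => ?_⟩
  show σ (Y b) ^ 2 = ∏ i with X.blk i = b, fac (σ (ι (X.A i))) (σ (ι (X.B i))) (σ (ι (f i))) 1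
  rw [← map_pow, hY b, map_prod, map_prod]
  refine Finset.prod_congr rfl fun i _ => ?_
  unfold fac
  simp only [map_add, map_mul, map_pow]
  ring

/-- transport of values along an embedding -/
private theorem mvp_transport {F₁ F₂ : Type} [Field F₁] [Algebra k F₁] [Field F₂] [Algebra k F₂]
    {γ : Place k F₁} {v : Place k F₂} {σ : F₁ →ₐ[k] F₂} (h : γ.ring = v.ring.comap σ.toRingHom)
    {u : F₁} {a : k} (hu : γ.At u a) : v.At (σ u) a := by
  unfold Place.At at hu ⊢
  rw [Place.vanishes_iff_or] at hu ⊢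
  have h3 : ∀ g : F₁, g ∈ γ.ring ↔ σ g ∈ v.ring := fun g => by
    rw [h]
    exact ValuationSubring.mem_comap
  rcases hu with hu | hu
  · left
    have := congrArg σ hu
    rw [map_sub, AlgHom.commutes, map_zero] at this
    exact this
  · right
    rw [h3, map_inv₀, map_sub, AlgHom.commutes] at hu
    exact hu

private theorem mvp_fac {K : Type*} [Field K] (A B f M π : K) (D : ℤ) :
    M ^ 4 * π ^ (3 * D) * (f ^ 3 + A * f + B) =
      fac (A * π ^ (2 * D)) (B * π ^ (3 * D)) (M * (f * π ^ D)) M := by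
  unfold fac
  have h2 : π ^ (2 * D) = (π ^ D) ^ 2 := by
    rw [zpow_mul']
    exact zpow_ofNat _ 2
  have h3 : π ^ (3 * D) = (π ^ D) ^ 3 := by
    rw [zpow_mul']
    exact zpow_ofNat _ 3
  rw [h2, h3]
  ring

private theorem mvp_at_fac {K : Type} [Field K] [Algebra k K] {v : Place k K} {A B x z : K}
    {a b x' z' : k} (hA : v.At A a) (hB : v.At B b) (hx : v.At x x') (hz : v.At z z') :
    v.At (fac A B x z) (fac a b x' z') :=
  hz.mul (((hx.pow 3).add ((hA.mul hx).mul (hz.pow 2))).add (hB.mul (hz.pow 3)))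

private theorem mvp_mem {K : Type} [Field K] [Algebra k K] {v : Place k K} {W : K}
    (h : W ^ 2 ∈ v.ring) : W ∈ v.ring := by
  rw [← ValuationSubring.valuation_le_one_iff, map_pow] at h
  rw [← ValuationSubring.valuation_le_one_iff]
  exact (pow_le_one_iff two_ne_zero).1 h

private theorem mvp_zpow {K : Type*} [Field K] {π : K} (hπ : π ≠ 0) {I : Type*} (s : Finset I)
    (D : I → ℤ) : ∏ i ∈ s, π ^ (3 * D i) = π ^ (3 * ∑ i ∈ s, D i) := by
  classical
  induction s using Finset.induction_on with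
  | empty => simp
  | insert a s ha ih =>
    rw [Finset.prod_insert ha, Finset.sum_insert ha, ih, mul_add, zpow_add₀ hπ]

/-- The value at the place `γ` of the function field `F`. Let `c` be the place of `L` below `γ`
(`exists_under`), `π = unif c`. Take `m i = 1 ∈ F` if `f_i π ^ (D_i c)` is in the local ring of `c`, and
`m i = ι (f_i π ^ (D_i c))⁻¹` otherwise; the values at `γ` of `m i ι (f_i π ^ (D_i c))`, `m i` and
`(∏ m i) ² ι π ^ (3 M_b) Y_b` (its square is integral at `γ`) are the coordinates of `p`. If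
`v.ring.comap σ = γ.ring` then `v.At (σ u) a` for all `u` with `γ.At u a`. -/
theorem exists_mv_value [IsAlgClosed k] [CharZero k] (hF : IsCurve k F) {ι : X.L →ₐ[k] F}
    {f : Fin X.N → X.L} {Y : Fin X.r → F}
    (hY : ∀ b, Y b ^ 2 = ι (∏ i with X.blk i = b, (f i ^ 3 + X.A i * f i + X.B i)))
    (γ : Place k F) : ∃ p : Crd X, p.On ∧ p.c.ring = γ.ring.comap ι.toRingHom ∧
      (∀ i, f i * unif p.c ^ X.D i p.c ∈ p.c.ring →
        p.z i = 1 ∧ p.x i = val p.c (f i * unif p.c ^ X.D i p.c)) ∧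
      ∀ (v : Place k (Om k)) (σ : F →ₐ[k] Om k), γ.ring = v.ring.comap σ.toRingHom →
        X.IsValue v (mvP ι f Y σ) p := by
  obtain ⟨c, hc⟩ := exists_under X.curve hF ι γ
  have hπ : unif c ≠ 0 := unif_ne X.curve c
  have h1 : ∀ i, ∃ (M : X.L) (x z : k), c.At (M * (f i * unif c ^ X.D i c)) x ∧ c.At M z ∧
      (x ≠ 0 ∨ z ≠ 0) ∧ (f i * unif c ^ X.D i c ∈ c.ring →
        z = 1 ∧ x = val c (f i * unif c ^ X.D i c)) := by
    intro i
    have hone : c.At (1 : X.L) 1 := by simpa using Place.at_const (v := c) (1 : k)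
    by_cases hi : f i * unif c ^ X.D i c ∈ c.ring
    · refine ⟨1, val c (f i * unif c ^ X.D i c), 1, ?_, hone, Or.inr one_ne_zero,
        fun _ => ⟨rfl, rfl⟩⟩
      rw [one_mul]
      exact at_val X.curve hi
    · have h0 : f i * unif c ^ X.D i c ≠ 0 := by
        intro h
        rw [h] at hi
        exact hi (zero_mem _)
      refine ⟨(f i * unif c ^ X.D i c)⁻¹, 1, 0, ?_, ?_, Or.inl one_ne_zero, fun h => absurd h hi⟩
      · rw [inv_mul_cancel₀ h0]
        exact hone
      · rw [Place.at_zero_iff, Place.vanishes_iff_or, inv_inv]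
        exact Or.inr hi
  choose M x z hMx hMz hne hval using h1
  have hfac : ∀ i, c.At (M i ^ 4 * unif c ^ (3 * X.D i c) * (f i ^ 3 + X.A i * f i + X.B i))
      (fac (X.coA c i) (X.coB c i) (x i) (z i)) := by
    intro i
    rw [mvp_fac]
    exact mvp_at_fac (at_val X.curve (X.regA i c)) (at_val X.curve (X.regB i c)) (hMx i) (hMz i)
  -- the elements whose values are the coordinates `y_b`
  set W : Fin X.r → F := fun b => (∏ i with X.blk i = b, ι (M i)) ^ 2 *
    ι (unif c) ^ (3 * ((∑ i with X.blk i = b, X.D i c) / 2)) * Y b with hW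
  have hW2 : ∀ b, W b ^ 2 = ι (∏ i with X.blk i = b,
      (M i ^ 4 * unif c ^ (3 * X.D i c) * (f i ^ 3 + X.A i * f i + X.B i))) := by
    intro b
    have h2 : (unif c ^ (3 * ((∑ i with X.blk i = b, X.D i c) / 2))) ^ 2 =
        unif c ^ (3 * ∑ i with X.blk i = b, X.D i c) := by
      rw [pow_two, ← zpow_add₀ hπ]
      congr 1
      obtain ⟨q, hq⟩ := X.ev b c
      rw [hq]
      omega
    rw [Finset.prod_mul_distrib, Finset.prod_mul_distrib, mvp_zpow hπ, ← h2, Finset.prod_pow]
    rw [map_mul, map_mul, ← hY b, map_pow, map_pow, map_zpow₀, map_prod]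
    show ((∏ i with X.blk i = b, ι (M i)) ^ 2 *
      ι (unif c) ^ (3 * ((∑ i with X.blk i = b, X.D i c) / 2)) * Y b) ^ 2 = _
    ring
  have hWat : ∀ b, γ.At (W b ^ 2) (∏ i with X.blk i = b,
      fac (X.coA c i) (X.coB c i) (x i) (z i)) := by
    intro b
    rw [hW2 b]
    exact mvp_transport hc (Place.At.prod fun i _ => hfac i)
  have hy : ∀ b, ∃ y : k, γ.At (W b) y := fun b =>
    Dess.exists_at hF.dess γ (mvp_mem (hWat b).mem)
  choose y hy using hy
  refine ⟨⟨c, x, z, y⟩, ⟨hne, fun b => ?_⟩, hc, hval, ?_⟩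
  · exact ((hy b).pow 2).unique (hWat b)
  · intro v σ hσ
    have hσι : c.ring = v.ring.comap (σ.comp ι).toRingHom := by
      rw [hc, hσ]
      rfl
    refine ⟨hσι, fun i => σ (ι (M i)), fun i => ?_, fun i => ?_, fun b => ?_⟩
    · have h2 := mvp_transport hσι (hMx i)
      have e : (σ.comp ι) (M i * (f i * unif c ^ X.D i c)) =
          σ (ι (M i)) * unifO (mvP ι f Y σ).s c ^ X.D i c * (mvP ι f Y σ).x i := by
        show σ (ι (M i * (f i * unif c ^ X.D i c))) =
          σ (ι (M i)) * σ (ι (unif c)) ^ X.D i c * σ (ι (f i))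
        rw [map_mul, map_mul, map_mul, map_mul, map_zpow₀, map_zpow₀]
        ring
      rw [e] at h2
      exact h2
    · have h2 := mvp_transport hσι (hMz i)
      show v.Vanishes (σ (ι (M i)) * 1 - algebraMap k (Om k) (z i))
      rw [mul_one]
      exact h2
    · have h2 := mvp_transport hσ (hy b)
      have e : σ (W b) = (∏ i with X.blk i = b, σ (ι (M i))) ^ 2 *
          unifO (mvP ι f Y σ).s c ^ (3 * ((∑ i with X.blk i = b, X.D i c) / 2)) *
            (mvP ι f Y σ).y b := by
        show σ ((∏ i with X.blk i = b, ι (M i)) ^ 2 *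
          ι (unif c) ^ (3 * ((∑ i with X.blk i = b, X.D i c) / 2)) * Y b) =
          (∏ i with X.blk i = b, σ (ι (M i))) ^ 2 *
          σ (ι (unif c)) ^ (3 * ((∑ i with X.blk i = b, X.D i c) / 2)) * σ (Y b)
        rw [map_mul, map_mul, map_pow, map_prod, map_zpow₀]
      rw [e] at h2
      exact h2

end Pool.Agent.WFC
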