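import Pool.Agent.EFC.Move
import Pool.Agent.WFC.MovePoint
import Pool.Agent.EFC.MoveSum
import Pool.Agent.WFC.Classes

/-!
# Moving one point
-/

set_option autoImplicit false

noncomputable section

namespace Pool.Agent.WFC

open Pool.Agent.EFC
open Pool.Agent.ZCyc
open Pool.Agent.VFP (Om tt)

variable {k : Type} [Field k] [IsAlgClosed k] [CharZero k] {X : WC k} {n : ℕ}

/-- One point of a tuple can be moved outside a finite set of places. Proof. If some `y_b` of `w j` is
zero then `X.AN w = 0` (`AN_y`). Otherwise all `z_i` are not zero (`y_eq_zero`), and we may assume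
`z_i = 1` (`AN_scale` with `m j' = 1` for `j' ≠ j`). Let `c = (w j).c`, `π = unif c`,
`f_i = algebraMap (x_i) * π ^ (-D_i c)`, `g_b = ∏ (f_i ³ + A_i f_i + B_i)`. `exists_sqrt_field` gives
`F`, `ι`, `Y`, `γ₀` above `c`. Let `Z'` be the union of `Z`, the places with `D_i ≠ 0`, and the places with
`f_i ∉ ring` (finite), `S` the set of the places of `F` above `Z'` (`finite_over`), `ψ` from
`exists_psi`. For all `γ` let `p γ` be the point of `exists_mv_value`, and put
`φ γ = X.AN (update w j (p γ))`. Apply `bridgeAN` to the finite set `E` of the embeddings `σ` with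
`σ ψ = tt k` (weights `1`), the points `mvP ι f Y σ` in the place `j` and the constant points
`(w j').cst` in the other places, `c₀ = 0`, `c₁ = 1`: by `sum_emb`
`∑ (c with ψ(c) = 0) ord ψ • φ c = ∑ (c with ψ(c) = 1) ord (ψ - 1) • φ c`. The coefficient of `φ γ₀` is `1`,
and `φ γ₀ = ± X.AN w`: `p γ₀` is over `c`, has the coordinates `z_i = 1`, `x_i` (`at_val`), so
`p γ₀ = (w j).sg ε` for some signs `ε` (both are points of `X`), and `AN_sg` applies. All other `γ` in
the sums are not in `S`, so that `(p γ).c ∉ Z` and `z_i = 1`. -/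
theorem AN_move (w : Fin n → Crd X) (hw : ∀ j, (w j).On) (j : Fin n)
    {Z : Set (Place k X.L)} (hZ : Z.Finite) :
    X.AN w ∈ Submodule.span ℚ {a | ∃ w' : Crd X, w'.On ∧ w'.c ∉ Z ∧ (∀ i, w'.z i ≠ 0) ∧
      a = X.AN (Function.update w j w')} := by
  classical
  by_cases hy : ∃ b, (w j).y b = 0
  · obtain ⟨b, hb⟩ := hy
    rw [AN_y hb]
    exact Submodule.zero_mem _
  push Not at hy
  have hz : ∀ i, (w j).z i ≠ 0 := fun i h => hy _ (y_eq_zero (hw j) h)
  -- normalisation of the coordinates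
  obtain ⟨u, hu⟩ : ∃ u, u = (w j).scale fun i => ((w j).z i)⁻¹ := ⟨_, rfl⟩
  have huz : ∀ i, u.z i = 1 := by
    intro i
    rw [hu]
    exact inv_mul_cancel₀ (hz i)
  have huOn : u.On := by
    rw [hu]
    exact on_scale (fun i => inv_ne_zero (hz i)) (hw j)
  have huc : u.c = (w j).c := by rw [hu]; rfl
  have hAN : X.AN w = X.AN (Function.update w j u) := by
    have h1 := AN_scale (X := X) (m := fun j' i => if j' = j then ((w j).z i)⁻¹ else 1)
      (fun j' i => by
        by_cases h : j' = j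
        · simp only [h, if_true]
          exact inv_ne_zero (hz i)
        · simp only [h, if_false]
          exact one_ne_zero) hw
    rw [← h1]
    congr 1
    funext j'
    by_cases h : j' = j
    · subst h
      rw [Function.update_self, hu]
      simp only [if_true]
    · rw [Function.update_of_ne h]
      simp only [h, if_false]
      refine Crd.ext rfl ?_ ?_ ?_
      · funext i
        exact one_mul _
      · funext i
        exact one_mul _
      · funext b
        change (∏ i with X.blk i = b, (1 : k)) ^ 2 * _ = _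
        rw [Finset.prod_const_one, one_pow, one_mul]
  -- the curve through the point
  obtain ⟨c, hc⟩ : ∃ c, c = u.c := ⟨_, rfl⟩
  obtain ⟨f, hf⟩ : ∃ f : Fin X.N → X.L,
      ∀ i, f i = algebraMap k X.L (u.x i) * unif c ^ (-X.D i c) := ⟨_, fun i => rfl⟩
  obtain ⟨F, _, _, ι, Y, γ₀, hF, hY, hγ₀⟩ := exists_sqrt_field X.curve
    (fun b => ∏ i with X.blk i = b, (f i ^ 3 + X.A i * f i + X.B i)) c
  choose T hT using fun i => exists_T_pole X.curve (f i)
  have hZ' : (Z ∪ ⋃ i, ({c' | X.D i c' ≠ 0} ∪ {c' | f i ∉ c'.ring})).Finite := by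
    refine hZ.union (Set.finite_iUnion fun i => Set.Finite.union ?_ ?_)
    · refine (X.D i).support.finite_toSet.subset fun c' hc' => ?_
      rw [Finset.mem_coe, Finsupp.mem_support_iff]
      exact hc'
    · refine (T i).finite_toSet.subset fun c' hc' => ?_
      rw [Finset.mem_coe, hT]
      exact hc'
  obtain ⟨Z', hZe⟩ : ∃ Z', Z' = Z ∪ ⋃ i, ({c' | X.D i c' ≠ 0} ∪ {c' | f i ∉ c'.ring}) := ⟨_, rfl⟩
  rw [← hZe] at hZ'
  have hZmem : ∀ c', c' ∉ Z' → c' ∉ Z ∧ ∀ i, X.D i c' = 0 ∧ f i ∈ c'.ring := by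
    intro c' hc'
    rw [hZe] at hc'
    refine ⟨fun h => hc' (Or.inl h), fun i => ⟨?_, ?_⟩⟩
    · by_contra h
      exact hc' (Or.inr (Set.mem_iUnion.2 ⟨i, Or.inl h⟩))
    · by_contra h
      exact hc' (Or.inr (Set.mem_iUnion.2 ⟨i, Or.inr h⟩))
  have hS := finite_over X.curve hF ι hZ'
  obtain ⟨ψ, hψ, hψ0, hψ1, hψS⟩ := exists_psi hF γ₀ hS
  choose p hpOn hpc hpz hpv using fun γ : Place k F => exists_mv_value hF hY γ
  obtain ⟨φ, hφ⟩ : ∃ φ : Place k F → VP (X.pow n),
      ∀ γ, φ γ = X.AN (Function.update w j (p γ)) := ⟨_, fun γ => rfl⟩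
  -- the points outside the finite set
  have hgood : ∀ γ, γ ≠ γ₀ → (¬ γ.At ψ 2) → φ γ ∈ Submodule.span ℚ {a | ∃ w' : Crd X, w'.On ∧
      w'.c ∉ Z ∧ (∀ i, w'.z i ≠ 0) ∧ a = X.AN (Function.update w j w')} := by
    intro γ hγ h2
    have h3 : (p γ).c ∉ Z' := by
      intro h4
      exact h2 (hψS γ ⟨(p γ).c, h4, hpc γ⟩ hγ)
    obtain ⟨h5, h6⟩ := hZmem _ h3
    refine Submodule.subset_span ⟨p γ, hpOn γ, h5, fun i => ?_, hφ γ⟩
    have h7 := (hpz γ i (by
      rw [(h6 i).1, zpow_zero, mul_one]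
      exact (h6 i).2)).1
    rw [h7]
    exact one_ne_zero
  -- the point itself
  have hpc₀ : (p γ₀).c = c := Place.ext (by rw [hpc, hγ₀])
  have hcoord : ∀ i, (p γ₀).z i = 1 ∧ (p γ₀).x i = u.x i := by
    intro i
    have h1 : f i * unif (p γ₀).c ^ X.D i (p γ₀).c = algebraMap k X.L (u.x i) := by
      rw [hpc₀, hf, mul_assoc, ← zpow_add₀ (unif_ne X.curve c), neg_add_cancel, zpow_zero,
        mul_one]
    obtain ⟨h2, h3⟩ := hpz γ₀ i (by rw [h1]; exact (p γ₀).c.const_mem _)
    refine ⟨h2, ?_⟩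
    rw [h3, h1]
    exact val_eq (Place.at_const _)
  obtain ⟨ε, hε⟩ : ∃ ε : Fin X.r → ℤˣ, p γ₀ = u.sg ε := by
    have hsq : ∀ b, (p γ₀).y b ^ 2 = u.y b ^ 2 := by
      intro b
      rw [(hpOn γ₀).2 b, huOn.2 b]
      refine Finset.prod_congr rfl fun i _ => ?_
      rw [(hcoord i).1, (hcoord i).2, huz, hpc₀, hc]
    refine ⟨fun b => if (p γ₀).y b = u.y b then 1 else -1, ?_⟩
    refine Crd.ext ?_ ?_ ?_ ?_
    · rw [hpc₀, hc]
      rfl
    · funext i
      exact (hcoord i).2
    · funext i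
      rw [(hcoord i).1]
      exact (huz i).symm
    · funext b
      change (p γ₀).y b = (((if (p γ₀).y b = u.y b then 1 else -1 : ℤˣ) : ℤ) : k) * u.y b
      by_cases h : (p γ₀).y b = u.y b
      · rw [if_pos h, h]
        simp
      · rw [if_neg h]
        rcases sq_eq_sq_iff_eq_or_eq_neg.1 (hsq b) with h1 | h1
        · exact absurd h1 h
        · rw [h1]
          simp
  have hφ₀ : φ γ₀ = sn ε • X.AN w := by
    have h1 := AN_sg (X := X) (Function.update w j u) j ε
    rw [Function.update_self, Function.update_idem, ← hAN, ← hε] at h1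
    rw [hφ, h1]
  -- the relation
  obtain ⟨E, hE⟩ := exists_E hF hψ (Pool.Agent.VFP.tt_transc : Transcendental k (tt k))
  obtain ⟨T₀, hT₀⟩ := exists_T hF hψ (0 : k)
  obtain ⟨T₁, hT₁⟩ := exists_T hF hψ (1 : k)
  have hfam : ∀ (a : k) (T : Finset (Place k F)), (∀ c, c ∈ T ↔ c.At ψ a) →
      ∀ v : Place k (Om k), v.At (tt k) a → ∃ C : {σ // σ ∈ E} → VP (X.pow n),
      (∀ i, VAN X v (Function.update (fun j' => (w j').cst) j (mvP ι f Y i.1)) (C i)) ∧
      ∑ i, (1 : ℚ) • C i = ∑ c ∈ T, (TInc.ord c (ψ - algebraMap k F a) : ℚ) • φ c := by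
    intro a T hT v hv
    choose γ hγ using fun σ : F →ₐ[k] Om k => TInc.exists_below hF v σ
    refine ⟨fun i => φ (γ i.1), fun i => ?_, ?_⟩
    · refine ⟨Function.update w j (p (γ i.1)), fun j' => ?_, fun j' => ?_, (hφ _).symm⟩
      · by_cases h : j' = j
        · subst h
          rw [Function.update_self]
          exact hpOn _
        · rw [Function.update_of_ne h]
          exact hw j'
      · by_cases h : j' = j
        · subst h
          rw [Function.update_self, Function.update_self]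
          exact hpv _ v i.1 (hγ i.1).symm
        · rw [Function.update_of_ne h, Function.update_of_ne h]
          exact isValue_cst v (w j')
    · simp only [one_smul]
      rw [Finset.sum_coe_sort E (fun σ => φ (γ σ))]
      exact sum_emb hF hψ (Pool.Agent.VFP.tt_transc : Transcendental k (tt k)) hv φ hE
        (fun σ _ => (hγ σ).symm) hT
  have hrel : ∑ c ∈ T₀, (TInc.ord c (ψ - algebraMap k F 0) : ℚ) • φ c =
      ∑ c ∈ T₁, (TInc.ord c (ψ - algebraMap k F 1) : ℚ) • φ c := by
    refine bridgeAN (X := X) (I := {σ // σ ∈ E}) (fun _ => 1)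
      (fun i => Function.update (fun j' => (w j').cst) j (mvP ι f Y i.1)) (fun i j' => ?_) 0 1 _ _
      (hfam 0 T₀ hT₀) (hfam 1 T₁ hT₁)
    by_cases h : j' = j
    · subst h
      rw [Function.update_self]
      exact on_mvP hY _
    · rw [Function.update_of_ne h]
      exact on_cst (hw j')
  have hat₀ : γ₀.At ψ 0 := by
    rw [Place.at_zero_iff]
    exact (TInc.vanishes_iff_ord hF.dess hψ0).2 (by rw [hψ1]; norm_num)
  have hmem₀ : γ₀ ∈ T₀ := (hT₀ γ₀).2 hat₀
  rw [← Finset.add_sum_erase _ _ hmem₀, map_zero, sub_zero, hψ1] at hrel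
  have hkey : φ γ₀ ∈ Submodule.span ℚ {a | ∃ w' : Crd X, w'.On ∧
      w'.c ∉ Z ∧ (∀ i, w'.z i ≠ 0) ∧ a = X.AN (Function.update w j w')} := by
    have h1 : φ γ₀ = ∑ c ∈ T₁, (TInc.ord c (ψ - algebraMap k F 1) : ℚ) • φ c -
        ∑ c ∈ T₀.erase γ₀, (TInc.ord c ψ : ℚ) • φ c := by
      rw [← hrel]
      simp
    rw [h1]
    refine Submodule.sub_mem _ (Submodule.sum_mem _ fun γ hγ => Submodule.smul_mem _ _ ?_)
      (Submodule.sum_mem _ fun γ hγ => Submodule.smul_mem _ _ ?_)
    · have h2 := (hT₁ γ).1 hγ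
      refine hgood γ (fun h => ?_) (fun h => ?_)
      · rw [h] at h2
        exact zero_ne_one (hat₀.unique h2)
      · have h3 := h2.unique h
        norm_num at h3
    · have h2 := (hT₀ γ).1 (Finset.mem_of_mem_erase hγ)
      refine hgood γ (Finset.ne_of_mem_erase hγ) (fun h => ?_)
      exact two_ne_zero (h2.unique h).symm
  have hfin : X.AN w = sn ε • φ γ₀ := by
    rw [hφ₀, smul_smul, sn_sq, one_smul]
  rw [hfin]
  exact Submodule.smul_mem _ _ hkey

end Pool.Agent.WFC
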