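import Pool.Agent.WFC.SDefs
import Pool.Agent.WFC.Act

/-!
# The base of `Pool.Agent.KW` given by the tuples of points

All `N n` cubics (of the indices `i < N` at the `n` points) are in one row.
-/

set_option autoImplicit false

noncomputable section

namespace Pool.Agent.WFC

open Pool.Agent.EFC
open Pool.Agent.ZCyc Pool.Agent.TInf
open Pool.Agent.VFP (Om tt)

variable {k : Type} [Field k] {X : WC k} {n : ℕ}

theorem gal_gal_inv (g : X.G) (i : Fin X.N) : X.gal g ((X.gal g)⁻¹ i) = i :=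
  (X.gal g).apply_symm_apply i

theorem gal_α (g : X.G) (i : Fin X.N) : g.1 (X.cub.α i) = X.cub.α (X.gal g i) := by
  show g.1 (algebraMap k X.L (-3⁻¹) * X.A i) = algebraMap k X.L (-3⁻¹) * X.A (X.gal g i)
  rw [map_mul, AlgEquiv.commutes, X.gal_A]

theorem val_gal_α (g : X.G) (c : Place k X.L) (i : Fin X.N) :
    val (c.map g.1) (X.cub.α i) = val c (X.cub.α ((X.gal g)⁻¹ i)) := by
  have h := gal_α g ((X.gal g)⁻¹ i)
  rw [gal_gal_inv] at h
  rw [← h, val_map]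

theorem val_gal_B (g : X.G) (c : Place k X.L) (i : Fin X.N) :
    val (c.map g.1) (X.B i) = val c (X.B ((X.gal g)⁻¹ i)) := by
  have h := X.gal_B g ((X.gal g)⁻¹ i)
  rw [gal_gal_inv] at h
  rw [← h, val_map]

/-- the good places are stable under `G` -/
theorem map_mem_U (g : X.G) {c : Place k X.L} (hc : c ∈ X.U) : c.map g.1 ∈ X.U := by
  intro i
  have h := hc ((X.gal g)⁻¹ i)
  have e1 := gal_α g ((X.gal g)⁻¹ i)
  have e2 := X.gal_B g ((X.gal g)⁻¹ i)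
  have e3 := X.gal_D g ((X.gal g)⁻¹ i) c
  rw [gal_gal_inv] at e1 e2 e3
  have e4 : X.cub.B i = g.1 (X.cub.B ((X.gal g)⁻¹ i)) := e2.symm
  have e5 : X.cub.D i (c.map g.1) = X.cub.D ((X.gal g)⁻¹ i) c := e3
  rw [e5, e4, ← e1, ← map_inv₀, ← map_inv₀]
  have e6 : (g.1 (X.cub.B ((X.gal g)⁻¹ i)) ^ 2 - 4 * g.1 (X.cub.α ((X.gal g)⁻¹ i)) ^ 3)⁻¹ =
      g.1 (X.cub.B ((X.gal g)⁻¹ i) ^ 2 - 4 * X.cub.α ((X.gal g)⁻¹ i) ^ 3)⁻¹ := by
    rw [map_inv₀, map_sub, map_mul, map_pow, map_pow, map_ofNat]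
  rw [e6]
  simp only [mem_map_iff]
  exact h

/-- the singular places are permuted by `G` -/
theorem map_mem_Z [IsAlgClosed k] [CharZero k] (g : X.G) {i : Fin X.N} {δ : Place k X.L}
    (h : δ ∈ X.Z i) : δ.map g.1 ∈ X.Z (X.gal g i) := by
  show 4 * X.coA (δ.map g.1) (X.gal g i) ^ 3 + 27 * X.coB (δ.map g.1) (X.gal g i) ^ 2 = 0
  have h' : 4 * X.coA δ i ^ 3 + 27 * X.coB δ i ^ 2 = 0 := h
  have h1 := kap_ne g δ
  rw [coA_act, coB_act]
  have e1 : (X.kap g δ ^ (2 * X.D i δ) * X.coA δ i) ^ 3 =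
      X.kap g δ ^ (6 * X.D i δ) * X.coA δ i ^ 3 := by
    rw [mul_pow, ← zpow_natCast, ← zpow_mul]
    congr 2
    push_cast
    ring
  have e2 : (X.kap g δ ^ (3 * X.D i δ) * X.coB δ i) ^ 2 =
      X.kap g δ ^ (6 * X.D i δ) * X.coB δ i ^ 2 := by
    rw [mul_pow, ← zpow_natCast, ← zpow_mul]
    congr 2
    push_cast
    ring
  rw [e1, e2]
  linear_combination X.kap g δ ^ (6 * X.D i δ) * h'

theorem slotP_one : slotP (X := X) (n := n) (fun _ => 1) 1 = 1 := by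
  ext x
  obtain ⟨⟨i, j⟩, rfl⟩ := (sl X n).surjective x
  rw [slotP_apply]
  simp

theorem Tup.a_slot (t : Tup X n) (i : Fin X.N) (j : Fin n) :
    t.a (sl X n (i, j)) = (t.l j).μ i ^ 2 * val (t.c j).1 (X.cub.α i) := by
  unfold Tup.a
  rw [Equiv.symm_apply_apply]

theorem Tup.b_slot (t : Tup X n) (i : Fin X.N) (j : Fin n) :
    t.b (sl X n (i, j)) = (t.l j).μ i ^ 3 * val (t.c j).1 (X.B i) := by
  unfold Tup.b
  rw [Equiv.symm_apply_apply]

theorem TupO.a_slot (t : TupO X n) (i : Fin X.N) (j : Fin n) :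
    t.a (sl X n (i, j)) = (t.l j).μ i ^ 2 * TInc.evO (t.s j) (X.cub.α i) := by
  unfold TupO.a
  rw [Equiv.symm_apply_apply]

theorem TupO.b_slot (t : TupO X n) (i : Fin X.N) (j : Fin n) :
    t.b (sl X n (i, j)) = (t.l j).μ i ^ 3 * TInc.evO (t.s j) (X.B i) := by
  unfold TupO.b
  rw [Equiv.symm_apply_apply]

variable [IsAlgClosed k] [CharZero k]

theorem TupO.To.at_a {v : Place k (Om k)} {S : TupO X n} {t : Tup X n} {g : Fin n → X.G}
    {τ : Equiv.Perm (Fin n)} (h : S.To v t g τ) (x : Fin (X.N * n)) :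
    v.At (S.a x) (t.a (slotP g τ x)) := by
  obtain ⟨⟨i, j⟩, rfl⟩ := (sl X n).surjective x
  rw [slotP_apply, TupO.a_slot, Tup.a_slot, ← val_gal_α]
  obtain ⟨h1, h2, -⟩ := h j
  exact ((h2 i).pow 2).mul (TInc.over_at X.curve.dess h1
    ((map_mem_U (g j) (t.c (τ j)).2) i).1.1)

theorem TupO.To.at_b {v : Place k (Om k)} {S : TupO X n} {t : Tup X n} {g : Fin n → X.G}
    {τ : Equiv.Perm (Fin n)} (h : S.To v t g τ) (x : Fin (X.N * n)) :
    v.At (S.b x) (t.b (slotP g τ x)) := by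
  obtain ⟨⟨i, j⟩, rfl⟩ := (sl X n).surjective x
  rw [slotP_apply, TupO.b_slot, Tup.b_slot, ← val_gal_B]
  obtain ⟨h1, h2, -⟩ := h j
  exact ((h2 i).pow 3).mul (TInc.over_at X.curve.dess h1
    ((map_mem_U (g j) (t.c (τ j)).2) i).2.1.1)

omit [IsAlgClosed k] [CharZero k] in
theorem Tup.cst_to (v : Place k (Om k)) (t : Tup X n) : t.cst.To v t (fun _ => 1) 1 := by
  intro j
  refine ⟨?_, fun i => ?_, fun b => ?_⟩
  · show (t.c j).1 = (t.c j).1.map (1 : X.L ≃ₐ[k] X.L)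
    rw [pmap_one]
  · rw [map_one, inv_one]
    exact Place.at_const _
  · exact Place.at_const _

variable (X n) in
/-- The base. -/
def WC.bs : KW.Base k 1 (X.N * n) where
  P := Tup X n × Equiv.Perm (Fin (X.N * n))
  Q := TupO X n × Equiv.Perm (Fin (X.N * n))
  ea s _ x := s.1.a (s.2 x)
  eb s _ x := s.1.b (s.2 x)
  EA S _ x := S.1.a (S.2 x)
  EB S _ x := S.1.b (S.2 x)
  act s π := (s.1, s.2 * π)
  At v S s := ∃ (g : Fin n → X.G) (τ : Equiv.Perm (Fin n)), s.2 = slotP g τ * S.2 ∧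
    S.1.To v s.1 g τ
  Bad v S := ∃ (j : Fin n) (i : Fin X.N) (δ : Place k X.L), δ ∈ X.Z i ∧ TInc.Over v (S.1.s j) δ
  cst s := (s.1.cst, s.2)
  ea_act _ _ _ _ := rfl
  eb_act _ _ _ _ := rfl
  act_one s := by simp
  at_al := by
    rintro v S s ⟨g, τ, h1, h2⟩ i x
    rw [h1]
    exact h2.at_a (S.2 x)
  at_be := by
    rintro v S s ⟨g, τ, h1, h2⟩ i x
    rw [h1]
    exact h2.at_b (S.2 x)
  cst_at v s := ⟨fun _ => 1, 1, by rw [slotP_one, one_mul], s.1.cst_to v⟩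
  cst_al s i x := by
    show s.1.cst.a (s.2 x) = algebraMap k (Om k) (s.1.a (s.2 x))
    obtain ⟨⟨i, j⟩, h⟩ := (sl X n).surjective (s.2 x)
    rw [← h, TupO.a_slot, Tup.a_slot, map_mul, map_pow]
    rfl
  cst_be s i x := by
    show s.1.cst.b (s.2 x) = algebraMap k (Om k) (s.1.b (s.2 x))
    obtain ⟨⟨i, j⟩, h⟩ := (sl X n).surjective (s.2 x)
    rw [← h, TupO.b_slot, Tup.b_slot, map_mul, map_pow]
    rfl

end Pool.Agent.WFC
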