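import Pool.Agent.WFC.PtMap
import Pool.Agent.KW.Zero

/-!
# Tuples of points: definitions

The slots are the pairs `(i, j)`, `i < N`, `j < n`. They are numbered by `sl : Fin N × Fin n ≃ Fin (N n)`.
-/

set_option autoImplicit false

noncomputable section

namespace Pool.Agent.WFC

open Pool.Agent.EFC
open Pool.Agent.ZCyc Pool.Agent.TInf
open Pool.Agent.VFP (Om tt)

variable {k : Type} [Field k] {X : WC k}

variable (X) in
/-- `n` good places with scalings -/
structure Tup (n : ℕ) where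
  /-- the places -/
  c : Fin n → X.U
  /-- the scalings -/
  l : Fin n → Scl X k

variable (X) in
/-- `n` points of the curve over `Om k` with scalings -/
structure TupO (n : ℕ) where
  /-- the points -/
  s : Fin n → (X.L →ₐ[k] Om k) ⊕ X.U
  /-- the scalings -/
  l : Fin n → Scl X (Om k)

variable {n : ℕ}

/-- the constant tuple -/
def Tup.cst (t : Tup X n) : TupO X n where
  s j := Sum.inr (t.c j)
  l j := (t.l j).cst

variable (X n) in
/-- the number of the slot `(i, j)` -/
def sl : Fin X.N × Fin n ≃ Fin (X.N * n) := finProdFinEquiv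

/-- The permutation `(i, j) ↦ (g_j⁻¹ i, τ j)` of the slots. -/
def slotP (g : Fin n → X.G) (τ : Equiv.Perm (Fin n)) : Equiv.Perm (Fin (X.N * n)) :=
  (sl X n).permCongr
    { toFun := fun x => ((X.gal (g x.2))⁻¹ x.1, τ x.2)
      invFun := fun x => (X.gal (g (τ⁻¹ x.2)) x.1, τ⁻¹ x.2)
      left_inv := fun x => by simp
      right_inv := fun x => by simp }

theorem slotP_apply (g : Fin n → X.G) (τ : Equiv.Perm (Fin n)) (i : Fin X.N) (j : Fin n) :
    slotP g τ (sl X n (i, j)) = sl X n ((X.gal (g j))⁻¹ i, τ j) := by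
  simp [slotP, Equiv.permCongr_apply]

/-- the coefficients `α` of a slot -/
def Tup.a (t : Tup X n) (x : Fin (X.N * n)) : k :=
  (t.l ((sl X n).symm x).2).μ ((sl X n).symm x).1 ^ 2 *
    val (t.c ((sl X n).symm x).2).1 (X.cub.α ((sl X n).symm x).1)

/-- the coefficients `B` of a slot -/
def Tup.b (t : Tup X n) (x : Fin (X.N * n)) : k :=
  (t.l ((sl X n).symm x).2).μ ((sl X n).symm x).1 ^ 3 *
    val (t.c ((sl X n).symm x).2).1 (X.B ((sl X n).symm x).1)

/-- the coefficients `α` of a slot over `Om k` -/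
def TupO.a (t : TupO X n) (x : Fin (X.N * n)) : Om k :=
  (t.l ((sl X n).symm x).2).μ ((sl X n).symm x).1 ^ 2 *
    TInc.evO (t.s ((sl X n).symm x).2) (X.cub.α ((sl X n).symm x).1)

/-- the coefficients `B` of a slot over `Om k` -/
def TupO.b (t : TupO X n) (x : Fin (X.N * n)) : Om k :=
  (t.l ((sl X n).symm x).2).μ ((sl X n).symm x).1 ^ 3 *
    TInc.evO (t.s ((sl X n).symm x).2) (X.B ((sl X n).symm x).1)

/-- The tuple `S` tends to the tuple of the `g_j c_(τ j)`. -/
def TupO.To (v : Place k (Om k)) (S : TupO X n) (t : Tup X n) (g : Fin n → X.G)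
    (τ : Equiv.Perm (Fin n)) : Prop :=
  ∀ j, TInc.Over v (S.s j) ((t.c (τ j)).1.map (g j).1) ∧
    (∀ i, v.At ((S.l j).μ i) ((t.l (τ j)).μ ((X.gal (g j))⁻¹ i))) ∧
    ∀ b, v.At ((S.l j).ν b) ((t.l (τ j)).ν b)

end Pool.Agent.WFC
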