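import Pool.Agent.WFC.SFamP
import Pool.Agent.TInc.Fam

/-!
# The family of deformations of a tuple
-/

set_option autoImplicit false

noncomputable section

namespace Pool.Agent.WFC

open Pool.Agent.EFC
open Pool.Agent.ZCyc Pool.Agent.TInf
open Pool.Agent.VFP (Om tt)

variable {k : Type} [Field k] [IsAlgClosed k] [CharZero k] {X : WC k} {n : ℕ}

omit [IsAlgClosed k] [CharZero k] in
private theorem fam_prod {M : Type} [CommMonoid M] (f : Fin (X.N * n) → M) :
    ∏ x, f x = ∏ j, ∏ i, f (sl X n (i, j)) := by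
  rw [← Equiv.prod_comp (sl X n) f, Fintype.prod_prod_type_right]

omit [IsAlgClosed k] [CharZero k] in
private theorem fam_at2 (q : Place k X.L) : q.At (2 : X.L) (2 : k) := by
  have h := Place.at_const (v := q) (2 : k)
  rwa [map_ofNat] at h

private theorem fam_atα {q : Place k X.L} (hq : q ∈ X.U) (i : Fin X.N) :
    q.At (X.cub.α i) (TInc.val q (X.cub.α i)) := TInc.at_val X.curve.dess (hq i).1.1

private theorem fam_atb {q : Place k X.L} (hq : q ∈ X.U) (i : Fin X.N) :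
    q.At (-X.cub.B i / 2) (-TInc.val q (X.cub.B i) / 2) :=
  (TInc.at_val X.curve.dess (hq i).2.1.1).neg.div (fam_at2 q) two_ne_zero

private theorem fam_atθ {q : Place k X.L} (hq : q ∈ X.U) (θ : k) (i : Fin X.N) :
    q.At ((-X.cub.B i / 2) ^ 2 - algebraMap k X.L θ * ((-X.cub.B i / 2) ^ 2 - X.cub.α i ^ 3))
      ((-TInc.val q (X.cub.B i) / 2) ^ 2 - θ * ((-TInc.val q (X.cub.B i) / 2) ^ 2 -
        TInc.val q (X.cub.α i) ^ 3)) :=
  ((fam_atb hq i).pow 2).sub ((Place.at_const θ).mul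
    (((fam_atb hq i).pow 2).sub ((fam_atα hq i).pow 3)))

private theorem fam_vα {q : Place k X.L} (hq : q ∈ X.U) :
    TInc.val (below X.G q) X.Fα = ∏ i, TInc.val q (X.cub.α i) := by
  refine TInc.val_eq ((at_below X.G q X.Fα _).2 ?_)
  show q.At (∏ i, X.cub.α i) _
  exact Place.At.prod fun i _ => fam_atα hq i

private theorem fam_vb {q : Place k X.L} (hq : q ∈ X.U) :
    TInc.val (below X.G q) X.Fb = ∏ i, (-TInc.val q (X.cub.B i) / 2) := by
  refine TInc.val_eq ((at_below X.G q X.Fb _).2 ?_)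
  show q.At (∏ i, (-X.cub.B i / 2)) _
  exact Place.At.prod fun i _ => fam_atb hq i

private theorem fam_vθ {q : Place k X.L} (hq : q ∈ X.U) (θ : k) :
    TInc.val (below X.G q) (X.Fθ θ) = ∏ i, ((-TInc.val q (X.cub.B i) / 2) ^ 2 -
      θ * ((-TInc.val q (X.cub.B i) / 2) ^ 2 - TInc.val q (X.cub.α i) ^ 3)) := by
  refine TInc.val_eq ((at_below X.G q (X.Fθ θ) _).2 ?_)
  show q.At (∏ i, ((-X.cub.B i / 2) ^ 2 - algebraMap k X.L θ *
    ((-X.cub.B i / 2) ^ 2 - X.cub.α i ^ 3))) _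
  exact Place.At.prod fun i _ => fam_atθ hq θ i

private theorem fam_evα (s : (X.L →ₐ[k] Om k) ⊕ X.U) :
    TInc.evO s (X.Fα : X.L) = ∏ i, TInc.evO s (X.cub.α i) := by
  rcases s with σ | q
  · show σ (∏ i, X.cub.α i) = ∏ i, σ (X.cub.α i)
    exact map_prod σ _ _
  · show algebraMap k (Om k) (TInc.val q.1 (∏ i, X.cub.α i)) =
      ∏ i, algebraMap k (Om k) (TInc.val q.1 (X.cub.α i))
    rw [TInc.val_eq (Place.At.prod fun i _ => fam_atα q.2 i), map_prod]

private theorem fam_evb (s : (X.L →ₐ[k] Om k) ⊕ X.U) :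
    TInc.evO s (X.Fb : X.L) = ∏ i, (-TInc.evO s (X.cub.B i) / 2) := by
  rcases s with σ | q
  · show σ (∏ i, (-X.cub.B i / 2)) = ∏ i, (-σ (X.cub.B i) / 2)
    rw [map_prod]
    exact Finset.prod_congr rfl fun i _ => by rw [map_div₀, map_neg, map_ofNat]
  · show algebraMap k (Om k) (TInc.val q.1 (∏ i, (-X.cub.B i / 2))) =
      ∏ i, (-algebraMap k (Om k) (TInc.val q.1 (X.cub.B i)) / 2)
    rw [TInc.val_eq (Place.At.prod fun i _ => fam_atb q.2 i), map_prod]
    exact Finset.prod_congr rfl fun i _ => by rw [map_div₀, map_neg, map_ofNat]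

private theorem fam_evθ (s : (X.L →ₐ[k] Om k) ⊕ X.U) (θ : k) :
    TInc.evO s (X.Fθ θ : X.L) = ∏ i, ((-TInc.evO s (X.cub.B i) / 2) ^ 2 -
      algebraMap k (Om k) θ * ((-TInc.evO s (X.cub.B i) / 2) ^ 2 -
        TInc.evO s (X.cub.α i) ^ 3)) := by
  rcases s with σ | q
  · show σ (∏ i, ((-X.cub.B i / 2) ^ 2 - algebraMap k X.L θ *
      ((-X.cub.B i / 2) ^ 2 - X.cub.α i ^ 3))) =
      ∏ i, ((-σ (X.cub.B i) / 2) ^ 2 - algebraMap k (Om k) θ *
        ((-σ (X.cub.B i) / 2) ^ 2 - σ (X.cub.α i) ^ 3))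
    rw [map_prod]
    exact Finset.prod_congr rfl fun i _ => by
      rw [map_sub, map_mul, map_sub, map_pow, map_pow, map_div₀, map_neg, map_ofNat,
        AlgHom.commutes]
  · show algebraMap k (Om k) (TInc.val q.1 (∏ i, ((-X.cub.B i / 2) ^ 2 - algebraMap k X.L θ *
      ((-X.cub.B i / 2) ^ 2 - X.cub.α i ^ 3)))) =
      ∏ i, ((-algebraMap k (Om k) (TInc.val q.1 (X.cub.B i)) / 2) ^ 2 - algebraMap k (Om k) θ *
        ((-algebraMap k (Om k) (TInc.val q.1 (X.cub.B i)) / 2) ^ 2 -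
          algebraMap k (Om k) (TInc.val q.1 (X.cub.α i)) ^ 3))
    rw [TInc.val_eq (Place.At.prod fun i _ => fam_atθ q.2 θ i), map_prod]
    exact Finset.prod_congr rfl fun i _ => by
      rw [map_sub, map_mul, map_sub, map_pow, map_pow, map_div₀, map_neg, map_ofNat]

omit [IsAlgClosed k] [CharZero k] in
private theorem fam_ofa (c : Fin n → X.U) (i : Fin X.N) (j : Fin n) :
    (Tup.of c).a (sl X n (i, j)) = TInc.val (c j).1 (X.cub.α i) := by
  rw [Tup.a_slot]
  show (1 : k) ^ 2 * TInc.val (c j).1 (X.cub.α i) = _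
  rw [one_pow, one_mul]

omit [IsAlgClosed k] [CharZero k] in
private theorem fam_ofb (c : Fin n → X.U) (i : Fin X.N) (j : Fin n) :
    (Tup.of c).b (sl X n (i, j)) = TInc.val (c j).1 (X.cub.B i) := by
  rw [Tup.b_slot]
  show (1 : k) ^ 3 * TInc.val (c j).1 (X.cub.B i) = _
  rw [one_pow, one_mul]

private theorem fam_zα (c : Fin n → X.U) (i : Fin 1) :
    ∏ j, TInc.val (below X.G (c j).1) X.Fα = ∏ x, (X.bs n).ea (Tup.of c, 1) i x := by
  show _ = ∏ x, (Tup.of c).a x
  rw [fam_prod]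
  exact Finset.prod_congr rfl fun j _ => by
    rw [fam_vα (c j).2]
    exact Finset.prod_congr rfl fun i _ => (fam_ofa c i j).symm

private theorem fam_zb (c : Fin n → X.U) (i : Fin 1) :
    ∏ j, TInc.val (below X.G (c j).1) X.Fb = ∏ x, (-(X.bs n).eb (Tup.of c, 1) i x / 2) := by
  show _ = ∏ x, (-(Tup.of c).b x / 2)
  rw [fam_prod]
  exact Finset.prod_congr rfl fun j _ => by
    rw [fam_vb (c j).2]
    exact Finset.prod_congr rfl fun i _ => by rw [fam_ofb c i j]

private theorem fam_zθ (c : Fin n → X.U) (θ : k) (i : Fin 1) :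
    ∏ j, TInc.val (below X.G (c j).1) (X.Fθ θ) =
      ∏ x, ((-(X.bs n).eb (Tup.of c, 1) i x / 2) ^ 2 - θ *
        ((-(X.bs n).eb (Tup.of c, 1) i x / 2) ^ 2 - (X.bs n).ea (Tup.of c, 1) i x ^ 3)) := by
  show _ = ∏ x, ((-(Tup.of c).b x / 2) ^ 2 - θ *
        ((-(Tup.of c).b x / 2) ^ 2 - (Tup.of c).a x ^ 3))
  rw [fam_prod]
  exact Finset.prod_congr rfl fun j _ => by
    rw [fam_vθ (c j).2]
    exact Finset.prod_congr rfl fun i _ => by rw [fam_ofb c i j, fam_ofa c i j]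

private theorem fam_Pα (S : TupO X n) (i : Fin 1) :
    ∏ x, (X.bs n).EA (S, 1) i x =
      (∏ j, ∏ i, (S.l j).μ i) ^ 2 * ∏ j, TInc.evO (S.s j) (X.Fα : X.L) := by
  show ∏ x, S.a x = _
  rw [fam_prod, ← Finset.prod_pow, ← Finset.prod_mul_distrib]
  exact Finset.prod_congr rfl fun j _ => by
    rw [fam_evα, ← Finset.prod_pow, ← Finset.prod_mul_distrib]
    exact Finset.prod_congr rfl fun i _ => TupO.a_slot S i j

private theorem fam_Pb (S : TupO X n) (i : Fin 1) :
    ∏ x, (-(X.bs n).EB (S, 1) i x / 2) =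
      (∏ j, ∏ i, (S.l j).μ i) ^ 3 * ∏ j, TInc.evO (S.s j) (X.Fb : X.L) := by
  show ∏ x, (-S.b x / 2) = _
  rw [fam_prod, ← Finset.prod_pow, ← Finset.prod_mul_distrib]
  exact Finset.prod_congr rfl fun j _ => by
    rw [fam_evb, ← Finset.prod_pow, ← Finset.prod_mul_distrib]
    exact Finset.prod_congr rfl fun i _ => by
      rw [TupO.b_slot S i j]
      show -((S.l j).μ i ^ 3 * TInc.evO (S.s j) (X.cub.B i)) / 2 = _
      ring

private theorem fam_Pθ (S : TupO X n) (θ : k) (i : Fin 1) :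
    ∏ x, ((-(X.bs n).EB (S, 1) i x / 2) ^ 2 - algebraMap k (Om k) θ *
        ((-(X.bs n).EB (S, 1) i x / 2) ^ 2 - (X.bs n).EA (S, 1) i x ^ 3)) =
      (∏ j, ∏ i, (S.l j).μ i) ^ 6 * ∏ j, TInc.evO (S.s j) (X.Fθ θ : X.L) := by
  show ∏ x, ((-S.b x / 2) ^ 2 - algebraMap k (Om k) θ * ((-S.b x / 2) ^ 2 - S.a x ^ 3)) = _
  rw [fam_prod, ← Finset.prod_pow, ← Finset.prod_mul_distrib]
  exact Finset.prod_congr rfl fun j _ => by
    rw [fam_evθ, ← Finset.prod_pow, ← Finset.prod_mul_distrib]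
    exact Finset.prod_congr rfl fun i _ => by
      rw [TupO.b_slot S i j, TupO.a_slot S i j]
      show (-((S.l j).μ i ^ 3 * TInc.evO (S.s j) (X.cub.B i)) / 2) ^ 2 - algebraMap k (Om k) θ *
        ((-((S.l j).μ i ^ 3 * TInc.evO (S.s j) (X.cub.B i)) / 2) ^ 2 -
          ((S.l j).μ i ^ 2 * TInc.evO (S.s j) (X.cub.α i)) ^ 3) = _
      ring

private theorem fam_E0 (b : Fin X.r) {c : Place k X.L} (hc : c ∈ X.U) :
    X.E b (below X.G c) = 0 := by
  have h1 := E_spec (X := X) b c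
  rw [Finset.sum_eq_zero fun i _ => (show X.D i c = 0 from (hc i).2.2.2)] at h1
  have h2 : (stb X.G c : ℤ) ≠ 0 := by exact_mod_cast (stb_pos X.G c).ne'
  rcases mul_eq_zero.1 h1.symm with h | h
  · exact absurd h h2
  · exact h

/-- The deformations of a tuple of points over different points of `C`. Adapt
`TInc.exists_familyZ` (`TInc/Fam.lean`): there the cubics are over the field of the curve and there is
one row for every `i`; here the pencil is on `C`, i.e. over the field `K = X.K`, and all cubics are in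
one row. Write `q j = below X.G (c j)`, `E = ∑ b, X.E b` (degree `d` by `E_deg`).

* `ρ`, `φ m : K` from `TInc.exists_phi` for the places `q j` of `K` (Riemann's inequality `hg`).
* `θ` from `exists_theta` with `m = N n`.
* `nα 0 = famN _ φ q X.Fα 2 E`, `nb 0 = famN _ φ q X.Fb 3 E`, `nθ 0 x = famN _ φ q (X.Fθ (θ x)) 6 E`. Degrees:
  `famN_deg`. Values at `τ = 0` (`nmP_eval_zero`, `nmP_zero`): `∏ x, t.a x = ∏ j, ∏ i, α_i(c_j) = ∏ j, val (q j) X.Fα`:
  the product over `Fin (N n)` is the product over `Fin N × Fin n` (`Equiv.prod_comp (sl X n)`,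
  `Fintype.prod_prod_type_right`), `Tup.a_slot` with trivial scalings, `val_below`, and values of
  products.
* `u = 1`, `h z = ∑ m, z m * val (below δ) (φ m)`.
* `pts`: `exists_ptsW` for `φ_z = ∑ m, z m φ m` (`hind z hz`: not constant) and `T` = the union of the
  supports of the `E b`; the point of `D.Q` is `(S, 1)`. `∏ x, S.a x = (∏ j, ∏ i, μ) ² ∏ j, evO (S.s j) (∏ i, α_i)`
  (`TupO.a_slot`, `evO` is multiplicative at good places), so `famN_aeval` for `SK` applies; the same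
  for the other two (weights `3`, `6`: `(-EB / 2) = μ ³ evO (-B_i / 2)` etc., see `evb`, `evθ` there).
* `τ → 0`: `S.To v (Tup.of c) g π` gives `D.At v (S, 1) (D.act (Tup.of c, 1) (slotP g π))`.
* `Bad`: as in `TInc.exists_familyZ`, with the last part of `exists_ptsW`, and `map_mem_Z`. -/
theorem exists_famW (h : X.NonZero) (hr : 0 < X.r) {g : ℕ}
    (hg : TInc.Riemann (fix_curve X.G X.curve).dess g) (c : Fin n → X.U)
    (hc : Function.Injective fun j => below X.G (c j).1) {i₀ : Fin X.N} {δ : Place k X.L}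
    (hδ : δ ∈ X.Z i₀) (hδU : δ ∉ X.U) {d : ℕ}
    (hd : ∑ i, deg (X.D i) = Nat.card X.G * (d : ℤ)) {ρ : ℕ} (hρ : ρ + g ≤ n) :
    ∃ F : KW.CurveFam (X.bs n) (fun _ => d) (Tup.of c, 1), F.ρ = ρ := by
  classical
  obtain ⟨φ, hreg, hpole, hind⟩ := TInc.exists_phi hg hρ (fun j => below X.G (c j).1) hc
  obtain ⟨θ, hθinj, hθ0, hθ⟩ := exists_theta h c (X.N * n)
  have hL := (fix_curve X.G X.curve).dess
  let T : Finset (Place k X.K) := Finset.univ.biUnion fun b => (X.E b).support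
  have hT : ∀ b q, X.E b q ≠ 0 → q ∈ T := fun b q hq =>
    Finset.mem_biUnion.2 ⟨b, Finset.mem_univ b, Finsupp.mem_support_iff.2 hq⟩
  have hT' : ∀ q, (∑ b, X.E b) q ≠ 0 → q ∈ T := by
    intro q hq
    by_contra h0
    apply hq
    rw [Finsupp.finsetSum_apply]
    exact Finset.sum_eq_zero fun b _ => by
      by_contra h1
      exact h0 (hT b q h1)
  have hEc : ∀ b j, X.E b (below X.G (c j).1) = 0 := fun b j => fam_E0 b (c j).2
  have hE0 : ∀ j, (∑ b, X.E b) (cK c j).1 = 0 := by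
    intro j
    rw [Finsupp.finsetSum_apply]
    exact Finset.sum_eq_zero fun b _ => hEc b j
  have hTc : ∀ j, (cK c j).1 ∉ T := by
    intro j hj
    obtain ⟨b, _, hb⟩ := Finset.mem_biUnion.1 hj
    exact Finsupp.mem_support_iff.1 hb (hEc b j)
  have hdE : TInc.deg (∑ b, X.E b) = d := E_deg hd
  have ok1 := okα h c
  have ok2 := okb h c
  have ok3 : ∀ x, FamOk (k := k) (fun j => below X.G (c j).1) (X.Fθ (θ x)) 6 (∑ b, X.E b) :=
    fun x => okθ h c (hθ x)
  have hδc : ∀ j, below X.G (c j).1 ≠ below X.G δ := by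
    intro j hj
    obtain ⟨g, hg⟩ := exists_map_eq X.G X.curve hj
    exact hδU (hg ▸ map_mem_U g (c j).2)
  refine ⟨{
    ρ := ρ
    nα := fun _ => famN hL φ (fun j => below X.G (c j).1) X.Fα 2 (∑ b, X.E b)
    nb := fun _ => famN hL φ (fun j => below X.G (c j).1) X.Fb 3 (∑ b, X.E b)
    nθ := fun _ x => famN hL φ (fun j => below X.G (c j).1) (X.Fθ (θ x)) 6 (∑ b, X.E b)
    θ := θ
    inj := hθinj
    ne := hθ0
    dα := fun _ z => famN_deg hL φ _ _ _ _ hdE ok1.eff z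
    db := fun _ z => famN_deg hL φ _ _ _ _ hdE ok2.eff z
    dθ := fun _ x z => famN_deg hL φ _ _ _ _ hdE (ok3 x).eff z
    zα := fun i z => by
      rw [famN, TInc.nmP_eval_zero]
      exact fam_zα c i
    zb := fun i z => by
      rw [famN, TInc.nmP_eval_zero]
      exact fam_zb c i
    zθ := fun i x z => by
      rw [famN, TInc.nmP_eval_zero]
      exact fam_zθ c (θ x) i
    cα := fun i => by
      rw [famN, TInc.nmP_zero]
      exact congrArg _ (fam_zα c i)
    cb := fun i => by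
      rw [famN, TInc.nmP_zero]
      exact congrArg _ (fam_zb c i)
    cθ := fun i x => by
      rw [famN, TInc.nmP_zero]
      exact congrArg _ (fam_zθ c (θ x) i)
    u := 1
    h := fun z => ∑ m, z m * TInc.val (below X.G δ) (φ m)
    u_ne := one_ne_zero
    pts := ?_ }, rfl⟩
  intro z hz τ hτ _
  set φz : X.K := ∑ m, algebraMap k X.K (z m) * φ m with hφz
  have hφreg : ∀ v : Place k X.K, (∀ j, (cK c j).1 ≠ v) → φz ∈ v.ring := fun v hv =>
    sum_mem fun m _ => mul_mem (v.const_mem _) (hreg m v hv)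
  have hφ0 : φz ≠ 0 := by
    have := hind z hz 0
    rwa [map_zero] at this
  have hφpole : ∀ j, -1 ≤ TInc.ord (cK c j).1 φz := fun j =>
    fam_ord_sum hL φ z (fun m => hpole m j) Finset.univ hφ0
  obtain ⟨S, SK, j₀, h1, h2, h3, h4, h5⟩ :=
    exists_ptsW hr c hc (hind z hz) hφreg hφpole T hTc hT hτ hδU
  have hδat : (below X.G δ).At φz (∑ m, z m * TInc.val (below X.G δ) (φ m)) :=
    fam_at_sum hL φ z fun m => hreg m (below X.G δ) hδc
  refine ⟨(S, 1), fun i => ?_, fun i => ?_, fun i x => ?_, fun v hv => ?_, fun v hv => ?_⟩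
  · rw [fam_Pα, h3, Finset.prod_congr rfl fun j _ => h2 j X.Fα]
    exact famN_aeval hL φ z (cK c) hreg ok1 hE0 T hT' SK j₀ h1
  · rw [fam_Pb, h3, Finset.prod_congr rfl fun j _ => h2 j X.Fb]
    exact famN_aeval hL φ z (cK c) hreg ok2 hE0 T hT' SK j₀ h1
  · rw [fam_Pθ, h3, Finset.prod_congr rfl fun j _ => h2 j (X.Fθ (θ x))]
    exact famN_aeval hL φ z (cK c) hreg (ok3 x) hE0 T hT' SK j₀ h1
  · obtain ⟨g', π, hπ⟩ := h4 v hv
    exact ⟨slotP g' π, g', π, (one_mul _).trans (mul_one _).symm, hπ⟩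
  · have e0 : v.At (-τ⁻¹) (∑ m, z m * TInc.val (below X.G δ) (φ m)) := by
      rcases hv with ⟨τ₁, hτ₁, he⟩ | ⟨hτv, he⟩
      · have hτ0 : τ₁ ≠ 0 := by
          rintro rfl
          rw [zero_mul, add_zero] at he
          exact one_ne_zero he
        have e1 := (hτ₁.inv hτ0).neg
        have e2 : ∑ m, z m * TInc.val (below X.G δ) (φ m) = -τ₁⁻¹ := by
          field_simp
          linear_combination he
        rw [e2]
        exact e1
      · rw [he]
        have e1 : v.At τ⁻¹ 0 := by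
          rw [Place.at_zero_iff, Place.vanishes_iff_or]
          right
          rwa [inv_inv]
        have e2 := e1.neg
        rwa [neg_zero] at e2
    obtain ⟨j, g', hj⟩ := h5 v _ e0 hδat
    exact ⟨j, X.gal g' i₀, δ.map g'.1, map_mem_Z g' hδ, hj⟩

end Pool.Agent.WFC
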