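import Pool.Agent.WFC.SFamF

/-!
# The points of the family for given `φ` and `τ`
-/

set_option autoImplicit false

noncomputable section

namespace Pool.Agent.WFC

open Pool.Agent.EFC
open Pool.Agent.ZCyc Pool.Agent.TInf
open Pool.Agent.VFP (Om tt)

variable {k : Type} [Field k] [IsAlgClosed k] [CharZero k] {X : WC k} {n : ℕ}

/-- the tuple with trivial scalings -/
def Tup.of (c : Fin n → X.U) : Tup X n := ⟨c, fun _ => Scl.one X k⟩

/-- the points of `C` below the points `c j` -/
def UK (c : Fin n → X.U) : Set (Place k X.K) := Set.range fun j => below X.G (c j).1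

/-- the points of `C` below the points `c j` -/
def cK (c : Fin n → X.U) (j : Fin n) : UK c := ⟨below X.G (c j).1, j, rfl⟩

/-- the extension of a point of the curve `C` over `Om k` to a point of the curve `C'` -/
private theorem ptsW_ext (c : Fin n → X.U) (S : (X.K →ₐ[k] Om k) ⊕ UK c) :
    ∃ S' : (X.L →ₐ[k] Om k) ⊕ X.U,
      (∀ f : X.K, TInc.evO S' (f : X.L) = TInc.evO S f) ∧
        ∀ (v : Place k (Om k)) (δ : Place k X.L), TInc.Over v S (below X.G δ) →
          ∃ g : X.G, TInc.Over v S' (δ.map g.1) := by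
  rcases S with σ | ⟨q, j', hj'⟩
  · obtain ⟨σ', hσ'⟩ := exists_ext_fix X.G σ
    refine ⟨Sum.inl σ', hσ', fun v δ h => ?_⟩
    exact over_ext X.G X.curve.dess hσ' h
  · have hq : below X.G (c j').1 = q := hj'
    refine ⟨Sum.inr (c j'), fun f => ?_, fun v δ h => ?_⟩
    · show algebraMap k (Om k) (TInc.val (c j').1 (f : X.L)) = algebraMap k (Om k) (TInc.val q f)
      rw [← hq]
      exact congrArg _ (val_below X.G (c j').1 f).symm
    · have h1 : q = below X.G δ := h
      obtain ⟨g, hg⟩ := exists_map_eq X.G X.curve.dess (hq.trans h1).symm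
      exact ⟨g, hg.symm⟩

omit [IsAlgClosed k] [CharZero k] in
private theorem at_zpow_one {v : Place k (Om k)} {f : Om k} (h : v.At f 1) (m : ℤ) :
    v.At (f ^ m) 1 := by
  rcases Int.eq_nat_or_neg m with ⟨a, ha | ha⟩
  · rw [ha, zpow_natCast]
    have h1 := h.pow a
    rwa [one_pow] at h1
  · rw [ha, zpow_neg, zpow_natCast]
    have h1 := (h.pow a).inv (by rw [one_pow]; exact one_ne_zero)
    rwa [one_pow, inv_one] at h1

omit [IsAlgClosed k] [CharZero k] in
private theorem prod_zpow_sum {x : Om k} (hx : x ≠ 0) {ι : Type} (s : Finset ι) (e : ι → ℤ) :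
    ∏ b ∈ s, x ^ e b = x ^ ∑ b ∈ s, e b := by
  classical
  induction s using Finset.induction_on with
  | empty => rw [Finset.prod_empty, Finset.sum_empty, zpow_zero]
  | insert a t ha ih => rw [Finset.prod_insert ha, Finset.sum_insert ha, ih, zpow_add₀ hx]

omit [IsAlgClosed k] [CharZero k] in
/-- a block is not empty -/
private theorem exists_blk (b : Fin X.r) : ∃ i, X.blk i = b := by
  by_contra h
  push Not at h
  have h1 := X.pos b
  rw [Finset.sum_eq_zero fun i hi => absurd (Finset.mem_filter.1 hi).2 (h i)] at h1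
  exact lt_irrefl _ h1

omit [IsAlgClosed k] in
/-- the scaling of the point with the index `j₀` -/
private theorem exists_scl (m : Fin X.r → Om k) (ν : Fin X.r → Om k) (hm : ∀ b, m b ≠ 0)
    (hν : ∀ b, ν b ^ 2 = m b) :
    ∃ l : Scl X (Om k), (∏ i, l.μ i = ∏ b, m b) ∧ (∀ b, l.ν b = ν b) ∧
      ∀ i, l.μ i = 1 ∨ l.μ i = m (X.blk i) := by
  choose ib hib using exists_blk (X := X)
  have hprod : ∀ b, ∏ i with X.blk i = b, (if i = ib (X.blk i) then m (X.blk i) else 1) =
      m b := by
    intro b
    rw [Finset.prod_eq_single (ib b)]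
    · rw [hib b, if_pos rfl]
    · intro i hi hne
      rw [(Finset.mem_filter.1 hi).2, if_neg hne]
    · intro h
      exact absurd (Finset.mem_filter.2 ⟨Finset.mem_univ (ib b), hib b⟩) h
  refine ⟨⟨fun i => if i = ib (X.blk i) then m (X.blk i) else 1, ν, ?_, ?_⟩, ?_, fun b => rfl, ?_⟩
  · intro i
    show (if i = ib (X.blk i) then m (X.blk i) else 1) ≠ 0
    split
    · exact hm _
    · exact one_ne_zero
  · intro b
    rw [hν b]
    exact (hprod b).symm
  · show ∏ i, (if i = ib (X.blk i) then m (X.blk i) else 1) = _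
    rw [← Finset.prod_fiberwise_of_maps_to (t := Finset.univ) (g := X.blk)
      (fun i _ => Finset.mem_univ _)]
    exact Finset.prod_congr rfl fun b _ => hprod b
  · intro i
    show (if i = ib (X.blk i) then m (X.blk i) else 1) = 1 ∨
      (if i = ib (X.blk i) then m (X.blk i) else 1) = m (X.blk i)
    split
    · exact Or.inr rfl
    · exact Or.inl rfl

/-- The points of the family. Proof.
* `TInc.exists_points` for the curve `C` (field `X.K`, `fix_curve`), the places `cK c j`, the
  function `φ`, and `T` gives `SK` and `j₀`; this is the first conclusion.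
* `S.s j`: if `SK j` is an embedding of `K`, an extension to `L` (`exists_ext_fix`); if it is a
  constant place in `UK c`, it is `below (c j')` for some `j'`, and we take the constant place
  `c j'`. So `evO (S.s j) f = evO (SK j) f` for `f ∈ K` (`val_below`).
* `S.l j` for `j ≠ j₀` is trivial. For `j₀` choose for every block `b` an index `i_b` in `b`
  (`X.pos`: the sum over an empty block is `0`), and put
  `μ_(i_b) = ∏ q ∈ T, (1 + τ φ(q)) ^ E b q`, `ν_b = ∏ q ∈ T, (1 + τ φ(q)) ^ (E b q / 2)`,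
  `μ_i = 1` for all other `i`; `E_even`; the factors are not zero because `τ` is transcendental
  (`fam_ne`).
* `τ → 0`: `TInc.Over v (SK j) (below (c (π j)))`, and `ptsW_ext` gives `g j` with
  `Over v (S.s j) ((c (π j)).map (g j))`. The scalings tend to `1`.
* last part: `TInc.Over v (SK j) (below δ)` for some `j` by the third part of `exists_points`, and
  `ptsW_ext`. -/
theorem exists_ptsW (hr : 0 < X.r) (c : Fin n → X.U)
    (hc : Function.Injective fun j => below X.G (c j).1) {φ : X.K}
    (hφ : ∀ a : k, φ ≠ algebraMap k X.K a)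
    (hreg : ∀ v : Place k X.K, (∀ j, (cK c j).1 ≠ v) → φ ∈ v.ring)
    (hpole : ∀ j, -1 ≤ TInc.ord (cK c j).1 φ) (T : Finset (Place k X.K))
    (hTc : ∀ j, (cK c j).1 ∉ T) (hT : ∀ b q, X.E b q ≠ 0 → q ∈ T)
    {τ : Om k} (hτ : Transcendental k τ) {δ : Place k X.L} (hδU : δ ∉ X.U) :
    ∃ (S : TupO X n) (SK : Fin n → (X.K →ₐ[k] Om k) ⊕ UK c) (j₀ : Fin n),
      (∀ (w : ℕ) (D : Place k X.K →₀ ℤ) (f : X.K), f ≠ 0 → (∀ j, TInc.ord (cK c j).1 f = 0) →
        (∀ q, 0 ≤ TInc.ord q f + w * D q) → (∀ q, D q ≠ 0 → q ∈ T) →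
        ∀ T' : Finset (Place k X.K),
        (∀ q, TInc.ord q f + w * D q ≠ 0 → q ∈ T') → (∀ j, (cK c j).1 ∉ T') →
        (∏ q ∈ T, (1 + τ * algebraMap k (Om k) (TInc.val q φ)) ^ (D q)) ^ w *
            ∏ j, TInc.evO (SK j) f =
          algebraMap k (Om k) (∏ j, TInc.val (cK c j).1 f) *
            ∏ q ∈ T', (1 + τ * algebraMap k (Om k) (TInc.val q φ)) ^
              (TInc.ord q f + w * D q).toNat) ∧
      (∀ j (f : X.K), TInc.evO (S.s j) (f : X.L) = TInc.evO (SK j) f) ∧
      (∏ j, ∏ i, (S.l j).μ i =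
        ∏ q ∈ T, (1 + τ * algebraMap k (Om k) (TInc.val q φ)) ^ ((∑ b, X.E b) q)) ∧
      (∀ v : Place k (Om k), v.At τ 0 → ∃ (g : Fin n → X.G) (π : Equiv.Perm (Fin n)),
        S.To v (Tup.of c) g π) ∧
      ∀ (v : Place k (Om k)) (a : k), v.At (-τ⁻¹) a → (below X.G δ).At φ a →
        ∃ (j : Fin n) (g : X.G), TInc.Over v (S.s j) (δ.map g.1) := by
  have hUinj : Function.Injective (cK c) := fun i j h => hc (congrArg Subtype.val h)
  obtain ⟨SK, j₀, h1, h2, h3⟩ := TInc.exists_points (fix_curve X.G X.curve.dess) (cK c) hUinj hφ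
    hreg hpole T hTc hτ
  choose s hs1 hs2 using fun j => ptsW_ext c (SK j)
  have hne : ∀ q : Place k X.K, 1 + τ * algebraMap k (Om k) (TInc.val q φ) ≠ 0 := fun q =>
    fam_ne hτ _
  obtain ⟨l, hl1, hl2, hl3⟩ := exists_scl (X := X)
    (fun b => ∏ q ∈ T, (1 + τ * algebraMap k (Om k) (TInc.val q φ)) ^ (X.E b q))
    (fun b => ∏ q ∈ T, (1 + τ * algebraMap k (Om k) (TInc.val q φ)) ^ (X.E b q / 2))
    (fun b => Finset.prod_ne_zero_iff.2 fun q _ => zpow_ne_zero _ (hne q))
    (fun b => by
      rw [← Finset.prod_pow]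
      refine Finset.prod_congr rfl fun q _ => ?_
      obtain ⟨e, he⟩ := E_even b q
      rw [← zpow_natCast, ← zpow_mul]
      congr 1
      push_cast
      omega)
  classical
  refine ⟨⟨s, fun j => if j = j₀ then l else Scl.one X (Om k)⟩, SK, j₀, h1, hs1, ?_, ?_, ?_⟩
  · show ∏ j, ∏ i, (if j = j₀ then l else Scl.one X (Om k)).μ i = _
    rw [Finset.prod_eq_single j₀]
    · rw [if_pos rfl, hl1, Finset.prod_comm]
      refine Finset.prod_congr rfl fun q _ => ?_
      rw [Finsupp.finsetSum_apply]
      exact prod_zpow_sum (hne q) _ _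
    · intro j _ hj
      rw [if_neg hj]
      exact Finset.prod_eq_one fun i _ => rfl
    · intro h
      exact absurd (Finset.mem_univ _) h
  · intro v hv
    obtain ⟨π, hπ⟩ := h2 v hv
    choose g hg using fun j => hs2 j v (c (π j)).1 (hπ j)
    have hat : ∀ q : Place k X.K, v.At (1 + τ * algebraMap k (Om k) (TInc.val q φ)) 1 := by
      intro q
      have h := (Place.at_const (v := v) (1 : k)).add
        (hv.mul (Place.at_const (v := v) (TInc.val q φ)))
      rwa [map_one, zero_mul, add_zero] at h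
    have hone : v.At (1 : Om k) 1 := by
      have h := Place.at_const (v := v) (1 : k)
      rwa [map_one] at h
    have hprod : ∀ e : Place k X.K → ℤ,
        v.At (∏ q ∈ T, (1 + τ * algebraMap k (Om k) (TInc.val q φ)) ^ e q) 1 := by
      intro e
      have h := Place.At.prod (v := v) (s := T) (c := fun _ => (1 : k))
        fun q _ => at_zpow_one (hat q) (e q)
      rwa [Finset.prod_const_one] at h
    refine ⟨g, π, fun j => ⟨hg j, fun i => ?_, fun b => ?_⟩⟩
    · show v.At ((if j = j₀ then l else Scl.one X (Om k)).μ i) 1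
      split
      · rcases hl3 i with h | h
        · rw [h]
          exact hone
        · rw [h]
          exact hprod _
      · exact hone
    · show v.At ((if j = j₀ then l else Scl.one X (Om k)).ν b) 1
      split
      · rw [hl2]
        exact hprod _
      · exact hone
  · intro v a ha hδ
    obtain ⟨j, hj⟩ := h3 v a (below X.G δ) ha hδ
    obtain ⟨g, hg⟩ := hs2 j v δ hj
    exact ⟨j, g, hg⟩

end Pool.Agent.WFC
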