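import Pool.Agent.WFC.SBase
import Pool.Agent.WFC.Degrees

/-!
# General tuples
-/

set_option autoImplicit false

noncomputable section

namespace Pool.Agent.WFC

open Pool.Agent.EFC
open Pool.Agent.ZCyc Pool.Agent.TInf
open Pool.Agent.VFP (Om tt)

variable {k : Type} [Field k] [IsAlgClosed k] [CharZero k] {X : WC k} {n : ℕ}

private theorem unit_val {L : Type} [Field L] [Algebra k L] (hL : IsCurve k L) {c : Place k L}
    {f : L} (hf : f ≠ 0) (h1 : f ∈ c.ring) (h2 : f⁻¹ ∈ c.ring) : val c f ≠ 0 := by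
  intro h0
  have h3 := (at_val hL h1).mul (at_val hL h2)
  rw [mul_inv_cancel₀ hf, h0, zero_mul] at h3
  have h4 : c.At (1 : L) (1 : k) := by
    have := Place.at_const (v := c) (1 : k)
    rwa [map_one] at this
  exact one_ne_zero (h4.unique h3)

private theorem evO_rel (h : X.NonZero) (s : (X.L →ₐ[k] Om k) ⊕ X.U) {i i' : Fin X.N}
    (hr : X.rat i = X.rat i') :
    TInc.evO s (X.B i) ^ 2 * TInc.evO s (X.cub.α i') ^ 3 =
      TInc.evO s (X.B i') ^ 2 * TInc.evO s (X.cub.α i) ^ 3 := by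
  have hok := cub_ok h
  have h1 : X.B i ^ 2 * X.cub.α i' ^ 3 = X.B i' ^ 2 * X.cub.α i ^ 3 := by
    have h2 : X.B i ^ 2 / X.cub.α i ^ 3 = X.B i' ^ 2 / X.cub.α i' ^ 3 := hr
    rwa [div_eq_div_iff (pow_ne_zero _ (hok.α_ne i)) (pow_ne_zero _ (hok.α_ne i'))] at h2
  rcases s with σ | c
  · show σ (X.B i) ^ 2 * σ (X.cub.α i') ^ 3 = σ (X.B i') ^ 2 * σ (X.cub.α i) ^ 3
    rw [← map_pow, ← map_pow, ← map_mul, h1, map_mul, map_pow, map_pow]
  · have e1 : c.1.At (X.B i ^ 2 * X.cub.α i' ^ 3)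
        (val c.1 (X.B i) ^ 2 * val c.1 (X.cub.α i') ^ 3) :=
      ((at_val X.curve (c.2 i).2.1.1).pow 2).mul ((at_val X.curve (c.2 i').1.1).pow 3)
    have e2 : c.1.At (X.B i' ^ 2 * X.cub.α i ^ 3)
        (val c.1 (X.B i') ^ 2 * val c.1 (X.cub.α i) ^ 3) :=
      ((at_val X.curve (c.2 i').2.1.1).pow 2).mul ((at_val X.curve (c.2 i).1.1).pow 3)
    rw [h1] at e1
    have e3 := e1.unique e2
    show algebraMap k (Om k) (val c.1 (X.B i)) ^ 2 *
        algebraMap k (Om k) (val c.1 (X.cub.α i')) ^ 3 =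
      algebraMap k (Om k) (val c.1 (X.B i')) ^ 2 * algebraMap k (Om k) (val c.1 (X.cub.α i)) ^ 3
    rw [← map_pow, ← map_pow, ← map_mul, e3, map_mul, map_pow, map_pow]

private theorem evO_cst (h : X.NonZero) (s : (X.L →ₐ[k] Om k) ⊕ X.U) {i : Fin X.N} {a : k}
    (hr : X.rat i = algebraMap k X.L a) :
    TInc.evO s (X.B i) ^ 2 = algebraMap k (Om k) a * TInc.evO s (X.cub.α i) ^ 3 := by
  have hok := cub_ok h
  have h1 : X.B i ^ 2 = algebraMap k X.L a * X.cub.α i ^ 3 := by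
    have h2 : X.B i ^ 2 / X.cub.α i ^ 3 = algebraMap k X.L a := hr
    rwa [div_eq_iff (pow_ne_zero _ (hok.α_ne i))] at h2
  rcases s with σ | c
  · show σ (X.B i) ^ 2 = algebraMap k (Om k) a * σ (X.cub.α i) ^ 3
    rw [← map_pow, h1, map_mul, map_pow, AlgHom.commutes]
  · have e1 : c.1.At (X.B i ^ 2) (val c.1 (X.B i) ^ 2) :=
      (at_val X.curve (c.2 i).2.1.1).pow 2
    have e2 : c.1.At (algebraMap k X.L a * X.cub.α i ^ 3) (a * val c.1 (X.cub.α i) ^ 3) :=
      (Place.at_const a).mul ((at_val X.curve (c.2 i).1.1).pow 3)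
    rw [h1] at e1
    have e3 := e1.unique e2
    show algebraMap k (Om k) (val c.1 (X.B i)) ^ 2 =
      algebraMap k (Om k) a * algebraMap k (Om k) (val c.1 (X.cub.α i)) ^ 3
    rw [← map_pow, e3, map_mul, map_pow]

omit [IsAlgClosed k] [CharZero k] in
private theorem gal_rat (g : X.G) (i : Fin X.N) : X.rat i = g.1 (X.rat ((X.gal g)⁻¹ i)) := by
  have e1 := gal_α g ((X.gal g)⁻¹ i)
  have e2 := X.gal_B g ((X.gal g)⁻¹ i)
  rw [gal_gal_inv] at e1 e2
  show X.B i ^ 2 / X.cub.α i ^ 3 =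
    g.1 (X.B ((X.gal g)⁻¹ i) ^ 2 / X.cub.α ((X.gal g)⁻¹ i) ^ 3)
  rw [map_div₀, map_pow, map_pow, e1, e2]

private theorem val_rat (h : X.NonZero) (c : X.U) (i : Fin X.N) :
    val c.1 (X.rat i) = val c.1 (X.B i) ^ 2 / val c.1 (X.cub.α i) ^ 3 := by
  have hok := cub_ok h
  have h0 : val c.1 (X.cub.α i) ≠ 0 :=
    unit_val X.curve (hok.α_ne i) (c.2 i).1.1 (c.2 i).1.2
  exact val_eq (((at_val X.curve (c.2 i).2.1.1).pow 2).div
    ((at_val X.curve (c.2 i).1.1).pow 3) (pow_ne_zero _ h0))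

/-- If equal ratios at two slots are equal for a general reason, then the tuple is general in the
sense of `KW`. Proof. `nd`: the coefficients and discriminants are units at good places, and the
scalings are not zero. `rel`: let `D.At v S (D.act (t, 1) π)`, so `π = slotP g τ * S.2` (up to `1 *`). Put
`(i, j) = sl.symm (S.2 x)`, `(i', j') = sl.symm (S.2 y)`. The numbers `B ² / α ³` of the slots
`slotP g τ (sl (i, j)) = sl (g_j⁻¹ i, τ j)` of `t` are `val (c (τ j)) (X.rat (g_j⁻¹ i))` (the scalings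
cancel; the values of `B` and `α ≠ 0` at good places, so `val` of the quotient is the quotient of the
values). By `hr` either `τ j = τ j'`, so `j = j'` and `g_j = g_j'`, and `rat (g_j⁻¹ i) = rat (g_j⁻¹ i')`; apply
`g_j`: `rat i = rat i'` (`gal_α`, `X.gal_B`). Or both are the same constant `a`, and again
`rat i = a = rat i'` by applying `g_j` and `g_j'`. In both cases the values of `EB ² EA ³` are equal:
for an embedding (or a constant good place) `evO` of `B_i ² / α_i ³` is the quotient of the values; the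
scalings cancel. In the first case the points of the curve are the same, in the second case the ratio
is the constant `a` at all points. -/
theorem gen_of (h : X.NonZero) (t : Tup X n)
    (hr : ∀ (i i' : Fin X.N) (j j' : Fin n),
      val (t.c j).1 (X.rat i) = val (t.c j').1 (X.rat i') →
      (j = j' ∧ X.rat i = X.rat i') ∨
        ∃ a : k, X.rat i = algebraMap k X.L a ∧ X.rat i' = algebraMap k X.L a) :
    (X.bs n).Gen (t, 1) := by
  have hok := cub_ok h
  have hα : ∀ (c : X.U) (i : Fin X.N), val c.1 (X.cub.α i) ≠ 0 := fun c i =>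
    unit_val X.curve (hok.α_ne i) (c.2 i).1.1 (c.2 i).1.2
  have hB : ∀ (c : X.U) (i : Fin X.N), val c.1 (X.B i) ≠ 0 := fun c i =>
    unit_val X.curve (hok.B_ne i) (c.2 i).2.1.1 (c.2 i).2.1.2
  constructor
  · intro _
    refine ⟨fun x => ?_, fun x => ?_, fun x => ?_⟩
    · obtain ⟨⟨i, j⟩, rfl⟩ := (sl X n).surjective x
      show t.a (sl X n (i, j)) ≠ 0
      rw [Tup.a_slot]
      exact mul_ne_zero (pow_ne_zero _ ((t.l j).μ_ne i)) (hα _ _)
    · obtain ⟨⟨i, j⟩, rfl⟩ := (sl X n).surjective x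
      show t.b (sl X n (i, j)) ≠ 0
      rw [Tup.b_slot]
      exact mul_ne_zero (pow_ne_zero _ ((t.l j).μ_ne i)) (hB _ _)
    · obtain ⟨⟨i, j⟩, rfl⟩ := (sl X n).surjective x
      show t.b (sl X n (i, j)) ^ 2 ≠ 4 * t.a (sl X n (i, j)) ^ 3
      rw [Tup.b_slot, Tup.a_slot]
      intro h1
      have hμ := (t.l j).μ_ne i
      have h2 : val (t.c j).1 (X.B i) ^ 2 - 4 * val (t.c j).1 (X.cub.α i) ^ 3 = 0 := by
        have h3 : (t.l j).μ i ^ 6 *
            (val (t.c j).1 (X.B i) ^ 2 - 4 * val (t.c j).1 (X.cub.α i) ^ 3) = 0 := by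
          linear_combination h1
        exact (mul_eq_zero.1 h3).resolve_left (pow_ne_zero _ hμ)
      have h4 : (t.c j).1.At (4 : X.L) (4 : k) := by
        have := Place.at_const (v := (t.c j).1) (4 : k)
        rwa [map_ofNat] at this
      have h5 : (t.c j).1.At (X.B i ^ 2 - 4 * X.cub.α i ^ 3)
          (val (t.c j).1 (X.B i) ^ 2 - 4 * val (t.c j).1 (X.cub.α i) ^ 3) :=
        ((at_val X.curve ((t.c j).2 i).2.1.1).pow 2).sub
          (h4.mul ((at_val X.curve ((t.c j).2 i).1.1).pow 3))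
      have h6 := unit_val X.curve (hok.disc i) h5.mem ((t.c j).2 i).2.2.1
      exact h6 ((val_eq h5).trans h2)
  · rintro _ v S π ⟨g, τ, h1, h2⟩ x y hxy
    obtain ⟨⟨i, j⟩, hx⟩ := (sl X n).surjective (S.2 x)
    obtain ⟨⟨i', j'⟩, hy⟩ := (sl X n).surjective (S.2 y)
    have e0 : ((X.bs n).act (t, 1) π).2 = slotP g τ * S.2 := h1
    have ex : ((X.bs n).act (t, 1) π).2 x = sl X n ((X.gal (g j))⁻¹ i, τ j) := by
      rw [e0, Equiv.Perm.mul_apply, ← hx, slotP_apply]
    have ey : ((X.bs n).act (t, 1) π).2 y = sl X n ((X.gal (g j'))⁻¹ i', τ j') := by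
      rw [e0, Equiv.Perm.mul_apply, ← hy, slotP_apply]
    change t.b (((X.bs n).act (t, 1) π).2 x) ^ 2 * t.a (((X.bs n).act (t, 1) π).2 y) ^ 3 =
      t.b (((X.bs n).act (t, 1) π).2 y) ^ 2 * t.a (((X.bs n).act (t, 1) π).2 x) ^ 3 at hxy
    rw [ex, ey, Tup.a_slot, Tup.a_slot, Tup.b_slot, Tup.b_slot] at hxy
    have hμ := (t.l (τ j)).μ_ne ((X.gal (g j))⁻¹ i)
    have hμ' := (t.l (τ j')).μ_ne ((X.gal (g j'))⁻¹ i')
    have h3 : val (t.c (τ j)).1 (X.rat ((X.gal (g j))⁻¹ i)) =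
        val (t.c (τ j')).1 (X.rat ((X.gal (g j'))⁻¹ i')) := by
      rw [val_rat h, val_rat h, div_eq_div_iff (pow_ne_zero _ (hα _ _)) (pow_ne_zero _ (hα _ _))]
      have h4 := mul_ne_zero (pow_ne_zero 6 hμ) (pow_ne_zero 6 hμ')
      refine mul_left_cancel₀ h4 ?_
      linear_combination hxy
    change S.1.b (S.2 x) ^ 2 * S.1.a (S.2 y) ^ 3 = S.1.b (S.2 y) ^ 2 * S.1.a (S.2 x) ^ 3
    rw [← hx, ← hy, TupO.a_slot, TupO.a_slot, TupO.b_slot, TupO.b_slot]
    rcases hr _ _ _ _ h3 with ⟨h4, h5⟩ | ⟨a, h4, h5⟩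
    · have h6 : j = j' := τ.injective h4
      subst h6
      have h7 : X.rat i = X.rat i' := by
        rw [gal_rat (g j) i, gal_rat (g j) i', h5]
      have h8 := evO_rel h (S.1.s j) h7
      linear_combination (((S.1.l j).μ i) ^ 6 * ((S.1.l j).μ i') ^ 6) * h8
    · have h6 : X.rat i = algebraMap k X.L a := by
        rw [gal_rat (g j) i, h4, AlgEquiv.commutes]
      have h7 : X.rat i' = algebraMap k X.L a := by
        rw [gal_rat (g j') i', h5, AlgEquiv.commutes]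
      have h8 := evO_cst h (S.1.s j) h6
      have h9 := evO_cst h (S.1.s j') h7
      linear_combination (((S.1.l j).μ i) ^ 6 * ((S.1.l j').μ i') ^ 6) *
        (TInc.evO (S.1.s j') (X.cub.α i') ^ 3 * h8 - TInc.evO (S.1.s j) (X.cub.α i) ^ 3 * h9)

end Pool.Agent.WFC
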