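import Pool.Agent.EFC.Sing
import Pool.Agent.WFC.Value
import Pool.Agent.WFC.Classes

/-!
# Singular fibres
-/

set_option autoImplicit false

noncomputable section

namespace Pool.Agent.WFC

open Pool.Agent.EFC
open Pool.Agent.ZCyc
open Pool.Agent.VFP (Om tt)

variable {k : Type} [Field k] [IsAlgClosed k] [CharZero k] {X : WC k} {n : ℕ}

section aux

/-- the double root -/
private theorem sg_double {k : Type} [Field k] [CharZero k] {p q : k}
    (hs : 4 * p ^ 3 + 27 * q ^ 2 = 0) : ∃ α : k, p = -3 * α ^ 2 ∧ q = 2 * α ^ 3 := by
  by_cases hp : p = 0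
  · refine ⟨0, by simp [hp], ?_⟩
    rw [hp] at hs
    have hq : q ^ 2 = 0 := by
      have h27 : (27 : k) ≠ 0 := by norm_num
      have : (27 : k) * q ^ 2 = 0 := by linear_combination hs
      exact (mul_eq_zero.1 this).resolve_left h27
    rw [pow_eq_zero_iff (by norm_num)] at hq
    rw [hq]
    ring
  · refine ⟨-3 * q / (2 * p), ?_, ?_⟩
    · have h2 : (2 : k) ≠ 0 := by norm_num
      field_simp
      linear_combination hs
    · have h2 : (2 : k) ≠ 0 := by norm_num
      field_simp
      linear_combination q * hs

private theorem sg_fac {K : Type*} [Field K] (a x : K) :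
    fac (-3 * a ^ 2) (2 * a ^ 3) x 1 = (x - a) ^ 2 * (x + 2 * a) := by
  unfold fac
  ring

/-- change of one coordinate `x_i` -/
private theorem sg_update {K : Type*} [Field K] {N r : ℕ} {blk : Fin N → Fin r}
    {f : Fin N → K → K} {x : Fin N → K} {y : Fin r → K}
    (hP : ∀ b, y b ^ 2 = ∏ i with blk i = b, f i (x i)) {i : Fin N} {z c : K}
    (hc : c ^ 2 * f i (x i) = f i z) (b : Fin r) :
    Function.update y (blk i) (c * y (blk i)) b ^ 2 =
      ∏ i' with blk i' = b, f i' (Function.update x i z i') := by
  by_cases hb : b = blk i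
  · subst hb
    have hi : i ∈ Finset.univ.filter fun j => blk j = blk i := by
      rw [Finset.mem_filter]
      exact ⟨Finset.mem_univ i, rfl⟩
    rw [Function.update_self, mul_pow, hP (blk i), ← Finset.mul_prod_erase _ _ hi,
      ← Finset.mul_prod_erase (Finset.univ.filter fun j => blk j = blk i)
        (fun j => f j (Function.update x i z j)) hi, Function.update_self, ← hc, mul_assoc]
    congr 2
    refine Finset.prod_congr rfl fun j hj => ?_
    rw [Function.update_of_ne (Finset.ne_of_mem_erase hj)]
  · rw [Function.update_of_ne hb, hP b]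
    refine Finset.prod_congr rfl fun j hj => ?_
    have hji : j ≠ i := by
      rintro rfl
      exact hb (Finset.mem_filter.1 hj).2.symm
    rw [Function.update_of_ne hji]

private theorem sg_isValue {k : Type} [Field k] {X : WC k} {v : Place k (Om k)}
    {c : Place k X.L} {x z : Fin X.N → k} {y : Fin X.r → k} {x' z' : Fin X.N → Om k}
    {y' : Fin X.r → Om k} (hx : ∀ i, v.At (x' i) (x i)) (hz : ∀ i, v.At (z' i) (z i))
    (hy : ∀ b, v.At (y' b) (y b)) :
    X.IsValue v ⟨.inr c, x', z', y'⟩ ⟨c, x, z, y⟩ := by
  have h1 : unifO (.inr c : (X.L →ₐ[k] Om k) ⊕ Place k X.L) c = 1 := rfl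
  refine ⟨rfl, fun _ => 1, fun i => ?_, fun i => ?_, fun b => ?_⟩
  · show v.Vanishes (1 * unifO (.inr c) c ^ X.D i c * x' i - algebraMap k (Om k) (x i))
    rw [h1, one_zpow, one_mul, one_mul]
    exact hx i
  · show v.Vanishes (1 * z' i - algebraMap k (Om k) (z i))
    rw [one_mul]
    exact hz i
  · show v.Vanishes ((∏ i with X.blk i = b, (1 : Om k)) ^ 2 *
      unifO (.inr c) c ^ (3 * ((∑ i with X.blk i = b, X.D i c) / 2)) * y' b -
        algebraMap k (Om k) (y b))
    rw [h1, one_zpow, Finset.prod_const_one, one_pow, one_mul, one_mul]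
    exact hy b

private theorem sg_at_update {k : Type} [Field k] {v : Place k (Om k)} {N : ℕ} {x : Fin N → k}
    {i : Fin N} {z : k} {Z : Om k} (hz : v.At Z z) (j : Fin N) :
    v.At (Function.update (fun j => algebraMap k (Om k) (x j)) i Z j)
      (Function.update x i z j) := by
  by_cases hj : j = i
  · subst hj
    rw [Function.update_self, Function.update_self]
    exact hz
  · rw [Function.update_of_ne hj, Function.update_of_ne hj]
    exact Place.at_const _

end aux

/-- the moving component -/
private theorem sg_main {w : Fin n → Crd X} (hw : ∀ j, (w j).On) {j : Fin n} {i : Fin X.N}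
    (hz1 : ∀ i', (w j).z i' = 1)
    (hs : 4 * X.coA (w j).c i ^ 3 + 27 * X.coB (w j).c i ^ 2 = 0) : X.TN w = 0 := by
  classical
  obtain ⟨α, ha, hb⟩ := sg_double hs
  have hP := (hw j).2
  have hff : ∀ x : k, fac (X.coA (w j).c i) (X.coB (w j).c i) x ((w j).z i) =
      (x - α) ^ 2 * (x + 2 * α) := by
    intro x
    rw [ha, hb, hz1, sg_fac]
  have hffK : ∀ x : Om k, fac (X.coAO (.inr (w j).c) i) (X.coBO (.inr (w j).c) i) x
      (algebraMap k (Om k) ((w j).z i)) =
      (x - algebraMap k (Om k) α) ^ 2 * (x + 2 * algebraMap k (Om k) α) := by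
    intro x
    show fac (algebraMap k (Om k) (X.coA (w j).c i)) (algebraMap k (Om k) (X.coB (w j).c i)) x
      (algebraMap k (Om k) ((w j).z i)) = _
    rw [ha, hb, hz1, map_one, ← sg_fac]
    simp only [map_mul, map_pow, map_neg, map_ofNat]
  by_cases h0 : fac (X.coA (w j).c i) (X.coB (w j).c i) ((w j).x i) ((w j).z i) = 0
  · have hy : (w j).y (X.blk i) = 0 := by
      have h1 := hP (X.blk i)
      rw [Finset.prod_eq_zero (i := i) (by simp) h0] at h1
      exact (pow_eq_zero_iff two_ne_zero).1 h1
    exact TN_y (j := j) (b := X.blk i) hy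
  · obtain ⟨l', hl⟩ := IsAlgClosed.exists_pow_nat_eq ((w j).x i + 2 * α) (n := 2) (by norm_num)
    have h1 : (w j).x i - α ≠ 0 := by
      intro h2
      apply h0
      rw [hff, h2]
      ring
    have h2 : l' ≠ 0 := by
      rintro rfl
      apply h0
      rw [hff, ← hl]
      ring
    -- the family
    let τ : Om k := algebraMap k (Om k) l' * (1 - tt k)
    let Z : Om k := τ ^ 2 - algebraMap k (Om k) (2 * α)
    let C : Om k := τ * (Z - algebraMap k (Om k) α) *
      algebraMap k (Om k) (l' * ((w j).x i - α))⁻¹
    have hC : C ^ 2 * fac (X.coAO (.inr (w j).c) i) (X.coBO (.inr (w j).c) i)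
        (algebraMap k (Om k) ((w j).x i)) (algebraMap k (Om k) ((w j).z i)) =
        fac (X.coAO (.inr (w j).c) i) (X.coBO (.inr (w j).c) i) Z
        (algebraMap k (Om k) ((w j).z i)) := by
      have e1 : fac (X.coAO (.inr (w j).c) i) (X.coBO (.inr (w j).c) i)
          (algebraMap k (Om k) ((w j).x i)) (algebraMap k (Om k) ((w j).z i)) =
          algebraMap k (Om k) ((l' * ((w j).x i - α)) ^ 2) := by
        rw [hffK]
        have e0 : (l' * ((w j).x i - α)) ^ 2 = ((w j).x i - α) ^ 2 * ((w j).x i + 2 * α) := by
          rw [← hl]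
          ring
        rw [e0]
        simp only [map_mul, map_pow, map_sub, map_add, map_ofNat]
      rw [e1, hffK]
      have e2 : Z + 2 * algebraMap k (Om k) α = τ ^ 2 := by
        simp only [Z, map_mul, map_ofNat]
        ring
      rw [e2]
      have e3 : algebraMap k (Om k) (l' * ((w j).x i - α))⁻¹ *
          algebraMap k (Om k) (l' * ((w j).x i - α)) = 1 := by
        rw [← map_mul, inv_mul_cancel₀ (mul_ne_zero h2 h1), map_one]
      have e4 : C ^ 2 * algebraMap k (Om k) ((l' * ((w j).x i - α)) ^ 2) =
          (Z - algebraMap k (Om k) α) ^ 2 * τ ^ 2 *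
            (algebraMap k (Om k) (l' * ((w j).x i - α))⁻¹ *
              algebraMap k (Om k) (l' * ((w j).x i - α))) ^ 2 := by
        simp only [C, map_pow]
        ring
      rw [e4, e3, one_pow, mul_one]
    have hPO := (on_cst (hw j)).2
    have hOn : (⟨.inr (w j).c, Function.update (fun i' => algebraMap k (Om k) ((w j).x i')) i Z,
        fun i' => algebraMap k (Om k) ((w j).z i'),
        Function.update (fun b => algebraMap k (Om k) ((w j).y b)) (X.blk i)
          (C * algebraMap k (Om k) ((w j).y (X.blk i)))⟩ : CrdO X).On := by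
      refine ⟨fun i' => Or.inr ?_, ?_⟩
      · show algebraMap k (Om k) ((w j).z i') ≠ 0
        rw [hz1, map_one]
        exact one_ne_zero
      · exact sg_update (f := fun i' x => fac (X.coAO (.inr (w j).c) i')
          (X.coBO (.inr (w j).c) i') x (algebraMap k (Om k) ((w j).z i'))) hPO hC
    refine bridgeTN (I := Unit) (fun _ => 1) (fun _ => Function.update
        (fun j' => (w j').cst) j ⟨.inr (w j).c,
          Function.update (fun i' => algebraMap k (Om k) ((w j).x i')) i Z,
          fun i' => algebraMap k (Om k) ((w j).z i'),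
          Function.update (fun b => algebraMap k (Om k) ((w j).y b)) (X.blk i)
            (C * algebraMap k (Om k) ((w j).y (X.blk i)))⟩) ?_ 0 1 _ _ ?_ ?_
    · intro _ j'
      by_cases hj : j' = j
      · subst hj
        rw [Function.update_self]
        exact hOn
      · rw [Function.update_of_ne hj]
        exact on_cst (hw j')
    · intro v hv
      have hτ : v.At τ l' := by
        have := (Place.at_const (v := v) l').mul ((Place.at_const (v := v) (1 : k)).sub hv)
        rw [map_one, sub_zero, mul_one] at this
        exact this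
      have hZ : v.At Z ((w j).x i) := by
        have := (hτ.pow 2).sub (Place.at_const (v := v) (2 * α))
        rwa [hl, add_sub_cancel_right] at this
      have hCv : v.At C 1 := by
        have := (hτ.mul (hZ.sub (Place.at_const (v := v) α))).mul
          (Place.at_const (v := v) (l' * ((w j).x i - α))⁻¹)
        rwa [mul_inv_cancel₀ (mul_ne_zero h2 h1)] at this
      refine ⟨fun _ => X.TN w, fun _ => ⟨w, hw, fun j' => ?_, rfl⟩, by simp⟩
      by_cases hj : j' = j
      · subst hj
        rw [Function.update_self]
        have hval := sg_isValue (X := X) (c := (w j').c)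
          (sg_at_update (x := (w j').x) (i := i) hZ)
          (fun i' => Place.at_const (v := v) ((w j').z i'))
          (sg_at_update (x := (w j').y) (i := X.blk i)
            (hCv.mul (Place.at_const (v := v) ((w j').y (X.blk i)))))
        rw [one_mul, Function.update_eq_self, Function.update_eq_self] at hval
        exact hval
      · rw [Function.update_of_ne hj]
        exact isValue_cst v (w j')
    · intro v hv
      have hτ : v.At τ 0 := by
        have := (Place.at_const (v := v) l').mul ((Place.at_const (v := v) (1 : k)).sub hv)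
        rw [map_one, sub_self, mul_zero] at this
        exact this
      have hZ : v.At Z (-(2 * α)) := by
        have := (hτ.pow 2).sub (Place.at_const (v := v) (2 * α))
        rwa [zero_pow two_ne_zero, zero_sub] at this
      have hCv : v.At C 0 := by
        have := (hτ.mul (hZ.sub (Place.at_const (v := v) α))).mul
          (Place.at_const (v := v) (l' * ((w j).x i - α))⁻¹)
        rwa [zero_mul, zero_mul] at this
      have hOn0 : (⟨(w j).c, Function.update (w j).x i (-(2 * α)), (w j).z,
          Function.update (w j).y (X.blk i) (0 * (w j).y (X.blk i))⟩ : Crd X).On := by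
        refine ⟨fun i' => Or.inr ?_, ?_⟩
        · show (w j).z i' ≠ 0
          rw [hz1]
          exact one_ne_zero
        · refine sg_update (f := fun i' x => fac (X.coA (w j).c i')
            (X.coB (w j).c i') x ((w j).z i')) hP ?_
          rw [hff (-(2 * α))]
          ring
      refine ⟨fun _ => 0, fun _ => ⟨Function.update w j ⟨(w j).c,
        Function.update (w j).x i (-(2 * α)), (w j).z,
        Function.update (w j).y (X.blk i) (0 * (w j).y (X.blk i))⟩,
        fun j' => ?_, fun j' => ?_, ?_⟩, by simp⟩
      · by_cases hj : j' = j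
        · subst hj
          rw [Function.update_self]
          exact hOn0
        · rw [Function.update_of_ne hj]
          exact hw j'
      · by_cases hj : j' = j
        · subst hj
          rw [Function.update_self, Function.update_self]
          exact sg_isValue (X := X) (c := (w j').c)
            (sg_at_update (x := (w j').x) (i := i) hZ)
            (fun i' => Place.at_const (v := v) ((w j').z i'))
            (sg_at_update (x := (w j').y) (i := X.blk i)
              (hCv.mul (Place.at_const (v := v) ((w j').y (X.blk i)))))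
        · rw [Function.update_of_ne hj, Function.update_of_ne hj]
          exact isValue_cst v (w j')
      · refine TN_y (j := j) (b := X.blk i) ?_
        rw [Function.update_self]
        change Function.update (w j).y (X.blk i) (0 * (w j).y (X.blk i)) (X.blk i) = 0
        rw [Function.update_self, zero_mul]

/-- The class is zero if one of the cubics is singular at one of the points. Adapt
`Pool.Agent.TInf.TN_sing` (`TInf/GeoSing.lean`, easier here: all points of the family are constant
points `.inr c` of the curve, so that the base does not matter): if some `z_i' = 0` then `y_b = 0` and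
`TN_y` applies. Otherwise scale to `z_i' = 1` (`TN_scale`); the cubic with index `i` is
`(x - α) ² (x + 2 α)`; move `x_i = τ ² - 2 α` to `-2 α` with `y_b` multiplied by
`τ (x - α) / (l (x_i - α))`. Use `bridgeTN`. -/
theorem TN_sing {w : Fin n → Crd X} (hw : ∀ j, (w j).On) {j : Fin n} {i : Fin X.N}
    (hs : 4 * X.coA (w j).c i ^ 3 + 27 * X.coB (w j).c i ^ 2 = 0) : X.TN w = 0 := by
  classical
  by_cases hz : ∃ i', (w j).z i' = 0
  · obtain ⟨i', hi'⟩ := hz
    exact TN_y (j := j) (y_eq_zero (hw j) hi')
  · push Not at hz
    have hm : ∀ j' i', (fun j' i' => if j' = j then ((w j).z i')⁻¹ else (1 : k)) j' i' ≠ 0 := by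
      intro j' i'
      simp only
      split_ifs
      · exact inv_ne_zero (hz i')
      · exact one_ne_zero
    rw [← TN_scale hm hw]
    refine sg_main (j := j) (i := i) (fun j' => on_scale (hm j') (hw j')) (fun i' => ?_) hs
    show (if j = j then ((w j).z i')⁻¹ else (1 : k)) * (w j).z i' = 1
    rw [if_pos rfl, inv_mul_cancel₀ (hz i')]

theorem AN_sing {w : Fin n → Crd X} (hw : ∀ j, (w j).On) {j : Fin n} {i : Fin X.N}
    (hs : 4 * X.coA (w j).c i ^ 3 + 27 * X.coB (w j).c i ^ 2 = 0) : X.AN w = 0 := by
  rw [WC.AN]
  refine Finset.sum_eq_zero fun τ _ => ?_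
  have h1 : (w ∘ τ) (τ.symm j) = w j := by
    show w (τ (τ.symm j)) = w j
    rw [Equiv.apply_symm_apply]
  rw [TN_sing (w := w ∘ τ) (fun j' => hw _) (j := τ.symm j) (i := i) (by rw [h1]; exact hs),
    smul_zero]

end Pool.Agent.WFC
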