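import Pool.Agent.WFC.SSlot
import Pool.Agent.WFC.Sing

/-!
# The system of classes of a variety over a curve
-/

set_option autoImplicit false

noncomputable section

namespace Pool.Agent.WFC

open Pool.Agent.EFC
open Pool.Agent.ZCyc Pool.Agent.TInf
open Pool.Agent.VFP (Om tt)

variable {k : Type} [Field k] [IsAlgClosed k] [CharZero k] {X : WC k} {n : ℕ}

open Classical in
/-- the class function; it is zero if not all points are on the curves -/
def FG (t : Tup X n) (q : Fin (X.N * n) → EPt k) : VP (X.pow n) :=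
  if ∀ x, EOn (t.a x) (t.b x) (q x) then
    X.AN (fun j => pt (t.c j) (t.l j) fun i => q (sl X n (i, j))) else 0

theorem FG_on {t : Tup X n} {q : Fin (X.N * n) → EPt k} (h : ∀ x, EOn (t.a x) (t.b x) (q x)) :
    FG t q = X.AN (fun j => pt (t.c j) (t.l j) fun i => q (sl X n (i, j))) := if_pos h

private theorem ss_sq {m : ℕ} (π : Equiv.Perm (Fin m)) :
    (((Equiv.Perm.sign π : ℤˣ) : ℤ) : ℚ) * (((Equiv.Perm.sign π : ℤˣ) : ℤ) : ℚ) = 1 := by
  rw [← Int.cast_mul, ← Units.val_mul, Int.units_mul_self]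
  simp

private theorem ss_ai {m : ℕ} (π : Equiv.Perm (Fin m)) (x : Fin m) : π (π⁻¹ x) = x :=
  π.apply_symm_apply x

private theorem ss_ia {m : ℕ} (π : Equiv.Perm (Fin m)) (x : Fin m) : π⁻¹ (π x) = x :=
  π.symm_apply_apply x

private theorem ss_smul {m : ℕ} (π : Equiv.Perm (Fin m)) {W : Type*} [AddCommGroup W]
    [Module ℚ W] (a : W) :
    (((Equiv.Perm.sign π : ℤˣ) : ℤ) : ℚ) • (((Equiv.Perm.sign π : ℤˣ) : ℤ) : ℚ) • a = a := by
  rw [smul_smul, ss_sq, one_smul]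

omit [IsAlgClosed k] [CharZero k] in
private theorem ss_base {v : Place k (Om k)} {S : (X.L →ₐ[k] Om k) ⊕ X.U} {c : Place k X.L}
    (h : TInc.Over v S c) : BaseValue v (S.map id Subtype.val) c := by
  rcases S with σ | c'
  · exact Eq.symm h
  · exact h

/-- the conjugate good place -/
private def ss_c (t : Tup X n) (g : Fin n → X.G) (τ : Equiv.Perm (Fin n)) (j : Fin n) : X.U :=
  ⟨(t.c (τ j)).1.map (g j).1, map_mem_U (g j) (t.c (τ j)).2⟩

omit [IsAlgClosed k] [CharZero k] in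
private theorem ss_prod (g : X.G) (μ : Fin X.N → k) (b : Fin X.r) :
    ∏ i with X.blk i = b, μ ((X.gal g)⁻¹ i) = ∏ i with X.blk i = b, μ i := by
  refine Finset.prod_nbij' (fun i => (X.gal g)⁻¹ i) (fun i => X.gal g i) ?_ ?_ ?_ ?_ ?_
  · intro i hi
    rw [Finset.mem_filter] at hi ⊢
    refine ⟨Finset.mem_univ _, ?_⟩
    have h1 := X.gal_blk g ((X.gal g)⁻¹ i)
    rw [gal_gal_inv] at h1
    rw [← h1]
    exact hi.2
  · intro i hi
    rw [Finset.mem_filter] at hi ⊢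
    exact ⟨Finset.mem_univ _, (X.gal_blk g i).trans hi.2⟩
  · intro i _
    exact gal_gal_inv g i
  · intro i _
    exact (X.gal g).symm_apply_apply i
  · intro i _
    rfl

/-- the conjugate scalings -/
private def ss_l (t : Tup X n) (g : Fin n → X.G) (τ : Equiv.Perm (Fin n)) (j : Fin n) :
    Scl X k where
  μ i := (t.l (τ j)).μ ((X.gal (g j))⁻¹ i)
  ν b := (t.l (τ j)).ν b
  μ_ne i := (t.l (τ j)).μ_ne _
  sq b := by
    rw [ss_prod (g j) (t.l (τ j)).μ b]
    exact (t.l (τ j)).sq b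

private theorem ss_onO {S : (X.bs n).Q} {P : Fin 1 → Fin (X.N * n) → EPt (Om k)}
    (h : (X.bs n).OnQ S P) (j : Fin n) (i : Fin X.N) :
    EOn ((S.1.l j).μ i ^ 2 * TInc.evO (S.1.s j) (X.cub.α i))
      ((S.1.l j).μ i ^ 3 * TInc.evO (S.1.s j) (X.cub.B i)) (P 0 (S.2⁻¹ (sl X n (i, j)))) := by
  have h1 : EOn (S.1.a (S.2 (S.2⁻¹ (sl X n (i, j))))) (S.1.b (S.2 (S.2⁻¹ (sl X n (i, j)))))
    (P 0 (S.2⁻¹ (sl X n (i, j)))) := h 0 (S.2⁻¹ (sl X n (i, j)))
  rw [ss_ai, TupO.a_slot, TupO.b_slot] at h1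
  exact h1

omit [IsAlgClosed k] [CharZero k] in
private theorem ss_on {t : Tup X n} {q : Fin (X.N * n) → EPt k}
    (h : ∀ x, EOn (t.a x) (t.b x) (q x)) (j : Fin n) (i : Fin X.N) :
    EOn ((t.l j).μ i ^ 2 * TInc.val (t.c j).1 (X.cub.α i))
      ((t.l j).μ i ^ 3 * TInc.val (t.c j).1 (X.cub.B i)) (q (sl X n (i, j))) := by
  have h1 := h (sl X n (i, j))
  rw [Tup.a_slot, Tup.b_slot] at h1
  exact h1

omit [IsAlgClosed k] [CharZero k] in
private theorem ss_iff {t : Tup X n} {q : Fin (X.N * n) → EPt k} {x₀ : Fin (X.N * n)} {x y : k}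
    (hq : q x₀ = some (x, y)) :
    (∀ z, EOn (t.a z) (t.b z) (Function.update q x₀ (some (x, -y)) z)) ↔
      ∀ z, EOn (t.a z) (t.b z) (q z) := by
  constructor
  · intro h z
    have h2 := h z
    by_cases hz : z = x₀
    · subst hz
      rw [Function.update_self] at h2
      rw [hq]
      have h3 : (-y) ^ 2 = x ^ 3 - 3 * t.a z * x + t.b z := h2
      change y ^ 2 = x ^ 3 - 3 * t.a z * x + t.b z
      rw [← h3]
      ring
    · rwa [Function.update_of_ne hz] at h2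
  · intro h z
    have h2 := h z
    by_cases hz : z = x₀
    · subst hz
      rw [Function.update_self]
      rw [hq] at h2
      have h3 : y ^ 2 = x ^ 3 - 3 * t.a z * x + t.b z := h2
      change (-y) ^ 2 = x ^ 3 - 3 * t.a z * x + t.b z
      rw [← h3]
      ring
    · rwa [Function.update_of_ne hz]

private theorem FG_odd {t : Tup X n} {q : Fin (X.N * n) → EPt k} {x₀ : Fin (X.N * n)} {x y : k}
    (hq : q x₀ = some (x, y)) :
    FG t (Function.update q x₀ (some (x, -y))) = -FG t q := by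
  by_cases hon : ∀ z, EOn (t.a z) (t.b z) (q z)
  swap
  · unfold FG
    rw [if_neg hon, if_neg (fun h => hon ((ss_iff hq).1 h)), neg_zero]
  rw [FG_on hon, FG_on ((ss_iff hq).2 hon)]
  obtain ⟨⟨i, j⟩, rfl⟩ := (sl X n).surjective x₀
  have h1 : (fun j' => (pt (t.c j') (t.l j') fun i' =>
        Function.update q (sl X n (i, j)) (some (x, -y)) (sl X n (i', j')) : Crd X)) =
      Function.update (fun j' => (pt (t.c j') (t.l j') fun i' => q (sl X n (i', j')) : Crd X)) j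
        ((pt (t.c j) (t.l j) fun i' => q (sl X n (i', j)) : Crd X).sg
          (Function.update 1 (X.blk i) (-1))) := by
    funext j'
    by_cases hj : j' = j
    · subst hj
      rw [Function.update_self, ← pt_neg (X := X) (c := t.c j') (l := t.l j')
        (p := fun i' => q (sl X n (i', j'))) (i := i) (x := x) (y := y) hq]
      congr 1
      funext i'
      by_cases hi : i' = i
      · subst hi
        rw [Function.update_self, Function.update_self]
      · rw [Function.update_of_ne hi, Function.update_of_ne]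
        intro he
        exact hi (Prod.ext_iff.1 ((sl X n).injective he)).1
    · rw [Function.update_of_ne hj]
      congr 1
      funext i'
      rw [Function.update_of_ne]
      intro he
      exact hj (Prod.ext_iff.1 ((sl X n).injective he)).2
  rw [h1, AN_sg]
  have h3 : sn (Function.update (1 : Fin X.r → ℤˣ) (X.blk i) (-1)) = -1 := by
    unfold sn
    rw [Finset.prod_eq_single (X.blk i)]
    · rw [Function.update_self]
      simp
    · intro b _ hb
      rw [Function.update_of_ne hb]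
      simp
    · intro hb
      exact absurd (Finset.mem_univ _) hb
  rw [h3, neg_one_smul]

private theorem FG_inf {t : Tup X n} {q : Fin (X.N * n) → EPt k} {x₀ : Fin (X.N * n)}
    (hq : q x₀ = none) : FG t q = 0 := by
  by_cases hon : ∀ z, EOn (t.a z) (t.b z) (q z)
  · rw [FG_on hon]
    obtain ⟨⟨i, j⟩, rfl⟩ := (sl X n).surjective x₀
    exact AN_y (j := j) (b := X.blk i) (pt_inf hq)
  · exact if_neg hon

private theorem ss_val {v : Place k (Om k)} {S : (X.bs n).Q}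
    {P : Fin 1 → Fin (X.N * n) → EPt (Om k)} (hP : (X.bs n).OnQ S P) {s : (X.bs n).P}
    {p : Fin 1 → Fin (X.N * n) → EPt k} (hs : (X.bs n).At v S s)
    (h : ∀ i j, EVal v (P i j) (p i j)) : (X.bs n).On s p := fun i j =>
  evalue_on ((X.bs n).at_al v S s hs i j) ((X.bs n).at_be v S s hs i j) (hP i j) (h i j)

private theorem ss_fin {v : Place k (Om k)} {S : (X.bs n).Q}
    {P : Fin 1 → Fin (X.N * n) → EPt (Om k)} (hP : (X.bs n).OnQ S P) {s : (X.bs n).P}
    {p : Fin 1 → Fin (X.N * n) → EPt k} (hs : (X.bs n).At v S s)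
    (h : ∀ i j, EVal v (P i j) (p i j)) :
    VAN X v (fun j => ptO (S.1.s j) (S.1.l j) fun i => P 0 (S.2⁻¹ (sl X n (i, j))))
      ((((Equiv.Perm.sign S.2 : ℤˣ) : ℤ) : ℚ) • (((Equiv.Perm.sign s.2 : ℤˣ) : ℤ) : ℚ) •
        FG s.1 fun x => p 0 (s.2⁻¹ x)) := by
  have hon := ss_val hP hs h
  obtain ⟨g, τ, h1, h2⟩ := hs
  have hon1 : ∀ x, EOn (s.1.a x) (s.1.b x) (p 0 (s.2⁻¹ x)) := by
    intro x
    have h3 : EOn (s.1.a (s.2 (s.2⁻¹ x))) (s.1.b (s.2 (s.2⁻¹ x))) (p 0 (s.2⁻¹ x)) :=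
      hon 0 (s.2⁻¹ x)
    rwa [ss_ai] at h3
  have hinv : ∀ x, s.2⁻¹ (slotP g τ x) = S.2⁻¹ x := by
    intro x
    rw [h1, mul_inv_rev, Equiv.Perm.mul_apply, ss_ia]
  have hinv2 : ∀ x, S.2⁻¹ ((slotP g τ)⁻¹ x) = s.2⁻¹ x := by
    intro x
    rw [h1, mul_inv_rev, Equiv.Perm.mul_apply]
  have hon2 : ∀ x, EOn (s.1.a (slotP g τ x)) (s.1.b (slotP g τ x)) (p 0 (S.2⁻¹ x)) := by
    intro x
    have h3 := hon1 (slotP g τ x)
    rwa [hinv] at h3
  have hon3 : ∀ j i, EOn ((ss_l s.1 g τ j).μ i ^ 2 * TInc.val (ss_c s.1 g τ j).1 (X.cub.α i))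
      ((ss_l s.1 g τ j).μ i ^ 3 * TInc.val (ss_c s.1 g τ j).1 (X.cub.B i))
      (p 0 (S.2⁻¹ (sl X n (i, j)))) := by
    intro j i
    have h3 := hon2 (sl X n (i, j))
    rw [slotP_apply, Tup.a_slot, Tup.b_slot, ← val_gal_α, ← val_gal_B] at h3
    exact h3
  refine ⟨fun j => pt (ss_c s.1 g τ j) (ss_l s.1 g τ j) fun i => p 0 (S.2⁻¹ (sl X n (i, j))),
    fun j => on_pt (hon3 j), fun j => ?_, ?_⟩
  · obtain ⟨a1, a2, a3⟩ := h2 j
    exact isValue_pt (S := S.1.s j) (l' := S.1.l j) (c := ss_c s.1 g τ j)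
      (l := ss_l s.1 g τ j) (P := fun i => P 0 (S.2⁻¹ (sl X n (i, j))))
      (p := fun i => p 0 (S.2⁻¹ (sl X n (i, j)))) a1 a2 a3 (fun i => ss_onO hP j i)
      fun i => h 0 (S.2⁻¹ (sl X n (i, j)))
  · have h4 := AN_slot s.1 g τ (fun x => p 0 (S.2⁻¹ x)) hon2 (c' := ss_c s.1 g τ)
      (fun j => rfl) (l' := ss_l s.1 g τ) (fun _ _ => rfl) fun _ _ => rfl
    rw [h4, FG_on hon1]
    have h5 : (fun j => (pt (s.1.c j) (s.1.l j) fun i =>
        p 0 (S.2⁻¹ ((slotP g τ)⁻¹ (sl X n (i, j)))) : Crd X)) =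
        fun j => pt (s.1.c j) (s.1.l j) fun i => p 0 (s.2⁻¹ (sl X n (i, j))) := by
      funext j
      congr 1
      funext i
      rw [hinv2]
    rw [h5, h1, Equiv.Perm.sign_mul, Units.val_mul, Int.cast_mul, mul_smul,
      smul_comm (((Equiv.Perm.sign S.2 : ℤˣ) : ℤ) : ℚ), ss_smul]

variable (X n)

/-- The system of classes. Adapt `EFC.sysC` (`EFC/Sys.lean`). All statements are for one row (`i = 0`
everywhere, `r = 1`).
* `perm`: immediate, `(π₀ π)⁻¹ = π⁻¹ π₀⁻¹`, multiplicativity of the sign.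
* `odd`, `inf`, `off`: as in `EFC.sysC` (`pt_neg`, `AN_sg`, `pt_inf`, `AN_y`) for the slot `s.2 j`.
* `fin`: `D.At v S s` gives `g`, `τ` with `s.2 = slotP g τ * S.2`. The values of the points
  `ptO (S.1.s j) (S.1.l j) _` are the points `pt (c' j) (l' j) _`, with
  `c' j = (s.1.c (τ j)).map (g j)` (`map_mem_U`), `(l' j).μ i = (s.1.l (τ j)).μ ((X.gal (g j))⁻¹ i)`
  (the condition `sq`: reindex by `X.gal (g j)`, `gal_blk`), `ν` unchanged (`isValue_pt`); and `AN_slot`.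
* `pole`: `exists_isValueN`, `y_of_pole`, `AN_y`; `sing`: `exists_isValueN`, `isValue_c`, `AN_sing`.
* `bridge`: `bridgeAN` with the weights `w x * sign (S x).2` (Val contains the factor
  `sign S.2`, and `sign * sign = 1`). -/
def sysW : KW.SysB (X.bs n) (VP (X.pow n)) where
  F s p := (((Equiv.Perm.sign s.2 : ℤˣ) : ℤ) : ℚ) • FG s.1 fun x => p 0 (s.2⁻¹ x)
  Val v S P C := VAN X v (fun j => ptO (S.1.s j) (S.1.l j) fun i => P 0 (S.2⁻¹ (sl X n (i, j))))
    ((((Equiv.Perm.sign S.2 : ℤˣ) : ℤ) : ℚ) • C)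
  perm := by
    intro s p π
    have h1 : (fun x => (p 0 ∘ π) ((s.2 * π)⁻¹ x)) = fun x => p 0 (s.2⁻¹ x) := by
      funext x
      rw [mul_inv_rev, Equiv.Perm.mul_apply, Function.comp_apply, ss_ai]
    show (((Equiv.Perm.sign (s.2 * π) : ℤˣ) : ℤ) : ℚ) • FG s.1
      (fun x => (p 0 ∘ π) ((s.2 * π)⁻¹ x)) = _
    rw [h1, Equiv.Perm.sign_mul, Units.val_mul, Int.cast_mul, mul_comm, mul_smul, pow_one,
      ← Int.cast_smul_eq_zsmul ℚ]
  odd := by
    intro s p i j x y hp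
    have hi : i = 0 := Subsingleton.elim _ _
    subst hi
    have h1 : (fun z => Function.update p 0 (Function.update (p 0) j (some (x, -y))) 0
        (s.2⁻¹ z)) = Function.update (fun z => p 0 (s.2⁻¹ z)) (s.2 j) (some (x, -y)) := by
      funext z
      rw [Function.update_self]
      by_cases hz : z = s.2 j
      · rw [hz, Function.update_self, ss_ia, Function.update_self]
      · rw [Function.update_of_ne hz, Function.update_of_ne]
        intro h2
        apply hz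
        rw [← h2, ss_ai]
    show (((Equiv.Perm.sign s.2 : ℤˣ) : ℤ) : ℚ) • FG s.1 (fun z =>
      Function.update p 0 (Function.update (p 0) j (some (x, -y))) 0 (s.2⁻¹ z)) =
      -((((Equiv.Perm.sign s.2 : ℤˣ) : ℤ) : ℚ) • FG s.1 fun z => p 0 (s.2⁻¹ z))
    rw [h1, FG_odd (x := x) (y := y) (by rw [ss_ia]; exact hp), smul_neg]
  inf := by
    intro s p i j hp
    have hi : i = 0 := Subsingleton.elim _ _
    subst hi
    show (((Equiv.Perm.sign s.2 : ℤˣ) : ℤ) : ℚ) • FG s.1 (fun z => p 0 (s.2⁻¹ z)) = 0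
    rw [FG_inf (x₀ := s.2 j) (by rw [ss_ia]; exact hp), smul_zero]
  off := by
    intro s p hon
    have h1 : ¬ ∀ z, EOn (s.1.a z) (s.1.b z) (p 0 (s.2⁻¹ z)) := by
      intro h
      apply hon
      intro i j
      have hi : i = 0 := Subsingleton.elim _ _
      subst hi
      have h2 := h (s.2 j)
      rw [ss_ia] at h2
      exact h2
    show (((Equiv.Perm.sign s.2 : ℤˣ) : ℤ) : ℚ) • FG s.1 (fun z => p 0 (s.2⁻¹ z)) = 0
    rw [FG, if_neg h1, smul_zero]
  fin := by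
    intro v S P hP s p hs hv
    exact ss_fin hP hs hv
  pole := by
    intro v S P hP i j s hs hv
    have hi : i = 0 := Subsingleton.elim _ _
    subst hi
    obtain ⟨q, hq, hqv⟩ := exists_isValueN v (w := fun j' => ptO (S.1.s j') (S.1.l j')
      fun i' => P 0 (S.2⁻¹ (sl X n (i', j')))) fun j' => on_ptO (ss_onO hP j')
    obtain ⟨⟨i', j'⟩, he⟩ := (sl X n).surjective (S.2 j)
    obtain ⟨g, τ, -, h2⟩ := hs
    obtain ⟨a1, a2, -⟩ := h2 j'
    refine ⟨q, hq, hqv, ?_⟩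
    rw [smul_zero]
    refine AN_y (j := j') (b := X.blk i') (y_of_pole (c := ss_c s.1 g τ j') a1 a2
      (P := fun i' => P 0 (S.2⁻¹ (sl X n (i', j')))) (i := i') ?_ (hq j') (hqv j'))
    show EVal v (P 0 (S.2⁻¹ (sl X n (i', j')))) none
    rw [he, ss_ia]
    exact hv
  sing := by
    rintro v S P hP ⟨j, i, δ, hδ, ho⟩
    obtain ⟨q, hq, hqv⟩ := exists_isValueN v (w := fun j' => ptO (S.1.s j') (S.1.l j')
      fun i' => P 0 (S.2⁻¹ (sl X n (i', j')))) fun j' => on_ptO (ss_onO hP j')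
    have hc : (q j).c = δ := isValue_c (hqv j) (ss_base ho)
    refine ⟨q, hq, hqv, ?_⟩
    rw [smul_zero]
    refine AN_sing hq (j := j) (i := i) ?_
    rw [hc]
    exact hδ
  bridge := by
    intro I _ w S P hP c₀ c₁ C₀ C₁ h₀ h₁
    have key : ∀ (v : Place k (Om k)) (C₂ : VP (X.pow n)),
        (∃ C : I → VP (X.pow n), (∀ x, VAN X v (fun j => ptO ((S x).1.s j) ((S x).1.l j)
          fun i => P x 0 ((S x).2⁻¹ (sl X n (i, j))))
          ((((Equiv.Perm.sign (S x).2 : ℤˣ) : ℤ) : ℚ) • C x)) ∧ ∑ x, w x • C x = C₂) →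
        ∃ C : I → VP (X.pow n), (∀ x, VAN X v (fun j => ptO ((S x).1.s j) ((S x).1.l j)
          fun i => P x 0 ((S x).2⁻¹ (sl X n (i, j)))) (C x)) ∧
          ∑ x, (w x * (((Equiv.Perm.sign (S x).2 : ℤˣ) : ℤ) : ℚ)) • C x = C₂ := by
      rintro v C₂ ⟨C, hC, hsum⟩
      refine ⟨fun x => (((Equiv.Perm.sign (S x).2 : ℤˣ) : ℤ) : ℚ) • C x, hC, ?_⟩
      rw [← hsum]
      refine Finset.sum_congr rfl fun x _ => ?_
      rw [mul_smul, ss_smul]
    exact bridgeAN (fun x => w x * (((Equiv.Perm.sign (S x).2 : ℤˣ) : ℤ) : ℚ))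
      (fun x j => ptO ((S x).1.s j) ((S x).1.l j) fun i => P x 0 ((S x).2⁻¹ (sl X n (i, j))))
      (fun x j => on_ptO (ss_onO (hP x) j)) c₀ c₁ C₀ C₁
      (fun v hv => key v C₀ (h₀ v hv)) (fun v hv => key v C₁ (h₁ v hv))

end Pool.Agent.WFC
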