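import Pool.Agent.WFC.SFam
import Pool.Agent.WFC.SGen
import Pool.Agent.WFC.SSys
import Pool.Agent.WFC.Move

/-!
# The core theorem for varieties over curves
-/

set_option autoImplicit false

noncomputable section

namespace Pool.Agent.WFC

open Pool.Agent.EFC
open Pool.Agent.ZCyc Pool.Agent.TInf
open Pool.Agent.VFP (Om tt)

variable {k : Type} [Field k] [IsAlgClosed k] [CharZero k] {X : WC k} {n : ℕ}

/-- The class is zero for general tuples. -/
theorem AN_general (hg : ∃ g, TInc.Riemann (fix_curve X.G X.curve).dess g) (h : X.NonZero)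
    (hr : 0 < X.r)
    (hn : 2 * Nat.card X.G * (n : ℤ) =
      (∑ i, deg (X.D i)) + 2 * Nat.card X.G * genus k X.K) (w : Fin n → Crd X)
    (hw : ∀ j, (w j).On) (hU : ∀ j, (w j).c ∈ X.U) (hz : ∀ j i, (w j).z i ≠ 0)
    (hc : ∀ j j', j ≠ j' → ∀ g : X.G, (w j).c ≠ (w j').c.map g.1)
    (hd : ∀ j i i', X.rat i ≠ X.rat i' → val (w j).c (X.rat i) ≠ val (w j).c (X.rat i'))
    (hd' : ∀ j j', j' ≠ j → ∀ i i', (¬ ∃ a : k, X.rat i = algebraMap k X.L a) →
      (¬ ∃ a : k, X.rat i' = algebraMap k X.L a) →
      val (w j).c (X.rat i) ≠ val (w j').c (X.rat i')) : X.AN w = 0 := by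
  choose m p hm hp hwp using fun j => exists_pt (hw j) (hU j) (hz j)
  let c : Fin n → X.U := fun j => ⟨(w j).c, hU j⟩
  let q : Fin (X.N * n) → EPt k := fun x => p ((sl X n).symm x).2 ((sl X n).symm x).1
  have hq : ∀ i j, q (sl X n (i, j)) = p j i := fun i j => by
    show p ((sl X n).symm (sl X n (i, j))).2 ((sl X n).symm (sl X n (i, j))).1 = _
    rw [Equiv.symm_apply_apply]
  have hEOn : ∀ x, EOn ((Tup.of c).a x) ((Tup.of c).b x) (q x) := by
    intro x
    obtain ⟨⟨i, j⟩, rfl⟩ := (sl X n).surjective x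
    rw [Tup.a_slot, Tup.b_slot, hq]
    show EOn ((1 : k) ^ 2 * _) ((1 : k) ^ 3 * _) _
    rw [one_pow, one_pow, one_mul, one_mul]
    exact hp j i
  have h1 : X.AN w = X.AN fun j => pt (c j) (Scl.one X k) (p j) := by
    have e : w = fun j => (pt (c j) (Scl.one X k) (p j)).scale (m j) := funext hwp
    conv_lhs => rw [e]
    refine AN_scale hm fun j => on_pt fun i => ?_
    show EOn ((1 : k) ^ 2 * _) ((1 : k) ^ 3 * _) _
    rw [one_pow, one_pow, one_mul, one_mul]
    exact hp j i
  have h2 : FG (Tup.of c) q = X.AN fun j => pt (c j) (Scl.one X k) (p j) := by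
    rw [FG_on hEOn]
    congr 1
    funext j
    show pt (c j) (Scl.one X k) _ = _
    congr 1
    funext i
    exact hq i j
  rw [h1, ← h2]
  obtain ⟨i₀, δ, hδ, hδU⟩ := exists_Z h hr
  obtain ⟨n₀, hn₀, hng, hdeg⟩ := exists_n0 hr hn
  have hN : 0 < X.N * n := Nat.mul_pos (by
    have := i₀.2
    omega) (by omega)
  have hgen : (X.bs n).Gen (Tup.of c, 1) := by
    refine gen_of h _ fun i i' j j' he => ?_
    change val (w j).c (X.rat i) = val (w j').c (X.rat i') at he
    by_cases hj : j = j'
    · subst hj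
      left
      refine ⟨rfl, ?_⟩
      by_contra hne
      exact hd j i i' hne he
    · have hj' : j' ≠ j := fun e => hj e.symm
      have hcst : ∀ (i : Fin X.N) (a : k) (j : Fin n), X.rat i = algebraMap k X.L a →
          val (w j).c (X.rat i) = a := fun i a j e => by
        rw [e]
        exact val_eq (Place.at_const a)
      by_cases hi : ∃ a : k, X.rat i = algebraMap k X.L a
      · obtain ⟨a, ha⟩ := hi
        right
        refine ⟨a, ha, ?_⟩
        by_contra hne
        have h5 : X.rat i' ≠ X.rat i := fun e => hne (e.trans ha)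
        refine hd j' i' i h5 ?_
        rw [← he, hcst i a j ha, hcst i a j' ha]
      · by_cases hi' : ∃ a : k, X.rat i' = algebraMap k X.L a
        · exfalso
          obtain ⟨a, ha⟩ := hi'
          have h5 : X.rat i ≠ X.rat i' := fun e => hi ⟨a, e.trans ha⟩
          refine hd j i i' h5 ?_
          rw [he, hcst i' a j ha, hcst i' a j' ha]
        · exact absurd he (hd' j j' hj' i i' hi hi')
  have hinj : Function.Injective fun j => below X.G (c j).1 := by
    intro j j' hjj
    by_contra hne
    obtain ⟨g, hg'⟩ := exists_map_eq X.G X.curve (c := (c j').1) (c' := (c j).1) hjj.symm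
    exact hc j j' hne g hg'.symm
  obtain ⟨F, hF⟩ := exists_famW h hr (riemann_genus (fix_curve X.G X.curve) hg) c hinj hδ hδU
    (d := 2 * n₀) hdeg (ρ := n₀) (le_of_eq hng)
  have h3 := (sysW X n).zero_gen (d := fun _ => 2 * n₀) (n₀ := n₀) (by simp) hn₀ hN hgen F
    (le_of_eq hF.symm) (fun _ => q)
  have h4 : (((Equiv.Perm.sign (1 : Equiv.Perm (Fin (X.N * n))) : ℤˣ) : ℤ) : ℚ) •
      FG (Tup.of c) (fun x => q ((1 : Equiv.Perm (Fin (X.N * n)))⁻¹ x)) = 0 := h3
  rw [Equiv.Perm.sign_one] at h4
  simpa using h4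

/-- The core theorem: move the points one after the other (`AN_move`) outside the complement of `U`
and outside the finite sets `finite_rat`, `finite_pairW` for the points which have been moved before
(induction on the number of the points which have been moved). -/
theorem coreC (hg : ∀ (L : Type) [Field L] [Algebra k L] (hL : IsCurve k L),
    ∃ g, TInc.Riemann hL.dess g) : CoreC k := by
  intro X h hr n hn w₀ hw₀
  have key : ∀ t m : ℕ, m + t = n → ∀ w : Fin n → Crd X, (∀ j, (w j).On) →
      (∀ j : Fin n, (j : ℕ) < m → (w j).c ∈ X.U ∧ (∀ i, (w j).z i ≠ 0) ∧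
        ∀ i i', X.rat i ≠ X.rat i' → val (w j).c (X.rat i) ≠ val (w j).c (X.rat i')) →
      (∀ j j' : Fin n, (j : ℕ) < m → (j' : ℕ) < j → (∀ g : X.G, (w j).c ≠ (w j').c.map g.1) ∧
        ∀ i i', (¬ ∃ a : k, X.rat i = algebraMap k X.L a) →
          val (w j).c (X.rat i) ≠ val (w j').c (X.rat i')) → X.AN w = 0 := by
    intro t
    induction t with
    | zero =>
      intro m hm w hw h1 h2
      have hlt : ∀ j : Fin n, (j : ℕ) < m := fun j => by have := j.2; omega
      refine AN_general (hg _ (fix_curve X.G X.curve)) h hr hn w hw (fun j => (h1 j (hlt j)).1)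
        (fun j => (h1 j (hlt j)).2.1) ?_ (fun j => (h1 j (hlt j)).2.2) ?_
      · intro j j' hj g
        rcases lt_or_gt_of_ne (fun e => hj (Fin.ext e) : (j : ℕ) ≠ j') with hl | hl
        · intro e
          refine (h2 j' j (hlt j') hl).1 g⁻¹ ?_
          rw [e, pmap_mul, ← Subgroup.coe_mul, inv_mul_cancel, Subgroup.coe_one, pmap_one]
        · exact (h2 j j' (hlt j) hl).1 g
      · intro j j' hj i i' hi hi'
        rcases lt_or_gt_of_ne (fun e => hj (Fin.ext e) : (j' : ℕ) ≠ j) with hl | hl
        · exact (h2 j j' (hlt j) hl).2 i i' hi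
        · exact fun e => (h2 j' j (hlt j') hl).2 i' i hi' e.symm
    | succ t ih =>
      intro m hm w hw h1 h2
      have hmn : m < n := by omega
      let Z : Set (Place k X.L) := (X.Uᶜ ∪ {c : Place k X.L | ∃ i i' : Fin X.N,
        X.rat i ≠ X.rat i' ∧ val c (X.rat i) = val c (X.rat i')}) ∪
        ⋃ j : Fin n, {c : Place k X.L | (∃ g : X.G, c = (w j).c.map g.1) ∨
          ∃ i i' : Fin X.N, (¬ ∃ a : k, X.rat i = algebraMap k X.L a) ∧
            val c (X.rat i) = val (w j).c (X.rat i')}
      have hZ : Z.Finite := ((finite_U h).union (finite_rat X)).union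
        (Set.finite_iUnion fun j => finite_pairW X (w j).c)
      have h3 := AN_move w hw ⟨m, hmn⟩ hZ
      have h4 : Submodule.span ℚ {a | ∃ w' : Crd X, w'.On ∧ w'.c ∉ Z ∧ (∀ i, w'.z i ≠ 0) ∧
          a = X.AN (Function.update w ⟨m, hmn⟩ w')} ≤ ⊥ := by
        rw [Submodule.span_le]
        rintro a ⟨w', hw', hc', hz', rfl⟩
        rw [SetLike.mem_coe, Submodule.mem_bot]
        have hcU : w'.c ∈ X.U := by
          by_contra hne
          exact hc' (Or.inl (Or.inl hne))
        have hrat : ∀ i i', X.rat i ≠ X.rat i' →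
            val w'.c (X.rat i) ≠ val w'.c (X.rat i') := fun i i' hne e =>
          hc' (Or.inl (Or.inr ⟨i, i', hne, e⟩))
        have hcj : ∀ j : Fin n, (∀ g : X.G, w'.c ≠ (w j).c.map g.1) ∧
            ∀ i i', (¬ ∃ a : k, X.rat i = algebraMap k X.L a) →
              val w'.c (X.rat i) ≠ val (w j).c (X.rat i') := by
          intro j
          refine ⟨fun g e => hc' (Or.inr (Set.mem_iUnion.2 ⟨j, Or.inl ⟨g, e⟩⟩)), fun i i' hi e =>
            hc' (Or.inr (Set.mem_iUnion.2 ⟨j, Or.inr ⟨i, i', hi, e⟩⟩))⟩
        have hup : ∀ j : Fin n, (j : ℕ) ≠ m → Function.update w ⟨m, hmn⟩ w' j = w j := by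
          intro j hj
          exact Function.update_of_ne (fun e => hj (congrArg Fin.val e)) _ _
        have hup' : ∀ j : Fin n, (j : ℕ) = m → Function.update w ⟨m, hmn⟩ w' j = w' := by
          intro j hj
          have : j = ⟨m, hmn⟩ := Fin.ext hj
          rw [this, Function.update_self]
        refine ih (m + 1) (by omega) _ ?_ ?_ ?_
        · intro j
          by_cases hj : (j : ℕ) = m
          · rw [hup' j hj]
            exact hw'
          · rw [hup j hj]
            exact hw j
        · intro j hj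
          by_cases hj' : (j : ℕ) = m
          · rw [hup' j hj']
            exact ⟨hcU, hz', hrat⟩
          · rw [hup j hj']
            exact h1 j (by omega)
        · intro j j' hj hj'
          have e' : (j' : ℕ) ≠ m := by omega
          rw [hup j' e']
          by_cases hjm : (j : ℕ) = m
          · rw [hup' j hjm]
            exact hcj j'
          · rw [hup j hjm]
            exact h2 j j' (by omega) hj'
      exact (Submodule.mem_bot ℚ).1 (h4 h3)
  refine key n 0 (by omega) w₀ hw₀ (fun j hj => absurd hj (by omega)) fun j j' hj _ =>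
    absurd hj (by omega)

end Pool.Agent.WFC
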