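import Pool.Agent.WFC.SBase
import Pool.Agent.WFC.ActCl
import Pool.Agent.WFC.PtVal

/-!
# Permutations of the slots and the class `AN`
-/

set_option autoImplicit false

noncomputable section

namespace Pool.Agent.WFC

open Pool.Agent.EFC
open Pool.Agent.ZCyc Pool.Agent.TInf
open Pool.Agent.VFP (Om tt)

variable {k : Type} [Field k] {X : WC k} {n : ℕ}

/-- The sign of the permutation `(i, j) ↦ (g_j⁻¹ i, τ j)`. It is conjugate to the product of the
permutation `(i, j) ↦ (i, τ j)` and the permutation `(i, j) ↦ (g_j⁻¹ i, j)`: `Equiv.Perm.sign_permCongr`,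
`Equiv.Perm.sign_prodCongrLeft`, `Equiv.Perm.sign_prodCongrRight` (and `Equiv.Perm.sign_inv`). -/
theorem sign_slotP (g : Fin n → X.G) (τ : Equiv.Perm (Fin n)) :
    Equiv.Perm.sign (slotP g τ) =
      (∏ j, Equiv.Perm.sign (X.gal (g j))) * Equiv.Perm.sign τ ^ X.N := by
  have h1 : slotP g τ = (sl X n).permCongr
      ((Equiv.prodCongrRight fun _ : Fin X.N => τ) *
        (Equiv.prodCongrLeft fun j => (X.gal (g j))⁻¹)) := by
    unfold slotP
    congr 1
  rw [h1, Equiv.Perm.sign_permCongr, Equiv.Perm.sign_mul, Equiv.Perm.sign_prodCongrRight,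
    Equiv.Perm.sign_prodCongrLeft, Finset.prod_const, Finset.card_univ, Fintype.card_fin,
    mul_comm]
  congr 1
  exact Finset.prod_congr rfl fun j _ => Equiv.Perm.sign_inv _

/-- The action of `G` on the points `pt`: over good places `D_i(c) = 0`, so all powers of `kap` are `1`
(the fourth component of `Good`); in the block product reindex by `X.gal g`. -/
theorem pt_acu (g : X.G) {c c' : X.U} (hc : c'.1 = c.1.map g.1) {l l' : Scl X k}
    (hμ : ∀ i, l'.μ i = l.μ ((X.gal g)⁻¹ i)) (hν : ∀ b, l'.ν b = l.ν b) (p : Fin X.N → EPt k) :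
    pt c' l' p = (pt c l fun i => p (X.gal g i)).acu g := by
  have hD : ∀ i, X.D i c.1 = 0 := fun i => (c.2 i).2.2.2
  refine Crd.ext ?_ ?_ ?_ ?_
  · exact hc
  · funext i
    show (p i).elim 1 (fun q => q.1 / l'.μ i) =
      X.kap g c.1 ^ X.D ((X.gal g)⁻¹ i) c.1 *
        (p (X.gal g ((X.gal g)⁻¹ i))).elim 1 (fun q => q.1 / l.μ ((X.gal g)⁻¹ i))
    rw [hD, zpow_zero, one_mul, gal_gal_inv, hμ]
  · funext i
    show (p i).elim 0 (fun _ => 1) = (p (X.gal g ((X.gal g)⁻¹ i))).elim 0 (fun _ => 1)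
    rw [gal_gal_inv]
  · funext b
    show (∏ i with X.blk i = b, (p i).elim 0 Prod.snd) / l'.ν b ^ 3 =
      X.kap g c.1 ^ (3 * ((∑ i with X.blk i = b, X.D i c.1) / 2)) *
        ((∏ i with X.blk i = b, (p (X.gal g i)).elim 0 Prod.snd) / l.ν b ^ 3)
    have e0 : ∑ i with X.blk i = b, X.D i c.1 = 0 := Finset.sum_eq_zero fun i _ => hD i
    have e1 : ∏ i with X.blk i = b, (p (X.gal g i)).elim 0 Prod.snd =
        ∏ i with X.blk i = b, (p i).elim 0 Prod.snd := by
      refine Finset.prod_equiv (X.gal g) (fun i => ?_) fun i _ => rfl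
      rw [Finset.mem_filter, Finset.mem_filter, X.gal_blk]
      simp
    rw [e0, e1, hν]
    simp

variable [IsAlgClosed k] [CharZero k]

/-- `pt_acu` for all `j`, `AN_acu` (the points are points of `X'`: `on_pt`, `Tup.a_slot`, `slotP_apply`),
`AN_perm` for `τ`, and `sign_slotP`. Note that
`(slotP g τ)⁻¹ (sl (i, τ j)) = sl (gal (g j) i, j)`. -/
theorem AN_slot (t : Tup X n) (g : Fin n → X.G) (τ : Equiv.Perm (Fin n))
    (p : Fin (X.N * n) → EPt k)
    (hp : ∀ x, EOn (t.a (slotP g τ x)) (t.b (slotP g τ x)) (p x))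
    {c' : Fin n → X.U} (hc : ∀ j, (c' j).1 = (t.c (τ j)).1.map (g j).1) {l' : Fin n → Scl X k}
    (hμ : ∀ j i, (l' j).μ i = (t.l (τ j)).μ ((X.gal (g j))⁻¹ i))
    (hν : ∀ j b, (l' j).ν b = (t.l (τ j)).ν b) :
    X.AN (fun j => pt (c' j) (l' j) fun i => p (sl X n (i, j))) =
      (((Equiv.Perm.sign (slotP g τ) : ℤˣ) : ℤ) : ℚ) •
        X.AN (fun j => pt (t.c j) (t.l j) fun i => p ((slotP g τ)⁻¹ (sl X n (i, j)))) := by
  have hinv : ∀ (i : Fin X.N) (j : Fin n),
      (slotP g τ)⁻¹ (sl X n (i, τ j)) = sl X n (X.gal (g j) i, j) := by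
    intro i j
    rw [Equiv.Perm.inv_eq_iff_eq, slotP_apply]
    congr 3
    exact ((X.gal (g j)).symm_apply_apply i).symm
  obtain ⟨w, hw⟩ : ∃ w : Fin n → Crd X, w = fun j =>
    pt (t.c j) (t.l j) fun i => p ((slotP g τ)⁻¹ (sl X n (i, j))) := ⟨_, rfl⟩
  have h1 : (fun j => pt (c' j) (l' j) fun i => p (sl X n (i, j))) =
      fun j => ((w ∘ τ) j).acu (g j) := by
    funext j
    rw [pt_acu (g j) (hc j) (hμ j) (hν j), hw]
    congr 2
    funext i
    rw [hinv]
  have hon : ∀ j, ((w ∘ τ) j).On := by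
    intro j
    rw [hw]
    refine on_pt fun i => ?_
    rw [hinv]
    have h2 := hp (sl X n (X.gal (g j) i, j))
    have h3 : slotP g τ (sl X n (X.gal (g j) i, j)) = sl X n (i, τ j) := by
      rw [← Equiv.Perm.eq_inv_iff_eq, hinv]
    rw [h3, Tup.a_slot, Tup.b_slot] at h2
    exact h2
  rw [h1, AN_acu _ hon, AN_perm, smul_smul, ← hw, sign_slotP]
  congr 1
  push_cast
  rfl

end Pool.Agent.WFC
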